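import Pool.Agent.Mg.Fc70b3ba.Gd0fa04

section

open MeasureTheory ProbabilityTheory Filter Topology BoundedContinuousFunction
open scoped symmDiff ENNReal

namespace Pool.Agent.MP_c70b3b_mp.Cg

variable {β : ℝ} {κ : Kernel W S} {π : Kernel (W × S) S} {m : ℕ → ℕ}

lemma p1_meas (β : ℝ) (L A : Finset V) :
    Measurable fun p : W × S => gam (β • p.1) L (chr A) p.2 :=
  measurable_gam β L (g := fun p => chr A p.2) ((measurable_chr A).comp measurable_snd)

lemma p1_le (K : W) (L A : Finset V) (σ : S) : |gam K L (chr A) σ| ≤ 1 :=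
  gam_abs_le (fun τ => (abs_chr A τ).le) σ

lemma p1_int {Ω : Type*} [MeasurableSpace Ω] {μ : Measure Ω} [IsFiniteMeasure μ] {f g : Ω → ℝ}
    (hf : Measurable f) (hg : Measurable g) {a b : ℝ} (h1 : ∀ x, |f x| ≤ a)
    (h2 : ∀ x, |g x| ≤ b) : Integrable (fun x => f x * g x) μ :=
  Integrable.of_bound (hf.mul hg).aestronglyMeasurable (a * b) (ae_of_all _ fun x => by
    rw [Real.norm_eq_abs, abs_mul]
    exact mul_le_mul (h1 x) (h2 x) (abs_nonneg _) ((abs_nonneg _).trans (h1 x)))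

lemma p1_cross (hκ : CovGibbs β 1 κ) (A : Finset V) {L L' : Finset V} (h : L ⊆ L') :
    ∫ p, gam (β • p.1) L (chr A) p.2 * gam (β • p.1) L' (chr A) p.2 ∂(P ⊗ₘ κ) =
      ∫ p, chr A p.2 * gam (β • p.1) L' (chr A) p.2 ∂(P ⊗ₘ κ) := by
  have := hκ.markov
  rw [Measure.integral_compProd (p1_int (p1_meas β L A) (p1_meas β L' A)
      (fun p => p1_le _ _ _ _) fun p => p1_le _ _ _ _),
    Measure.integral_compProd (p1_int (f := fun p : W × S => chr A p.2)
      ((measurable_chr A).comp measurable_snd) (p1_meas β L' A)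
      (fun p => (abs_chr A _).le) fun p => p1_le _ _ _ _)]
  refine integral_congr_ae ?_
  filter_upwards [hκ.gibbs] with w hw
  rw [gibbs_gam hw L (g := fun σ => chr A σ * gam (β • w) L' (chr A) σ)
    ((measurable_chr A).mul (measurable_gam' _ _ (measurable_chr A))) 1 fun σ => by
      rw [abs_mul, abs_chr, one_mul]
      exact p1_le _ _ _ _]
  refine integral_congr_ae (ae_of_all _ fun σ => ?_)
  exact (gam_mul_inv (β • w) L (chr A) fun U hU => gam_flp _ (hU.trans h) _ _).symm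

lemma p1_conv {Ω : Type*} [MeasurableSpace Ω] {μ : Measure Ω} [IsFiniteMeasure μ]
    {g : ℕ → Ω → ℝ} (hi : ∀ j, Integrable (fun x => (g j x - g (j + 1) x) ^ 2) μ)
    (hb : ∀ j, ∫ x, (g j x - g (j + 1) x) ^ 2 ∂μ ≤ (1 / 8) ^ j) :
    ∀ᵐ x ∂μ, ∃ c, Tendsto (fun j => g j x) atTop (𝓝 c) := by
  have h1 : ∀ j, μ {x | (1 / 4 : ℝ) ^ j ≤ (g j x - g (j + 1) x) ^ 2} ≤
      ENNReal.ofReal ((1 / 2) ^ j) := fun j => by
    have h2 := (mul_meas_ge_le_integral_of_nonneg (ae_of_all _ fun x => sq_nonneg _) (hi j)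
      ((1 / 4) ^ j)).trans (hb j)
    have e : (1 / 8 : ℝ) ^ j = (1 / 4) ^ j * (1 / 2) ^ j := by
      rw [← mul_pow]
      norm_num
    rw [e] at h2
    rw [← ofReal_measureReal]
    exact ENNReal.ofReal_le_ofReal (le_of_mul_le_mul_left h2 (by positivity))
  have h3 : ∑' j, μ {x | (1 / 4 : ℝ) ^ j ≤ (g j x - g (j + 1) x) ^ 2} ≠ ∞ := by
    refine ne_top_of_le_ne_top ?_ (ENNReal.tsum_le_tsum h1)
    rw [← ENNReal.ofReal_tsum_of_nonneg (fun j => by positivity) summable_geometric_two]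
    exact ENNReal.ofReal_ne_top
  filter_upwards [ae_eventually_notMem h3] with x hx
  refine cauchySeq_tendsto_of_complete (cauchySeq_of_summable_dist
    (Summable.of_norm_bounded_eventually_nat summable_geometric_two ?_))
  filter_upwards [hx] with j hj
  rw [Real.norm_eq_abs, abs_of_nonneg dist_nonneg, Real.dist_eq]
  have e : (1 / 4 : ℝ) ^ j = ((1 / 2) ^ j) ^ 2 := by
    rw [← pow_mul, mul_comm, pow_mul]
    norm_num
  have h4 : (g j x - g (j + 1) x) ^ 2 < ((1 / 2) ^ j) ^ 2 := e ▸ not_le.1 hj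
  exact (abs_lt_of_sq_lt_sq h4 (by positivity)).le

lemma p1_anti {N : ℕ → ℝ} (h : Antitone N) (h0 : ∀ n, 0 ≤ N n) {ε : ℝ} (hε : 0 < ε) :
    ∀ᶠ n in atTop, ∀ n', N n - N n' ≤ ε := by
  have hb : BddBelow (Set.range N) := ⟨0, by rintro _ ⟨n, rfl⟩; exact h0 n⟩
  have h1 := tendsto_atTop_ciInf h hb
  filter_upwards [h1.eventually_lt_const (lt_add_of_pos_right _ hε)] with n hn n'
  linarith [ciInf_le hb n']

theorem l2_sub (hκ : CovGibbs β 1 κ) (A : Finset V) {L L' : Finset V} (h : L ⊆ L') :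
    ∫ p, (gam (β • p.1) L (chr A) p.2 - gam (β • p.1) L' (chr A) p.2) ^ 2 ∂(P ⊗ₘ κ) =
      ∫ p, gam (β • p.1) L (chr A) p.2 ^ 2 ∂(P ⊗ₘ κ) -
        ∫ p, gam (β • p.1) L' (chr A) p.2 ^ 2 ∂(P ⊗ₘ κ) := by
  have := hκ.markov
  have k : ∀ X Y : Finset V, Integrable (fun p : W × S =>
      gam (β • p.1) X (chr A) p.2 * gam (β • p.1) Y (chr A) p.2) (P ⊗ₘ κ) := fun X Y =>
    p1_int (p1_meas β X A) (p1_meas β Y A) (fun p => p1_le _ _ _ _) fun p => p1_le _ _ _ _
  have h1 := (p1_cross hκ A h).trans (p1_cross hκ A (subset_refl L')).symm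
  have e : ∀ a b : ℝ, (a - b) ^ 2 = (a * a - 2 * (a * b)) + b * b := fun a b => by ring
  simp only [e]
  have k2 : Integrable (fun p : W × S => gam (β • p.1) L (chr A) p.2 * gam (β • p.1) L (chr A) p.2
      - 2 * (gam (β • p.1) L (chr A) p.2 * gam (β • p.1) L' (chr A) p.2)) (P ⊗ₘ κ) :=
    (k L L).sub ((k L L').const_mul 2)
  rw [integral_add k2 (k L' L'),
    integral_sub (k L L) ((k L L').const_mul 2), integral_const_mul, h1]
  simp only [sq]
  ring

theorem exists_m (hκ : CovGibbs β 1 κ) :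
    ∃ m : ℕ → ℕ, Tendsto m atTop atTop ∧ ∀ᵐ p ∂(P ⊗ₘ κ), p ∈ Om β m := by
  have := hκ.markov
  obtain ⟨u, hu⟩ := exists_surjective_nat (Finset V)
  let N : Finset V → ℕ → ℝ := fun A n => ∫ p, gam (β • p.1) (box n) (chr A) p.2 ^ 2 ∂(P ⊗ₘ κ)
  have hN : ∀ A, Antitone (N A) := fun A a b hab => by
    have h1 := l2_sub hκ A (box_mono hab)
    have h2 : 0 ≤ ∫ p, (gam (β • p.1) (box a) (chr A) p.2
        - gam (β • p.1) (box b) (chr A) p.2) ^ 2 ∂(P ⊗ₘ κ) :=
      integral_nonneg fun p => sq_nonneg _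
    rw [h1] at h2
    exact sub_nonneg.1 h2
  have h0 : ∀ A n, 0 ≤ N A n := fun A n => integral_nonneg fun p => sq_nonneg _
  obtain ⟨m, hm, hm'⟩ := extraction_forall_of_eventually
    (P := fun j n => ∀ i ∈ Finset.range (j + 1), ∀ n', N (u i) n - N (u i) n' ≤ (1 / 8) ^ j)
    fun j => (eventually_all_finset _).2 fun i _ => p1_anti (hN _) (h0 _) (by positivity)
  refine ⟨m, hm.tendsto_atTop, ?_⟩
  refine ae_all_iff.2 fun A => ?_
  obtain ⟨i, rfl⟩ := hu A
  have h1 := p1_conv (μ := P ⊗ₘ κ)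
    (g := fun j p => gam (β • p.1) (box (m (j + i))) (chr (u i)) p.2) (fun j => ?_) fun j => ?_
  · filter_upwards [h1] with p hp
    obtain ⟨c, hc⟩ := hp
    exact ⟨c, (tendsto_add_atTop_iff_nat i).1 hc⟩
  · have k : ∀ p : W × S, |gam (β • p.1) (box (m (j + i))) (chr (u i)) p.2
        - gam (β • p.1) (box (m (j + 1 + i))) (chr (u i)) p.2| ≤ 2 := fun p =>
      (abs_sub _ _).trans ((add_le_add (p1_le _ _ _ _) (p1_le _ _ _ _)).trans_eq
        one_add_one_eq_two)
    have hme := (p1_meas β (box (m (j + i))) (u i)).sub (p1_meas β (box (m (j + 1 + i))) (u i))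
    simpa only [sq, Pi.sub_apply] using p1_int (μ := P ⊗ₘ κ) hme hme k k
  · rw [l2_sub hκ (u i) (box_mono (hm.monotone (by omega)))]
    refine (hm' (j + i) i (Finset.mem_range.2 (by omega)) _).trans ?_
    exact pow_le_pow_of_le_one (by norm_num) (by norm_num) (by omega)

end Pool.Agent.MP_c70b3b_mp.Cg

end

section

open MeasureTheory ProbabilityTheory Filter Topology BoundedContinuousFunction
open scoped symmDiff ENNReal

namespace Pool.Agent.MP_c70b3b_mp.Cg

variable {β : ℝ} {κ : Kernel W S} {π : Kernel (W × S) S} {m : ℕ → ℕ}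

lemma p5_int {X : Type*} [MeasurableSpace X] {ν : Measure X} [IsFiniteMeasure ν] {f : X → ℝ}
    (hm : AEStronglyMeasurable f ν) (hb : ∀ᵐ x ∂ν, |f x| ≤ 2) :
    Integrable (fun x => f x ^ 2) ν :=
  Integrable.of_bound (hm.pow 2) (2 ^ 2) (hb.mono fun x hx => by
    rw [Real.norm_eq_abs, abs_pow]
    exact pow_le_pow_left₀ (abs_nonneg _) hx 2)

lemma p5_zero {X : Type*} [MeasurableSpace X] {ν : Measure X} [IsFiniteMeasure ν]
    {F : ℕ → X → ℝ} {f : X → ℝ} (hm : ∀ j, Measurable (F j)) (hb : ∀ j x, |F j x| ≤ 2)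
    (hl : ∀ᵐ x ∂ν, Tendsto (fun j => F j x) atTop (𝓝 (f x)))
    (h0 : Tendsto (fun j => ∫ x, F j x ^ 2 ∂ν) atTop (𝓝 0)) : ∀ᵐ x ∂ν, f x = 0 := by
  have h1 := tendsto_integral_of_dominated_convergence (μ := ν) (F := fun j x => F j x ^ 2)
    (f := fun x => f x ^ 2) (fun _ => 2 ^ 2)
    (fun j => ((hm j).pow_const 2).aestronglyMeasurable) (integrable_const _)
    (fun j => ae_of_all _ fun x => by
      rw [Real.norm_eq_abs, abs_pow]
      exact pow_le_pow_left₀ (abs_nonneg _) (hb j x) 2)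
    (hl.mono fun x hx => hx.pow 2)
  have h2 := p5_int (aestronglyMeasurable_of_tendsto_ae atTop
    (fun j => (hm j).aestronglyMeasurable) hl)
    (hl.mono fun x hx => le_of_tendsto' hx.abs fun j => hb j x)
  have h3 := (integral_eq_zero_iff_of_nonneg (fun x => sq_nonneg (f x)) h2).1
    (tendsto_nhds_unique h1 h0)
  exact h3.mono fun x hx => pow_eq_zero_iff two_ne_zero |>.1 hx

lemma p5_meas (β : ℝ) (L B : Finset V) :
    Measurable fun p : W × S => gam (β • p.1) L (chr B) p.2 :=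
  measurable_gam β L (g := fun p => chr B p.2) ((measurable_chr B).comp measurable_snd)

lemma p5_meas2 (β : ℝ) (L L' B : Finset V) : Measurable fun p : W × S =>
    gam (β • p.1) L (chr B) p.2 - gam (β • p.1) L' (chr B) p.2 :=
  (p5_meas β L B).fun_sub (p5_meas β L' B)

lemma p5_bd (K : W) (L L' B : Finset V) (σ : S) :
    |gam K L (chr B) σ - gam K L' (chr B) σ| ≤ 2 :=
  (abs_sub _ _).trans (by
    have h1 := gam_abs_le (K := K) (L := L) (fun τ => (abs_chr B τ).le) σ
    have h2 := gam_abs_le (K := K) (L := L') (fun τ => (abs_chr B τ).le) σ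
    linarith)

lemma p5_l2 (hκ : CovGibbs β 1 κ) (B : Finset V) (z : V) :
    Tendsto (fun n => ∫ p, (gam (β • p.1) (tr (box n) z) (chr B) p.2 -
      gam (β • p.1) (box n) (chr B) p.2) ^ 2 ∂(P ⊗ₘ κ)) atTop (𝓝 0) := by
  have := hκ.markov
  set N : Finset V → ℝ := fun L => ∫ p, gam (β • p.1) L (chr B) p.2 ^ 2 ∂(P ⊗ₘ κ) with hN
  have ha : ∀ {L L' : Finset V}, L ⊆ L' → N L' ≤ N L := fun {L L'} h => by
    have h1 := l2_sub hκ B h
    have h2 : 0 ≤ ∫ p, (gam (β • p.1) L (chr B) p.2 - gam (β • p.1) L' (chr B) p.2) ^ 2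
      ∂(P ⊗ₘ κ) := integral_nonneg fun p => sq_nonneg _
    rw [h1] at h2
    exact sub_nonneg.1 h2
  have hc := tendsto_atTop_ciInf (f := fun n => N (box n)) (fun a b h => ha (box_mono h))
    ⟨0, by
      rintro _ ⟨n, rfl⟩
      exact integral_nonneg fun p => sq_nonneg _⟩
  set c := z.1.natAbs + z.2.natAbs with hcz
  have h1 := hc.comp (tendsto_add_atTop_nat c)
  have h2 := hc.comp (tendsto_sub_atTop_nat c)
  have h3 := ((h2.sub h1).const_mul 2).add ((hc.sub h1).const_mul 2)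
  rw [sub_self, mul_zero, add_zero] at h3
  refine squeeze_zero' (Eventually.of_forall fun n => integral_nonneg fun p => sq_nonneg _) ?_ h3
  filter_upwards [eventually_ge_atTop c] with n hn
  have s1 : tr (box n) z ⊆ box (n + c) := fun x hx => by
    rw [mem_tr, mem_box] at hx
    rw [mem_box]
    simp only [Prod.fst_sub, Prod.snd_sub] at hx
    omega
  have s2 : box (n - c) ⊆ tr (box n) z := fun x hx => by
    rw [mem_box] at hx
    rw [mem_tr, mem_box]
    simp only [Prod.fst_sub, Prod.snd_sub]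
    omega
  have s3 : box n ⊆ box (n + c) := box_mono (Nat.le_add_right _ _)
  have hi : ∀ L L' : Finset V, Integrable (fun p : W × S =>
      (gam (β • p.1) L (chr B) p.2 - gam (β • p.1) L' (chr B) p.2) ^ 2) (P ⊗ₘ κ) := fun L L' =>
    p5_int (p5_meas2 β L L' B).aestronglyMeasurable
      (ae_of_all _ fun p => p5_bd _ _ _ _ _)
  have h4 := integral_mono (hi (tr (box n) z) (box n))
    (((hi (tr (box n) z) (box (n + c))).const_mul 2).add ((hi (box n) (box (n + c))).const_mul 2))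
    fun p => by
      simp only [Pi.add_apply]
      nlinarith [sq_nonneg (gam (β • p.1) (tr (box n) z) (chr B) p.2 +
        gam (β • p.1) (box n) (chr B) p.2 - 2 * gam (β • p.1) (box (n + c)) (chr B) p.2)]
  rw [integral_add' ((hi _ _).const_mul 2) ((hi _ _).const_mul 2), integral_const_mul,
    integral_const_mul, l2_sub hκ B s1, l2_sub hκ B s3] at h4
  have h5 := ha s2
  simp only [Function.comp_apply, hN] at h5 ⊢
  linarith

theorem mp_shift (hκ : CovGibbs β 1 κ) (z : V) :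
    MeasurePreserving (shift z) (P ⊗ₘ κ) (P ⊗ₘ κ) := by
  have := hκ.markov
  refine ⟨measurable_shift z, Measure.ext fun s hs => ?_⟩
  rw [Measure.map_apply (measurable_shift z) hs, Measure.compProd_apply (measurable_shift z hs),
    Measure.compProd_apply hs,
    ← (mp_shW z).lintegral_comp (Kernel.measurable_kernel_prodMk_left hs)]
  refine lintegral_congr_ae ((cov1 hκ z).mono fun w hw => ?_)
  simp only
  rw [hw, Measure.map_apply (measurable_shS z) (measurable_prodMk_left hs)]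
  rfl

theorem Pure.shift (h : Pure β κ π m) (z : V) :
    ∀ᵐ p ∂(P ⊗ₘ κ), π (shift z p) = (π p).map (shS z) := by
  have := h.cov.markov
  have := h.markov
  have key : ∀ A : Finset V, ∀ᵐ p ∂(P ⊗ₘ κ),
      ∫ σ, chr A σ ∂π (Pool.Agent.MP_c70b3b_mp.shift z p) - ∫ σ, chr (tr A z) σ ∂π p = 0 := by
    intro A
    refine p5_zero (fun j => p5_meas2 β (tr (box (m j)) z) (box (m j)) (tr A z))
      (fun j p => p5_bd (β • p.1) (tr (box (m j)) z) (box (m j)) (tr A z) p.2) ?_
      (by simpa only [Function.comp_def] using (p5_l2 h.cov (tr A z) z).comp h.top)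
    filter_upwards [h.ae, (mp_shift h.cov z).quasiMeasurePreserving.ae h.ae] with p h1 h2
    have h3 := h.lim _ h2 _ (continuous_chr A)
    simp only [shift_eq, gam_shift, chr_shS] at h3
    exact h3.sub (h.lim _ h1 _ (continuous_chr _))
  filter_upwards [ae_all_iff.2 key] with p hp
  refine ext_chr fun A => ?_
  rw [integral_map (measurable_shS z).aemeasurable (measurable_chr A).aestronglyMeasurable]
  simp only [chr_shS]
  exact sub_eq_zero.1 (hp A)

end Pool.Agent.MP_c70b3b_mp.Cg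

end

section

open MeasureTheory ProbabilityTheory Filter Topology BoundedContinuousFunction
open scoped symmDiff ENNReal

namespace Pool.Agent.MP_c70b3b_mp.Cg

variable {β : ℝ} {κ : Kernel W S} {π : Kernel (W × S) S} {m : ℕ → ℕ}

lemma e2_evEq_map (z : V) (μ μ' : Measure S) :
    EvEq (μ.map (shS z)) (μ'.map (shS z)) ↔ EvEq μ μ' := by
  have e : ∀ (ρ : Measure S) (A : Finset V),
      ∫ σ, chr A σ ∂ρ.map (shS z) = ∫ σ, chr (tr A z) σ ∂ρ := fun ρ A => by
    rw [integral_map (measurable_shS z).aemeasurable (continuous_chr A).aestronglyMeasurable]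
    simp only [chr_shS]
  constructor
  · intro h A hA
    have h1 := h (tr A (-z)) (by rwa [card_tr])
    have e1 : tr (tr A (-z)) z = A := by ext x; simp [mem_tr]
    rwa [e, e, e1] at h1
  · intro h A hA
    rw [e, e]
    exact h _ (by rwa [card_tr])

lemma e2_gibbs {K : W} {μ : Measure S} (h : Gibbs K μ) {d : S → ℝ≥0∞} (hd : Measurable d)
    (hinv : ∀ U σ, d (flp U σ) = d σ) [hf : IsFiniteMeasure (μ.withDensity d)] :
    Gibbs K (μ.withDensity d) := by
  refine ⟨hf, fun x => (gib_lint (gib_meas _ _ _)).2 fun g hg => ?_⟩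
  rw [lintegral_withDensity_eq_lintegral_mul _ hd (g := fun σ => g (flp {x} σ))
      (hg.comp (measurable_flp _)),
    lintegral_withDensity_eq_lintegral_mul _ hd
      (g := fun σ => ENNReal.ofReal (Real.exp (-2 * en K (cob {x}) σ)) * g σ)
      ((gib_meas _ _ _).mul hg)]
  have h1 := (gib_lint (gib_meas K _ _)).1 (h.2 x) (fun σ => d σ * g σ) (hd.mul hg)
  simp only [hinv] at h1
  simp only [Pi.mul_apply]
  rw [h1]
  exact lintegral_congr fun σ => mul_left_comm _ _ _

lemma e2_map (z : V) (μ : Measure S) {d : S → ℝ≥0∞} (hd : Measurable d) :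
    (μ.map (shS z)).withDensity d = (μ.withDensity fun σ => d (shS z σ)).map (shS z) := by
  ext s hs
  rw [Measure.map_apply (measurable_shS z) hs, withDensity_apply _ hs,
    withDensity_apply _ (measurable_shS z hs), setLIntegral_map hs hd (measurable_shS z)]

/-- The weight of the class of `x.2`. -/
noncomputable def e2w (β : ℝ) (κ : Kernel W S) (π : Kernel (W × S) S) (m : ℕ → ℕ) (x : W × S) :
    ℝ≥0∞ := κ x.1 {σ | Eqv β π m x.1 x.2 σ}

lemma e2_set (h : Pure β κ π m) (w : W) (σ : S) : MeasurableSet {σ' | Eqv β π m w σ σ'} :=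
  (measurable_prodMk_left.comp measurable_prodMk_left :
    Measurable fun σ' : S => (w, σ, σ')) h.meas_eqv

lemma e2_meas (h : Pure β κ π m) : Measurable (e2w β κ π m) := by
  have := h.cov.markov
  have h1 : MeasurableSet {y : (W × S) × S | Eqv β π m y.1.1 y.1.2 y.2} :=
    (measurable_fst.fst.prodMk (measurable_fst.snd.prodMk measurable_snd) :
      Measurable fun y : (W × S) × S => (y.1.1, y.1.2, y.2)) h.meas_eqv
  exact Kernel.measurable_kernel_prodMk_left (κ := Kernel.prodMkRight S κ) h1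

lemma e2_flp (h : Pure β κ π m) (w : W) (U : Finset V) (σ : S) :
    e2w β κ π m (w, flp U σ) = e2w β κ π m (w, σ) := by
  have a : ∀ τ σ', Eqv β π m w τ σ' → Eqv β π m w (flp U τ) σ' := fun τ σ' h1 =>
    ⟨(h.flp h1.1 U).1, h1.2.1, (h.flp h1.1 U).2 ▸ h1.2.2⟩
  refine congrArg (κ w) (Set.ext fun σ' => ⟨fun h1 => ?_, a σ σ'⟩)
  have := a _ _ h1
  rwa [flp_flp] at this

lemma e2_shift (h : Pure β κ π m) (z : V) :
    ∀ᵐ w ∂P, ∀ᵐ σ ∂κ w, e2w β κ π m (shW z w, shS z σ) = e2w β κ π m (w, σ) := by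
  have := h.cov.markov
  have h1 := Measure.ae_ae_of_ae_compProd (h.ae.and
    (((mp_shift h.cov z).quasiMeasurePreserving.ae h.ae).and (h.shift z)))
  filter_upwards [h1, cov1 h.cov z] with w hw hc
  filter_upwards [hw] with σ hσ
  unfold e2w
  rw [hc, Measure.map_apply (measurable_shS z) (e2_set h _ _)]
  refine measure_congr ?_
  filter_upwards [hw] with σ' hσ'
  simp only [shift_eq] at hσ hσ'
  refine propext ⟨fun a => ⟨hσ.1, hσ'.1, ?_⟩, fun a => ⟨hσ.2.1, hσ'.2.1, ?_⟩⟩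
  · have b := a.2.2
    rw [hσ.2.2, hσ'.2.2] at b
    exact (e2_evEq_map z _ _).1 b
  · rw [hσ.2.2, hσ'.2.2]
    exact (e2_evEq_map z _ _).2 a.2.2

theorem Pure.dich (hβ : 0 ≤ β) (h : Pure β κ π m) :
    (∀ᵐ x ∂M2 κ, ¬ Eqv β π m x.1 x.2.1 x.2.2) ∨
      ∃ c : ℝ, 0 < c ∧ ∀ᵐ x ∂(P ⊗ₘ κ), (κ x.1).real {σ | Eqv β π m x.1 x.2 σ} = c := by
  have := h.cov.markov
  have he := e2_meas h
  have hew : ∀ w, Measurable fun σ => e2w β κ π m (w, σ) := fun w =>
    he.comp measurable_prodMk_left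
  obtain ⟨q, hq⟩ : ∃ q : W → ℝ≥0∞, q = fun w => ∫⁻ σ, e2w β κ π m (w, σ) ∂κ w := ⟨_, rfl⟩
  have qm : Measurable q := hq ▸ he.lintegral_kernel_prod_right'
  have q1 : ∀ w, q w ≤ 1 := fun w => by
    rw [hq]
    exact (lintegral_mono fun σ => (prob_le_one : e2w β κ π m (w, σ) ≤ 1)).trans_eq (by simp)
  obtain ⟨c, hc⟩ := erg (f := fun w => (q w).toReal) qm.ennreal_toReal
    (fun w => by
      rw [abs_of_nonneg ENNReal.toReal_nonneg]
      exact ENNReal.toReal_le_of_le_ofReal zero_le_one (by simpa using q1 w))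
    fun z => by
      filter_upwards [e2_shift h z, cov1 h.cov z] with w hw hc
      rw [hq]
      simp only
      rw [hc, lintegral_map (hew _) (measurable_shS z), lintegral_congr_ae hw]
  obtain ⟨C, hC⟩ : ∃ C, C = ENNReal.ofReal c := ⟨_, rfl⟩
  have Ct : C ≠ ∞ := hC ▸ ENNReal.ofReal_ne_top
  have hqC : ∀ᵐ w ∂P, q w = C := by
    filter_upwards [hc] with w hw
    rw [hC, ← hw, ENNReal.ofReal_toReal ((q1 w).trans_lt ENNReal.one_lt_top).ne]
  rcases eq_or_ne C 0 with C0 | C0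
  · left
    refine (Measure.ae_compProd_iff h.meas_eqv.compl).2 ?_
    filter_upwards [hqC] with w hw
    rw [C0, hq] at hw
    rw [Kernel.prod_apply]
    refine (Measure.ae_prod_iff_ae_ae (measurable_prodMk_left h.meas_eqv.compl)).2 ?_
    filter_upwards [(lintegral_eq_zero_iff (hew w)).1 hw] with σ hσ
    exact measure_eq_zero_iff_ae_notMem.1 hσ
  · right
    classical
    obtain ⟨d, hd⟩ : ∃ d : W → S → ℝ≥0∞,
        d = fun w σ => if q w = C then e2w β κ π m (w, σ) / C else 1 := ⟨_, rfl⟩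
    have dm : Measurable (Function.uncurry d) := by
      rw [hd]
      exact Measurable.ite ((qm.comp measurable_fst) (measurableSet_singleton C))
        (he.div_const C) measurable_const
    have dw : ∀ w, Measurable (d w) := fun w => dm.comp measurable_prodMk_left
    have d1 : ∀ w, q w = C → d w = fun σ => e2w β κ π m (w, σ) / C := fun w hw => by
      rw [hd]; funext σ; exact if_pos hw
    have hM : IsMarkovKernel (κ.withDensity d) := ⟨fun w => ⟨by
      rw [Kernel.withDensity_apply' _ dm, Measure.restrict_univ]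
      by_cases hw : q w = C
      · rw [d1 w hw]
        simp only [div_eq_mul_inv]
        rw [lintegral_mul_const _ (hew w)]
        rw [hq] at hw
        exact (congrArg (· * C⁻¹) hw).trans (ENNReal.mul_inv_cancel C0 Ct)
      · rw [hd]
        simp [hw]⟩⟩
    have hG : CovGibbs β 1 (κ.withDensity d) := by
      refine ⟨hM, ?_, fun z => ?_⟩
      · filter_upwards [h.cov.gibbs] with w hw
        have i1 : IsFiniteMeasure ((κ w).withDensity (d w)) := by
          rw [← Kernel.withDensity_apply _ dm]; infer_instance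
        rw [Kernel.withDensity_apply _ dm]
        refine e2_gibbs hw (dw w) fun U σ => ?_
        rw [hd]
        simp only [e2_flp h]
      · rw [one_smul]
        filter_upwards [e2_shift h z, cov1 h.cov z, hqC,
          (mp_shW z).quasiMeasurePreserving.ae hqC] with w h1 h2 h3 h4
        rw [Kernel.withDensity_apply _ dm, Kernel.withDensity_apply _ dm, h2, e2_map z _ (dw _),
          d1 _ h3, d1 _ h4]
        refine congrArg _ (withDensity_congr_ae ?_)
        filter_upwards [h1] with σ hσ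
        rw [hσ]
    refine ⟨C.toReal, ENNReal.toReal_pos C0 Ct, (Measure.ae_compProd_iff
      (he.ennreal_toReal (measurableSet_singleton C.toReal))).2 ?_⟩
    filter_upwards [cov_unique hβ one_pos h.cov hG, hqC] with w h1 h2
    rw [Kernel.withDensity_apply _ dm] at h1
    have h3 := (withDensity_eq_iff_of_sigmaFinite (μ := κ w) (dw w).aemeasurable
      aemeasurable_const).1 (h1.symm.trans withDensity_one.symm)
    rw [d1 w h2] at h3
    filter_upwards [h3] with σ hσ
    exact congrArg ENNReal.toReal ((ENNReal.div_eq_one_iff C0 Ct).1 hσ)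

end Pool.Agent.MP_c70b3b_mp.Cg

end

section

open MeasureTheory ProbabilityTheory Filter Topology BoundedContinuousFunction
open scoped symmDiff ENNReal

namespace Pool.Agent.MP_c70b3b_mp.Cg

variable {β : ℝ} {κ : Kernel W S} {π : Kernel (W × S) S} {m : ℕ → ℕ}

lemma qi_gam_le {K K' : W} {L : Finset V} {D : ℝ} {φ : S → ℝ} (hφ : ∀ τ, 0 ≤ φ τ)
    (h : ∀ τ, |en K (touch L) τ - en K' (touch L) τ| ≤ D) (σ : S) :
    gam K L φ σ ≤ Real.exp (2 * D) * gam K' L φ σ := by
  have h1 : ∑ U ∈ L.powerset, φ (flp U σ) * Real.exp (en K (touch L) (flp U σ))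
      ≤ Real.exp D * ∑ U ∈ L.powerset, φ (flp U σ) * Real.exp (en K' (touch L) (flp U σ)) := by
    rw [Finset.mul_sum]
    refine Finset.sum_le_sum fun U _ => ?_
    rw [mul_left_comm, ← Real.exp_add]
    exact mul_le_mul_of_nonneg_left
      (Real.exp_le_exp.2 (by linarith [(abs_le.1 (h (flp U σ))).2])) (hφ _)
  have h2 : gZ K' L σ ≤ Real.exp D * gZ K L σ := by
    unfold gZ
    rw [Finset.mul_sum]
    refine Finset.sum_le_sum fun U _ => ?_
    rw [← Real.exp_add]
    exact Real.exp_le_exp.2 (by linarith [(abs_le.1 (h (flp U σ))).1])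
  have h3 : 0 ≤ ∑ U ∈ L.powerset, φ (flp U σ) * Real.exp (en K' (touch L) (flp U σ)) :=
    Finset.sum_nonneg fun U _ => mul_nonneg (hφ _) (Real.exp_pos _).le
  have h4 : 0 ≤ ∑ U ∈ L.powerset, φ (flp U σ) * Real.exp (en K (touch L) (flp U σ)) :=
    Finset.sum_nonneg fun U _ => mul_nonneg (hφ _) (Real.exp_pos _).le
  unfold gam
  rw [← mul_div_assoc, div_le_div_iff₀ (gZ_pos _ _ _) (gZ_pos _ _ _), two_mul, Real.exp_add]
  calc _ ≤ (Real.exp D * ∑ U ∈ L.powerset, φ (flp U σ) * Real.exp (en K' (touch L) (flp U σ)))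
        * (Real.exp D * gZ K L σ) :=
        mul_le_mul h1 h2 (gZ_pos _ _ _).le (mul_nonneg (Real.exp_pos _).le h3)
    _ = _ := by ring

lemma qi_en (hβ : 0 ≤ β) (G T : Finset E) (w u : W) (τ : S) :
    |en (β • w) T τ - en (β • mix G w u) T τ| ≤ β * ∑ e ∈ G, (|w e| + |u e|) := by
  unfold en
  rw [← Finset.sum_sub_distrib, Finset.mul_sum]
  refine (Finset.abs_sum_le_sum_abs _ _).trans ?_
  have h1 : ∀ e ∈ T, |(β • w) e * bond τ e - (β • mix G w u) e * bond τ e|
      ≤ if e ∈ G then β * (|w e| + |u e|) else 0 := fun e _ => by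
    rw [← sub_mul, abs_mul, abs_bond, mul_one, Pi.smul_apply, Pi.smul_apply, smul_eq_mul,
      smul_eq_mul, ← mul_sub, abs_mul, abs_of_nonneg hβ, mix]
    split_ifs
    · exact mul_le_mul_of_nonneg_left (abs_sub _ _) hβ
    · simp
  refine (Finset.sum_le_sum h1).trans ?_
  rw [← Finset.sum_filter]
  exact Finset.sum_le_sum_of_subset_of_nonneg (fun e he => (Finset.mem_filter.1 he).2)
    fun e _ _ => by positivity

lemma qi_gam_int (K : W) (L : Finset V) {ψ : W → S → ℝ} (h : ∀ τ, Integrable (fun v => ψ v τ) P)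
    (σ : S) : gam K L (fun τ => ∫ v, ψ v τ ∂P) σ = ∫ v, gam K L (ψ v) σ ∂P := by
  unfold gam
  rw [integral_div, integral_finsetSum _ fun U _ => (h _).mul_const _]
  simp only [integral_mul_const]

/-- The density. -/
noncomputable def qiD (β : ℝ) (F : Finset E) (w v : W) : ℝ :=
  Real.exp (-(2 * (β * ∑ e ∈ F, (|w e| + |v e|))))

lemma qi_pos (β : ℝ) (F : Finset E) (w v : W) : 0 < qiD β F w v := Real.exp_pos _

lemma qi_le (hβ : 0 ≤ β) (F : Finset E) (w v : W) : qiD β F w v ≤ 1 :=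
  Real.exp_le_one_iff.2 (neg_nonpos.2 (by positivity))

lemma qi_cont (β : ℝ) (F : Finset E) : Continuous fun p : W × W => qiD β F p.1 p.2 := by
  unfold qiD
  fun_prop

lemma qi_cont2 (β : ℝ) (F : Finset E) (Φ : W × S →ᵇ ℝ) :
    Continuous fun x : (W × S) × W => Φ (mix F x.1.1 x.2, x.1.2) * qiD β F x.1.1 x.2 := by
  have h1 : Continuous fun x : (W × S) × W => (x.1.1, x.2) := by fun_prop
  exact (Φ.continuous.comp (((continuous_mix F).comp h1).prodMk (by fun_prop))).mul
    ((qi_cont β F).comp h1)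

lemma qi_bd (hβ : 0 ≤ β) (F : Finset E) (Φ : W × S →ᵇ ℝ) (p : W × S) (w v : W) :
    |Φ p * qiD β F w v| ≤ ‖Φ‖ := by
  rw [abs_mul, abs_of_pos (qi_pos _ _ _ _)]
  exact (mul_le_of_le_one_right (abs_nonneg _) (qi_le hβ _ _ _)).trans (Φ.norm_coe_le_norm p)

/-- The averaged test function. -/
noncomputable def qiG (hβ : 0 ≤ β) (F : Finset E) (Φ : W × S →ᵇ ℝ) : W × S →ᵇ ℝ :=
  ofNormedAddCommGroup (fun p => ∫ v, Φ (mix F p.1 v, p.2) * qiD β F p.1 v ∂P)
    (continuous_of_dominated (bound := fun _ => ‖Φ‖)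
      (fun p => ((qi_cont2 β F Φ).comp (Continuous.prodMk_right p)).aestronglyMeasurable)
      (fun _ => Eventually.of_forall fun _ => qi_bd hβ F Φ _ _ _) (integrable_const _)
      (Eventually.of_forall fun v => (qi_cont2 β F Φ).comp (Continuous.prodMk_left v)))
    ‖Φ‖ fun p => by
      have := norm_integral_le_of_norm_le_const (μ := P) (C := ‖Φ‖)
        (f := fun v => Φ (mix F p.1 v, p.2) * qiD β F p.1 v)
        (Eventually.of_forall fun _ => qi_bd hβ F Φ _ _ _)
      simpa using this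

lemma qi_shW (F : Finset E) (z : V) (w v : W) :
    shW z (mix (F.image (shE z)) w (shW (-z) v)) = mix F (shW z w) v := by
  funext e
  have h : shE z e ∈ F.image (shE z) ↔ e ∈ F := by
    refine ⟨fun h => ?_, Finset.mem_image_of_mem _⟩
    obtain ⟨a, ha, e1⟩ := Finset.mem_image.1 h
    have : a = e := by
      simp only [shE, Prod.mk.injEq, add_left_inj] at e1
      exact Prod.ext e1.1 e1.2
    exact this ▸ ha
  change mix (F.image (shE z)) w (shW (-z) v) (shE z e) = _
  unfold mix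
  by_cases he : e ∈ F
  · rw [if_pos (h.2 he), if_pos he]
    simp [shW, shE]
  · rw [if_neg (mt h.1 he), if_neg he]
    rfl

lemma qi_sum (F : Finset E) (z : V) (w v : W) :
    ∑ e ∈ F.image (shE z), (|w e| + |shW (-z) v e|) = ∑ e ∈ F, (|shW z w e| + |v e|) := by
  rw [Finset.sum_image]
  · refine Finset.sum_congr rfl fun e _ => ?_
    simp [shW, shE]
  · intro a _ b _ e1
    simp only [shE, Prod.mk.injEq, add_left_inj] at e1
    exact Prod.ext e1.1 e1.2

lemma qi_term (hβ : 0 ≤ β) (F : Finset E) (Φ : W × S →ᵇ ℝ) (hΦ : ∀ p, 0 ≤ Φ p) (L : Finset V)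
    (z : V) :
    ∫ w, gam (β • w) L (fun σ => qiG hβ F Φ (shift z (w, σ))) 1 ∂P
      ≤ ∫ w, gam (β • w) L (fun σ => Φ (shift z (w, σ))) 1 ∂P := by
  have hc : ∀ Ψ : W × S →ᵇ ℝ,
      Continuous fun w : W => gam (β • w) L (fun σ => Ψ (shift z (w, σ))) 1 := fun Ψ =>
    (continuous_gam β L (g := fun p => Ψ (shift z p))
      (Ψ.continuous.comp (continuous_shift z))).comp (Continuous.prodMk_left (1 : S))
  have hb : ∀ (Ψ : W × S →ᵇ ℝ) (w : W),
      |gam (β • w) L (fun σ => Ψ (shift z (w, σ))) 1| ≤ ‖Ψ‖ := fun Ψ w =>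
    gam_abs_le (fun _ => Ψ.norm_coe_le_norm _) _
  set h : W → ℝ := fun w => gam (β • w) L (fun σ => Φ (shift z (w, σ))) 1 with hh
  have hmp : MeasurePreserving (fun p : W × W => mix (F.image (shE z)) p.1 (shW (-z) p.2))
      (P.prod P) P :=
    (mp_mix (F.image (shE z))).comp ((MeasurePreserving.id P).prod (mp_shW (-z)))
  have hi : Integrable (fun p : W × W => h (mix (F.image (shE z)) p.1 (shW (-z) p.2)))
      (P.prod P) :=
    integrable_of_bdd ((hc Φ).measurable.comp hmp.measurable) ‖Φ‖ fun p => hb Φ _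
  have e1 : ∫ w, h w ∂P = ∫ w, ∫ v, h (mix (F.image (shE z)) w (shW (-z) v)) ∂P ∂P := by
    rw [← integral_prod _ hi]
    conv_lhs => rw [← hmp.map_eq]
    exact integral_map hmp.measurable.aemeasurable (hc Φ).aestronglyMeasurable
  rw [e1]
  refine integral_mono (integrable_of_bdd (hc _).measurable _ (hb _)) hi.integral_prod_left
    fun w => ?_
  have hψ : ∀ τ, Integrable (fun v => Φ (mix F (shW z w) v, shS z τ) * qiD β F (shW z w) v) P :=
    fun τ => integrable_of_bdd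
      ((qi_cont2 β F Φ).comp (Continuous.prodMk_right (shW z w, shS z τ))).measurable ‖Φ‖
      fun _ => qi_bd hβ F Φ _ _ _
  have e2 := qi_gam_int (β • w) L
    (ψ := fun v τ => Φ (mix F (shW z w) v, shS z τ) * qiD β F (shW z w) v) hψ 1
  refine le_of_eq_of_le e2 (integral_mono_of_nonneg (Eventually.of_forall fun v =>
    gam_nonneg (fun τ => mul_nonneg (hΦ _) (qi_pos _ _ _ _).le) _)
    (integrable_of_bdd ((hc Φ).measurable.comp (hmp.measurable.comp measurable_prodMk_left)) ‖Φ‖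
      fun v => hb Φ _) (Eventually.of_forall fun v => ?_))
  have e3 := qi_gam_le (L := L) (φ := fun τ => Φ (mix F (shW z w) v, shS z τ)) (fun τ => hΦ _)
    (qi_en hβ (F.image (shE z)) (touch L) w (shW (-z) v)) 1
  rw [qi_sum] at e3
  simp only [hh, shift_eq, qi_shW]
  rw [gam_mul_inv _ _ _ (h := fun _ => qiD β F (shW z w) v) fun _ _ => rfl]
  refine (mul_le_mul_of_nonneg_right e3 (qi_pos _ _ _ _).le).trans (le_of_eq ?_)
  rw [mul_right_comm, qiD, ← Real.exp_add, add_neg_cancel, Real.exp_zero, one_mul]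

lemma qi_int (hβ : 0 ≤ β) (hκ : CovGibbs β 1 κ) (F : Finset E) (Φ : W × S →ᵇ ℝ)
    (hΦ : ∀ p, 0 ≤ Φ p) : ∫ p, qiG hβ F Φ p ∂(P ⊗ₘ κ) ≤ ∫ p, Φ p ∂(P ⊗ₘ κ) :=
  le_of_tendsto_of_tendsto' (fin_lim hβ hκ (fun _ _ => 1) (fun _ => measurable_const) _)
    (fin_lim hβ hκ (fun _ _ => 1) (fun _ => measurable_const) _) fun _ =>
    div_le_div_of_nonneg_right (Finset.sum_le_sum fun z _ => qi_term hβ F Φ hΦ _ z)
      (Nat.cast_nonneg _)

theorem quasi (hβ : 0 ≤ β) (hκ : CovGibbs β 1 κ) (F : Finset E) :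
    Measure.QuasiMeasurePreserving (fun x : (W × S) × W => (mix F x.1.1 x.2, x.1.2))
      ((P ⊗ₘ κ).prod P) (P ⊗ₘ κ) := by
  have := hκ.markov
  have h1 : Continuous fun x : (W × S) × W => (x.1.1, x.2) := by fun_prop
  have hT : Measurable fun x : (W × S) × W => (mix F x.1.1 x.2, x.1.2) :=
    (((continuous_mix F).comp h1).prodMk (by fun_prop)).measurable
  have hd : Measurable fun x : (W × S) × W => ENNReal.ofReal (qiD β F x.1.1 x.2) :=
    ((qi_cont β F).comp h1).measurable.ennreal_ofReal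
  set μ := ((P ⊗ₘ κ).prod P).withDensity fun x => ENNReal.ofReal (qiD β F x.1.1 x.2) with hμ
  have hfin : IsFiniteMeasure μ := isFiniteMeasure_withDensity_ofReal
    (integrable_of_bdd ((qi_cont β F).comp h1).measurable 1 fun x =>
      (abs_of_pos (qi_pos β F x.1.1 x.2)).trans_le (qi_le hβ _ _ _)).2
  set m1 := μ.map fun x : (W × S) × W => (mix F x.1.1 x.2, x.1.2) with hm1
  have hI : ∀ Φ : W × S →ᵇ ℝ, (∀ p, 0 ≤ Φ p) → ∫ p, Φ p ∂m1 ≤ ∫ p, Φ p ∂(P ⊗ₘ κ) := by
    intro Φ hΦ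
    refine le_of_eq_of_le ?_ (qi_int hβ hκ F Φ hΦ)
    rw [hm1, integral_map hT.aemeasurable Φ.continuous.aestronglyMeasurable, hμ,
      integral_withDensity_eq_integral_toReal_smul hd
        (Eventually.of_forall fun _ => ENNReal.ofReal_lt_top)]
    simp only [ENNReal.toReal_ofReal (qi_pos _ _ _ _).le, smul_eq_mul, mul_comm (qiD _ _ _ _)]
    exact integral_prod _
      (integrable_of_bdd (qi_cont2 β F Φ).measurable ‖Φ‖ fun _ => qi_bd hβ F Φ _ _ _)
  have hC : ∀ C : Set (W × S), IsClosed C → m1 C ≤ (P ⊗ₘ κ) C := by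
    intro C hC
    refine ge_of_tendsto' (HasOuterApproxClosed.tendsto_lintegral_apprSeq hC (P ⊗ₘ κ)) fun n =>
      (HasOuterApproxClosed.measure_le_lintegral hC m1 n).trans ?_
    rw [← ENNReal.toReal_le_toReal (lintegral_lt_top_of_nnreal _ _).ne
      (lintegral_lt_top_of_nnreal _ _).ne, toReal_lintegral_coe_eq_integral,
      toReal_lintegral_coe_eq_integral]
    exact hI ((hC.apprSeq n).comp _ isometry_subtype_coe.lipschitz) fun p => NNReal.coe_nonneg _
  refine ⟨hT, ((withDensity_absolutelyContinuous' hd.aemeasurable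
    (Eventually.of_forall fun x => ?_)).map hT).trans
      (Measure.AbsolutelyContinuous.mk fun N hN h0 => ?_)⟩
  · exact (ENNReal.ofReal_pos.2 (qi_pos _ _ _ _)).ne'
  · change m1 N = 0
    rw [hN.measure_eq_iSup_isClosed_of_ne_top (measure_ne_top _ _)]
    simp only [ENNReal.iSup_eq_zero]
    exact fun C h1 h2 => le_zero_iff.1 ((hC C h2).trans ((measure_mono h1).trans_eq h0))

end Pool.Agent.MP_c70b3b_mp.Cg

end

section

open MeasureTheory ProbabilityTheory Filter Topology BoundedContinuousFunction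
open scoped symmDiff ENNReal

namespace Pool.Agent.MP_c70b3b_mp.Cg

variable {β : ℝ} {κ : Kernel W S} {π : Kernel (W × S) S} {m : ℕ → ℕ}

lemma cd_reorder [IsMarkovKernel κ] {A : Set ((W × W) × S)} (hA : MeasurableSet A)
    (h : ∀ᵐ x ∂((P ⊗ₘ κ).prod P), ((x.1.1, x.2), x.1.2) ∈ A) :
    ∀ᵐ p ∂P.prod P, ∀ᵐ σ ∂κ p.1, (p, σ) ∈ A := by
  have hm : MeasurableSet {p : W × W | ∀ᵐ σ ∂κ p.1, (p, σ) ∈ A} := by
    have h1 := Kernel.measurable_kernel_prodMk_left (κ := κ.comap Prod.fst measurable_fst) hA.compl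
    exact h1 (measurableSet_singleton 0)
  rw [Measure.ae_prod_iff_ae_ae hm]
  have h2 := Measure.ae_ae_of_ae_compProd (Measure.ae_ae_of_ae_prod h)
  filter_upwards [h2] with w hw
  have h3 : MeasurableSet {x : S × W | ((w, x.2), x.1) ∈ A} :=
    ((measurable_const.prodMk measurable_snd).prodMk measurable_fst) hA
  exact (Measure.ae_ae_comm (p := fun (σ : S) (u : W) => ((w, u), σ) ∈ A) h3).1 hw

lemma cd_swap {μ μ' : Measure S} [IsProbabilityMeasure μ] [IsProbabilityMeasure μ']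
    {R : Set (S × S)} (hR : MeasurableSet R) {c : ℝ} (hc : 0 < c)
    (h1 : ∀ᵐ σ ∂μ, μ'.real {σ' | (σ, σ') ∈ R} = c) (h2 : ∀ᵐ σ' ∂μ', μ.real {σ | (σ, σ') ∈ R} = c)
    {G : S → ℝ} (hG : Measurable G) (hb : ∀ σ, |G σ| ≤ 1) (hi : ∀ σ σ', (σ, σ') ∈ R → G σ = G σ') :
    ∫ σ, G σ ∂μ = ∫ σ, G σ ∂μ' := by
  have hI : Integrable (Function.uncurry fun σ σ' => R.indicator (fun x => G x.1) (σ, σ'))
      (μ.prod μ') := by
    refine (Integrable.of_bound (C := 1) (hG.comp measurable_fst).aestronglyMeasurable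
      (Eventually.of_forall fun x => hb x.1)).indicator hR
  have e := integral_integral_swap hI
  have e1 : ∫ σ, ∫ σ', R.indicator (fun x => G x.1) (σ, σ') ∂μ' ∂μ = c * ∫ σ, G σ ∂μ := by
    rw [← integral_const_mul]
    refine integral_congr_ae ?_
    filter_upwards [h1] with σ hσ
    have : (fun σ' => R.indicator (fun x => G x.1) (σ, σ')) =
        {σ' | (σ, σ') ∈ R}.indicator fun _ => G σ := by
      funext σ'
      by_cases h : (σ, σ') ∈ R <;> simp [Set.indicator, h]
    rw [this, ← hσ]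
    exact integral_indicator_const _ (measurable_prodMk_left hR)
  have e2 : ∫ σ', ∫ σ, R.indicator (fun x => G x.1) (σ, σ') ∂μ ∂μ' = c * ∫ σ, G σ ∂μ' := by
    rw [← integral_const_mul]
    refine integral_congr_ae ?_
    filter_upwards [h2] with σ' hσ
    have : (fun σ => R.indicator (fun x => G x.1) (σ, σ')) =
        {σ | (σ, σ') ∈ R}.indicator fun _ => G σ' := by
      funext σ
      by_cases h : (σ, σ') ∈ R
      · simp [Set.indicator, h, hi σ σ' h]
      · simp [Set.indicator, h]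
    rw [this, ← hσ]
    exact integral_indicator_const _ (measurable_prodMk_right hR)
  rw [e1, e2] at e
  exact mul_left_cancel₀ hc.ne' e

lemma cd_symm {w : W} {σ σ' : S} (h : Eqv β π m w σ σ') : Eqv β π m w σ' σ :=
  ⟨h.2.1, h.1, fun A hA => (h.2.2 A hA).symm⟩

theorem Pure.cd (hβ : 0 ≤ β) (h : Pure β κ π m) {c : ℝ} (hc : 0 < c)
    (he : ∀ᵐ x ∂(P ⊗ₘ κ), (κ x.1).real {σ | Eqv β π m x.1 x.2 σ} = c) (F : Finset E) :
    ∀ᵐ p ∂P.prod P, ∀ G : S → ℝ, Measurable G → (∀ σ, |G σ| ≤ 1) →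
      (∀ σ σ', Eqv β π m p.1 σ σ' → G σ = G σ') →
      ∫ σ, G σ ∂κ p.1 = ∫ σ, G σ ∂κ (Cg.mix F p.1 p.2) := by
  have := h.cov.markov
  have hm : Measurable fun x : W × S => (κ x.1).real {σ | Eqv β π m x.1 x.2 σ} := by
    have h1 : MeasurableSet {y : (W × S) × S | Eqv β π m y.1.1 y.1.2 y.2} :=
      (measurable_fst.fst.prodMk (measurable_fst.snd.prodMk measurable_snd)) h.meas_eqv
    exact (Kernel.measurable_kernel_prodMk_left (κ := κ.comap Prod.fst measurable_fst)
      h1).ennreal_toReal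
  have hA : MeasurableSet {y : (W × W) × S | (κ (Cg.mix F y.1.1 y.1.2)).real
      {σ | Eqv β π m (Cg.mix F y.1.1 y.1.2) y.2 σ} = c} :=
    (hm.comp (((measurable_mix F).comp measurable_fst).prodMk measurable_snd))
      (measurableSet_singleton c)
  have h1 := cd_reorder (κ := κ) hA ((quasi hβ h.cov F).ae he)
  have h2 := (mp_swap F).quasiMeasurePreserving.ae h1
  filter_upwards [h1, h2] with p hp hp' G hG hb hi
  have e : Cg.mix F (Cg.mix F p.1 p.2) (Cg.mix F p.2 p.1) = p.1 := by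
    funext e
    unfold Cg.mix
    split_ifs <;> rfl
  simp only [e, h.eqv_mix] at hp hp'
  refine cd_swap (R := {x | Eqv β π m p.1 x.1 x.2}) (measurable_prodMk_left h.meas_eqv) hc hp ?_
    hG hb hi
  filter_upwards [hp'] with σ' hσ
  rw [← hσ]
  congr 1
  ext σ
  exact ⟨cd_symm, cd_symm⟩

end Pool.Agent.MP_c70b3b_mp.Cg

end

section

open MeasureTheory ProbabilityTheory Filter Topology BoundedContinuousFunction
open scoped symmDiff ENNReal

namespace Pool.Agent.MP_c70b3b_mp.Cg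

variable {β : ℝ} {κ : Kernel W S} {π : Kernel (W × S) S} {m : ℕ → ℕ}

lemma b1_hull {n : ℕ} {r : Fin n → Fin n → Prop} (hr : Equivalence r)
    (hnc : ∀ a b c d, a < b → b < c → c < d → r a c → r b d → r a b) (c : Fin n) :
    ∃ lo hi : Fin n, r c lo ∧ (∀ b, r c b → lo ≤ b ∧ b ≤ hi) ∧
      ∀ a b, r a b → lo ≤ a ∧ a ≤ hi → lo ≤ b ∧ b ≤ hi := by
  obtain ⟨lo, h1, h2⟩ := Set.exists_min_image {b | r c b} id (Set.toFinite _) ⟨c, hr.refl c⟩
  obtain ⟨hi, h3, h4⟩ := Set.exists_max_image {b | r c b} id (Set.toFinite _) ⟨c, hr.refl c⟩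
  refine ⟨lo, hi, h1, fun b hb => ⟨h2 b hb, h4 b hb⟩, fun a b hab ha => ?_⟩
  by_cases hc : r c a
  · exact ⟨h2 b (hr.trans hc hab), h4 b (hr.trans hc hab)⟩
  have l1 : lo < a := ha.1.lt_of_ne fun h => hc (h ▸ h1)
  have l2 : a < hi := ha.2.lt_of_ne fun h => hc (h ▸ h3)
  have h5 : r lo hi := hr.trans (hr.symm h1) h3
  constructor
  · by_contra! h
    exact hc (hr.trans h1 (hr.symm (hr.trans hab (hnc b lo a hi h l1 l2 (hr.symm hab) h5))))
  · by_contra! h
    exact hc (hr.trans h1 (hnc lo a hi b l1 l2 h h5 hab))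

lemma b1_arc {N : ℕ} {r : Fin (8 * N) → Fin (8 * N) → Prop} (hr : Equivalence r)
    (hnc : ∀ a b c d, a < b → b < c → c < d → r a c → r b d → r a b) (t : Fin (8 * N) → ℤˣ)
    (I : Fin (8 * N) → Prop) (ht : ∀ a b, r a b → t b = t a) (hI : ∀ a b, r a b → I a → I b)
    (hU : ∀ a b, I a → I b → t a = t b → r a b) :
    ∃ J : ℕ × ℕ, J.1 ≤ 8 * N ∧ J.2 ≤ 8 * N ∧ (∀ a b, r a b → a ∈ arc N J → b ∈ arc N J) ∧
      ∃ s, ∀ b, I b → (b ∈ arc N J ↔ t b = s) := by
  have h0 : ∀ b, b ∉ arc N (0, 0) := fun b => by simp [arc]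
  by_cases hne : ∃ a, I a
  swap
  · exact ⟨(0, 0), Nat.zero_le _, Nat.zero_le _, fun a _ _ h => absurd h (h0 a), 1,
      fun b hb => absurd ⟨b, hb⟩ hne⟩
  obtain ⟨x, hx, hm⟩ := Set.exists_min_image {a | I a} id (Set.toFinite _) hne
  by_cases hc : ∃ c, I c ∧ t c = -t x
  swap
  · exact ⟨(0, 0), Nat.zero_le _, Nat.zero_le _, fun a _ _ h => absurd h (h0 a), -t x,
      fun b hb => iff_of_false (h0 b) fun h => hc ⟨b, hb, h⟩⟩
  obtain ⟨c, hc, hs⟩ := hc
  obtain ⟨lo, hi, h1, h2, h3⟩ := b1_hull hr hnc c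
  have ha : ∀ b, b ∈ arc N (lo, hi + 1) ↔ lo ≤ b ∧ b ≤ hi := fun b => by
    simp [arc, Nat.lt_succ_iff]
  refine ⟨(lo, hi + 1), lo.2.le, hi.2, fun a b hab => by rw [ha, ha]; exact h3 a b hab, -t x,
    fun b hb => ?_⟩
  rw [ha]
  refine ⟨fun h => ?_, fun h => h2 b (hU c b hc hb (hs.trans h.symm))⟩
  by_contra hb'
  have e1 : t b = t x := by
    by_contra h'
    exact hb' (Int.units_ne_iff_eq_neg.1 h')
  have e2 : x = lo := le_antisymm (hm lo (hI c lo h1 hc)) (h3 b x (hU b x hb hx e1) h).1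
  exact hb' (by rw [e1, ← hs, ← ht c lo h1, e2])

lemma b1_par {n : ℕ} (A : Finset (Fin n)) (p q : Fin n → Prop) [DecidablePred p] [DecidablePred q]
    (h : Even (A.filter fun i => ¬ (p i ↔ q i)).card) :
    (-1 : ℝ) ^ (A.filter p).card = (-1) ^ (A.filter q).card := by
  have e : ∀ (u : Fin n → Prop) [DecidablePred u],
      (-1 : ℝ) ^ (A.filter u).card = ∏ i ∈ A, if u i then -1 else 1 := fun u _ => by
    rw [Finset.prod_ite, Finset.prod_const_one, mul_one, Finset.prod_const]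
  refine Eq.trans ?_ ((congrArg (_ * ·) h.neg_one_pow).trans (mul_one _))
  rw [e, e, e, ← Finset.prod_mul_distrib]
  refine Finset.prod_congr rfl fun i _ => ?_
  by_cases h1 : p i <;> by_cases h2 : q i <;> simp [h1, h2]

theorem arc_det (N : ℕ) (τ : S) (hU : UniqAll τ) : ∃ J : ℕ × ℕ, J.1 ≤ 8 * N ∧ J.2 ≤ 8 * N ∧
    ∀ A : Finset (Fin (8 * N)), Even A.card →
      (∀ U : Finset V, Closed (touch (box N) : Set E)ᶜ τ U →
        Even (A.image (fun i : Fin (8 * N) => bv N i) ∩ U).card) →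
      ch A (fun i => τ (bv N i)) = (-1) ^ (A ∩ arc N J).card := by
  classical
  have hB : ∀ i : Fin (8 * N), bv N i ∉ box N := fun i => bv_not_mem i.2
  have hG : ∀ e ∈ (touch (box N) : Set E)ᶜ, e ∈ (Set.univ : Set E) ∧ e.1 ∉ box N ∧
      tip e ∉ box N := by
    intro e he
    have h : ¬ (e.1 ∈ box N ∨ tip e ∈ box N) := fun h => he (Finset.mem_coe.2 (mem_touch.2 h))
    exact ⟨trivial, fun h' => h (Or.inl h'), fun h' => h (Or.inr h')⟩
  let C : Fin (8 * N) → Set V := fun a =>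
    {y | Conn Set.univ {x | x ∉ box N ∧ τ x = τ (bv N a)} (bv N a) y}
  have hsg : ∀ a, ∀ y ∈ C a, y ∉ box N ∧ τ y = τ (bv N a) :=
    fun a y h => alt_conn_mem h ⟨hB a, rfl⟩
  have hsub : ∀ a b : Fin (8 * N), bv N b ∈ C a → C b ⊆ C a := fun a b h y hy => by
    have h' : Conn Set.univ {x | x ∉ box N ∧ τ x = τ (bv N b)} (bv N b) y := hy
    rw [(hsg a _ h).2] at h'
    exact Relation.ReflTransGen.trans h h'
  have hr : Equivalence fun a b : Fin (8 * N) => bv N b ∈ C a := by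
    refine ⟨fun a => Relation.ReflTransGen.refl, fun {a b} h => ?_,
      fun {a b c} h h' => hsub a b h h'⟩
    change Conn Set.univ {x | x ∉ box N ∧ τ x = τ (bv N b)} (bv N b) (bv N a)
    rw [(hsg a _ h).2]
    exact alt_conn_symm h
  obtain ⟨J, j1, j2, hJ, s, hs⟩ := b1_arc hr (fun a b c d hab hbc hcd hac hbd => by
      by_contra hcon
      refine nc_out hab hbc hcd d.2 (O := C a) (O' := C b) ?_ (fun x hx => (hsg a x hx).1)
        (fun x hx => (hsg b x hx).1) (hr.refl b) (alt_conn_self hac) (alt_conn_self hbd)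
      rw [Set.disjoint_left]
      intro y h1 h2
      have h4 : Conn Set.univ {x | x ∉ box N ∧ τ x = τ (bv N b)} (bv N b) y := h2
      rw [(hsg b y h2).2.symm.trans (hsg a y h1).2] at h4
      exact hcon (Relation.ReflTransGen.trans h1 (alt_conn_symm h4)))
    (fun i => τ (bv N i)) (fun a => (C a).Infinite) (fun a b h => (hsg a _ h).2)
    (fun a b h ha => ha.mono (hsub b a (hr.symm h)))
    (fun a b ha hb h => hU (box N) _ _ _ ⟨⟨hB a, rfl⟩, ha⟩ ⟨⟨hB b, h.symm⟩, by rw [h]; exact hb⟩)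
  refine ⟨J, j1, j2, fun A hA hno => ?_⟩
  have ev1 : ∀ (u : ℤˣ) (p : Fin (8 * N) → Prop) [DecidablePred p],
      (∀ a b : Fin (8 * N), bv N b ∈ C a → p a → p b) → (∀ a, p a → (C a).Finite) →
      Even ((A.filter p).filter fun i : Fin (8 * N) => τ (bv N i) = u).card := by
    intro u p _ h1 h2
    rw [Finset.filter_filter]
    refine alt_even N τ A Set.univ _ (fun x => x ∉ box N) hG hno u
      ((A.filter fun i => p i ∧ τ (bv N i) = u).image fun i : Fin (8 * N) => bv N i) ?_ ?_ _ ?_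
    · intro x hx
      obtain ⟨b, hb, rfl⟩ := Finset.mem_image.1 hx
      exact ⟨hB b, (Finset.mem_filter.1 hb).2.2⟩
    · intro x hx
      obtain ⟨b, hb, rfl⟩ := Finset.mem_image.1 hx
      obtain ⟨-, hb', rfl⟩ := Finset.mem_filter.1 hb
      exact h2 b hb'
    · intro b hb
      constructor
      · intro h
        exact ⟨_, Finset.mem_image_of_mem _ (Finset.mem_filter.2 ⟨hb, h⟩),
          Relation.ReflTransGen.refl⟩
      · rintro ⟨x, hx, h⟩
        obtain ⟨c, hc, rfl⟩ := Finset.mem_image.1 hx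
        obtain ⟨-, hc', rfl⟩ := Finset.mem_filter.1 hc
        exact ⟨h1 c b h hc', (hsg c _ h).2⟩
  have ev : ∀ (p : Fin (8 * N) → Prop) [DecidablePred p],
      (∀ a b : Fin (8 * N), bv N b ∈ C a → p a → p b) → (∀ a, p a → (C a).Finite) →
      Even (A.filter p).card := by
    intro p _ h1 h2
    rw [← Finset.card_filter_add_card_filter_not (s := A.filter p)
      (fun i : Fin (8 * N) => τ (bv N i) = 1)]
    refine (ev1 1 p h1 h2).add ?_
    rw [Finset.filter_congr fun i _ => Int.units_ne_iff_eq_neg]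
    exact ev1 (-1) p h1 h2
  have e1 := ev (fun i => ¬ (τ (bv N i) = s ↔ i ∈ arc N J))
    (fun a b h => by rw [(hsg a _ h).2, (⟨hJ a b h, hJ b a (hr.symm h)⟩ : _ ↔ _)]; exact id)
    fun a ha => by_contra fun h => ha (hs a h).symm
  have e2 : ch A (fun i => τ (bv N i))
      = (-1) ^ (A.filter fun i : Fin (8 * N) => τ (bv N i) = -1).card := by
    have hsp : ∀ u : ℤˣ, sp u = if u = -1 then -1 else 1 := fun u => by
      rcases Int.units_eq_one_or u with rfl | rfl <;> simp [sp]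
    simp only [ch, hsp]
    rw [Finset.prod_ite, Finset.prod_const_one, mul_one, Finset.prod_const]
  rw [e2, ← Finset.filter_mem_eq_inter]
  refine b1_par A _ _ ?_
  rcases Int.units_eq_one_or s with rfl | rfl
  · rw [← Finset.card_filter_add_card_filter_not (s := A)
      (fun i : Fin (8 * N) => ¬ (τ (bv N i) = 1 ↔ i ∈ arc N J)), Nat.even_add] at hA
    refine (congrArg (fun B : Finset _ => Even B.card) (Finset.filter_congr fun i _ => ?_)).mp
      (hA.1 e1)
    rw [← Int.units_ne_iff_eq_neg]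
    tauto
  · exact e1

end Pool.Agent.MP_c70b3b_mp.Cg

end

section

open MeasureTheory ProbabilityTheory Filter Topology BoundedContinuousFunction
open scoped symmDiff ENNReal

namespace Pool.Agent.MP_c70b3b_mp.Cg

variable {β : ℝ} {κ : Kernel W S} {π : Kernel (W × S) S} {m : ℕ → ℕ}

lemma b2_sel {α ι : Type} [MeasurableSpace α] [MeasurableSpace ι] [Countable ι] [Nonempty ι]
    (p : α → ι → Prop) (hp : ∀ i, Measurable fun a => p a i) (hex : ∀ a, ∃ i, p a i) :
    ∃ s : α → ι, Measurable s ∧ ∀ a, p a (s a) := by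
  classical
  obtain ⟨u, hu⟩ := exists_surjective_nat ι
  have h : ∀ a, ∃ n, p a (u n) := fun a => hu.exists.1 (hex a)
  exact ⟨fun a => u (Nat.find (h a)), (Measurable.of_discrete (f := u)).comp
    (measurable_find h fun k => measurableSet_setOfPred.2 (hp _)), fun a => Nat.find_spec (h a)⟩

lemma b2_int {α γ : Type} [MeasurableSpace α] [MeasurableSpace γ] [MeasurableSingletonClass γ]
    (ν : Measure α) [IsFiniteMeasure ν] {Φ : α → γ} (hΦ : Measurable Φ) (T : Finset γ)
    (hT : ∀ a, Φ a ∈ T) (F : γ → ℝ) :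
    ∫ a, F (Φ a) ∂ν = ∑ x ∈ T, ν.real (Φ ⁻¹' {x}) * F x := by
  have hm : ∀ x, MeasurableSet (Φ ⁻¹' {x}) := fun x => hΦ (measurableSet_singleton x)
  have e : ∀ a, F (Φ a) = ∑ x ∈ T, (Φ ⁻¹' {x}).indicator (fun _ => F x) a := fun a => by
    rw [Finset.sum_eq_single_of_mem (Φ a) (hT a) fun x _ hx =>
      Set.indicator_of_notMem (s := Φ ⁻¹' {x}) (fun h => hx (Eq.symm h)) _,
      Set.indicator_of_mem (by simp)]
  simp only [e]
  rw [integral_finsetSum _ fun x _ => (integrable_const _).indicator (hm x)]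
  exact Finset.sum_congr rfl fun x _ => by rw [integral_indicator_const _ (hm x), smul_eq_mul]

lemma b2_ring (N : ℕ) (ρ : Measure S) [IsFiniteMeasure ρ] (f : (Fin (8 * N) → ℤˣ) → ℝ) :
    ∑ η, ring N ρ η * f η = ∫ σ, f (fun i => σ (bv N i)) ∂ρ := by
  rw [b2_int ρ (clu_mphi N) Finset.univ (fun _ => Finset.mem_univ _) f]
  refine Finset.sum_congr rfl fun η _ => ?_
  unfold ring
  congr 2
  ext σ
  simp [funext_iff]

lemma b2_abs {n : ℕ} (I : Finset (Fin n)) (η : Fin n → ℤˣ) : |ch I η| = 1 := by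
  simp [ch, Finset.abs_prod, abs_sp]

lemma b2_fl {n : ℕ} (I U : Finset (Fin n)) (η : Fin n → ℤˣ) :
    ch I (fl U η) = ch I η * (-1) ^ (I ∩ U).card := by
  rw [cliff_ch_fl, cliff_prod_sg, Finset.filter_mem_eq_inter, mul_comm]

/-- The arc `J` describes the ring signs of `τ`. -/
def b2Good (N : ℕ) (τ : S) (J : ℕ × ℕ) : Prop :=
  ∀ A : Finset (Fin (8 * N)), Even A.card →
    (∀ U : Finset V, Closed (touch (box N) : Set E)ᶜ τ U →
      Even (A.image (fun i : Fin (8 * N) => bv N i) ∩ U).card) →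
    ch A (fun i => τ (bv N i)) = (-1) ^ (A ∩ arc N J).card

lemma b2_meas (N : ℕ) (J : ℕ × ℕ) : Measurable fun τ => b2Good N τ J :=
  Measurable.forall fun A => measurable_const.imp ((Measurable.forall fun _ =>
    (Measurable.forall fun e => measurable_const.imp (measurable_const.imp
      (measurableSet_setOfPred.1 (measurableSet_eq_fun (measurable_bond e) measurable_const)))).imp
      measurable_const).imp (measurableSet_setOfPred.1 (measurableSet_eq_fun
        ((Measurable.of_discrete (f := ch A)).comp (clu_mphi N)) measurable_const)))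

theorem arc_dec (N : ℕ) {K : W} (hK : ∀ e ∈ touch (box N), K e = 0) {μ μ' : Measure S}
    (h : Gibbs K μ) (h' : Gibbs K μ') (hU : ∀ᵐ q ∂μ.prod μ', UniqAll (q.1 * q.2)) :
    ∃ q : ℕ × ℕ → (Fin (8 * N) → ℤˣ) → ℝ, (∀ J η, 0 ≤ q J η) ∧
      ∀ f : (Fin (8 * N) → ℤˣ) → ℝ, (∀ η, f (-η) = f η) →
        (∑ η, ring N μ η * f η) * μ'.real Set.univ =
          ∑ J ∈ Finset.range (8 * N + 1) ×ˢ Finset.range (8 * N + 1), ∑ η, q J η * f η ∧
        (∑ η, ring N μ' η * f η) * μ.real Set.univ =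
          ∑ J ∈ Finset.range (8 * N + 1) ×ˢ Finset.range (8 * N + 1),
            ∑ η, q J η * f (fl (arc N J) η) := by
  have := h.1
  have := h'.1
  generalize hR : Finset.range (8 * N + 1) ×ˢ Finset.range (8 * N + 1) = R
  have hR' : ∀ J : ℕ × ℕ, J.1 ≤ 8 * N → J.2 ≤ 8 * N → J ∈ R := fun J h1 h2 => by
    rw [← hR, Finset.mem_product, Finset.mem_range, Finset.mem_range]
    omega
  obtain ⟨s, hs, hs'⟩ := b2_sel
    (fun (τ : S) (J : ℕ × ℕ) => J ∈ R ∧ ((∃ J' ∈ R, b2Good N τ J') → b2Good N τ J))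
    (fun J => measurable_const.and ((Measurable.exists fun J' =>
      measurable_const.and (b2_meas N J')).imp (b2_meas N J))) fun τ => by
      by_cases hx : ∃ J' ∈ R, b2Good N τ J'
      · obtain ⟨J, h1, h2⟩ := hx
        exact ⟨J, h1, fun _ => h2⟩
      · exact ⟨(0, 0), hR' _ (Nat.zero_le _) (Nat.zero_le _), fun h => absurd h hx⟩
  let Φ : S × S → (ℕ × ℕ) × (Fin (8 * N) → ℤˣ) := fun p => (s (p.1 * p.2), fun i => p.1 (bv N i))
  have hΦ : Measurable Φ := (hs.comp measurable_mul2).prodMk ((clu_mphi N).comp measurable_fst)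
  have key : ∀ F : ℕ × ℕ → (Fin (8 * N) → ℤˣ) → ℝ,
      ∑ J ∈ R, ∑ η, (μ.prod μ').real (Φ ⁻¹' {(J, η)}) * F J η =
        ∫ p, F (s (p.1 * p.2)) (fun i => p.1 (bv N i)) ∂μ.prod μ' := fun F => by
    rw [← Finset.sum_product' R Finset.univ fun J η => (μ.prod μ').real (Φ ⁻¹' {(J, η)}) * F J η]
    exact (b2_int _ hΦ _ (fun p => Finset.mem_product.2 ⟨(hs' _).1, Finset.mem_univ _⟩)
      fun x => F x.1 x.2).symm
  refine ⟨fun J η => (μ.prod μ').real (Φ ⁻¹' {(J, η)}), fun _ _ => measureReal_nonneg,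
    fun f hf => ⟨?_, ?_⟩⟩
  · rw [key fun _ η => f η, b2_ring, integral_fun_fst fun σ : S => f fun i => σ (bv N i),
      smul_eq_mul, mul_comm]
  · let L : ((Fin (8 * N) → ℤˣ) → ℝ) →ₗ[ℝ] ℝ := μ.real Set.univ • cliffN (ring N μ') -
      ∑ J ∈ R, (cliffN fun η => (μ.prod μ').real (Φ ⁻¹' {(J, η)})).comp
        (LinearMap.funLeft ℝ ℝ (fl (arc N J)))
    have hL : ∀ g, L g = (∑ η, ring N μ' η * g η) * μ.real Set.univ -
        ∑ J ∈ R, ∑ η, (μ.prod μ').real (Φ ⁻¹' {(J, η)}) * g (fl (arc N J) η) := fun g => by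
      simp only [L, LinearMap.sub_apply, LinearMap.smul_apply, LinearMap.sum_apply,
        LinearMap.comp_apply, cliffN_apply, LinearMap.funLeft_apply, smul_eq_mul]
      rw [mul_comm]
    rw [← sub_eq_zero, ← hL]
    refine cliff_lin L 1 f (fun η => by rw [hf, one_mul]) fun I hI => ?_
    have hI' : Even I.card := (neg_one_pow_eq_one_iff_even (by norm_num)).1 hI
    have hm : Measurable fun τ : S => ch I fun i => τ (bv N i) :=
      (Measurable.of_discrete (f := ch I)).comp (clu_mphi N)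
    have hm' : Measurable fun τ : S => (-1 : ℝ) ^ (I ∩ arc N (s τ)).card :=
      (Measurable.of_discrete (f := fun J => (-1 : ℝ) ^ (I ∩ arc N J).card)).comp hs
    have hz := cluster_zero (touch (box N) : Set E)ᶜ (fun e he => hK e (by simpa using he)) h h'
      (I.image fun i : Fin (8 * N) => bv N i)
      (X := fun τ => (ch I fun i => τ (bv N i)) - (-1) ^ (I ∩ arc N (s τ)).card) (hm.sub hm') 2
      (fun τ => (abs_sub _ _).trans (by simp [b2_abs, one_add_one_eq_two])) (by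
        filter_upwards [hU] with p hp h0
        by_contra hn
        obtain ⟨J, h1, h2, h3⟩ := arc_det N _ hp
        exact h0 (sub_eq_zero.2 ((hs' _).2 ⟨J, hR' J h1 h2, h3⟩ I hI' fun U hU =>
          Nat.not_odd_iff_even.1 fun h4 => hn ⟨U, hU, h4⟩)))
    rw [hL, key fun J η => ch I (fl (arc N J) η), b2_ring, mul_comm, ← smul_eq_mul,
      ← integral_fun_snd fun σ : S => ch I fun i => σ (bv N i), ← hz]
    refine (integral_sub (integrable_of_bdd (hm.comp measurable_snd) 1 fun p => (b2_abs _ _).le)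
      (integrable_of_bdd (by
        simp only [b2_fl]
        exact (hm.comp measurable_fst).mul (hm'.comp measurable_mul2)) 1
        fun p => (b2_abs _ _).le)).symm.trans
      (integral_congr_ae (Eventually.of_forall fun p => ?_))
    have e1 : chr (I.image fun i : Fin (8 * N) => bv N i) p.1 = ch I fun i => p.1 (bv N i) := by
      unfold chr ch
      rw [Finset.prod_image fun i _ j _ hij => Fin.ext (bv_inj i.2 j.2 hij)]
    have e2 : (ch I fun i => (p.1 * p.2) (bv N i)) =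
        (ch I fun i => p.1 (bv N i)) * ch I fun i => p.2 (bv N i) := clu_ch_mul I _ _
    simp only [Function.comp, b2_fl, e1, e2]
    rw [mul_sub, ← mul_assoc, clu_ch_sq, one_mul]

end Pool.Agent.MP_c70b3b_mp.Cg

end

section

open MeasureTheory ProbabilityTheory Filter Topology BoundedContinuousFunction
open scoped symmDiff ENNReal

namespace Pool.Agent.MP_c70b3b_mp.Cg

variable {β : ℝ} {κ : Kernel W S} {π : Kernel (W × S) S} {m : ℕ → ℕ}

lemma g2_sq (x a b : ℝ) : (x - a) ^ 2 ≤ 2 * (x - b) ^ 2 + 2 * (a - b) ^ 2 := by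
  nlinarith [sq_nonneg (x - b + (a - b))]

lemma g2_four {x a : ℝ} (hx : |x| ≤ 1) (ha : |a| ≤ 1) : |(x - a) ^ 2| ≤ 4 := by
  rw [abs_of_nonneg (sq_nonneg _)]
  rw [abs_le] at hx ha
  nlinarith [hx.1, hx.2, ha.1, ha.2]

lemma g2_two {x a : ℝ} (hx : |x| ≤ 1) (ha : |a| ≤ 1) : (x - a) ^ 2 ≤ 2 * |x - a| := by
  have h : |x - a| ≤ 2 := (abs_sub x a).trans (by linarith)
  rw [← sq_abs]
  nlinarith [abs_nonneg (x - a)]

lemma g2_pt (β : ℝ) (w : W) {L K : Finset V} (A : Finset V) {z : V} (h : tr K z ⊆ L) (σ : S)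
    (a b : ℝ) : (gam (β • w) L (chr (tr A z)) σ - a) ^ 2 ≤
      2 * gam (β • w) L (fun τ => (gam (β • shW z w) K (chr A) (shS z τ) - b) ^ 2) σ +
        2 * (a - b) ^ 2 := by
  have h1 : gam (β • w) (tr K z) (chr (tr A z)) =
      fun τ => gam (β • shW z w) K (chr A) (shS z τ) := by
    funext τ
    rw [gam_shift]
    simp only [chr_shS]
  have h2 := gam_sq (β • w) L (fun τ => gam (β • shW z w) K (chr A) (shS z τ) - b) σ
  rw [gam_sub, gam_const, ← h1, gam_cons _ h] at h2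
  have h3 := g2_sq (gam (β • w) L (chr (tr A z)) σ) a b
  linarith

lemma g2_sub {n k : ℕ} {z : V} (hz : z ∈ box (n - k)) : tr (box k) z ⊆ box n := by
  intro x hx
  rw [mem_tr, mem_box] at hx
  rw [mem_box] at hz ⊢
  simp only [Prod.fst_sub, Prod.snd_sub] at hx
  omega

lemma g2_card (n k : ℕ) : (((box n) \ box (n - k)).card : ℝ) ≤ 8 * n * k := by
  have h3 : (box n \ box (n - k)).card ≤ 8 * n * k := by
    rw [Finset.card_sdiff_of_subset (box_mono (Nat.sub_le _ _)), avg_card_box, avg_card_box]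
    rcases le_total k n with h | h
    · obtain ⟨d, rfl⟩ := Nat.exists_eq_add_of_le h
      rw [Nat.add_sub_cancel_left, Nat.sub_le_iff_le_add]
      nlinarith
    · refine (Nat.sub_le _ _).trans ?_
      nlinarith
  exact_mod_cast h3

lemma g2_sum {n k : ℕ} {t f : V → ℝ} {c : ℝ} (hc : 0 ≤ c) (hf : ∀ z, 0 ≤ f z)
    (h4 : ∀ z, t z ≤ 4) (h : ∀ z ∈ box (n - k), t z ≤ 2 * f z + c) :
    ∑ z ∈ box n, t z ≤ 2 * ∑ z ∈ box n, f z + c * (box n).card + 32 * n * k := by
  have hs : box (n - k) ⊆ box n := box_mono (Nat.sub_le _ _)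
  have h1 : ∑ z ∈ box n \ box (n - k), t z ≤ 32 * n * k := by
    have := Finset.sum_le_card_nsmul (box n \ box (n - k)) t 4 fun z _ => h4 z
    rw [nsmul_eq_mul] at this
    linarith [g2_card n k]
  have h2 : ∑ z ∈ box (n - k), t z ≤ ∑ z ∈ box n, (2 * f z + c) :=
    (Finset.sum_le_sum h).trans (Finset.sum_le_sum_of_subset_of_nonneg hs fun z _ _ => by
      have := hf z
      positivity)
  rw [Finset.sum_add_distrib, ← Finset.mul_sum, Finset.sum_const, nsmul_eq_mul] at h2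
  rw [← Finset.sum_sdiff hs]
  linarith

lemma g2_meas (β : ℝ) (L : Finset V) {g : W × S → ℝ} (hg : Measurable g) {s : W → S}
    (hs : Measurable s) : Measurable fun w => gam (β • w) L (fun τ => g (w, τ)) (s w) := by
  have h := (measurable_gam β L hg).comp (measurable_id.prodMk hs)
  simpa only [Function.comp_def, id] using h

lemma g2_term (β : ℝ) (A : Finset V) {L K : Finset V} {z : V} (h : tr K z ⊆ L) {s : W → S}
    (hs : Measurable s) {a b : W → ℝ} (ha : Measurable a) (hb : Measurable b)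
    (ha1 : ∀ w, |a w| ≤ 1) (hb1 : ∀ w, |b w| ≤ 1) {g : W × S → ℝ} (hgm : Measurable g)
    (hg : ∀ p, g p = (gam (β • p.1) K (chr A) p.2 - b p.1) ^ 2) :
    ∫ w, (gam (β • w) L (chr (tr A z)) (s w) - a (shW z w)) ^ 2 ∂P ≤
      2 * ∫ w, gam (β • w) L (fun σ => g (shift z (w, σ))) (s w) ∂P +
        2 * ∫ w, (a w - b w) ^ 2 ∂P := by
  have hh1 : ∀ (w : W) (L B : Finset V) (σ : S), |gam (β • w) L (chr B) σ| ≤ 1 :=
    fun w L B σ => gam_abs_le (fun τ => (abs_chr B τ).le) σ
  have hd : Measurable fun w => (a w - b w) ^ 2 := (ha.sub hb).pow_const 2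
  have m1 : Measurable fun w => gam (β • w) L (chr (tr A z)) (s w) :=
    g2_meas β L (g := fun p => chr (tr A z) p.2) ((measurable_chr _).comp measurable_snd) hs
  have m2 : Measurable fun w => gam (β • w) L (fun σ => g (shift z (w, σ))) (s w) :=
    g2_meas β L (g := fun p => g (shift z p)) (hgm.comp (measurable_shift z)) hs
  have m3 : Measurable fun w => a (shW z w) := ha.comp (measurable_shW z)
  have i0 : Integrable (fun w => (gam (β • w) L (chr (tr A z)) (s w) - a (shW z w)) ^ 2) P :=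
    integrable_of_bdd ((m1.sub m3).pow_const 2) 4 fun w => g2_four (hh1 _ _ _ _) (ha1 _)
  have i1 : Integrable (fun w => gam (β • w) L (fun σ => g (shift z (w, σ))) (s w)) P :=
    integrable_of_bdd m2 4 fun w => gam_abs_le (fun τ => by
      rw [hg]; exact g2_four (hh1 _ _ _ _) (hb1 _)) _
  have i2 : Integrable (fun w => (a (shW z w) - b (shW z w)) ^ 2) P :=
    integrable_of_bdd (hd.comp (measurable_shW z)) 4 fun w => g2_four (ha1 _) (hb1 _)
  have h5 : ∫ w, (a (shW z w) - b (shW z w)) ^ 2 ∂P = ∫ w, (a w - b w) ^ 2 ∂P := by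
    rw [← integral_map (f := fun w => (a w - b w) ^ 2) (measurable_shW z).aemeasurable
      hd.aestronglyMeasurable, (mp_shW z).map_eq]
  rw [← h5, ← integral_const_mul, ← integral_const_mul,
    ← integral_add (i1.const_mul 2) (i2.const_mul 2)]
  refine integral_mono i0 ((i1.const_mul 2).add (i2.const_mul 2)) fun w => ?_
  simp only [hg, shift_eq]
  exact g2_pt β w A h (s w) (a (shW z w)) (b (shW z w))

theorem mean_lim (hβ : 0 ≤ β) (hκ : CovGibbs β 1 κ) (A : Finset V)
    (hA : ∀ ε > (0 : ℝ), ∃ k, ∫ p, (gam (β • p.1) (box k) (chr A) p.2 - ∫ σ, chr A σ ∂κ p.1) ^ 2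
      ∂(P ⊗ₘ κ) ≤ ε) (s : ℕ → W → S) (hs : ∀ n, Measurable (s n)) :
    Tendsto (fun n : ℕ => (∑ z ∈ box n, ∫ w, (gam (β • w) (box n) (chr (tr A z)) (s n w) -
      ∫ σ, chr A σ ∂κ (shW z w)) ^ 2 ∂P) / (box n).card) atTop (𝓝 0) := by
  have := hκ.markov
  refine tendsto_order.2 ⟨fun c hc => Eventually.of_forall fun n => hc.trans_le
    (div_nonneg (Finset.sum_nonneg fun z _ => integral_nonneg fun w => sq_nonneg _)
      (Nat.cast_nonneg _)), fun c hc => ?_⟩
  obtain ⟨ε, hε, rfl⟩ : ∃ ε : ℝ, 0 < ε ∧ c = 32 * ε := ⟨c / 32, by positivity, by ring⟩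
  obtain ⟨k, hk⟩ := hA ε hε
  set a : W → ℝ := fun w => ∫ σ, chr A σ ∂κ w with ha
  have ham : Measurable a := (measurable_chr A).stronglyMeasurable.integral_kernel.measurable
  have ha1 : ∀ w, |a w| ≤ 1 := fun w => by
    have := norm_integral_le_of_norm_le_const (μ := κ w) (f := chr A) (C := 1)
      (Eventually.of_forall fun σ => (abs_chr A σ).le)
    simpa using this
  obtain ⟨-, b, hb, -, hb1, hab⟩ := exists_local ham ha1 hε
  have hd : Measurable fun w => (a w - b w) ^ 2 := (ham.sub hb.measurable).pow_const 2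
  have hd4 : ∀ w, |(a w - b w) ^ 2| ≤ 4 := fun w => g2_four (ha1 w) (hb1 w)
  have hd2 : ∫ w, (a w - b w) ^ 2 ∂P ≤ 2 * ε := by
    have h1 : ∫ w, (a w - b w) ^ 2 ∂P ≤ ∫ w, 2 * |a w - b w| ∂P :=
      integral_mono (integrable_of_bdd hd 4 hd4)
        ((integrable_of_bdd (ham.sub hb.measurable) 2 fun w =>
          (abs_sub _ _).trans (by linarith [ha1 w, hb1 w])).abs.const_mul 2)
        fun w => g2_two (ha1 w) (hb1 w)
    rw [integral_const_mul] at h1
    linarith
  have hh : Continuous fun p : W × S => gam (β • p.1) (box k) (chr A) p.2 :=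
    continuous_gam β (box k) (g := fun p => chr A p.2) ((continuous_chr A).comp continuous_snd)
  have hh1 : ∀ (w : W) (L B : Finset V) (σ : S), |gam (β • w) L (chr B) σ| ≤ 1 :=
    fun w L B σ => gam_abs_le (fun τ => (abs_chr B τ).le) σ
  have hgc : Continuous fun p : W × S => (gam (β • p.1) (box k) (chr A) p.2 - b p.1) ^ 2 :=
    (hh.sub (hb.comp continuous_fst)).pow 2
  have hg4 : ∀ p : W × S, |(gam (β • p.1) (box k) (chr A) p.2 - b p.1) ^ 2| ≤ 4 :=
    fun p => g2_four (hh1 _ _ _ _) (hb1 _)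
  let g : W × S →ᵇ ℝ := BoundedContinuousFunction.ofNormedAddCommGroup _ hgc 4 hg4
  have hg : ∀ p, g p = (gam (β • p.1) (box k) (chr A) p.2 - b p.1) ^ 2 := fun p => rfl
  have hfst : MeasurePreserving Prod.fst (P ⊗ₘ κ) P := ⟨measurable_fst, Measure.fst_compProd P κ⟩
  have hI : ∫ p, g p ∂(P ⊗ₘ κ) < 7 * ε := by
    have i1 : Integrable (fun p : W × S => (gam (β • p.1) (box k) (chr A) p.2 - a p.1) ^ 2)
        (P ⊗ₘ κ) := integrable_of_bdd ((hh.measurable.sub (ham.comp measurable_fst)).pow_const 2) 4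
      fun p => g2_four (hh1 _ _ _ _) (ha1 _)
    have i2 : Integrable (fun p : W × S => (a p.1 - b p.1) ^ 2) (P ⊗ₘ κ) :=
      integrable_of_bdd (hd.comp measurable_fst) 4 fun p => hd4 _
    have h1 : ∫ p, g p ∂(P ⊗ₘ κ) ≤ ∫ p, 2 * (gam (β • p.1) (box k) (chr A) p.2 - a p.1) ^ 2 +
        2 * (a p.1 - b p.1) ^ 2 ∂(P ⊗ₘ κ) :=
      integral_mono (g.integrable _) ((i1.const_mul 2).add (i2.const_mul 2)) fun p => by
        have := g2_sq (gam (β • p.1) (box k) (chr A) p.2) (b p.1) (a p.1)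
        simp only [hg]
        nlinarith
    have h2 : ∫ p, (a p.1 - b p.1) ^ 2 ∂(P ⊗ₘ κ) = ∫ w, (a w - b w) ^ 2 ∂P := by
      rw [← hfst.map_eq, integral_map measurable_fst.aemeasurable hd.aestronglyMeasurable,
        hfst.map_eq]
    rw [integral_add (i1.const_mul 2) (i2.const_mul 2), integral_const_mul, integral_const_mul,
      h2] at h1
    have h3 : ∫ p, (gam (β • p.1) (box k) (chr A) p.2 - a p.1) ^ 2 ∂(P ⊗ₘ κ) ≤ ε := hk
    linarith
  have e1 := (fin_lim hβ hκ s hs g).eventually (gt_mem_nhds hI)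
  have e2 : ∀ᶠ n : ℕ in atTop, (8 * k / ε : ℝ) < n :=
    tendsto_natCast_atTop_atTop.eventually (eventually_gt_atTop _)
  filter_upwards [e1, e2, eventually_gt_atTop 0] with n h1 h2 h3
  have hn : (0 : ℝ) < n := by exact_mod_cast h3
  have hcard : ((box n).card : ℝ) = 4 * n ^ 2 := by rw [avg_card_box]; push_cast; ring
  have hpos : (0 : ℝ) < (box n).card := by rw [hcard]; positivity
  have key := g2_sum (n := n) (k := k) (c := 4 * ε)
    (t := fun z => ∫ w, (gam (β • w) (box n) (chr (tr A z)) (s n w) - a (shW z w)) ^ 2 ∂P)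
    (f := fun z => ∫ w, gam (β • w) (box n) (fun σ => g (shift z (w, σ))) (s n w) ∂P)
    (by positivity)
    (fun z => integral_nonneg fun w => gam_nonneg (fun τ => by rw [hg]; positivity) _)
    (fun z => by
      have := norm_integral_le_of_norm_le_const (μ := P) (C := 4)
        (f := fun w => (gam (β • w) (box n) (chr (tr A z)) (s n w) - a (shW z w)) ^ 2)
        (Eventually.of_forall fun w => g2_four (hh1 _ _ _ _) (ha1 _))
      simp only [probReal_univ, mul_one] at this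
      exact (le_abs_self _).trans this)
    (fun z hz => by
      have h4 := g2_term β A (g2_sub hz) (hs n) ham hb.measurable ha1 hb1
        g.continuous.measurable hg
      linarith)
  rw [div_lt_iff₀ hpos] at h1 ⊢
  rw [div_lt_iff₀ hε] at h2
  have h6 : 32 * (n : ℝ) * k ≤ ε * (box n).card := by
    rw [hcard]
    nlinarith
  have h7 := mul_pos hε hpos
  refine key.trans_lt ?_
  linarith

end Pool.Agent.MP_c70b3b_mp.Cg

end
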