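import Pool.Agent.Mg.Fc70b3ba.Gd0fa04

section

open MeasureTheory ProbabilityTheory Filter Topology BoundedContinuousFunction
open scoped symmDiff ENNReal

namespace Pool.Agent.MP_c70b3b_mp.Cg

variable {β : ℝ} {κ : Kernel W S} {π : Kernel (W × S) S} {m : ℕ → ℕ}

/-- The sign pattern of a set of edges. -/
noncomputable def d1s (T : Finset E) (e : E) : ℝ := if e ∈ T then -1 else 1

/-- The indicator that the bonds of `F` have the sign pattern of `T`. -/
noncomputable def d1i (F T : Finset E) (σ : S) : ℝ := ∏ e ∈ F, (1 + d1s T e * bond σ e) / 2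

lemma d1i_cont (F T : Finset E) : Continuous (d1i F T) :=
  continuous_finsetProd _ fun e _ =>
    (continuous_const.add (continuous_const.mul (continuous_bond e))).div_const _

lemma d1i_ne {F T : Finset E} {σ : S} (h : d1i F T σ ≠ 0) {e : E} (he : e ∈ F) :
    bond σ e = d1s T e := by
  have h0 := Finset.prod_ne_zero_iff.1 h e he
  unfold d1s at h0 ⊢
  rcases bond_cases σ e with h1 | h1 <;> rw [h1] at h0 ⊢ <;> split_ifs at h0 ⊢ <;>
    first | rfl | (exact absurd (by norm_num) h0)

lemma d1i_sum (F : Finset E) (σ : S) : ∑ T ∈ F.powerset, d1i F T σ = 1 := by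
  have h := Finset.prod_add (fun e => (1 - bond σ e) / 2) (fun e => (1 + bond σ e) / 2) F
  have h1 : ∏ e ∈ F, ((1 - bond σ e) / 2 + (1 + bond σ e) / 2) = 1 :=
    Finset.prod_eq_one fun e _ => by ring
  rw [← h1, h]
  refine Finset.sum_congr rfl fun T hT => ?_
  rw [d1i, ← Finset.prod_sdiff (Finset.mem_powerset.1 hT), mul_comm]
  congr 1
  · exact Finset.prod_congr rfl fun e he => by rw [d1s, if_pos he]; ring
  · exact Finset.prod_congr rfl fun e he => by
      rw [d1s, if_neg (Finset.mem_sdiff.1 he).2]; ring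

lemma d1cint (μ : Measure S) [IsFiniteMeasure μ] {g : S → ℝ} (hg : Continuous g) :
    Integrable g μ := by
  obtain ⟨C, hC⟩ := exists_bound hg
  exact integrable_of_bdd hg.measurable C hC

lemma d1int (F : Finset E) (μ : Measure S) [IsFiniteMeasure μ] (u : W) {g : S → ℝ}
    (hg : Continuous g) : Integrable (fun σ => g σ * Real.exp (en u F σ)) μ :=
  d1cint μ (hg.mul (continuous_en u F).rexp)

lemma d1eq (F : Finset E) (μ : Measure S) [IsFiniteMeasure μ] (u : W) {g : S → ℝ}
    (hg : Continuous g) : ∫ σ, g σ * Real.exp (en u F σ) ∂μ =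
      ∑ T ∈ F.powerset, (∫ σ, g σ * d1i F T σ ∂μ) * Real.exp (∑ e ∈ F, u e * d1s T e) := by
  simp only [← integral_mul_const]
  refine Eq.trans ?_ (integral_finsetSum _ fun T _ =>
    (d1cint μ (g := fun σ => g σ * d1i F T σ) (hg.mul (d1i_cont F T))).mul_const _)
  refine integral_congr_ae (Eventually.of_forall fun σ => ?_)
  have e1 : g σ * Real.exp (en u F σ) =
      ∑ T ∈ F.powerset, g σ * d1i F T σ * Real.exp (en u F σ) := by
    rw [← Finset.sum_mul, ← Finset.mul_sum, d1i_sum, mul_one]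
  refine e1.trans (Finset.sum_congr rfl fun T _ => ?_)
  by_cases h : d1i F T σ = 0
  · rw [h, mul_zero, zero_mul, zero_mul]
  · rw [en, Finset.sum_congr rfl fun e he => by rw [d1i_ne h he]]

lemma d1cont (F : Finset E) (μ : Measure S) [IsFiniteMeasure μ] {g : S → ℝ}
    (hg : Continuous g) : Continuous fun u : W => ∫ σ, g σ * Real.exp (en u F σ) ∂μ := by
  simp only [d1eq F μ _ hg]
  exact continuous_finsetSum _ fun T _ => continuous_const.mul
    (continuous_finsetSum _ fun e _ => (continuous_apply e).mul continuous_const).rexp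

lemma d1der (F : Finset E) (μ : Measure S) [IsFiniteMeasure μ] {g : S → ℝ}
    (hg : Continuous g) {u : ℝ → W} {u' : W} {t : ℝ}
    (hu : ∀ e ∈ F, HasDerivAt (fun s => u s e) (u' e) t) :
    HasDerivAt (fun s => ∫ σ, g σ * Real.exp (en (u s) F σ) ∂μ)
      (∑ e ∈ F, u' e * ∫ σ, g σ * bond σ e * Real.exp (en (u t) F σ) ∂μ) t := by
  have h1 : HasDerivAt (fun s => ∑ T ∈ F.powerset, (∫ σ, g σ * d1i F T σ ∂μ) *
      Real.exp (∑ e ∈ F, u s e * d1s T e)) (∑ T ∈ F.powerset, (∫ σ, g σ * d1i F T σ ∂μ) *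
      (Real.exp (∑ e ∈ F, u t e * d1s T e) * ∑ e ∈ F, u' e * d1s T e)) t :=
    HasDerivAt.fun_sum fun T _ =>
      (HasDerivAt.fun_sum fun e he => (hu e he).mul_const (d1s T e)).exp.const_mul _
  have h2 : ∀ e ∈ F, u' e * ∫ σ, g σ * bond σ e * Real.exp (en (u t) F σ) ∂μ =
      ∑ T ∈ F.powerset, (∫ σ, g σ * d1i F T σ ∂μ) *
        (Real.exp (∑ e ∈ F, u t e * d1s T e) * (u' e * d1s T e)) := by
    intro e he
    rw [d1eq F μ (u t) (g := fun σ => g σ * bond σ e) (hg.mul (continuous_bond e)),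
      Finset.mul_sum]
    refine Finset.sum_congr rfl fun T _ => ?_
    have h3 : ∫ σ, g σ * bond σ e * d1i F T σ ∂μ = (∫ σ, g σ * d1i F T σ ∂μ) * d1s T e := by
      rw [← integral_mul_const]
      refine integral_congr_ae (Eventually.of_forall fun σ => ?_)
      by_cases h : d1i F T σ = 0
      · simp only [h, mul_zero, zero_mul]
      · simp only [d1i_ne h he]; ring
    rw [h3]; ring
  rw [Finset.sum_congr rfl h2, Finset.sum_comm]
  simp only [d1eq F μ _ hg, ← Finset.mul_sum]
  exact h1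

lemma d1lz (F : Finset E) (μ : Measure S) (u : W) :
    lz F μ u = ∫ σ, (1 : ℝ) * Real.exp (en u F σ) ∂μ := by simp only [lz, one_mul]

lemma d1lz_nonneg (F : Finset E) (μ : Measure S) (u : W) : 0 ≤ lz F μ u :=
  integral_nonneg fun _ => (Real.exp_pos _).le

lemma d1lz_pos (F : Finset E) (μ : Measure S) [IsFiniteMeasure μ] [NeZero μ] (u : W) :
    0 < lz F μ u :=
  integral_exp_pos (d1cint μ (continuous_en u F).rexp)

lemma d1abs_av (F : Finset E) (μ : Measure S) [IsFiniteMeasure μ] (u : W) {g : S → ℝ}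
    (hg : ∀ σ, |g σ| ≤ 1) : |av F μ u g| ≤ 1 := by
  rw [av, abs_div, abs_of_nonneg (d1lz_nonneg F μ u)]
  refine div_le_one_of_le₀ ?_ (d1lz_nonneg F μ u)
  rw [← Real.norm_eq_abs]
  refine norm_integral_le_of_norm_le (d1cint μ (continuous_en u F).rexp)
    (Eventually.of_forall fun σ => ?_)
  rw [Real.norm_eq_abs, abs_mul, abs_of_pos (Real.exp_pos _)]
  exact mul_le_of_le_one_left (Real.exp_pos _).le (hg σ)

lemma d1av_nonneg (F : Finset E) (μ : Measure S) (u : W) {g : S → ℝ} (hg : ∀ σ, 0 ≤ g σ) :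
    0 ≤ av F μ u g :=
  div_nonneg (integral_nonneg fun σ => mul_nonneg (hg σ) (Real.exp_pos _).le)
    (d1lz_nonneg F μ u)

lemma d1av_smul (F : Finset E) (μ : Measure S) (u : W) (c : ℝ) (g : S → ℝ) :
    av F μ u (fun σ => c * g σ) = c * av F μ u g := by
  simp only [av, mul_assoc, integral_const_mul, mul_div_assoc]

lemma d1av_sum {ι : Type*} (F : Finset E) (μ : Measure S) [IsFiniteMeasure μ] (u : W)
    (I : Finset ι) {g : ι → S → ℝ} (hg : ∀ i, Continuous (g i)) :
    av F μ u (fun σ => ∑ i ∈ I, g i σ) = ∑ i ∈ I, av F μ u (g i) := by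
  simp only [av, Finset.sum_mul, ← Finset.sum_div]
  rw [integral_finsetSum _ fun i _ => d1int F μ u (hg i)]

lemma d1av_add (F : Finset E) (μ : Measure S) [IsFiniteMeasure μ] (u : W)
    {g g' : S → ℝ} (hg : Continuous g) (hg' : Continuous g') :
    av F μ u (fun σ => g σ + g' σ) = av F μ u g + av F μ u g' := by
  simp only [av, add_mul, ← add_div]
  rw [integral_add (d1int F μ u hg) (d1int F μ u hg')]

lemma d1av_const (F : Finset E) (μ : Measure S) [IsFiniteMeasure μ] [NeZero μ] (u : W) (c : ℝ) :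
    av F μ u (fun _ => c) = c := by
  rw [av, integral_const_mul, ← lz, mul_div_assoc, div_self (d1lz_pos F μ u).ne', mul_one]

lemma d1cv_eq (F : Finset E) (μ : Measure S) [IsFiniteMeasure μ] [NeZero μ] (u : W) (e e' : E) :
    cv F μ u e e' =
      av F μ u fun σ => (bond σ e - gb F μ u e) * (bond σ e' - gb F μ u e') := by
  have e1 : (fun σ => (bond σ e - gb F μ u e) * (bond σ e' - gb F μ u e')) =
      fun σ => (bond σ e * bond σ e' + (-gb F μ u e') * bond σ e) +
        ((-gb F μ u e) * bond σ e' + gb F μ u e * gb F μ u e') := by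
    funext σ; ring
  have c1 := continuous_bond e
  have c2 := continuous_bond e'
  rw [e1, d1av_add F μ u (by fun_prop) (by fun_prop), d1av_add F μ u (by fun_prop) (by fun_prop),
    d1av_add F μ u (by fun_prop) (by fun_prop), d1av_smul, d1av_smul, d1av_const,
    ← gb, ← gb, cv]
  ring

lemma d1mix (F : Finset E) (μ : Measure S) [IsFiniteMeasure μ] [NeZero μ] (u : W)
    (a : E → E → ℝ) : ∑ e ∈ F, ∑ e' ∈ F, a e e' * cv F μ u e e' =
      av F μ u fun σ => ∑ e ∈ F, ∑ e' ∈ F,
        a e e' * ((bond σ e - gb F μ u e) * (bond σ e' - gb F μ u e')) := by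
  have hc : ∀ e e', Continuous fun σ : S =>
      a e e' * ((bond σ e - gb F μ u e) * (bond σ e' - gb F μ u e')) := fun e e' =>
    continuous_const.mul (((continuous_bond e).sub continuous_const).mul
      ((continuous_bond e').sub continuous_const))
  rw [d1av_sum F μ u F fun e => continuous_finsetSum _ fun e' _ => hc e e']
  refine Finset.sum_congr rfl fun e _ => ?_
  rw [d1av_sum F μ u F (hc e)]
  exact Finset.sum_congr rfl fun e' _ => by rw [d1av_smul, d1cv_eq]

lemma d1quad (F : Finset E) (μ : Measure S) [IsFiniteMeasure μ] [NeZero μ] (u : W) (c : E → ℝ) :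
    0 ≤ ∑ e ∈ F, ∑ e' ∈ F, c e * c e' * cv F μ u e e' := by
  rw [d1mix F μ u fun e e' => c e * c e']
  refine d1av_nonneg F μ u fun σ => ?_
  have e1 : ∑ e ∈ F, ∑ e' ∈ F,
      c e * c e' * ((bond σ e - gb F μ u e) * (bond σ e' - gb F μ u e')) =
      (∑ e ∈ F, c e * (bond σ e - gb F μ u e)) * ∑ e ∈ F, c e * (bond σ e - gb F μ u e) := by
    rw [Finset.sum_mul_sum]
    exact Finset.sum_congr rfl fun e _ => Finset.sum_congr rfl fun e' _ => by ring
  rw [e1]
  exact mul_self_nonneg _

lemma d1lip (F : Finset E) (μ : Measure S) [IsFiniteMeasure μ] [NeZero μ] (u u' : W) :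
    Real.log (lz F μ u) - Real.log (lz F μ u') ≤ ∑ e ∈ F, |u e - u' e| := by
  have h : lz F μ u ≤ Real.exp (∑ e ∈ F, |u e - u' e|) * lz F μ u' := by
    rw [lz, lz, ← integral_const_mul]
    refine integral_mono (d1cint μ (continuous_en u F).rexp)
      ((d1cint μ (continuous_en u' F).rexp).const_mul _) fun σ => ?_
    have h1 : en u F σ = en (u - u') F σ + en u' F σ := by
      rw [← en_add, sub_add_cancel]
    have h2 := (le_abs_self _).trans (abs_en_le (u - u') F σ)
    simp only [Pi.sub_apply] at h2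
    simp only [← Real.exp_add]
    exact Real.exp_le_exp.2 (by linarith)
  have h2 := Real.log_le_log (d1lz_pos F μ u) h
  rw [Real.log_mul (Real.exp_pos _).ne' (d1lz_pos F μ u').ne', Real.log_exp] at h2
  linarith

lemma d1der_lz (F : Finset E) (μ : Measure S) [IsFiniteMeasure μ] [NeZero μ] {u : ℝ → W}
    {u' : W} {t : ℝ} (hu : ∀ e ∈ F, HasDerivAt (fun s => u s e) (u' e) t) :
    HasDerivAt (fun s => lz F μ (u s))
      ((∑ e ∈ F, u' e * gb F μ (u t) e) * lz F μ (u t)) t := by
  have h := d1der F μ (g := fun _ => 1) continuous_const hu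
  simp only [one_mul] at h
  have e1 : (∑ e ∈ F, u' e * gb F μ (u t) e) * lz F μ (u t) =
      ∑ e ∈ F, u' e * ∫ σ, bond σ e * Real.exp (en (u t) F σ) ∂μ := by
    rw [Finset.sum_mul]
    refine Finset.sum_congr rfl fun e _ => ?_
    rw [gb, av, mul_assoc, div_mul_cancel₀ _ (d1lz_pos F μ (u t)).ne']
  rw [e1]
  exact h

theorem lz_pos (F : Finset E) (μ : Measure S) [IsFiniteMeasure μ] [NeZero μ] (u : W) :
    0 < lz F μ u := d1lz_pos F μ u

theorem abs_gb_le (F : Finset E) (μ : Measure S) [IsFiniteMeasure μ] (u : W) (e : E) :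
    |gb F μ u e| ≤ 1 := d1abs_av F μ u fun σ => (abs_bond σ e).le

theorem abs_cv_le (F : Finset E) (μ : Measure S) [IsFiniteMeasure μ] (u : W) (e e' : E) :
    |cv F μ u e e'| ≤ 2 := by
  have h1 : |av F μ u fun σ => bond σ e * bond σ e'| ≤ 1 :=
    d1abs_av F μ u fun σ => by rw [abs_mul, abs_bond, abs_bond, mul_one]
  have h2 : |gb F μ u e * gb F μ u e'| ≤ 1 := by
    rw [abs_mul]
    exact mul_le_one₀ (abs_gb_le F μ u e) (abs_nonneg _) (abs_gb_le F μ u e')
  have h3 := abs_sub (av F μ u fun σ => bond σ e * bond σ e') (gb F μ u e * gb F μ u e')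
  rw [cv]
  linarith

theorem continuous_lz (F : Finset E) (μ : Measure S) [IsFiniteMeasure μ] :
    Continuous (lz F μ) := by
  have h := d1cont F μ (g := fun _ => 1) continuous_const
  simp only [one_mul] at h
  exact h

theorem continuous_gb (F : Finset E) (μ : Measure S) [IsFiniteMeasure μ] [NeZero μ] (e : E) :
    Continuous fun u => gb F μ u e :=
  (d1cont F μ (continuous_bond e)).div (continuous_lz F μ) fun u => (lz_pos F μ u).ne'

theorem continuous_cv (F : Finset E) (μ : Measure S) [IsFiniteMeasure μ] [NeZero μ] (e e' : E) :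
    Continuous fun u => cv F μ u e e' :=
  ((d1cont F μ ((continuous_bond e).mul (continuous_bond e'))).div (continuous_lz F μ)
    fun u => (lz_pos F μ u).ne').sub ((continuous_gb F μ e).mul (continuous_gb F μ e'))

theorem hasDerivAt_lz (F : Finset E) (μ : Measure S) [IsFiniteMeasure μ] [NeZero μ] {u : ℝ → W}
    {u' : W} {t : ℝ} (hu : ∀ e ∈ F, HasDerivAt (fun s => u s e) (u' e) t) :
    HasDerivAt (fun s => Real.log (lz F μ (u s))) (∑ e ∈ F, u' e * gb F μ (u t) e) t := by
  have h := (d1der_lz F μ hu).log (lz_pos F μ (u t)).ne'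
  rwa [mul_div_assoc, div_self (lz_pos F μ (u t)).ne', mul_one] at h

theorem hasDerivAt_gb (F : Finset E) (μ : Measure S) [IsFiniteMeasure μ] [NeZero μ] {u : ℝ → W}
    {u' : W} {t : ℝ} (hu : ∀ e ∈ F, HasDerivAt (fun s => u s e) (u' e) t) (e : E) :
    HasDerivAt (fun s => gb F μ (u s) e) (∑ e' ∈ F, u' e' * cv F μ (u t) e e') t := by
  have hz := (lz_pos F μ (u t)).ne'
  have h := (d1der F μ (continuous_bond e) hu).fun_div (d1der_lz F μ hu) hz
  have e1 : ∑ e' ∈ F, u' e' * ∫ σ, bond σ e * bond σ e' * Real.exp (en (u t) F σ) ∂μ =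
      (∑ e' ∈ F, u' e' * cv F μ (u t) e e' +
        gb F μ (u t) e * ∑ e' ∈ F, u' e' * gb F μ (u t) e') * lz F μ (u t) := by
    rw [Finset.mul_sum, ← Finset.sum_add_distrib, Finset.sum_mul]
    refine Finset.sum_congr rfl fun e' _ => ?_
    rw [cv, av]
    field_simp
    ring
  have e2 : ∫ σ, bond σ e * Real.exp (en (u t) F σ) ∂μ = gb F μ (u t) e * lz F μ (u t) := by
    rw [gb, av, div_mul_cancel₀ _ hz]
  rw [e1, e2] at h
  refine HasDerivAt.congr_deriv h ?_
  field_simp
  ring

theorem cv_psd (F : Finset E) (μ μ' : Measure S) [IsFiniteMeasure μ] [NeZero μ]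
    [IsFiniteMeasure μ'] [NeZero μ'] (u u' : W) :
    0 ≤ ∑ e ∈ F, ∑ e' ∈ F, cv F μ u e e' * cv F μ' u' e e' := by
  have e1 : ∑ e ∈ F, ∑ e' ∈ F, cv F μ u e e' * cv F μ' u' e e' =
      ∑ e ∈ F, ∑ e' ∈ F, cv F μ' u' e e' * cv F μ u e e' :=
    Finset.sum_congr rfl fun e _ => Finset.sum_congr rfl fun e' _ => mul_comm _ _
  rw [e1, d1mix F μ u (cv F μ' u')]
  refine d1av_nonneg F μ u fun σ => ?_
  refine (d1quad F μ' u' fun e => bond σ e - gb F μ u e).trans (le_of_eq ?_)
  exact Finset.sum_congr rfl fun e _ => Finset.sum_congr rfl fun e' _ => mul_comm _ _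

theorem log_lz_lip (F : Finset E) (μ : Measure S) [IsFiniteMeasure μ] [NeZero μ] (u u' : W) :
    |Real.log (lz F μ u) - Real.log (lz F μ u')| ≤ ∑ e ∈ F, |u e - u' e| := by
  refine abs_sub_le_iff.2 ⟨d1lip F μ u u', (d1lip F μ u' u).trans (le_of_eq ?_)⟩
  exact Finset.sum_congr rfl fun e _ => abs_sub_comm _ _

end Pool.Agent.MP_c70b3b_mp.Cg

end

section

open MeasureTheory ProbabilityTheory Filter Topology BoundedContinuousFunction
open scoped symmDiff ENNReal

namespace Pool.Agent.MP_c70b3b_mp.Cg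

variable {β : ℝ} {κ : Kernel W S} {π : Kernel (W × S) S} {m : ℕ → ℕ}

lemma ta_ev (e : E) : Integrable (fun w : W => w e) P :=
  ((measurePreserving_eval_infinitePi (fun _ : E => gaussianReal 0 1) e).integrable_comp
    (by fun_prop)).2 ((memLp_id_gaussianReal' (μ := 0) (v := 1) 1 (by simp)).integrable le_rfl)

lemma ta_ev1 (e : E) : Integrable (fun p : W × W => p.1 e) (P.prod P) :=
  (ta_ev e).comp_fst P

lemma ta_ev2 (e : E) : Integrable (fun p : W × W => p.2 e) (P.prod P) :=
  (ta_ev e).comp_snd P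

lemma ta_bdd {X : Type} [TopologicalSpace X] [MeasurableSpace X] [OpensMeasurableSpace X]
    {ν : Measure X} [IsFiniteMeasure ν] {f : X → ℝ} (hf : Continuous f) (C : ℝ)
    (hb : ∀ x, |f x| ≤ C) : Integrable f ν :=
  Integrable.of_bound hf.measurable.aestronglyMeasurable C (Eventually.of_forall hb)

lemma ta_mul {a b A B : ℝ} (ha : |a| ≤ A) (hb : |b| ≤ B) : |a * b| ≤ A * B := by
  rw [abs_mul]
  exact mul_le_mul ha hb (abs_nonneg _) ((abs_nonneg _).trans ha)

lemma ta_chg {T : W × W → W × W} (hT : MeasurePreserving T (P.prod P) (P.prod P))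
    {H : W × W → ℝ} (hH : Continuous H) : ∫ p, H (T p) ∂P.prod P = ∫ p, H p ∂P.prod P := by
  rw [← integral_map hT.measurable.aemeasurable hH.measurable.aestronglyMeasurable, hT.map_eq]

section

variable (β) (F : Finset E) (μ μ' : Measure S) [IsFiniteMeasure μ] [NeZero μ]
  [IsFiniteMeasure μ'] [NeZero μ']

lemma ta_ibp (a : W) (c : ℝ) (e : E) {e' : E} (he' : e' ∈ F) :
    ∫ y, y e' * gb F μ (a + c • y) e ∂P = ∫ y, c * cv F μ (a + c • y) e e' ∂P := by
  have c0 : Continuous fun y : W => a + c • y := by fun_prop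
  have c1 : Continuous fun y : W => gb F μ (a + c • y) e := (continuous_gb F μ e).comp c0
  have c2 : Continuous fun y : W => c * cv F μ (a + c • y) e e' :=
    continuous_const.mul ((continuous_cv F μ e e').comp c0)
  refine ibp e' c1.measurable c2.measurable
    (MemLp.of_bound c1.measurable.aestronglyMeasurable 1
      (Eventually.of_forall fun y => abs_gb_le F μ _ e)) (|c| * 2)
    (fun y => ta_mul le_rfl (abs_cv_le F μ _ e e')) fun w t => ?_
  have h := hasDerivAt_gb F μ (u := fun s => a + c • (w + Pi.single e' s))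
    (u' := Pi.single e' c) (t := t) (fun f _ => ?_) e
  · rwa [Finset.sum_eq_single_of_mem e' he' fun f _ hf => by
      rw [Pi.single_eq_of_ne hf, zero_mul], Pi.single_eq_same] at h
  · by_cases hf : f = e'
    · subst hf
      simp only [Pi.add_apply, Pi.smul_apply, Pi.single_eq_same, smul_eq_mul]
      simpa using (((hasDerivAt_id t).const_add (w f)).const_mul c).const_add (a f)
    · simp only [Pi.add_apply, Pi.smul_apply, Pi.single_eq_of_ne hf]
      exact hasDerivAt_const _ _

lemma ta_inner (a a' : W) {c : ℝ} (hc : β * c ≤ 0) :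
    ∫ y, ∑ e ∈ F, gb F μ (a + c • y) e * ∑ e' ∈ F, β * y e' * cv F μ' a' e e' ∂P ≤ 0 := by
  have c0 : Continuous fun y : W => a + c • y := by fun_prop
  have i1 : ∀ e e', Integrable
      (fun y : W => β * cv F μ' a' e e' * (y e' * gb F μ (a + c • y) e)) P := fun e e' =>
    ((ta_ev e').mul_bdd ((continuous_gb F μ e).comp c0).measurable.aestronglyMeasurable
      (Eventually.of_forall fun y => abs_gb_le F μ _ e)).const_mul _
  have i2 : ∀ e e', Integrable
      (fun y : W => β * cv F μ' a' e e' * (c * cv F μ (a + c • y) e e')) P := fun e e' =>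
    ((ta_bdd ((continuous_cv F μ e e').comp c0) 2 fun y => abs_cv_le F μ _ e e').const_mul
      _).const_mul _
  have e1 : ∀ y : W, ∑ e ∈ F, gb F μ (a + c • y) e * ∑ e' ∈ F, β * y e' * cv F μ' a' e e' =
      ∑ e ∈ F, ∑ e' ∈ F, β * cv F μ' a' e e' * (y e' * gb F μ (a + c • y) e) := fun y =>
    Finset.sum_congr rfl fun e _ => by
      rw [Finset.mul_sum]
      exact Finset.sum_congr rfl fun e' _ => by ring
  simp_rw [e1]
  rw [integral_finsetSum _ fun e _ => integrable_finsetSum _ fun e' _ => i1 e e',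
    Finset.sum_congr rfl fun e _ => (integral_finsetSum _ fun e' _ => i1 e e').trans
      ((Finset.sum_congr rfl fun e' he' => by
        rw [integral_const_mul, ta_ibp F μ a c e he', ← integral_const_mul]).trans
        (integral_finsetSum _ fun e' _ => i2 e e').symm),
    ← integral_finsetSum _ fun e _ => integrable_finsetSum _ fun e' _ => i2 e e']
  refine integral_nonpos fun y => ?_
  have e2 : ∑ e ∈ F, ∑ e' ∈ F, β * cv F μ' a' e e' * (c * cv F μ (a + c • y) e e') =
      β * c * ∑ e ∈ F, ∑ e' ∈ F, cv F μ (a + c • y) e e' * cv F μ' a' e e' := by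
    simp only [Finset.mul_sum]
    exact Finset.sum_congr rfl fun e _ => Finset.sum_congr rfl fun e' _ => by ring
  exact e2.le.trans (mul_nonpos_of_nonpos_of_nonneg hc (cv_psd F μ μ' _ _))

/-- The derivative of the integrand. -/
noncomputable def taD (s : ℝ) (p : W × W) : ℝ :=
  ∑ e ∈ F, gb F μ (β • p.1) e * ∑ e' ∈ F, β * (rot s p).2 e' * cv F μ' (β • (rot s p).1) e e'

/-- The integrand. -/
noncomputable def taF (s : ℝ) (p : W × W) : ℝ :=
  ∑ e ∈ F, gb F μ (β • p.1) e * gb F μ' (β • (rot s p).1) e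

/-- The derivative of the integrand in rotated coordinates. -/
noncomputable def taH (b c : ℝ) (q : W × W) : ℝ :=
  ∑ e ∈ F, gb F μ (b • q.1 + c • q.2) e * ∑ e' ∈ F, β * q.2 e' * cv F μ' (β • q.1) e e'

lemma ta_contH (b c : ℝ) : Continuous (taH β F μ μ' b c) := by
  have c0 : Continuous fun q : W × W => b • q.1 + c • q.2 := by fun_prop
  have c1 : Continuous fun q : W × W => β • q.1 := by fun_prop
  refine continuous_finsetSum _ fun e _ => ((continuous_gb F μ e).comp c0).mul
    (continuous_finsetSum _ fun e' _ => ?_)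
  have c2 : Continuous fun q : W × W => β * q.2 e' := by fun_prop
  exact c2.mul ((continuous_cv F μ' e e').comp c1)

lemma ta_intH (b c : ℝ) : Integrable (taH β F μ μ' b c) (P.prod P) := by
  have c0 : Continuous fun q : W × W => b • q.1 + c • q.2 := by fun_prop
  have c1 : Continuous fun q : W × W => β • q.1 := by fun_prop
  refine integrable_finsetSum _ fun e _ => ?_
  have c2 : Continuous fun q : W × W => gb F μ (b • q.1 + c • q.2) e :=
    (continuous_gb F μ e).comp c0
  refine Integrable.bdd_mul (integrable_finsetSum _ fun e' _ => ?_)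
    c2.measurable.aestronglyMeasurable (Eventually.of_forall fun y => abs_gb_le F μ _ e)
  have c3 : Continuous fun q : W × W => cv F μ' (β • q.1) e e' :=
    (continuous_cv F μ' e e').comp c1
  exact ((ta_ev2 e').const_mul β).mul_bdd c3.measurable.aestronglyMeasurable
    (Eventually.of_forall fun y => abs_cv_le F μ' _ e e')

lemma ta_nonpos {s : ℝ} (hs : 0 ≤ Real.sin s) : ∫ p, taD β F μ μ' s p ∂P.prod P ≤ 0 := by
  have e1 : ∀ p, taD β F μ μ' s p =
      taH β F μ μ' (β * Real.cos s) (-(β * Real.sin s)) (rot s p) := fun p => by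
    have : (β * Real.cos s) • (rot s p).1 + (-(β * Real.sin s)) • (rot s p).2 = β • p.1 := by
      funext e
      simp only [rot, Pi.add_apply, Pi.smul_apply, smul_eq_mul]
      linear_combination β * p.1 e * Real.cos_sq_add_sin_sq s
    rw [taD, taH, this]
  simp_rw [e1]
  rw [ta_chg (mp_rot s) (ta_contH β F μ μ' _ _), integral_prod _ (ta_intH β F μ μ' _ _)]
  refine integral_nonpos fun a => ?_
  refine ta_inner β F μ μ' ((β * Real.cos s) • a) (β • a) (c := -(β * Real.sin s)) ?_
  nlinarith [mul_nonneg (mul_self_nonneg β) hs]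

lemma ta_contF (s : ℝ) : Continuous (taF β F μ μ' s) :=
  continuous_finsetSum _ fun e _ =>
    ((continuous_gb F μ e).comp (continuous_fst.const_smul β)).mul
      ((continuous_gb F μ' e).comp ((continuous_rot s).fst.const_smul β))

lemma ta_deriv (s : ℝ) : HasDerivAt (fun s => ∫ p, taF β F μ μ' s p ∂P.prod P)
    (∫ p, taD β F μ μ' s p ∂P.prod P) s := by
  have cD : Continuous (taD β F μ μ' s) := continuous_finsetSum _ fun e _ =>
    ((continuous_gb F μ e).comp (continuous_fst.const_smul β)).mul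
      (continuous_finsetSum _ fun e' _ => (continuous_const.mul
        ((continuous_apply e').comp (continuous_rot s).snd)).mul
        ((continuous_cv F μ' e e').comp ((continuous_rot s).fst.const_smul β)))
  refine (hasDerivAt_integral_of_dominated_loc_of_deriv_le (s := Set.univ) (F' := taD β F μ μ')
    (bound := fun p => ∑ _e ∈ F, 1 * ∑ e' ∈ F, |β| * (|p.1 e'| + |p.2 e'|) * 2) univ_mem
    (Eventually.of_forall fun x => (ta_contF β F μ μ' x).measurable.aestronglyMeasurable)
    (ta_bdd (ta_contF β F μ μ' s) (∑ _e ∈ F, 1 * 1) fun p =>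
      (Finset.abs_sum_le_sum_abs _ _).trans (Finset.sum_le_sum fun e _ =>
        ta_mul (abs_gb_le F μ _ e) (abs_gb_le F μ' _ e)))
    cD.measurable.aestronglyMeasurable (Eventually.of_forall fun p x _ => ?_)
    (integrable_finsetSum _ fun e _ => (integrable_finsetSum _ fun e' _ =>
      ((((ta_ev1 e').abs.add (ta_ev2 e').abs).const_mul _).mul_const _)).const_mul _)
    (Eventually.of_forall fun p x _ => ?_)).2
  · refine (Finset.abs_sum_le_sum_abs _ _).trans (Finset.sum_le_sum fun e _ =>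
      ta_mul (abs_gb_le F μ _ e) ((Finset.abs_sum_le_sum_abs _ _).trans
        (Finset.sum_le_sum fun e' _ => ta_mul (ta_mul le_rfl ?_) (abs_cv_le F μ' _ e e'))))
    refine (abs_add_le _ _).trans (add_le_add ?_ ?_)
    · simpa using ta_mul (Real.abs_sin_le_one x) (le_refl |p.1 e'|)
    · simpa using ta_mul (Real.abs_cos_le_one x) (le_refl |p.2 e'|)
  · refine HasDerivAt.fun_sum fun e _ => HasDerivAt.const_mul _ ?_
    refine hasDerivAt_gb F μ' (u := fun s => β • (rot s p).1) (u' := β • (rot x p).2)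
      (fun f _ => ?_) e
    exact (((Real.hasDerivAt_cos x).mul_const (p.1 f)).add
      ((Real.hasDerivAt_sin x).mul_const (p.2 f))).const_mul β

end

theorem toolA (β : ℝ) (F : Finset E) (μ μ' : Measure S) [IsFiniteMeasure μ] [NeZero μ]
    [IsFiniteMeasure μ'] [NeZero μ'] {t : ℝ} (h0 : 0 ≤ t) (h1 : t ≤ Real.pi) :
    0 ≤ ∫ p, ∑ e ∈ F, (gb F μ (β • p.1) e - gb F μ (β • (rot t p).1) e) *
      (gb F μ' (β • p.1) e - gb F μ' (β • (rot t p).1) e) ∂P.prod P := by
  have anti : AntitoneOn (fun s => ∫ p, taF β F μ μ' s p ∂P.prod P) (Set.Icc 0 Real.pi) :=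
    antitoneOn_of_deriv_nonpos (convex_Icc _ _)
      (fun x _ => (ta_deriv β F μ μ' x).continuousAt.continuousWithinAt)
      (fun x _ => (ta_deriv β F μ μ' x).differentiableAt.differentiableWithinAt) fun x hx => by
        rw [(ta_deriv β F μ μ' x).deriv]
        exact ta_nonpos β F μ μ' (Real.sin_nonneg_of_mem_Icc (interior_subset hx))
  have hle := anti ⟨le_rfl, Real.pi_pos.le⟩ ⟨h0, h1⟩ h0
  have mR : MeasurePreserving (fun p => (rot (t - Real.pi / 2) p).swap) (P.prod P) (P.prod P) :=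
    Measure.measurePreserving_swap.comp (mp_rot _)
  have iF : ∀ s, Integrable (taF β F μ μ' s) (P.prod P) := fun s =>
    ta_bdd (ta_contF β F μ μ' s) (∑ _e ∈ F, 1 * 1) fun p =>
      (Finset.abs_sum_le_sum_abs _ _).trans (Finset.sum_le_sum fun e _ =>
        ta_mul (abs_gb_le F μ _ e) (abs_gb_le F μ' _ e))
  have r0 : ∀ p : W × W, (rot 0 p).1 = p.1 := fun p => by simp [rot]
  have e1 : ∀ p : W × W, ∑ e ∈ F, (gb F μ (β • p.1) e - gb F μ (β • (rot t p).1) e) *
      (gb F μ' (β • p.1) e - gb F μ' (β • (rot t p).1) e) =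
      (taF β F μ μ' 0 p - taF β F μ μ' t p) + (taF β F μ μ' 0 (rot t p) -
        taF β F μ μ' t (rot (t - Real.pi / 2) p).swap) := fun p => by
    have a1 : (rot (t - Real.pi / 2) p).swap.1 = (rot t p).1 := by
      simp [rot, Real.sin_sub_pi_div_two, Real.cos_sub_pi_div_two]
    have a2 : (rot t (rot (t - Real.pi / 2) p).swap).1 = p.1 := by
      funext e
      simp only [rot, Real.sin_sub_pi_div_two, Real.cos_sub_pi_div_two, Prod.fst_swap,
        Prod.snd_swap, Pi.add_apply, Pi.smul_apply, smul_eq_mul]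
      linear_combination p.1 e * Real.cos_sq_add_sin_sq t
    simp only [taF, r0, a1, a2, ← Finset.sum_sub_distrib, ← Finset.sum_add_distrib]
    exact Finset.sum_congr rfl fun e _ => by ring
  have i1 : Integrable (fun p => taF β F μ μ' 0 (rot t p)) (P.prod P) :=
    (mp_rot t).integrable_comp_of_integrable (iF 0)
  have i2 : Integrable (fun p => taF β F μ μ' t (rot (t - Real.pi / 2) p).swap) (P.prod P) :=
    mR.integrable_comp_of_integrable (iF t)
  simp_rw [e1]
  rw [integral_add ((iF 0).sub' (iF t)) (i1.sub' i2), integral_sub (iF 0) (iF t),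
    integral_sub i1 i2, ta_chg (mp_rot t) (ta_contF β F μ μ' 0),
    ta_chg mR (ta_contF β F μ μ' t)]
  linarith

end Pool.Agent.MP_c70b3b_mp.Cg

end

section

open MeasureTheory ProbabilityTheory Filter Topology BoundedContinuousFunction
open scoped symmDiff ENNReal

namespace Pool.Agent.MP_c70b3b_mp.Cg

variable {β : ℝ} {κ : Kernel W S} {π : Kernel (W × S) S} {m : ℕ → ℕ}

theorem lb_coord (e : E) : MemLp (fun v : W => v e) 2 P :=
  (memLp_id_gaussianReal' 2 ENNReal.ofNat_ne_top).comp_measurePreserving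
    (measurePreserving_eval_infinitePi (fun _ : E => gaussianReal 0 1) e)

theorem lb_memLp {G : W → ℝ} (hG : Continuous G) (F : Finset E) (C B : ℝ)
    (h : ∀ v, |G v| ≤ C + B * ∑ e ∈ F, |v e|) : MemLp G 2 P :=
  ((memLp_const C).add ((memLp_finsetSum F fun e _ => (lb_coord e).abs).const_mul B)).mono'
    hG.aestronglyMeasurable (.of_forall h)

theorem lb_single {F : Finset E} {e : E} (he : e ∈ F) (s : ℝ) (d : E → ℝ) :
    ∑ e' ∈ F, s * (Pi.single e (1 : ℝ) : W) e' * d e' = s * d e := by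
  rw [Finset.sum_eq_single_of_mem e he fun e' _ h => by simp [Pi.single_eq_of_ne h]]
  simp

theorem lb_line (a w : W) (s r : ℝ) (e e' : E) :
    HasDerivAt (fun x : ℝ => (a + s • (w + Pi.single e x) : W) e')
      (s * (Pi.single e (1 : ℝ) : W) e') r := by
  by_cases h : e' = e
  · subst h
    simp only [Pi.add_apply, Pi.smul_apply, Pi.single_eq_same, smul_eq_mul]
    exact (((hasDerivAt_id r).const_add (w e')).const_mul s).const_add (a e')
  · simpa [Pi.single_eq_of_ne h] using hasDerivAt_const r (a e' + s * w e')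

theorem lb_lin (F : Finset E) (d : E → ℝ) : MemLp (fun v : W => ∑ e ∈ F, d e * v e) 2 P :=
  memLp_finsetSum F fun e _ => (lb_coord e).const_mul _

theorem lb_int (F : Finset E) (d : E → ℝ) {G : W → ℝ} (hG : MemLp G 2 P) :
    ∫ v, (∑ e ∈ F, d e * v e) * G v ∂P = ∑ e ∈ F, d e * ∫ v, v e * G v ∂P := by
  simp only [Finset.sum_mul, mul_assoc]
  rw [integral_finsetSum (f := fun e v => d e * (v e * G v)) _ fun e _ =>
    ((lb_coord e).integrable_mul hG).const_mul _]
  simp only [integral_const_mul]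

theorem lb_sq (F : Finset E) (d : E → ℝ) :
    ∫ v, (∑ e ∈ F, d e * v e) ^ 2 ∂P = ∑ e ∈ F, d e ^ 2 := by
  simp only [sq]
  rw [lb_int F d (lb_lin F d)]
  refine Finset.sum_congr rfl fun e he => ?_
  rw [ibp e (G' := fun _ => d e) (by fun_prop) measurable_const (lb_lin F d) _ (fun _ => le_rfl)
    fun w r => ?_, integral_const, probReal_univ, one_smul]
  have h := HasDerivAt.fun_sum (u := F) fun e' _ => (lb_line 0 w 1 r e e').mul_const (d e')
  rw [lb_single he, one_mul] at h
  simpa only [zero_add, one_smul, mul_comm] using h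

section

variable {F : Finset E} {Φ : W → ℝ} {D : W → E → ℝ} (hΦ : Continuous Φ)
  (hD : ∀ e, Continuous fun u => D u e) (hb : ∀ u e, |D u e| ≤ 2) {B : ℝ}
  (hL : ∀ u u', |Φ u - Φ u'| ≤ B * ∑ e ∈ F, |u e - u' e|)
  (hd : ∀ (γ : ℝ → W) (γ' : W) (r : ℝ), (∀ e ∈ F, HasDerivAt (fun s => γ s e) (γ' e) r) →
    HasDerivAt (fun s => Φ (γ s)) (β * ∑ e ∈ F, γ' e * D (γ r) e) r)

include hΦ hL in
theorem lb_two (a : W) (s : ℝ) : MemLp (fun v => Φ (a + s • v)) 2 P := by
  refine lb_memLp (by fun_prop) F |Φ a| (B * |s|) fun v => ?_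
  have h := hL (a + s • v) a
  simp only [Pi.add_apply, Pi.smul_apply, smul_eq_mul, add_sub_cancel_left, abs_mul,
    ← Finset.mul_sum] at h
  linarith [abs_sub_abs_le_abs_sub (Φ (a + s • v)) (Φ a)]

include hΦ hD hb hL hd in
theorem lb_inner (a : W) (s : ℝ) {d : E → ℝ} (h2 : ∀ e, |d e| ≤ 2) {l : ℝ} (hl : 0 < l) :
    β * s * ∫ v, ∑ e ∈ F, d e * D (a + s • v) e ∂P ≤
      2 * l * F.card + (∫ v, Φ (a + s • v) ^ 2 ∂P) / (2 * l) := by
  have hc : Continuous fun v : W => a + s • v := by fun_prop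
  have h1 := lb_two hΦ hL a s
  have h3 : β * s * ∫ v, ∑ e ∈ F, d e * D (a + s • v) e ∂P =
      ∫ v, (∑ e ∈ F, d e * v e) * Φ (a + s • v) ∂P := by
    rw [lb_int F d h1, integral_finsetSum (f := fun e v => d e * D (a + s • v) e) _ fun e _ =>
      (Integrable.of_bound ((hD e).comp hc).aestronglyMeasurable 2
        (.of_forall fun v => hb _ e)).const_mul _, Finset.mul_sum]
    refine Finset.sum_congr rfl fun e he => ?_
    rw [ibp e (G := fun v => Φ (a + s • v)) (G' := fun v => β * s * D (a + s • v) e)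
      (hΦ.comp hc).measurable
      (((hD e).comp hc).measurable.const_mul _) h1 (|β * s| * 2)
      (fun v => by rw [abs_mul]; exact mul_le_mul_of_nonneg_left (hb _ e) (abs_nonneg _))
      fun w r => ?_, integral_const_mul, integral_const_mul, mul_left_comm]
    have h := hd _ _ r fun e' _ => lb_line a w s r e e'
    rwa [lb_single he, ← mul_assoc] at h
  have h4 : ∑ e ∈ F, d e ^ 2 ≤ F.card * 4 := by
    rw [← nsmul_eq_mul]
    exact Finset.sum_le_card_nsmul _ _ _ fun e _ => by
      nlinarith [abs_le.1 (h2 e)]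
  have h5 := (lb_lin F d).integrable_sq.const_mul (l / 2)
  have h6 := h1.integrable_sq.div_const (2 * l)
  rw [h3]
  refine (integral_mono ((lb_lin F d).integrable_mul h1) (h5.add h6) fun v => ?_).trans ?_
  · have : ∀ x y : ℝ, x * y ≤ l / 2 * x ^ 2 + y ^ 2 / (2 * l) := fun x y => by
      have e : l / 2 * x ^ 2 + y ^ 2 / (2 * l) - x * y = (l * x - y) ^ 2 / (2 * l) := by
        field_simp
        ring
      have : 0 ≤ (l * x - y) ^ 2 / (2 * l) := by positivity
      linarith
    exact this _ _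
  · rw [integral_add' h5 h6, integral_const_mul, integral_div, lb_sq]
    nlinarith

include hΦ hD hb hL hd in
theorem lb_abs (t : ℝ) {l : ℝ} (hl : 0 < l) :
    β * Real.sin t * ∫ p, ∑ e ∈ F, D p.1 e * D (rot t p).1 e ∂P.prod P ≤
      2 * l * F.card + (∫ u, Φ u ^ 2 ∂P) / (2 * l) := by
  have hm : MeasurePreserving (fun p => (rot t p).1) (P.prod P) P :=
    measurePreserving_fst.comp (mp_rot t)
  have h0 : MemLp Φ 2 P := by simpa using lb_two hΦ hL 0 1
  have h1 : Integrable (fun p => Φ (rot t p).1 ^ 2) (P.prod P) :=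
    (h0.comp_measurePreserving hm).integrable_sq
  have h2 : Integrable (fun p : W × W => ∑ e ∈ F, D p.1 e * D (rot t p).1 e) (P.prod P) :=
    integrable_finsetSum _ fun e _ => .of_bound (((hD e).comp continuous_fst).mul
      ((hD e).comp (continuous_rot t).fst)).aestronglyMeasurable (2 * 2) (.of_forall fun p => by
        rw [norm_mul]
        exact mul_le_mul (hb _ e) (hb _ e) (norm_nonneg _) zero_le_two)
  have h3 : ∫ u, Φ u ^ 2 ∂P = ∫ p, Φ (rot t p).1 ^ 2 ∂P.prod P := by
    rw [← integral_map (f := fun u => Φ u ^ 2) hm.aemeasurable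
      (hΦ.pow 2).aestronglyMeasurable, hm.map_eq]
  have h4 := h1.integral_prod_left.div_const (2 * l)
  rw [h3, integral_prod _ h1, integral_prod _ h2, ← integral_const_mul, ← integral_div]
  refine (integral_mono (h2.integral_prod_left.const_mul _)
    ((integrable_const (2 * l * F.card)).add h4)
    fun u => lb_inner hΦ hD hb hL hd (Real.cos t • u) _ (hb u) hl).trans_eq ?_
  rw [integral_add' (integrable_const _) h4, integral_const, probReal_univ, one_smul]

end

theorem lower (β : ℝ) (F : Finset E) (μ μ' : Measure S) [IsFiniteMeasure μ] [NeZero μ]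
    [IsFiniteMeasure μ'] [NeZero μ'] (c t : ℝ) {l : ℝ} (hl : 0 < l) :
    β * Real.sin t * ∫ p, ∑ e ∈ F, (gb F μ (β • p.1) e - gb F μ' (β • p.1) e) *
      (gb F μ (β • (rot t p).1) e - gb F μ' (β • (rot t p).1) e) ∂P.prod P ≤
      2 * l * F.card + (∫ u, (Real.log (lz F μ (β • u)) - Real.log (lz F μ' (β • u)) + c) ^ 2 ∂P) /
        (2 * l) := by
  have hc : Continuous fun u : W => β • u := by fun_prop
  refine lb_abs (Φ := fun u => Real.log (lz F μ (β • u)) - Real.log (lz F μ' (β • u)) + c)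
    (D := fun u e => gb F μ (β • u) e - gb F μ' (β • u) e) (B := 2 * |β|)
    (((((continuous_lz F μ).comp hc).log fun u => (lz_pos F μ _).ne').sub
      (((continuous_lz F μ').comp hc).log fun u => (lz_pos F μ' _).ne')).add continuous_const)
    (fun e => ((continuous_gb F μ e).comp hc).sub ((continuous_gb F μ' e).comp hc))
    (fun u e => (abs_sub _ _).trans ((add_le_add (abs_gb_le F μ _ e) (abs_gb_le F μ' _ e)).trans_eq
      one_add_one_eq_two)) (fun u u' => ?_) (fun γ γ' r h => ?_) t hl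
  · have h1 := log_lz_lip F μ (β • u) (β • u')
    have h2 := log_lz_lip F μ' (β • u) (β • u')
    simp only [Pi.smul_apply, smul_eq_mul, ← mul_sub, abs_mul, ← Finset.mul_sum] at h1 h2
    rw [abs_le] at h1 h2 ⊢
    constructor <;> linarith [h1.1, h1.2, h2.1, h2.2]
  · have h1 : ∀ e ∈ F, HasDerivAt (fun s => (β • γ s) e) ((β • γ') e) r := fun e he =>
      (h e he).const_mul β
    refine (((hasDerivAt_lz F μ h1).sub (hasDerivAt_lz F μ' h1)).add_const c).congr_deriv ?_
    rw [← Finset.sum_sub_distrib, Finset.mul_sum]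
    exact Finset.sum_congr rfl fun e _ => by rw [Pi.smul_apply, smul_eq_mul]; ring

end Pool.Agent.MP_c70b3b_mp.Cg

end

section

open MeasureTheory ProbabilityTheory Filter Topology BoundedContinuousFunction
open scoped symmDiff ENNReal

namespace Pool.Agent.MP_c70b3b_mp.Cg

variable {β : ℝ} {κ : Kernel W S} {π : Kernel (W × S) S} {m : ℕ → ℕ}

lemma st_int {X Y : Type} [MeasurableSpace X] [MeasurableSpace Y] {μ : Measure X} {ν : Measure Y}
    {T : X → Y} (hT : MeasurePreserving T μ ν) {f : Y → ℝ} (hf : Measurable f) :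
    ∫ x, f (T x) ∂μ = ∫ y, f y ∂ν := by
  rw [← hT.map_eq, integral_map hT.measurable.aemeasurable hf.aestronglyMeasurable]

lemma st_mp1 (F : Finset E) :
    MeasurePreserving (fun x : W × W × W => mix F x.1 x.2.1) (P.prod (P.prod P)) P :=
  (mp_mix F).comp ((MeasurePreserving.id P).prod (measurePreserving_fst (μ := P) (ν := P)))

lemma st_mp2 (F : Finset E) (t : ℝ) :
    MeasurePreserving (fun x : W × W × W => mix F x.1 (rot t x.2).1) (P.prod (P.prod P)) P :=
  (st_mp1 F).comp ((MeasurePreserving.id P).prod (mp_rot t))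

lemma st_abs {x y : ℝ} (hx : |x| ≤ 1) (hy : |y| ≤ 1) : |(|x - y|)| ≤ 2 := by
  rw [abs_abs]
  linarith [abs_sub x y]

lemma st_small {g : W → ℝ} (hg : Continuous g) (hb : ∀ w, |g w| ≤ 1) (F : Finset E) {ε : ℝ}
    (hε : 0 < ε) : ∀ᶠ t : ℝ in 𝓝 0, ∫ x : W × W × W,
      |g (mix F x.1 x.2.1) - g (mix F x.1 (rot t x.2).1)| ∂P.prod (P.prod P) < ε := by
  have h2 : Tendsto (fun t : ℝ => ∫ x : W × W × W,
      |g (mix F x.1 x.2.1) - g (mix F x.1 (rot t x.2).1)| ∂P.prod (P.prod P)) (𝓝 0)
      (𝓝 (∫ _ : W × W × W, (0 : ℝ) ∂P.prod (P.prod P))) := by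
    refine tendsto_integral_filter_of_dominated_convergence (fun _ => 2)
      (Eventually.of_forall fun t => ?_) (Eventually.of_forall fun t =>
        Eventually.of_forall fun x => st_abs (hb _) (hb _)) (integrable_const _)
      (Eventually.of_forall fun x => ?_)
    · exact ((hg.measurable.comp (st_mp1 F).measurable).sub
        (hg.measurable.comp (st_mp2 F t).measurable)).abs.aestronglyMeasurable
    · have h1 : Continuous fun t : ℝ => (rot t x.2).1 := by unfold rot; fun_prop
      have h3 : Continuous fun t : ℝ => g (mix F x.1 (rot t x.2).1) :=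
        hg.comp ((continuous_mix F).comp (continuous_const.prodMk h1))
      have := ((h3.tendsto 0).const_sub (g (mix F x.1 x.2.1))).abs
      simpa [rot] using this
  rw [integral_zero] at h2
  exact h2.eventually (gt_mem_nhds hε)

theorem stable {a : W → ℝ} (ha : Measurable a) (hb : ∀ w, |a w| ≤ 1) {ε : ℝ} (hε : 0 < ε) :
    ∃ t : ℝ, 0 < t ∧ t < Real.pi ∧ ∀ (F : Finset E) (z : V),
      ∫ x : W × W × W, (a (shW z (mix F x.1 x.2.1)) - a (shW z (mix F x.1 (rot t x.2).1))) ^ 2
        ∂P.prod (P.prod P) ≤ ε := by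
  obtain ⟨B, g, hg, hd, hgb, hi⟩ := exists_local ha hb (show 0 < ε / 8 by positivity)
  have h1 := (eventually_all_finset B.powerset).2 fun F _ =>
    st_small hg hgb F (show 0 < ε / 8 by positivity)
  obtain ⟨t, ⟨ht, ht2⟩, ht1⟩ := (((h1.and (gt_mem_nhds Real.pi_pos)).filter_mono
    (nhdsWithin_le_nhds (s := Set.Ioi 0))).and self_mem_nhdsWithin).exists
  refine ⟨t, ht1, ht2, fun F z => ?_⟩
  have hm := hg.measurable
  have hf : Measurable fun w => |a w - g w| := (ha.sub hm).abs
  have p1 := (mp_shW z).comp (st_mp1 F)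
  have p2 := (mp_shW z).comp (st_mp2 F t)
  have e1 := st_int p1 hf
  have e2 := st_int p2 hf
  simp only [Function.comp] at e1 e2
  have hF := ht (B.filter fun e => shE z e ∈ F) (Finset.mem_powerset.2 (Finset.filter_subset _ _))
  set F' := B.filter fun e => shE z e ∈ F with hF'
  have k : ∀ w u, g (shW z (mix F w u)) = g (mix F' (shW z w) (shW z u)) := fun w u =>
    hd fun e he => by
      have h : e ∈ F' ↔ (e.1 + z, e.2) ∈ F :=
        Finset.mem_filter.trans (and_iff_right (Finset.mem_coe.1 he))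
      simp only [shW, mix, h]
  have e3 := st_int ((mp_shW z).prod ((mp_shW z).prod (mp_shW z)))
    (f := fun x : W × W × W => |g (mix F' x.1 x.2.1) - g (mix F' x.1 (rot t x.2).1)|)
    ((hm.comp (st_mp1 F').measurable).sub (hm.comp (st_mp2 F' t).measurable)).abs
  have e4 : ∫ x : W × W × W, |g (shW z (mix F x.1 x.2.1)) - g (shW z (mix F x.1 (rot t x.2).1))|
      ∂P.prod (P.prod P) ≤ ε / 8 := by
    refine le_trans (le_of_eq ?_) (e3.trans_lt hF).le
    simp only [k]
    rfl
  have i1 : Integrable (fun x : W × W × W =>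
      |a (shW z (mix F x.1 x.2.1)) - g (shW z (mix F x.1 x.2.1))|) (P.prod (P.prod P)) :=
    integrable_of_bdd (hf.comp p1.measurable) 2 fun x => st_abs (hb _) (hgb _)
  have i2 : Integrable (fun x : W × W × W => |a (shW z (mix F x.1 (rot t x.2).1))
      - g (shW z (mix F x.1 (rot t x.2).1))|) (P.prod (P.prod P)) :=
    integrable_of_bdd (hf.comp p2.measurable) 2 fun x => st_abs (hb _) (hgb _)
  have i3 : Integrable (fun x : W × W × W => |g (shW z (mix F x.1 x.2.1))
      - g (shW z (mix F x.1 (rot t x.2).1))|) (P.prod (P.prod P)) :=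
    integrable_of_bdd ((hm.comp p1.measurable).sub (hm.comp p2.measurable)).abs 2
      fun x => st_abs (hgb _) (hgb _)
  refine (integral_mono_of_nonneg (Eventually.of_forall fun x => sq_nonneg _)
    (((i1.add i2).add i3).const_mul 2) (Eventually.of_forall fun x => ?_)).trans ?_
  · simp only [Pi.add_apply]
    generalize hA : a (shW z (mix F x.1 x.2.1)) = A
    generalize hA' : a (shW z (mix F x.1 (rot t x.2).1)) = A'
    generalize g (shW z (mix F x.1 x.2.1)) = G
    generalize g (shW z (mix F x.1 (rot t x.2).1)) = G'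
    have c1 : |A - A'| ≤ 2 := (le_abs_self _).trans (st_abs (hA ▸ hb _) (hA' ▸ hb _))
    have c2 : |A - A'| ≤ |A - G| + |A' - G'| + |G - G'| := by
      have := abs_sub_le A G A'
      have := abs_sub_le G G' A'
      rw [abs_sub_comm A' G']
      linarith
    rw [← sq_abs]
    nlinarith [abs_nonneg (A - A')]
  · rw [integral_const_mul, integral_add' (i1.add i2) i3, integral_add' i1 i2, e1, e2]
    linarith

end Pool.Agent.MP_c70b3b_mp.Cg

end

section

open MeasureTheory ProbabilityTheory Filter Topology BoundedContinuousFunction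
open scoped symmDiff ENNReal

namespace Pool.Agent.MP_c70b3b_mp.Cg

theorem s5x_stable {a : W → ℝ} (ha : Measurable a) (hb : ∀ w, |a w| ≤ 1) {ε : ℝ} (hε : 0 < ε) :
    ∀ᶠ t : ℝ in 𝓝 0, ∀ (F : Finset E) (z : V),
      ∫ x : W × W × W, (a (shW z (mix F x.1 x.2.1)) - a (shW z (mix F x.1 (rot t x.2).1))) ^ 2
        ∂P.prod (P.prod P) ≤ ε := by
  obtain ⟨B, g, hg, hd, hgb, hi⟩ := exists_local ha hb (show 0 < ε / 8 by positivity)
  have h1 := (eventually_all_finset B.powerset).2 fun F _ =>
    st_small hg hgb F (show 0 < ε / 8 by positivity)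
  filter_upwards [h1] with t ht F z
  have hm := hg.measurable
  have hf : Measurable fun w => |a w - g w| := (ha.sub hm).abs
  have p1 := (mp_shW z).comp (st_mp1 F)
  have p2 := (mp_shW z).comp (st_mp2 F t)
  have e1 := st_int p1 hf
  have e2 := st_int p2 hf
  simp only [Function.comp] at e1 e2
  have hF := ht (B.filter fun e => shE z e ∈ F) (Finset.mem_powerset.2 (Finset.filter_subset _ _))
  set F' := B.filter fun e => shE z e ∈ F with hF'
  have k : ∀ w u, g (shW z (mix F w u)) = g (mix F' (shW z w) (shW z u)) := fun w u =>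
    hd fun e he => by
      have h : e ∈ F' ↔ (e.1 + z, e.2) ∈ F :=
        Finset.mem_filter.trans (and_iff_right (Finset.mem_coe.1 he))
      simp only [shW, mix, h]
  have e3 := st_int ((mp_shW z).prod ((mp_shW z).prod (mp_shW z)))
    (f := fun x : W × W × W => |g (mix F' x.1 x.2.1) - g (mix F' x.1 (rot t x.2).1)|)
    ((hm.comp (st_mp1 F').measurable).sub (hm.comp (st_mp2 F' t).measurable)).abs
  have e4 : ∫ x : W × W × W, |g (shW z (mix F x.1 x.2.1)) - g (shW z (mix F x.1 (rot t x.2).1))|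
      ∂P.prod (P.prod P) ≤ ε / 8 := by
    refine le_trans (le_of_eq ?_) (e3.trans_lt hF).le
    simp only [k]
    rfl
  have i1 : Integrable (fun x : W × W × W =>
      |a (shW z (mix F x.1 x.2.1)) - g (shW z (mix F x.1 x.2.1))|) (P.prod (P.prod P)) :=
    integrable_of_bdd (hf.comp p1.measurable) 2 fun x => st_abs (hb _) (hgb _)
  have i2 : Integrable (fun x : W × W × W => |a (shW z (mix F x.1 (rot t x.2).1))
      - g (shW z (mix F x.1 (rot t x.2).1))|) (P.prod (P.prod P)) :=
    integrable_of_bdd (hf.comp p2.measurable) 2 fun x => st_abs (hb _) (hgb _)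
  have i3 : Integrable (fun x : W × W × W => |g (shW z (mix F x.1 x.2.1))
      - g (shW z (mix F x.1 (rot t x.2).1))|) (P.prod (P.prod P)) :=
    integrable_of_bdd ((hm.comp p1.measurable).sub (hm.comp p2.measurable)).abs 2
      fun x => st_abs (hgb _) (hgb _)
  refine (integral_mono_of_nonneg (Eventually.of_forall fun x => sq_nonneg _)
    (((i1.add i2).add i3).const_mul 2) (Eventually.of_forall fun x => ?_)).trans ?_
  · simp only [Pi.add_apply]
    generalize hA : a (shW z (mix F x.1 x.2.1)) = A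
    generalize hA' : a (shW z (mix F x.1 (rot t x.2).1)) = A'
    generalize g (shW z (mix F x.1 x.2.1)) = G
    generalize g (shW z (mix F x.1 (rot t x.2).1)) = G'
    have c1 : |A - A'| ≤ 2 := (le_abs_self _).trans (st_abs (hA ▸ hb _) (hA' ▸ hb _))
    have c2 : |A - A'| ≤ |A - G| + |A' - G'| + |G - G'| := by
      have := abs_sub_le A G A'
      have := abs_sub_le G G' A'
      rw [abs_sub_comm A' G']
      linarith
    rw [← sq_abs]
    nlinarith [abs_nonneg (A - A')]
  · rw [integral_const_mul, integral_add' (i1.add i2) i3, integral_add' i1 i2, e1, e2]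
    linarith

section
variable {X Y ι : Type} [MeasurableSpace X] [MeasurableSpace Y]

lemma s5x_swap (μ : Measure X) (ρ : Measure Y) [IsFiniteMeasure μ] [IsFiniteMeasure ρ]
    {f : X → Y → ℝ} (hf : Measurable fun q : X × Y => f q.1 q.2) (C : ℝ)
    (hb : ∀ x y, |f x y| ≤ C) : ∫ x, ∫ y, f x y ∂ρ ∂μ = ∫ y, ∫ x, f x y ∂μ ∂ρ :=
  integral_integral_swap (integrable_of_bdd hf C fun q => hb q.1 q.2)

lemma s5x_meas (ρ : Measure Y) [SFinite ρ] {f : X → Y → ℝ}
    (hf : Measurable fun q : X × Y => f q.1 q.2) : Measurable fun x => ∫ y, f x y ∂ρ :=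
  (hf.stronglyMeasurable.integral_prod_right' (ν := ρ)).measurable

lemma s5x_abs (ρ : Measure Y) [IsProbabilityMeasure ρ] {f : Y → ℝ} {C : ℝ}
    (hb : ∀ y, |f y| ≤ C) : |∫ y, f y ∂ρ| ≤ C := by
  simpa using norm_integral_le_of_norm_le_const (μ := ρ) (f := f) (C := C)
    (Eventually.of_forall hb)

lemma s5x_sum {F : Finset ι} {f : ι → ℝ} {C : ℝ} (hb : ∀ e, |f e| ≤ C) :
    |∑ e ∈ F, f e| ≤ F.card * C :=
  (Finset.abs_sum_le_sum_abs _ _).trans ((Finset.sum_le_card_nsmul _ _ C fun e _ => hb e).trans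
    (by rw [nsmul_eq_mul]))

lemma s5x_mul {a b : ℝ} (ha : |a| ≤ 2) (hb : |b| ≤ 2) : |a * b| ≤ 4 := by
  rw [abs_mul]; nlinarith [abs_nonneg a, abs_nonneg b]

lemma s5x_double (μ : Measure X) (ρ : Measure Y) [IsProbabilityMeasure μ] [IsProbabilityMeasure ρ]
    (F : Finset ι) {δ δ' : ι → X → Y → ℝ} (hm : ∀ e, Measurable fun q : X × Y => δ e q.1 q.2)
    (hm' : ∀ e, Measurable fun q : X × Y => δ' e q.1 q.2)
    (hb : ∀ e x y, |δ e x y| ≤ 2) (hb' : ∀ e x y, |δ' e x y| ≤ 2) :
    ∫ x, ∫ x', ∫ y, ∑ e ∈ F, δ e x y * δ' e x' y ∂ρ ∂μ ∂μ =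
      ∫ y, ∑ e ∈ F, (∫ x, δ e x y ∂μ) * ∫ x, δ' e x y ∂μ ∂ρ := by
  have m1 : ∀ e y, Measurable fun x => δ e x y := fun e y => by
    simpa only [Function.comp_def] using (hm e).comp (measurable_prodMk_right (y := y))
  have m2 : ∀ e y, Measurable fun x => δ' e x y := fun e y => by
    simpa only [Function.comp_def] using (hm' e).comp (measurable_prodMk_right (y := y))
  have m3 : ∀ e x, Measurable fun y => δ e x y := fun e x => by
    simpa only [Function.comp_def] using (hm e).comp (measurable_prodMk_left (x := x))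
  have m4 : ∀ e, Measurable fun y => ∫ x, δ' e x y ∂μ := fun e =>
    s5x_meas μ (f := fun y x => δ' e x y) (by
      simpa only [Function.comp_def, Prod.fst_swap, Prod.snd_swap] using
        (hm' e).comp measurable_swap)
  have h1 : ∀ x, ∫ x', ∫ y, ∑ e ∈ F, δ e x y * δ' e x' y ∂ρ ∂μ =
      ∫ y, ∑ e ∈ F, δ e x y * ∫ x', δ' e x' y ∂μ ∂ρ := fun x => by
    rw [s5x_swap μ ρ (f := fun x' y => ∑ e ∈ F, δ e x y * δ' e x' y)
      (Finset.measurable_sum _ fun e _ => ((m3 e x).comp measurable_snd).mul (hm' e)) _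
      fun x' y => s5x_sum fun e => s5x_mul (hb e x y) (hb' e x' y)]
    congr 1; funext y
    rw [integral_finsetSum _ fun e _ =>
      (integrable_of_bdd (m2 e y) 2 fun x' => hb' e x' y).const_mul _]
    simp only [integral_const_mul]
  simp only [h1]
  rw [s5x_swap μ ρ (f := fun x y => ∑ e ∈ F, δ e x y * ∫ x', δ' e x' y ∂μ)
    (Finset.measurable_sum _ fun e _ => (hm e).mul ((m4 e).comp measurable_snd)) _
    fun x y => s5x_sum fun e => s5x_mul (hb e x y) (s5x_abs μ fun x' => hb' e x' y)]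
  congr 1; funext y
  rw [integral_finsetSum _ fun e _ =>
    (integrable_of_bdd (m1 e y) 2 fun x => hb e x y).mul_const _]
  simp only [integral_mul_const]

lemma s5x_m3 (F : Finset ι) {δ : ι → X → Y → ℝ}
    (hm : ∀ e, Measurable fun q : X × Y => δ e q.1 q.2) :
    Measurable fun q : (X × X) × Y => ∑ e ∈ F, δ e q.1.1 q.2 * δ e q.1.2 q.2 :=
  Finset.measurable_sum _ fun e _ => by
    have h1 := (hm e).comp
      ((measurable_fst.comp measurable_fst).prodMk measurable_snd :
        Measurable fun q : (X × X) × Y => (q.1.1, q.2))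
    have h2 := (hm e).comp
      ((measurable_snd.comp measurable_fst).prodMk measurable_snd :
        Measurable fun q : (X × X) × Y => (q.1.2, q.2))
    simpa only [Function.comp_def] using h1.fun_mul h2

lemma s5x_cov (μ : Measure X) (ρ : Measure Y) [IsProbabilityMeasure μ] [IsProbabilityMeasure ρ]
    (F : Finset ι) {δ : ι → X → Y → ℝ} (hm : ∀ e, Measurable fun q : X × Y => δ e q.1 q.2)
    (hb : ∀ e x y, |δ e x y| ≤ 2) {R : X → X → Prop} (hR : ∀ x, MeasurableSet {x' | R x x'})
    (hδ : ∀ x x', R x x' → ∀ e y, δ e x y = δ e x' y) {c : ℝ}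
    (hc : ∀ᵐ x ∂μ, μ.real {x' | R x x'} = c)
    (h0 : ∀ᵐ x ∂μ, ∀ᵐ x' ∂μ, 0 ≤ ∫ y, ∑ e ∈ F, δ e x y * δ e x' y ∂ρ) :
    c * ∫ x, ∫ y, ∑ e ∈ F, δ e x y * δ e x y ∂ρ ∂μ ≤
      ∫ y, ∑ e ∈ F, (∫ x, δ e x y ∂μ) * ∫ x, δ e x y ∂μ ∂ρ := by
  rw [← s5x_double μ ρ F hm hm hb hb, ← integral_const_mul]
  have mC : Measurable fun q : X × X => ∫ y, ∑ e ∈ F, δ e q.1 y * δ e q.2 y ∂ρ :=
    s5x_meas ρ (f := fun (q : X × X) y => ∑ e ∈ F, δ e q.1 y * δ e q.2 y) (s5x_m3 F hm)
  have bC : ∀ x x', |∫ y, ∑ e ∈ F, δ e x y * δ e x' y ∂ρ| ≤ F.card * 4 := fun x x' =>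
    s5x_abs ρ fun y => s5x_sum fun e => s5x_mul (hb e x y) (hb e x' y)
  have mD : Measurable fun x => ∫ y, ∑ e ∈ F, δ e x y * δ e x y ∂ρ := by
    simpa only [Function.comp_def, id] using mC.comp (measurable_id.prodMk measurable_id)
  refine integral_mono_ae ((integrable_of_bdd mD _ fun x => bC x x).const_mul _)
    (integrable_of_bdd (s5x_meas μ
      (f := fun x x' => ∫ y, ∑ e ∈ F, δ e x y * δ e x' y ∂ρ) mC) _
      fun x => s5x_abs μ fun x' => bC x x') ?_
  filter_upwards [hc, h0] with x hx hx0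
  have mx : Measurable fun x' => ∫ y, ∑ e ∈ F, δ e x y * δ e x' y ∂ρ := by
    simpa only [Function.comp_def] using mC.comp (measurable_prodMk_left (x := x))
  have ix := integrable_of_bdd (ρ := μ) mx _ fun x' => bC x x'
  refine le_trans (le_of_eq ?_) (setIntegral_le_integral (s := {x' | R x x'}) ix hx0)
  rw [setIntegral_congr_fun (hR x) (g := fun _ => ∫ y, ∑ e ∈ F, δ e x y * δ e x y ∂ρ)
    fun x' hx' => by simp only [← hδ x x' hx'], setIntegral_const, hx, smul_eq_mul]

lemma s5x_var (μ : Measure X) (ρ : Measure Y) [IsProbabilityMeasure μ] [IsProbabilityMeasure ρ]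
    (F : Finset ι) {φ : ι → X → Y → ℝ} (hm : ∀ e, Measurable fun q : X × Y => φ e q.1 q.2)
    (hb : ∀ e x y, |φ e x y| ≤ 1) {C : X → ℝ} (mC : Measurable C) (B : ℝ) (bC : ∀ x, |C x| ≤ B)
    {k R : ℝ} (h : ∀ᵐ x ∂μ, ∀ᵐ x' ∂μ,
      k * (∫ y, ∑ e ∈ F, (φ e x y - φ e x' y) ^ 2 ∂ρ - C x - C x') ≤ R) :
    k * (2 * ∫ y, ∑ e ∈ F, (∫ x, φ e x y ^ 2 ∂μ - (∫ x, φ e x y ∂μ) ^ 2) ∂ρ -
      2 * ∫ x, C x ∂μ) ≤ R := by
  have hb2 : ∀ e x y, |φ e x y| ≤ 2 := fun e x y => (hb e x y).trans one_le_two
  have mG : Measurable fun q : X × X => ∫ y, ∑ e ∈ F, φ e q.1 y * φ e q.2 y ∂ρ :=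
    s5x_meas ρ (f := fun (q : X × X) y => ∑ e ∈ F, φ e q.1 y * φ e q.2 y) (s5x_m3 F hm)
  set G : X → X → ℝ := fun x x' => ∫ y, ∑ e ∈ F, φ e x y * φ e x' y ∂ρ with hG
  have bG : ∀ x x', |G x x'| ≤ F.card * 4 := fun x x' =>
    s5x_abs ρ fun y => s5x_sum fun e => s5x_mul (hb2 e x y) (hb2 e x' y)
  have mD : Measurable fun x => G x x := by
    simpa only [Function.comp_def, id] using mG.comp (measurable_id.prodMk measurable_id)
  have m3 : ∀ e x, Measurable fun y => φ e x y := fun e x => by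
    simpa only [Function.comp_def] using (hm e).comp (measurable_prodMk_left (x := x))
  have iy : ∀ x x', Integrable (fun y => ∑ e ∈ F, φ e x y * φ e x' y) ρ := fun x x' =>
    integrable_of_bdd (Finset.measurable_sum _ fun e _ => (m3 e x).mul (m3 e x')) _
      fun y => s5x_sum fun e => s5x_mul (hb2 e x y) (hb2 e x' y)
  have e1 : ∀ x x', ∫ y, ∑ e ∈ F, (φ e x y - φ e x' y) ^ 2 ∂ρ =
      G x x + G x' x' - 2 * G x x' := fun x x' => by
    have i1 : Integrable (fun y => ∑ e ∈ F, φ e x y * φ e x y + ∑ e ∈ F, φ e x' y * φ e x' y) ρ :=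
      (iy x x).add (iy x' x')
    simp only [hG]
    rw [← integral_add (iy x x) (iy x' x'), ← integral_const_mul,
      ← integral_sub i1 ((iy x x').const_mul 2)]
    congr 1; funext y
    rw [Finset.mul_sum, ← Finset.sum_add_distrib, ← Finset.sum_sub_distrib]
    exact Finset.sum_congr rfl fun e _ => by ring
  have iD := integrable_of_bdd (ρ := μ) mD _ fun x => bG x x
  have iC := integrable_of_bdd (ρ := μ) mC _ bC
  have mx : ∀ x, Measurable (G x) := fun x => by
    simpa only [Function.comp_def] using mG.comp (measurable_prodMk_left (x := x))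
  have iH : Integrable (fun x => ∫ x', G x x' ∂μ) μ :=
    integrable_of_bdd (s5x_meas μ (f := G) mG) _ fun x => s5x_abs μ fun x' => bG x x'
  have h2 : ∀ᵐ x ∂μ, k * ((G x x - C x) + ∫ x', (G x' x' - C x') ∂μ - 2 * ∫ x', G x x' ∂μ) ≤ R := by
    filter_upwards [h] with x hx
    have ix := integrable_of_bdd (ρ := μ) (mx x) _ fun x' => bG x x'
    have i1 : Integrable (fun x' => G x' x' - C x') μ := iD.sub iC
    have i2 : Integrable (fun x' => (G x x - C x) + (G x' x' - C x')) μ :=
      (integrable_const _).add i1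
    have i3 : Integrable (fun x' => 2 * G x x') μ := ix.const_mul 2
    have i4 : Integrable (fun x' => (G x x - C x) + (G x' x' - C x') - 2 * G x x') μ := i2.sub i3
    have h3 := integral_mono_ae (i4.const_mul k) (integrable_const R) (by
      filter_upwards [hx] with x' hx'
      rw [e1] at hx'
      exact le_trans (le_of_eq (by ring)) hx')
    rw [integral_const_mul, integral_sub i2 i3, integral_add (integrable_const _) i1,
      integral_const_mul] at h3
    simpa using h3
  have i1 : Integrable (fun x => G x x - C x) μ := iD.sub iC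
  have i2 : Integrable (fun x => (G x x - C x) + ∫ x', (G x' x' - C x') ∂μ) μ :=
    i1.add (integrable_const _)
  have i3 : Integrable (fun x => 2 * ∫ x', G x x' ∂μ) μ := iH.const_mul 2
  have i4 : Integrable
      (fun x => (G x x - C x) + ∫ x', (G x' x' - C x') ∂μ - 2 * ∫ x', G x x' ∂μ) μ := i2.sub i3
  have h4 := integral_mono_ae (i4.const_mul k) (integrable_const R) h2
  rw [integral_const_mul, integral_sub i2 i3, integral_add i1 (integrable_const _),
    integral_const_mul, integral_sub iD iC, s5x_double μ ρ F hm hm hb2 hb2] at h4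
  have m1 : ∀ e y, Measurable fun x => φ e x y := fun e y => by
    simpa only [Function.comp_def] using (hm e).comp (measurable_prodMk_right (y := y))
  have m4 : ∀ e, Measurable fun y => ∫ x, φ e x y ∂μ := fun e =>
    s5x_meas μ (f := fun y x => φ e x y) (by
      simpa only [Function.comp_def, Prod.fst_swap, Prod.snd_swap] using
        (hm e).comp measurable_swap)
  have m5 : ∀ e, Measurable fun y => ∫ x, φ e x y * φ e x y ∂μ := fun e =>
    s5x_meas μ (f := fun y x => φ e x y * φ e x y) (by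
      simpa only [Function.comp_def, Prod.fst_swap, Prod.snd_swap] using
        ((hm e).fun_mul (hm e)).comp measurable_swap)
  have e2 : ∫ x, G x x ∂μ = ∫ y, ∑ e ∈ F, ∫ x, φ e x y * φ e x y ∂μ ∂ρ := by
    simp only [hG]
    rw [s5x_swap μ ρ (f := fun x y => ∑ e ∈ F, φ e x y * φ e x y)
      (Finset.measurable_sum _ fun e _ => (hm e).mul (hm e)) _
      fun x y => s5x_sum fun e => s5x_mul (hb2 e x y) (hb2 e x y)]
    congr 1; funext y
    exact integral_finsetSum _ fun e _ => integrable_of_bdd ((m1 e y).mul (m1 e y)) _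
      fun x => s5x_mul (hb2 e x y) (hb2 e x y)
  have e3 : ∫ y, ∑ e ∈ F, (∫ x, φ e x y ^ 2 ∂μ - (∫ x, φ e x y ∂μ) ^ 2) ∂ρ =
      ∫ y, ∑ e ∈ F, ∫ x, φ e x y * φ e x y ∂μ ∂ρ -
        ∫ y, ∑ e ∈ F, (∫ x, φ e x y ∂μ) * ∫ x, φ e x y ∂μ ∂ρ := by
    rw [← integral_sub (integrable_of_bdd (Finset.measurable_sum _ fun e _ => m5 e) _
      fun y => s5x_sum fun e => s5x_abs μ fun x => s5x_mul (hb2 e x y) (hb2 e x y))
      (integrable_of_bdd (Finset.measurable_sum _ fun e _ => (m4 e).fun_mul (m4 e)) _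
      fun y => s5x_sum fun e => s5x_mul (s5x_abs μ fun x => hb2 e x y)
        (s5x_abs μ fun x => hb2 e x y))]
    simp only [sq, Finset.sum_sub_distrib]
  rw [e3, ← e2]
  simp only [integral_const, probReal_univ, one_smul] at h4
  exact le_trans (le_of_eq (by ring)) h4

end

end Pool.Agent.MP_c70b3b_mp.Cg

end
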