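import Pool.Agent.Mg.Fc70b3ba.Gd0fa04
import Pool.Agent.Mg.Fc70b3ba.G2a6580
import Pool.Agent.Mg.Fc70b3ba.G4eb23b

section

open MeasureTheory ProbabilityTheory Filter Topology BoundedContinuousFunction
open scoped symmDiff ENNReal

namespace Pool.Agent.MP_c70b3b_mp.Cg

variable {β : ℝ} {κ : Kernel W S} {π : Kernel (W × S) S} {m : ℕ → ℕ}

theorem b3_pair {x y c : ℝ} (h : |y - x| ≤ c) :
    Real.exp x + Real.exp y ≤ 2 * Real.exp (c ^ 2 / 8) * Real.exp ((x + y) / 2) := by
  have h1 : Real.exp x + Real.exp y = 2 * Real.cosh ((y - x) / 2) * Real.exp ((x + y) / 2) := by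
    rw [Real.cosh_eq, mul_div_cancel₀ _ two_ne_zero, add_mul, ← Real.exp_add, ← Real.exp_add,
      add_comm]
    congr 2 <;> ring
  have h2 : (y - x) ^ 2 ≤ c ^ 2 := by
    rw [← sq_abs]
    exact pow_le_pow_left₀ (abs_nonneg _) h 2
  rw [h1]
  gcongr
  exact (Real.cosh_le_exp_half_sq _).trans (Real.exp_le_exp.2 (by linarith))

theorem b3_mgf {ι : Type} [DecidableEq ι] (c : ι → ℝ) (T : Finset ι) :
    ∀ ψ : Finset ι → ℝ, (∀ U ⊆ T, ∀ e ∈ T, e ∉ U → |ψ (insert e U) - ψ U| ≤ c e) →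
      ∑ U ∈ T.powerset, Real.exp (ψ U) ≤
        2 ^ T.card * Real.exp ((∑ U ∈ T.powerset, ψ U) / 2 ^ T.card + (∑ e ∈ T, c e ^ 2) / 8) := by
  induction T using Finset.induction_on with
  | empty => intro ψ _; simp
  | insert a T ha ih =>
    intro ψ h
    have h1 := ih (fun U => (ψ U + ψ (insert a U)) / 2) fun U hU e he heU => by
      have h2 := abs_le.1 (h U (hU.trans (Finset.subset_insert _ _)) e
        (Finset.mem_insert_of_mem he) heU)
      have h3 := abs_le.1 (h (insert a U) (Finset.insert_subset_insert _ hU) e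
        (Finset.mem_insert_of_mem he) fun hh =>
          (Finset.mem_insert.1 hh).elim (fun h4 => ha (h4 ▸ he)) heU)
      rw [Finset.insert_comm] at h3
      rw [abs_le]
      constructor <;> linarith [h2.1, h2.2, h3.1, h3.2]
    rw [Finset.sum_powerset_insert ha, Finset.sum_powerset_insert ha, ← Finset.sum_add_distrib,
      Finset.card_insert_of_notMem ha, Finset.sum_insert ha]
    refine (Finset.sum_le_sum fun U hU => b3_pair (h U ((Finset.mem_powerset.1 hU).trans
      (Finset.subset_insert _ _)) a (Finset.mem_insert_self _ _)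
      fun hh => ha (Finset.mem_powerset.1 hU hh))).trans ?_
    rw [← Finset.mul_sum]
    refine (mul_le_mul_of_nonneg_left h1 (by positivity)).trans (le_of_eq ?_)
    rw [← Finset.sum_div, Finset.sum_add_distrib, mul_mul_mul_comm, ← Real.exp_add,
      pow_succ' (2 : ℝ) T.card]
    congr 2
    field_simp
    ring

theorem b3_six {ι : Type} [DecidableEq ι] (c : ι → ℝ) (T : Finset ι) (ψ : Finset ι → ℝ)
    (h0 : ∑ U ∈ T.powerset, ψ U = 0)
    (hc : ∀ U ⊆ T, ∀ e ∈ T, e ∉ U → |ψ (insert e U) - ψ U| ≤ c e) {V : ℝ} (hV : 0 < V)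
    (hcV : ∑ e ∈ T, c e ^ 2 ≤ V) : ∑ U ∈ T.powerset, ψ U ^ 6 ≤ 2 ^ T.card * (2000 * V ^ 3) := by
  obtain ⟨s, hs, rfl⟩ : ∃ s, 0 < s ∧ s ^ 2 = V := ⟨√V, Real.sqrt_pos.2 hV, Real.sq_sqrt hV.le⟩
  have h1 : ∀ t : ℝ, |t| = 1 →
      ∑ U ∈ T.powerset, Real.exp (t * (ψ U / s)) ≤ 2 ^ T.card * (8 / 7) := by
    intro t ht
    refine (b3_mgf (fun e => c e / s) T _ fun U hU e he heU => ?_).trans ?_
    · rw [← mul_sub, ← sub_div, abs_mul, ht, one_mul, abs_div, abs_of_pos hs]
      exact div_le_div_of_nonneg_right (hc U hU e he heU) hs.le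
    · simp only [div_pow]
      rw [← Finset.mul_sum, ← Finset.sum_div, ← Finset.sum_div, h0]
      have h2 : (∑ e ∈ T, c e ^ 2) / s ^ 2 ≤ 1 := (div_le_one hV).2 hcV
      gcongr
      refine (Real.exp_le_exp.2 (show _ ≤ (1 / 8 : ℝ) by simp; linarith)).trans ?_
      exact (Real.exp_bound_div_one_sub_of_interval (by norm_num) (by norm_num)).trans
        (by norm_num)
  have h2 : ∀ x : ℝ, x ^ 6 ≤ 720 * (Real.exp (1 * x) + Real.exp (-1 * x)) := by
    intro x
    have h3 := Real.pow_div_factorial_le_exp _ (abs_nonneg x) 6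
    rw [Even.pow_abs (by decide), show ((Nat.factorial 6 : ℕ) : ℝ) = 720 by norm_num [Nat.factorial],
      div_le_iff₀' (by norm_num)] at h3
    refine h3.trans (mul_le_mul_of_nonneg_left ?_ (by norm_num))
    rw [one_mul, neg_one_mul]
    rcases abs_choice x with h4 | h4 <;> rw [h4] <;> linarith [Real.exp_pos x, Real.exp_pos (-x)]
  have h3 := Finset.sum_le_sum fun U (_ : U ∈ T.powerset) => h2 (ψ U / s)
  rw [← Finset.mul_sum, Finset.sum_add_distrib] at h3
  simp only [div_pow] at h3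
  rw [← Finset.sum_div, div_le_iff₀ (by positivity)] at h3
  have h4 := h1 1 abs_one
  have h5 := h1 (-1) (by simp)
  have h6 : (0 : ℝ) < 2 ^ T.card := by positivity
  calc _ ≤ _ := h3
    _ ≤ 2 ^ T.card * 2000 * s ^ 6 := mul_le_mul_of_nonneg_right (by linarith) (by positivity)
    _ = _ := by ring

theorem b3_cube {y t : ℝ} (hy : 0 ≤ y) (ht : 0 < t) : y ≤ t + y ^ 3 / t ^ 2 := by
  rcases le_total y t with h | h
  · exact h.trans (le_add_of_nonneg_right (by positivity))
  · refine le_trans ?_ (le_add_of_nonneg_left ht.le)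
    rw [le_div_iff₀ (by positivity), pow_succ' y 2]
    gcongr

theorem mcd {ι κ' : Type} [DecidableEq ι] (T : Finset ι) (c : ι → ℝ) (I : Finset κ')
    (ψ : κ' → Finset ι → ℝ) (h0 : ∀ j ∈ I, ∑ U ∈ T.powerset, ψ j U = 0)
    (hc : ∀ j ∈ I, ∀ U ⊆ T, ∀ e ∈ T, e ∉ U → |ψ j (insert e U) - ψ j U| ≤ c e)
    (φ : Finset ι → ℝ) (hφ : ∀ U ⊆ T, ∃ j ∈ I, |φ U| ≤ |ψ j U|) {L : ℝ} (hL : 0 < L) :
    ∑ U ∈ T.powerset, φ U ^ 2 ≤
      2 ^ T.card * ((∑ e ∈ T, c e ^ 2) * (L + 2000 * I.card / L ^ 2)) := by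
  have key : ∀ V : ℝ, 0 < V → ∑ e ∈ T, c e ^ 2 ≤ V → ∑ U ∈ T.powerset, φ U ^ 2 ≤
      2 ^ T.card * (V * (L + 2000 * I.card / L ^ 2)) := by
    intro V hV hcV
    have h1 : ∀ U ∈ T.powerset, φ U ^ 2 ≤ L * V + (∑ j ∈ I, ψ j U ^ 6) / (L * V) ^ 2 := by
      intro U hU
      obtain ⟨j, hj, h2⟩ := hφ U (Finset.mem_powerset.1 hU)
      refine (sq_le_sq.2 h2).trans ((b3_cube (sq_nonneg _) (mul_pos hL hV)).trans ?_)
      rw [← pow_mul]
      gcongr
      exact Finset.single_le_sum (f := fun j => ψ j U ^ 6) (fun _ _ => by positivity) hj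
    refine (Finset.sum_le_sum h1).trans ?_
    rw [Finset.sum_add_distrib, ← Finset.sum_div, Finset.sum_comm, Finset.sum_const,
      Finset.card_powerset, nsmul_eq_mul]
    have h2 := Finset.sum_le_card_nsmul I _ _ fun j hj => b3_six c T (ψ j) (h0 j hj) (hc j hj) hV hcV
    rw [nsmul_eq_mul] at h2
    refine (add_le_add le_rfl (div_le_div_of_nonneg_right h2 (by positivity))).trans (le_of_eq ?_)
    push_cast
    field_simp
  rcases (Finset.sum_nonneg fun e (_ : e ∈ T) => sq_nonneg (c e)).eq_or_lt with h | h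
  · rw [← h, zero_mul, mul_zero]
    refine le_of_forall_pos_le_add fun ε hε => ?_
    have hK : (0 : ℝ) < 2 ^ T.card * (L + 2000 * I.card / L ^ 2) := by positivity
    refine (key (ε / (2 ^ T.card * (L + 2000 * I.card / L ^ 2))) (by positivity)
      (h.ge.trans (by positivity))).trans (le_of_eq ?_)
    rw [mul_left_comm, div_mul_cancel₀ _ hK.ne', zero_add]
  · exact key _ h le_rfl

end Pool.Agent.MP_c70b3b_mp.Cg

end

section

open MeasureTheory ProbabilityTheory Filter Topology BoundedContinuousFunction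
open scoped symmDiff ENNReal

namespace Pool.Agent.MP_c70b3b_mp.Cg

variable {β : ℝ} {κ : Kernel W S} {π : Kernel (W × S) S} {m : ℕ → ℕ}

/-- The partition function of the box with given ring spins. -/
noncomputable def tbz (N : ℕ) (K : W) (η : Fin (8 * N) → ℤˣ) : ℝ :=
  ring N (tilt K (touch (box N)) unif) η

lemma tb_z (N : ℕ) (K : W) (η : Fin (8 * N) → ℤˣ) : tbz N K η =
    ∫ σ in {σ : S | ∀ i : Fin (8 * N), σ (bv N i) = η i},
      Real.exp (en K (touch (box N)) σ) ∂unif := by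
  simp only [tbz, glue_z, one_mul]

lemma tb_int (K : W) (F : Finset E) (ρ : Measure S) [IsFiniteMeasure ρ] :
    Integrable (fun σ => Real.exp (en K F σ)) ρ :=
  integrable_of_bdd (measurable_en K F).exp (Real.exp (∑ e ∈ F, |K e|)) fun σ => by
    rw [abs_of_pos (Real.exp_pos _)]
    exact Real.exp_le_exp.2 ((le_abs_self _).trans (abs_en_le K F σ))

lemma tb_le (N : ℕ) (K K' : W) (η : Fin (8 * N) → ℤˣ) :
    tbz N K η ≤ Real.exp (∑ e ∈ touch (box N), |K e - K' e|) * tbz N K' η := by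
  rw [tb_z, tb_z, ← integral_const_mul]
  refine integral_mono (tb_int _ _ _) ((tb_int _ _ _).const_mul _) fun σ => ?_
  have h1 := (le_abs_self _).trans (abs_en_le (K - K') (touch (box N)) σ)
  have h2 := en_add (K - K') K' (touch (box N)) σ
  rw [sub_add_cancel] at h2
  dsimp only
  rw [← Real.exp_add, h2]
  exact Real.exp_le_exp.2 (add_le_add h1 le_rfl)

lemma tb_port (N : ℕ) (I : Finset (Fin (8 * N))) :
    (I.image fun i : Fin (8 * N) => port N i) ⊆ cob (box N) := fun e he => by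
  obtain ⟨i, -, rfl⟩ := Finset.mem_image.1 he
  exact port_mem_cob i.2

lemma tb_flip (β : ℝ) (N : ℕ) (u : W) (I : Finset (Fin (8 * N))) (η : Fin (8 * N) → ℤˣ) :
    tbz N (β • u) (fl I η) = tbz N (β • neg (I.image fun i : Fin (8 * N) => port N i) u) η := by
  rw [tb_z N (β • neg _ u), tbz, ring_flip]
  congr 1
  funext σ
  rw [← Real.exp_add]
  congr 1
  have hs := (tb_port N I).trans (cob_subset_touch subset_rfl)
  generalize (I.image fun i : Fin (8 * N) => port N i) = G at hs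
  rw [← en_cut _ hs, en, en, en, Finset.mul_sum, ← Finset.sum_add_distrib]
  refine Finset.sum_congr rfl fun e _ => ?_
  simp only [cut, neg, Pi.smul_apply, smul_eq_mul]
  split_ifs <;> ring

lemma tb_lz (N : ℕ) {K : W} (hK : ∀ e ∈ touch (box N), K e = 0) {μ : Measure S} (h : Gibbs K μ)
    (u : W) : lz (touch (box N)) μ u = 2 ^ (8 * N) * ∑ η, ring N μ η * tbz N u η := by
  rw [lz, glue_formula N hK h (measurable_en u _).exp fun σ τ hst => by
    simp only [glue_en_dep u subset_rfl hst]]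
  simp only [tb_z]

lemma tb_log {x y M : ℝ} (hx : 0 < x) (hy : 0 < y) :
    |Real.log x - Real.log y| ≤ M ↔ x ≤ Real.exp M * y ∧ y ≤ Real.exp M * x := by
  have key : ∀ {a b : ℝ}, 0 < a → 0 < b → (Real.log a - Real.log b ≤ M ↔ a ≤ Real.exp M * b) :=
    fun ha hb => by
      rw [← Real.log_div ha.ne' hb.ne', Real.log_le_iff_le_exp (div_pos ha hb), div_le_iff₀ hb]
  rw [abs_sub_le_iff, key hx hy, key hy hx]

lemma tb_max {ι : Type} {I : Finset ι} (hI : I.Nonempty) {x y : ι → ℝ} (hx : ∀ j ∈ I, 0 < x j)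
    (hy : ∀ j ∈ I, 0 < y j) : ∃ j ∈ I, |Real.log (∑ i ∈ I, x i) - Real.log (∑ i ∈ I, y i)| ≤
      |Real.log (x j) - Real.log (y j)| := by
  obtain ⟨j, hj, hm⟩ := I.exists_max_image (fun j => |Real.log (x j) - Real.log (y j)|) hI
  refine ⟨j, hj, (tb_log (Finset.sum_pos hx hI) (Finset.sum_pos hy hI)).2 ⟨?_, ?_⟩⟩ <;>
    rw [Finset.mul_sum]
  · exact Finset.sum_le_sum fun i hi => ((tb_log (hx i hi) (hy i hi)).1 (hm i hi)).1
  · exact Finset.sum_le_sum fun i hi => ((tb_log (hx i hi) (hy i hi)).1 (hm i hi)).2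

lemma tb_neg (U G : Finset E) (u : W) : neg G (neg U u) = neg (U ∆ G) u := by
  funext e
  simp only [neg, Finset.mem_symmDiff]
  by_cases h : e ∈ U <;> by_cases h' : e ∈ G <;> simp [h, h']

lemma tb_sum (β : ℝ) (F : Finset E) (u : W) {U U' : Finset E} {e : E}
    (h : ∀ e', e' ≠ e → (e' ∈ U ↔ e' ∈ U')) :
    ∑ e' ∈ F, |(β • neg U u) e' - (β • neg U' u) e'| ≤ 2 * (|β| * |u e|) := by
  refine (Finset.sum_le_sum (g := fun e' => if e' = e then 2 * (|β| * |u e|) else 0)
    fun e' _ => ?_).trans ?_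
  · split_ifs with he
    · have key : ∀ G, |(β • neg G u) e'| = |β| * |u e| := fun G => by
        simp only [neg, Pi.smul_apply, smul_eq_mul, abs_mul, he]
        split_ifs <;> simp
      refine (abs_sub _ _).trans ?_
      rw [key, key, two_mul]
    · simp [neg, h e' he]
  · rw [Finset.sum_ite_eq']
    split_ifs
    · exact le_rfl
    · positivity

lemma tb_sq (e : E) : Integrable (fun u : W => u e ^ 2) P ∧ ∫ u : W, u e ^ 2 ∂P = 1 := by
  have h : Integrable (fun x : ℝ => x ^ 2) (gaussianReal 0 1) :=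
    (memLp_id_gaussianReal 2).integrable_sq
  refine ⟨(mp_eval e).integrable_comp_of_integrable h, ?_⟩
  have h1 := variance_fun_id_gaussianReal (μ := 0) (v := 1)
  rw [variance_of_integral_eq_zero (by fun_prop) integral_id_gaussianReal] at h1
  rw [← integral_map (f := fun x : ℝ => x ^ 2) (mp_eval e).measurable.aemeasurable (by fun_prop),
    (mp_eval e).map_eq]
  simpa using h1

lemma tb_avg (T : Finset E) (Φ : W → ℝ) {C : ℝ} (hC : 0 ≤ C)
    (h : ∀ u, ∑ U ∈ T.powerset, Φ (neg U u) ^ 2 ≤ 2 ^ T.card * ((∑ e ∈ T, u e ^ 2) * C)) :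
    ∫ u, Φ u ^ 2 ∂P ≤ T.card * C := by
  by_cases hi : Integrable (fun u => Φ u ^ 2) P
  · have h1 : ∀ U : Finset E, Integrable (fun u => Φ (neg U u) ^ 2) P := fun U =>
      (mp_neg U).integrable_comp_of_integrable hi
    have h2 : ∀ U : Finset E, ∫ u, Φ (neg U u) ^ 2 ∂P = ∫ u, Φ u ^ 2 ∂P := fun U => by
      rw [← integral_map (f := fun u => Φ u ^ 2) (mp_neg U).measurable.aemeasurable
        (by rw [(mp_neg U).map_eq]; exact hi.aestronglyMeasurable), (mp_neg U).map_eq]
    have h3 := integral_mono (integrable_finsetSum _ fun U _ => h1 U)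
      (((integrable_finsetSum T fun e _ => (tb_sq e).1).mul_const C).const_mul (2 ^ T.card)) h
    rw [integral_finsetSum _ fun U _ => h1 U, integral_const_mul, integral_mul_const,
      integral_finsetSum _ fun e _ => (tb_sq e).1] at h3
    simp only [h2, (tb_sq _).2, Finset.sum_const, Finset.card_powerset, nsmul_eq_mul, mul_one,
      Nat.cast_pow, Nat.cast_ofNat] at h3
    exact le_of_mul_le_mul_left h3 (by positivity)
  · rw [integral_undef hi]
    positivity

theorem toolB (β : ℝ) (N : ℕ) {K : W} (hK : ∀ e ∈ touch (box N), K e = 0) {μ μ' : Measure S}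
    [NeZero μ] [NeZero μ'] (h : Gibbs K μ) (h' : Gibbs K μ')
    (hU : ∀ᵐ q ∂μ.prod μ', UniqAll (q.1 * q.2)) {L : ℝ} (hL : 0 < L) :
    ∫ u, (Real.log (lz (touch (box N)) μ (β • u)) - Real.log (lz (touch (box N)) μ' (β • u)) +
      (Real.log (μ'.real Set.univ) - Real.log (μ.real Set.univ))) ^ 2 ∂P ≤
      128 * β ^ 2 * N * (L + 2000 * (8 * N + 1) ^ 2 / L ^ 2) := by
  classical
  have := h.1
  have := h'.1
  obtain ⟨q, q0, hq⟩ := arc_dec N hK h h' hU
  set R := Finset.range (8 * N + 1) ×ˢ Finset.range (8 * N + 1) with hR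
  set I := R.filter fun J => ∃ η, q J η ≠ 0 with hI
  set G : ℕ × ℕ → Finset E := fun J => (arc N J).image fun i : Fin (8 * N) => port N i with hG
  set a : ℕ × ℕ → W → ℝ := fun J u => ∑ η, q J η * tbz N (β • u) η with ha
  have a0 : ∀ J ∈ I, ∀ u, 0 < a J u := fun J hJ u => by
    obtain ⟨η, hη⟩ := (Finset.mem_filter.1 hJ).2
    exact Finset.sum_pos' (fun η _ => mul_nonneg (q0 J η) (ring_pos N _ η).le)
      ⟨η, Finset.mem_univ _, mul_pos ((q0 J η).lt_of_ne' hη) (ring_pos N _ η)⟩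
  have a1 : ∀ v : ℕ × ℕ → W, ∑ J ∈ R, a J (v J) = ∑ J ∈ I, a J (v J) := fun v => by
    refine (Finset.sum_filter_of_ne fun J _ hJ => ?_).symm
    obtain ⟨η, -, hη⟩ := Finset.exists_ne_zero_of_sum_ne_zero hJ
    exact ⟨η, left_ne_zero_of_mul hη⟩
  have a2 : ∀ J u u', a J u ≤ Real.exp (∑ e ∈ touch (box N), |(β • u) e - (β • u') e|) * a J u' :=
    fun J u u' => by
      simp only [ha]
      rw [Finset.mul_sum]
      refine Finset.sum_le_sum fun η _ => ?_
      rw [mul_left_comm]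
      exact mul_le_mul_of_nonneg_left (tb_le N _ _ η) (q0 J η)
  have a3 : ∀ J ∈ I, ∀ (u : W) (U U' : Finset E) (e : E), (∀ e', e' ≠ e → (e' ∈ U ↔ e' ∈ U')) →
      |Real.log (a J (neg U u)) - Real.log (a J (neg U' u))| ≤ 2 * (|β| * |u e|) :=
    fun J hJ u U U' e he => (tb_log (a0 J hJ _) (a0 J hJ _)).2
      ⟨(a2 J _ _).trans (mul_le_mul_of_nonneg_right
        (Real.exp_le_exp.2 (tb_sum β _ u he)) (a0 J hJ _).le),
      (a2 J _ _).trans (mul_le_mul_of_nonneg_right
        (Real.exp_le_exp.2 (tb_sum β _ u fun e' h1 => (he e' h1).symm)) (a0 J hJ _).le)⟩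
  have m0 : 0 < μ.real Set.univ := measureReal_univ_pos
  have m0' : 0 < μ'.real Set.univ := measureReal_univ_pos
  have b1 : ∀ u, lz (touch (box N)) μ (β • u) * μ'.real Set.univ =
      2 ^ (8 * N) * ∑ J ∈ I, a J u := fun u => by
    rw [tb_lz N hK h, mul_assoc, (hq (tbz N (β • u)) (ring_neg N _)).1, ← a1 fun _ => u]
  have b2 : ∀ u, lz (touch (box N)) μ' (β • u) * μ.real Set.univ =
      2 ^ (8 * N) * ∑ J ∈ I, a J (neg (G J) u) := fun u => by
    rw [tb_lz N hK h', mul_assoc, (hq (tbz N (β • u)) (ring_neg N _)).2,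
      ← a1 fun J => neg (G J) u]
    simp only [ha, hG, ← tb_flip]
  have hne : I.Nonempty := by
    rw [Finset.nonempty_iff_ne_empty]
    intro e
    have h1 := b1 0
    rw [e, Finset.sum_empty, mul_zero] at h1
    exact (mul_pos (lz_pos _ _ _) m0').ne' h1
  set Φ : W → ℝ := fun u => Real.log (lz (touch (box N)) μ (β • u)) -
    Real.log (lz (touch (box N)) μ' (β • u)) +
      (Real.log (μ'.real Set.univ) - Real.log (μ.real Set.univ)) with hΦ
  have b3 : ∀ u, ∃ J ∈ I, |Φ u| ≤ |Real.log (a J u) - Real.log (a J (neg (G J) u))| := fun u => by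
    obtain ⟨J, hJ, h1⟩ := tb_max hne (fun J hJ => a0 J hJ u) fun J hJ => a0 J hJ (neg (G J) u)
    refine ⟨J, hJ, le_of_eq_of_le ?_ h1⟩
    have e1 := congrArg Real.log (b1 u)
    have e2 := congrArg Real.log (b2 u)
    rw [Real.log_mul (lz_pos _ _ _).ne' m0'.ne', Real.log_mul (by positivity)
      (Finset.sum_pos (fun J hJ => a0 J hJ _) hne).ne'] at e1
    rw [Real.log_mul (lz_pos _ _ _).ne' m0.ne', Real.log_mul (by positivity)
      (Finset.sum_pos (fun J hJ => a0 J hJ _) hne).ne'] at e2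
    congr 1
    simp only [hΦ]
    linarith
  have hc : (I.card : ℝ) ≤ (8 * N + 1) ^ 2 := by
    have h1 : I.card ≤ R.card := Finset.card_filter_le _ _
    rw [hR, Finset.card_product, Finset.card_range, ← sq] at h1
    exact_mod_cast h1
  have hT : ((cob (box N)).card : ℝ) ≤ 8 * N := by exact_mod_cast card_cob_box N
  refine (tb_avg (cob (box N)) Φ (C := 16 * β ^ 2 * (L + 2000 * I.card / L ^ 2)) (by positivity)
    fun u => ?_).trans ?_
  · refine (mcd (cob (box N)) (fun e => 4 * (|β| * |u e|)) I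
      (fun J U => Real.log (a J (neg U u)) - Real.log (a J (neg (U ∆ G J) u))) (fun J _ => ?_)
      (fun J hJ U _ e _ _ => ?_) (fun U => Φ (neg U u)) (fun U _ => ?_) hL).trans (le_of_eq ?_)
    · have h1 : ∀ U ∈ (cob (box N)).powerset, U ∆ G J ∈ (cob (box N)).powerset := fun U hU =>
        Finset.mem_powerset.2 (Finset.symmDiff_subset_union.trans
          (Finset.union_subset (Finset.mem_powerset.1 hU) (tb_port N _)))
      rw [Finset.sum_sub_distrib, sub_eq_zero]
      exact Finset.sum_bij' (fun U _ => U ∆ G J) (fun U _ => U ∆ G J) h1 h1 (by simp) (by simp)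
        (by simp)
    · have h1 := a3 J hJ u (insert e U) U e fun e' he => by simp [he]
      have h2 := a3 J hJ u (insert e U ∆ G J) (U ∆ G J) e fun e' he => by
        simp [he, Finset.mem_symmDiff]
      rw [abs_le] at h1 h2 ⊢
      constructor <;> linarith [h1.1, h1.2, h2.1, h2.2]
    · simpa only [tb_neg] using b3 (neg U u)
    · simp only [mul_pow, sq_abs, ← Finset.mul_sum]
      ring
  · calc _ ≤ 8 * N * (16 * β ^ 2 * (L + 2000 * (8 * N + 1) ^ 2 / L ^ 2)) := by gcongr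
      _ = _ := by ring

end Pool.Agent.MP_c70b3b_mp.Cg

end

section

open MeasureTheory ProbabilityTheory Filter Topology BoundedContinuousFunction
open scoped symmDiff ENNReal

namespace Pool.Agent.MP_c70b3b_mp.Cg

variable {β : ℝ} {κ : Kernel W S} {π : Kernel (W × S) S} {m : ℕ → ℕ}

lemma p4_comp {μ : Measure S} [IsProbabilityMeasure μ] (η : Kernel S S) [IsMarkovKernel η]
    {f : S → ℝ} (hf : Measurable f) (C : ℝ) (hb : ∀ σ, |f σ| ≤ C) :
    ∫ τ, f τ ∂(η ∘ₘ μ) = ∫ σ, ∫ τ, f τ ∂η σ ∂μ := by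
  have h : Integrable f (η ∘ₘ μ) := integrable_of_bdd hf C hb
  rw [Measure.comp_eq_comp_const_apply] at h ⊢
  rw [Kernel.integral_comp h, Kernel.const_apply]

lemma p4_abs {ρ : Measure S} [IsProbabilityMeasure ρ] {f : S → ℝ} {C : ℝ} (hb : ∀ σ, |f σ| ≤ C) :
    |∫ τ, f τ ∂ρ| ≤ C := by
  simpa using norm_integral_le_of_norm_le_const (μ := ρ) (f := f) (Eventually.of_forall hb)

lemma p4_var {μ : Measure S} [IsProbabilityMeasure μ] (η : Kernel S S) [IsMarkovKernel η]
    (h : η ∘ₘ μ = μ) {φ : S → ℝ} (hφ : Measurable φ) (hb : ∀ σ, |φ σ| ≤ 1)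
    (h1 : ∀ᵐ σ ∂μ, ∫ τ, φ τ ∂η σ = φ σ) : ∀ᵐ σ ∂μ, ∀ᵐ τ ∂η σ, φ τ = φ σ := by
  have hb2 : ∀ σ, |φ σ ^ 2| ≤ 1 := fun σ => by
    rw [abs_pow]; exact pow_le_one₀ (abs_nonneg _) (hb σ)
  have hi : ∀ (ρ : Measure S) [IsProbabilityMeasure ρ], Integrable φ ρ := fun ρ _ =>
    integrable_of_bdd hφ 1 hb
  have hi2 : ∀ (ρ : Measure S) [IsProbabilityMeasure ρ], Integrable (fun σ => φ σ ^ 2) ρ :=
    fun ρ _ => integrable_of_bdd (hφ.pow_const 2) 1 hb2
  have e : ∀ σ, (fun τ => (φ τ - φ σ) ^ 2) = fun τ => (φ τ ^ 2 - 2 * φ σ * φ τ) + φ σ ^ 2 :=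
    fun σ => funext fun τ => by ring
  have h2 : ∀ᵐ σ ∂μ, ∫ τ, (φ τ - φ σ) ^ 2 ∂η σ = ∫ τ, φ τ ^ 2 ∂η σ - φ σ ^ 2 := by
    filter_upwards [h1] with σ hσ
    have h0 : Integrable (fun τ => φ τ ^ 2 - 2 * φ σ * φ τ) (η σ) :=
      (hi2 _).sub ((hi _).const_mul _)
    rw [e, integral_add h0 (integrable_const _),
      integral_sub (hi2 _) ((hi _).const_mul _), integral_const_mul, hσ, integral_const]
    simp only [probReal_univ, smul_eq_mul]
    ring
  have h3 : Integrable (fun σ => ∫ τ, φ τ ^ 2 ∂η σ) μ :=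
    integrable_of_bdd (hφ.pow_const 2).stronglyMeasurable.integral_kernel.measurable 1
      fun σ => p4_abs hb2
  have h4 : ∫ σ, ∫ τ, (φ τ - φ σ) ^ 2 ∂η σ ∂μ = 0 := by
    rw [integral_congr_ae h2, integral_sub h3 (hi2 μ), ← p4_comp η (hφ.pow_const 2) 1 hb2, h,
      sub_self]
  have h5 := (integral_eq_zero_iff_of_nonneg (fun σ => integral_nonneg fun τ => sq_nonneg _)
    ((h3.sub (hi2 μ)).congr (EventuallyEq.symm h2))).1 h4
  filter_upwards [h5] with σ hσ
  have h6 : Integrable (fun τ => (φ τ - φ σ) ^ 2) (η σ) := by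
    rw [e]
    exact ((hi2 _).sub ((hi _).const_mul _)).add (integrable_const _)
  filter_upwards [(integral_eq_zero_iff_of_nonneg (fun τ => sq_nonneg _) h6).1 hσ] with τ hτ
  exact sub_eq_zero.1 (pow_eq_zero_iff two_ne_zero |>.1 hτ)

theorem Pure.int (h : Pure β κ π m) {w : W} {μ : Measure S} [IsProbabilityMeasure μ]
    (hμ : Gibbs (β • w) μ) (hO : ∀ᵐ σ ∂μ, (w, σ) ∈ Om β m) {G : S → ℝ} (hG : Measurable G) (C : ℝ)
    (hb : ∀ σ, |G σ| ≤ C) (hinv : ∀ U σ, G (Pool.Agent.MP_c70b3b_mp.flp U σ) = G σ) {g : S → ℝ}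
    (hg : Continuous g) :
    ∫ σ, G σ * ∫ τ, g τ ∂π (w, σ) ∂μ = ∫ σ, G σ * g σ ∂μ := by
  obtain ⟨D, hD⟩ := exists_bound hg
  have hC : 0 ≤ C := (abs_nonneg _).trans (hb 1)
  have h1 : ∀ j, ∫ σ, G σ * gam (β • w) (box (m j)) g σ ∂μ = ∫ σ, G σ * g σ ∂μ := fun j => by
    rw [gibbs_gam hμ (box (m j)) (g := fun σ => G σ * g σ) (hG.mul hg.measurable) (C * D) fun σ => by
      rw [abs_mul]; exact mul_le_mul (hb σ) (hD σ) (abs_nonneg _) hC]
    refine integral_congr_ae (Eventually.of_forall fun σ => ?_)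
    simp only [mul_comm (G _)]
    exact (gam_mul_inv _ _ g fun U _ => hinv U σ).symm
  have h2 : Tendsto (fun j => ∫ σ, G σ * gam (β • w) (box (m j)) g σ ∂μ) atTop
      (𝓝 (∫ σ, G σ * ∫ τ, g τ ∂π (w, σ) ∂μ)) := by
    refine tendsto_integral_of_dominated_convergence (fun _ => C * D)
      (fun j => (hG.mul (measurable_gam' _ _ hg.measurable)).aestronglyMeasurable)
      (integrable_const _) (fun j => Eventually.of_forall fun σ => ?_) ?_
    · rw [Real.norm_eq_abs, abs_mul]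
      exact mul_le_mul (hb σ) (gam_abs_le hD σ) (abs_nonneg _) hC
    · filter_upwards [hO] with σ hσ using (h.lim _ hσ g hg).const_mul _
  simp only [h1] at h2
  exact tendsto_nhds_unique h2 tendsto_const_nhds

lemma p4_one (h : Pure β κ π m) {w : W} {μ : Measure S} [IsProbabilityMeasure μ]
    (hμ : Gibbs (β • w) μ) (hO : ∀ᵐ σ ∂μ, (w, σ) ∈ Om β m) (A : Finset V) :
    ∫ σ, ∫ τ, chr A τ ∂π (w, σ) ∂μ = ∫ σ, chr A σ ∂μ := by
  simpa using h.int hμ hO (G := fun _ => 1) measurable_const 1 (by simp) (fun _ _ => rfl)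
    (continuous_chr A)

theorem Pure.bind (h : Pure β κ π m) {w : W} {μ : Measure S} [IsProbabilityMeasure μ]
    (hμ : Gibbs (β • w) μ) (hO : ∀ᵐ σ ∂μ, (w, σ) ∈ Om β m) :
    μ.bind (fun σ => π (w, σ)) = μ := by
  have := h.markov
  change π.comap (Prod.mk w) measurable_prodMk_left ∘ₘ μ = μ
  refine ext_chr fun A => ?_
  rw [p4_comp _ (measurable_chr A) 1 fun σ => (abs_chr A σ).le]
  exact p4_one h hμ hO A

theorem Pure.ext (h : Pure β κ π m) :
    ∀ᵐ p ∂(P ⊗ₘ κ), ∀ᵐ σ ∂π p, (p.1, σ) ∈ Om β m ∧ π (p.1, σ) = π p := by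
  have := h.markov
  have := h.cov.markov
  have hφ : ∀ A, Measurable fun p : W × S => ∫ τ, chr A τ ∂π p := fun A =>
    (measurable_chr A).stronglyMeasurable.integral_kernel.measurable
  have hf : Measurable fun x : (W × S) × S => (x.1.1, x.2) := by fun_prop
  have hT : MeasurableSet {x : (W × S) × S | (x.1.1, x.2) ∈ Om β m ∧
      ∀ A, ∫ τ, chr A τ ∂π (x.1.1, x.2) = ∫ τ, chr A τ ∂π x.1} := by
    have h1 := MeasurableSet.iInter fun A =>
      measurableSet_eq_fun ((hφ A).comp hf) ((hφ A).comp measurable_fst)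
    rw [← Set.ofPred_forall] at h1
    exact (hf (measurableSet_Om β m)).inter h1
  have hM : MeasurableSet {p : W × S | ∀ᵐ σ ∂π p, (p.1, σ) ∈ Om β m ∧
      ∀ A, ∫ τ, chr A τ ∂π (p.1, σ) = ∫ τ, chr A τ ∂π p} :=
    Kernel.measurable_kernel_prodMk_left (κ := π) hT.compl (measurableSet_singleton 0)
  suffices H : ∀ᵐ p ∂(P ⊗ₘ κ), ∀ᵐ σ ∂π p, (p.1, σ) ∈ Om β m ∧
      ∀ A, ∫ τ, chr A τ ∂π (p.1, σ) = ∫ τ, chr A τ ∂π p by
    filter_upwards [H] with p hp
    filter_upwards [hp] with σ hσ using ⟨hσ.1, ext_chr hσ.2⟩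
  rw [Measure.ae_compProd_iff hM]
  filter_upwards [Measure.ae_ae_of_ae_compProd h.ae, h.cov.gibbs] with w hO hμ
  have hb : π.comap (Prod.mk w) measurable_prodMk_left ∘ₘ κ w = κ w := h.bind hμ hO
  have h1 : ∀ᵐ σ ∂κ w, ∀ᵐ τ ∂π (w, σ), (w, τ) ∈ Om β m :=
    Measure.ae_ae_of_ae_comp (κ := π.comap (Prod.mk w) measurable_prodMk_left) (by rwa [hb])
  have h2 : ∀ A, ∀ᵐ σ ∂κ w, ∀ᵐ τ ∂π (w, σ),
      ∫ x, chr A x ∂π (w, τ) = ∫ x, chr A x ∂π (w, σ) := fun A => by
    refine p4_var _ hb ((hφ A).comp measurable_prodMk_left)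
      (fun σ => p4_abs fun x => (abs_chr A x).le) ?_
    filter_upwards [hO, h1] with σ a1 a2 using p4_one h (h.gibbs a1) a2 A
  filter_upwards [h1, ae_all_iff.2 h2] with σ a1 a2
  filter_upwards [a1, ae_all_iff.2 a2] with τ b1 b2 using ⟨b1, b2⟩

end Pool.Agent.MP_c70b3b_mp.Cg

end

section

open MeasureTheory ProbabilityTheory Filter Topology BoundedContinuousFunction
open scoped symmDiff ENNReal

namespace Pool.Agent.MP_c70b3b_mp.Cg

variable {β : ℝ} {κ : Kernel W S} {π : Kernel (W × S) S} {m : ℕ → ℕ}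

lemma p6_gen {X : Type} [MeasurableSpace X] (ν : Measure X) [IsProbabilityMeasure ν]
    (T : V → X → X) (hT : ∀ z, MeasurePreserving (T z) ν ν) (a b : Kernel X S) [IsMarkovKernel a]
    [IsMarkovKernel b] (ha : ∀ z, ∀ᵐ x ∂ν, a (T z x) = (a x).map (shS z))
    (hb : ∀ z, ∀ᵐ x ∂ν, b (T z x) = (b x).map (shS z))
    (hg : ∀ᵐ x ∂ν, ∀ v : V, (a x).map (flp {v}) ≪ a x) :
    ∀ᵐ x ∂ν, ∀ᵐ q ∂(a x).prod (b x), UniqAll (q.1 * q.2) := by
  let η : Kernel X S := (a ×ₖ b).map fun p : S × S => p.1 * p.2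
  have hηm : IsMarkovKernel η := Kernel.IsMarkovKernel.map _ measurable_mul2
  have hη : ∀ w, η w = ((a w).prod (b w)).map fun p : S × S => p.1 * p.2 := fun w => by
    simp only [η]
    rw [Kernel.map_apply _ measurable_mul2, Kernel.prod_apply]
  have hcov : ∀ z : V, ∀ᵐ w ∂ν, η (T z w) = (η w).map (shS z) := fun z => by
    filter_upwards [ha z, hb z] with w hw hw'
    rw [hη, hη, hw, hw', Measure.map_prod_map _ _ (measurable_shS _) (measurable_shS _),
      Measure.map_map measurable_mul2 ((measurable_shS _).prodMap (measurable_shS _)),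
      Measure.map_map (measurable_shS _) measurable_mul2]
    rfl
  have hac : ∀ x : V, ∀ᵐ w ∂ν, (η w).map (flp {x}) ≪ η w := fun x => by
    filter_upwards [hg] with w hw
    have h1 : (η w).map (flp {x}) =
        (((a w).map (flp {x})).prod (b w)).map fun p : S × S => p.1 * p.2 := by
      conv_rhs => rw [← Measure.map_id (μ := b w)]
      rw [hη, Measure.map_prod_map _ _ (measurable_flp _) measurable_id,
        Measure.map_map measurable_mul2 ((measurable_flp _).prodMap measurable_id),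
        Measure.map_map (measurable_flp _) measurable_mul2]
      congr 1; funext p
      exact (pair_flp_mul _ _ _).symm
    rw [h1, hη]
    exact ((hw x).prod Measure.AbsolutelyContinuous.rfl).map measurable_mul2
  have hQ : ∀ A : Set S, MeasurableSet A → (η ∘ₘ ν) A = ∫⁻ w, η w A ∂ν := fun A hA =>
    Measure.bind_apply hA η.aemeasurable
  have key := bk one_pos (η ∘ₘ ν)
    (fun z => by
      ext A hA
      rw [one_smul, Measure.map_apply (measurable_shS _) hA, hQ _ hA, hQ _ (measurable_shS _ hA),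
        ← (hT z).lintegral_comp (η.measurable_coe hA)]
      refine lintegral_congr_ae ?_
      filter_upwards [hcov z] with w hw
      rw [hw, Measure.map_apply (measurable_shS _) hA])
    (fun x => by
      refine Measure.AbsolutelyContinuous.mk fun A hA h0 => ?_
      rw [hQ _ hA, lintegral_eq_zero_iff (η.measurable_coe hA)] at h0
      rw [Measure.map_apply (measurable_flp _) hA, hQ _ (measurable_flp _ hA),
        lintegral_eq_zero_iff (η.measurable_coe (measurable_flp _ hA))]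
      filter_upwards [h0, hac x] with w hw hw'
      have h2 := hw' hw
      rwa [Measure.map_apply (measurable_flp _) hA] at h2)
  filter_upwards [Measure.ae_ae_of_ae_comp key] with w hw
  rw [hη] at hw
  exact ae_of_ae_map measurable_mul2.aemeasurable hw

lemma p6_ac (h : Pure β κ π m) : ∀ᵐ p ∂(P ⊗ₘ κ), ∀ v : V, (π p).map (flp {v}) ≪ π p := by
  filter_upwards [h.ae] with p hp v using (h.gibbs hp).ac {v}

lemma p6_meas : MeasurableSet {q : S × S | UniqAll (q.1 * q.2)} :=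
  measurable_mul2 measurableSet_uniqAll

lemma p6_meas_ae {X : Type} [MeasurableSpace X] (a b : Kernel X S) [IsMarkovKernel a]
    [IsMarkovKernel b] : MeasurableSet {x | ∀ᵐ q ∂(a x).prod (b x), UniqAll (q.1 * q.2)} := by
  have h := (a ×ₖ b).measurable_coe p6_meas.compl (measurableSet_singleton 0)
  simp only [Kernel.prod_apply] at h
  exact h

theorem Pure.uniq1 (h : Pure β κ π m) :
    ∀ᵐ p ∂(P ⊗ₘ κ), ∀ᵐ q ∂(π p).prod (π p), UniqAll (q.1 * q.2) := by
  have := h.cov.markov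
  have := h.markov
  exact p6_gen _ _ (mp_shift h.cov) π π h.shift h.shift (p6_ac h)

lemma p6_three (h : Pure β κ π m) :
    ∀ᵐ p ∂(P ⊗ₘ κ), ∀ᵐ q ∂(π p).prod (κ p.1), UniqAll (q.1 * q.2) := by
  have := h.cov.markov
  have := h.markov
  refine p6_gen _ _ (mp_shift h.cov) π (κ.comap Prod.fst measurable_fst) h.shift (fun z => ?_)
    (p6_ac h)
  have h1 := cov1 h.cov z
  rw [← Measure.fst_compProd P κ] at h1
  exact ae_of_ae_map measurable_fst.aemeasurable h1

theorem Pure.uniq2 (h : Pure β κ π m) :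
    ∀ᵐ x ∂M2 κ, ∀ᵐ q ∂(π (x.1, x.2.1)).prod (π (x.1, x.2.2)), UniqAll (q.1 * q.2) := by
  have := h.cov.markov
  have := h.markov
  have hm := p6_meas_ae
    (π.comap (fun x : W × S × S => (x.1, x.2.1)) (measurable_fst.prodMk measurable_snd.fst))
    (π.comap (fun x : W × S × S => (x.1, x.2.2)) (measurable_fst.prodMk measurable_snd.snd))
  refine (Measure.ae_compProd_iff hm).2 ?_
  filter_upwards [Measure.ae_ae_of_ae_compProd (p6_three h), Measure.ae_ae_of_ae_compProd h.ae,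
    h.cov.gibbs] with w h1 h2 h3
  rw [Kernel.prod_apply]
  refine (Measure.ae_prod_iff_ae_ae (measurable_prodMk_left hm)).2 ?_
  filter_upwards [h1] with σ h4
  have h5 := (Measure.ae_ae_comm (p := fun a b : S => UniqAll (a * b)) p6_meas).1
    (Measure.ae_ae_of_ae_prod h4)
  rw [← h.bind h3 h2] at h5
  filter_upwards [Measure.ae_ae_of_ae_bind
    (π.measurable.comp measurable_prodMk_left).aemeasurable h5] with σ' h6
  exact (Measure.ae_prod_iff_ae_ae p6_meas).2
    ((Measure.ae_ae_comm (p := fun a b : S => UniqAll (a * b)) p6_meas).2 h6)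

theorem Pure.uniq3 (h : Pure β κ π m) :
    ∀ᵐ p ∂(P ⊗ₘ κ), ∀ᵐ q ∂(π p).prod (κ p.1), UniqAll (q.1 * q.2) := p6_three h

end Pool.Agent.MP_c70b3b_mp.Cg

end

section

open MeasureTheory ProbabilityTheory Filter Topology BoundedContinuousFunction
open scoped symmDiff ENNReal

namespace Pool.Agent.MP_c70b3b_mp.Cg

variable {β : ℝ} {κ : Kernel W S} {π : Kernel (W × S) S} {m : ℕ → ℕ}

/-- The bond average of a pure part. -/
noncomputable def s5f (π : Kernel (W × S) S) (e : E) (x : W × S) : ℝ := ∫ σ, bond σ e ∂π x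

lemma s5f_meas (π : Kernel (W × S) S) (e : E) : Measurable (s5f π e) :=
  ((measurable_bond e).stronglyMeasurable.integral_kernel (κ := π)).measurable

lemma s5f_abs (π : Kernel (W × S) S) [IsMarkovKernel π] (e : E) (x : W × S) : |s5f π e x| ≤ 1 :=
  s5x_abs _ fun σ => (abs_bond σ e).le

lemma s5f_eqv (h : Pure β κ π m) (F : Finset E) {w : W} (u : W) {σ σ' : S}
    (hE : Eqv β π m w σ σ') (e : E) : s5f π e (mix F w u, σ) = s5f π e (mix F w u, σ') := by
  have h1 := ((h.eqv_mix F w u σ σ').2 hE).2.2 {e.1, tip e}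
    (by rw [Finset.card_pair (tip_ne e).symm]; decide)
  simpa only [chr, Finset.prod_pair (tip_ne e).symm, s5f, bond] using h1

lemma s5f_m1 (π : Kernel (W × S) S) (F : Finset E) (w : W) (e : E) :
    Measurable fun q : S × W => s5f π e (mix F w q.2, q.1) := by
  have h1 : Measurable fun q : S × W => (mix F w q.2, q.1) :=
    ((measurable_mix F).comp (measurable_const.prodMk measurable_snd)).prodMk measurable_fst
  simpa only [Function.comp_def] using (s5f_meas π e).comp h1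

/-- The change of the bond average under the rotation. -/
noncomputable def s5d (π : Kernel (W × S) S) (F : Finset E) (t : ℝ) (w : W) (e : E) (σ : S)
    (p : W × W) : ℝ := s5f π e (mix F w p.1, σ) - s5f π e (mix F w (rot t p).1, σ)

lemma s5d_meas (π : Kernel (W × S) S) (F : Finset E) (t : ℝ) (w : W) (e : E) :
    Measurable fun q : S × W × W => s5d π F t w e q.1 q.2 := by
  have h1 : Measurable fun q : S × W × W => (q.1, q.2.1) :=
    measurable_fst.prodMk measurable_snd.fst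
  have h2 : Measurable fun q : S × W × W => (q.1, (rot t q.2).1) :=
    measurable_fst.prodMk ((continuous_rot t).measurable.comp measurable_snd).fst
  simpa only [Function.comp_def, s5d] using
    ((s5f_m1 π F w e).comp h1).fun_sub ((s5f_m1 π F w e).comp h2)

lemma s5d_abs (π : Kernel (W × S) S) [IsMarkovKernel π] (F : Finset E) (t : ℝ) (w : W) (e : E)
    (σ : S) (p : W × W) : |s5d π F t w e σ p| ≤ 2 :=
  (abs_sub _ _).trans (by
    linarith [s5f_abs π e (mix F w p.1, σ), s5f_abs π e (mix F w (rot t p).1, σ)])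

lemma s5_ne (K : W) (F : Finset E) (μ : Measure S) [IsProbabilityMeasure μ] :
    NeZero (tilt K F μ) := ⟨fun h0 => by
  have h1 : μ ≪ tilt K F μ :=
    withDensity_absolutelyContinuous' (measurable_en _ _).exp.ennreal_ofReal.aemeasurable
      (Eventually.of_forall fun σ => (ENNReal.ofReal_pos.2 (Real.exp_pos _)).ne')
  have h2 := h1 (show tilt K F μ Set.univ = 0 by rw [h0]; rfl)
  simp at h2⟩

lemma s5_gb (h : Pure β κ π m) {w : W} {σ : S} (hp : (w, σ) ∈ Om β m) (F : Finset E) (u : W)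
    (e : E) : gb F (tilt (-(β • w)) F (π (w, σ))) (β • u) e = s5f π e (mix F w u, σ) :=
  ((h.mix hp F u).2 _ (continuous_bond e)).symm

lemma s5_pos (h : Pure β κ π m) {w : W} {σ σ' : S} (hp : (w, σ) ∈ Om β m)
    (hp' : (w, σ') ∈ Om β m) (F : Finset E) {t : ℝ} (h0 : 0 ≤ t) (h1 : t ≤ Real.pi) :
    0 ≤ ∫ p, ∑ e ∈ F, s5d π F t w e σ p * s5d π F t w e σ' p ∂P.prod P := by
  have := h.markov
  have := ((h.gibbs hp).tilt (-(β • w)) F).1
  have := ((h.gibbs hp').tilt (-(β • w)) F).1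
  have := s5_ne (-(β • w)) F (π (w, σ))
  have := s5_ne (-(β • w)) F (π (w, σ'))
  have h2 := toolA β F (tilt (-(β • w)) F (π (w, σ))) (tilt (-(β • w)) F (π (w, σ'))) h0 h1
  simpa only [s5_gb h hp, s5_gb h hp', s5d] using h2

lemma s5_pair (hβ : 0 ≤ β) (h : Pure β κ π m) {w : W} {σ σ' : S} (hp : (w, σ) ∈ Om β m)
    (hp' : (w, σ') ∈ Om β m) (hU : ∀ᵐ q ∂(π (w, σ)).prod (π (w, σ')), UniqAll (q.1 * q.2))
    (N : ℕ) {t l L : ℝ} (ht : 0 ≤ Real.sin t) (hl : 0 < l) (hL : 0 < L) :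
    β * Real.sin t * (∫ u, ∑ e ∈ touch (box N), (s5f π e (mix (touch (box N)) w u, σ) -
        s5f π e (mix (touch (box N)) w u, σ')) ^ 2 ∂P -
      ∫ p, ∑ e ∈ touch (box N), s5d π (touch (box N)) t w e σ p *
        s5d π (touch (box N)) t w e σ p ∂P.prod P -
      ∫ p, ∑ e ∈ touch (box N), s5d π (touch (box N)) t w e σ' p *
        s5d π (touch (box N)) t w e σ' p ∂P.prod P) ≤
      2 * l * (touch (box N)).card +
        128 * β ^ 2 * N * (L + 2000 * (8 * N + 1) ^ 2 / L ^ 2) / (2 * l) := by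
  have := h.markov
  set F := touch (box N) with hF
  have g1 := (h.gibbs hp).tilt (-(β • w)) F
  have g2 := (h.gibbs hp').tilt (-(β • w)) F
  have := g1.1
  have := g2.1
  have := s5_ne (-(β • w)) F (π (w, σ))
  have := s5_ne (-(β • w)) F (π (w, σ'))
  have hB := toolB β N (fun e he => glue_zero (β • w) _ he) g1 g2
    (((tilt_ac _ _ _).prod (tilt_ac _ _ _)).ae_le hU) hL
  have hA := lower β F (tilt (-(β • w)) F (π (w, σ))) (tilt (-(β • w)) F (π (w, σ')))
    (Real.log ((tilt (-(β • w)) F (π (w, σ'))).real Set.univ) -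
      Real.log ((tilt (-(β • w)) F (π (w, σ))).real Set.univ)) t hl
  simp only [s5_gb h hp, s5_gb h hp'] at hA
  refine le_trans (mul_le_mul_of_nonneg_left ?_ (mul_nonneg hβ ht))
    (hA.trans (add_le_add le_rfl (div_le_div_of_nonneg_right hB (by positivity))))
  set D : E → W → ℝ := fun e u => s5f π e (mix F w u, σ) - s5f π e (mix F w u, σ') with hD
  have mD : ∀ e, Measurable (D e) := fun e => by
    simpa only [Function.comp_def] using
      ((s5f_m1 π F w e).comp (measurable_prodMk_left (x := σ))).fun_sub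
        ((s5f_m1 π F w e).comp (measurable_prodMk_left (x := σ')))
  have bD : ∀ e u, |D e u| ≤ 2 := fun e u => (abs_sub _ _).trans (by
    linarith [s5f_abs π e (mix F w u, σ), s5f_abs π e (mix F w u, σ')])
  have mQ : Measurable fun u => ∑ e ∈ F, D e u * D e u :=
    Finset.measurable_sum _ fun e _ => (mD e).fun_mul (mD e)
  have p1 : MeasurePreserving (fun p : W × W => p.1) (P.prod P) P := measurePreserving_fst
  have p2 : MeasurePreserving (fun p : W × W => (rot t p).1) (P.prod P) P := p1.comp (mp_rot t)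
  have e1 := st_int p1 mQ
  have e2 := st_int p2 mQ
  have i0 : ∀ {T T' : W × W → W}, Measurable T → Measurable T' →
      Integrable (fun p => ∑ e ∈ F, D e (T p) * D e (T' p)) (P.prod P) := fun hT hT' =>
    integrable_of_bdd (Finset.measurable_sum _ fun e _ =>
      ((mD e).comp hT).mul ((mD e).comp hT')) _ fun p => s5x_sum fun e => s5x_mul (bD _ _) (bD _ _)
  have i3 : ∀ τ, Integrable
      (fun p => ∑ e ∈ F, s5d π F t w e τ p * s5d π F t w e τ p) (P.prod P) := fun τ => by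
    have md : ∀ e, Measurable (s5d π F t w e τ) := fun e => by
      simpa only [Function.comp_def] using
        (s5d_meas π F t w e).comp (measurable_prodMk_left (x := τ))
    exact integrable_of_bdd (Finset.measurable_sum _ fun e _ => (md e).fun_mul (md e)) _
      fun p => s5x_sum fun e => s5x_mul (s5d_abs _ _ _ _ _ _ _) (s5d_abs _ _ _ _ _ _ _)
  have i1 := i0 p1.measurable p1.measurable
  have i2 := i0 p2.measurable p2.measurable
  have i4 : Integrable (fun p : W × W => (1 / 2) * ∑ e ∈ F, D e p.1 * D e p.1 +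
      (1 / 2) * ∑ e ∈ F, D e (rot t p).1 * D e (rot t p).1) (P.prod P) :=
    (i1.const_mul _).add (i2.const_mul _)
  have i5 : Integrable (fun p : W × W => (1 / 2) * ∑ e ∈ F, D e p.1 * D e p.1 +
      (1 / 2) * ∑ e ∈ F, D e (rot t p).1 * D e (rot t p).1 -
      ∑ e ∈ F, s5d π F t w e σ p * s5d π F t w e σ p) (P.prod P) := i4.sub (i3 σ)
  have h3 := integral_mono (i5.sub (i3 σ')) (i0 p1.measurable p2.measurable) fun p => by
    simp only [Pi.sub_apply, Finset.mul_sum, ← Finset.sum_add_distrib, ← Finset.sum_sub_distrib]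
    refine Finset.sum_le_sum fun e _ => ?_
    simp only [hD, s5d]
    nlinarith [sq_nonneg (s5f π e (mix F w p.1, σ) - s5f π e (mix F w (rot t p).1, σ) +
      (s5f π e (mix F w p.1, σ') - s5f π e (mix F w (rot t p).1, σ')))]
  rw [integral_sub' i5 (i3 σ'), integral_sub i4 (i3 σ), integral_add (i1.const_mul _)
    (i2.const_mul _), integral_const_mul, integral_const_mul, e1, e2] at h3
  simp only [sq]
  linarith

/-- The variance of the bond average over the pure parts. -/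
noncomputable def s5v (κ : Kernel W S) (π : Kernel (W × S) S) (e : E) (w : W) : ℝ :=
  ∫ σ, s5f π e (w, σ) ^ 2 ∂κ w - edgeAl κ e w ^ 2

lemma s5_w (hβ : 0 ≤ β) (h : Pure β κ π m) {c : ℝ} (hc : 0 < c) (N : ℕ) {t l L : ℝ}
    (h0 : 0 ≤ t) (h1 : t ≤ Real.pi) (hl : 0 < l) (hL : 0 < L) {w : W}
    (a1 : ∀ᵐ σ ∂κ w, (w, σ) ∈ Om β m) (a2 : ∀ᵐ σ ∂κ w, (κ w).real {σ' | Eqv β π m w σ σ'} = c)
    (a3 : ∀ᵐ σ ∂κ w, ∀ᵐ σ' ∂κ w, ∀ᵐ q ∂(π (w, σ)).prod (π (w, σ')), UniqAll (q.1 * q.2))
    (a4 : ∀ᵐ u ∂P, ∀ e, ∫ σ, s5f π e (mix (touch (box N)) w u, σ) ∂κ w =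
        edgeAl κ e (mix (touch (box N)) w u) ∧
      ∫ σ, s5f π e (mix (touch (box N)) w u, σ) ^ 2 ∂κ w =
        ∫ σ, s5f π e (mix (touch (box N)) w u, σ) ^ 2 ∂κ (mix (touch (box N)) w u)) :
    β * Real.sin t * (2 * ∫ u, ∑ e ∈ touch (box N), s5v κ π e (mix (touch (box N)) w u) ∂P -
      2 / c * ∫ p, ∑ e ∈ touch (box N), (edgeAl κ e (mix (touch (box N)) w p.1) -
        edgeAl κ e (mix (touch (box N)) w (rot t p).1)) ^ 2 ∂P.prod P) ≤
      2 * l * (touch (box N)).card +
        128 * β ^ 2 * N * (L + 2000 * (8 * N + 1) ^ 2 / L ^ 2) / (2 * l) := by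
  have := h.markov
  have := h.cov.markov
  have ht := Real.sin_nonneg_of_nonneg_of_le_pi h0 h1
  set F := touch (box N) with hF
  have mC : Measurable fun σ =>
      ∫ p, ∑ e ∈ F, s5d π F t w e σ p * s5d π F t w e σ p ∂P.prod P :=
    s5x_meas (P.prod P) (f := fun σ p => ∑ e ∈ F, s5d π F t w e σ p * s5d π F t w e σ p)
      (Finset.measurable_sum _ fun e _ => (s5d_meas π F t w e).fun_mul (s5d_meas π F t w e))
  have h2 := s5x_var (κ w) P F (φ := fun e σ u => s5f π e (mix F w u, σ)) (s5f_m1 π F w)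
    (fun e σ u => s5f_abs π e _) mC _
    (fun σ => s5x_abs _ fun p => s5x_sum fun e =>
      s5x_mul (s5d_abs π F t w e σ p) (s5d_abs π F t w e σ p))
    (by
      filter_upwards [a1, a3] with σ hσ hU
      filter_upwards [a1, hU] with σ' hσ' hU'
      exact s5_pair hβ h hσ hσ' hU' N ht hl hL)
  have h3 := s5x_cov (κ w) (P.prod P) F (s5d_meas π F t w) (s5d_abs π F t w)
    (R := Eqv β π m w) (fun σ => (measurable_const.prodMk
      (measurable_const.prodMk measurable_id) : Measurable fun σ' : S => (w, σ, σ')) h.meas_eqv)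
    (fun σ σ' hE e p => by simp only [s5d, s5f_eqv h F _ hE]) a2
    (by
      filter_upwards [a1] with σ hσ
      filter_upwards [a1] with σ' hσ'
      exact s5_pos h hσ hσ' F h0 h1)
  have p1 : MeasurePreserving (fun p : W × W => p.1) (P.prod P) P := measurePreserving_fst
  have p2 : MeasurePreserving (fun p : W × W => (rot t p).1) (P.prod P) P := p1.comp (mp_rot t)
  have i1 : ∀ e u, Integrable (fun σ => s5f π e (mix F w u, σ)) (κ w) := fun e u =>
    integrable_of_bdd ((s5f_meas π e).comp measurable_prodMk_left) 1 fun σ => s5f_abs π e _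
  have e1 : ∫ p, ∑ e ∈ F, (∫ σ, s5d π F t w e σ p ∂κ w) * ∫ σ, s5d π F t w e σ p ∂κ w ∂P.prod P =
      ∫ p, ∑ e ∈ F, (edgeAl κ e (mix F w p.1) - edgeAl κ e (mix F w (rot t p).1)) ^ 2
        ∂P.prod P := by
    refine integral_congr_ae ?_
    filter_upwards [p1.quasiMeasurePreserving.ae a4, p2.quasiMeasurePreserving.ae a4] with p b1 b2
    refine Finset.sum_congr rfl fun e _ => ?_
    simp only [s5d]
    rw [integral_sub (i1 e _) (i1 e _), (b1 e).1, (b2 e).1, sq]
  have e2 : ∫ u, ∑ e ∈ F, (∫ σ, s5f π e (mix F w u, σ) ^ 2 ∂κ w -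
      (∫ σ, s5f π e (mix F w u, σ) ∂κ w) ^ 2) ∂P = ∫ u, ∑ e ∈ F, s5v κ π e (mix F w u) ∂P := by
    refine integral_congr_ae ?_
    filter_upwards [a4] with u b1
    exact Finset.sum_congr rfl fun e _ => by rw [(b1 e).1, (b1 e).2, s5v]
  rw [e1] at h3
  rw [e2] at h2
  refine le_trans (mul_le_mul_of_nonneg_left ?_ (mul_nonneg hβ ht)) h2
  rw [← le_div_iff₀' hc] at h3
  rw [div_mul_eq_mul_div, mul_div_assoc]
  linarith

end Pool.Agent.MP_c70b3b_mp.Cg

end

section

open MeasureTheory ProbabilityTheory Filter Topology BoundedContinuousFunction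
open scoped symmDiff ENNReal

namespace Pool.Agent.MP_c70b3b_mp.Cg

variable {β : ℝ} {κ : Kernel W S} {π : Kernel (W × S) S} {m : ℕ → ℕ}

lemma s5v_meas (h : Pure β κ π m) (e : E) : Measurable (s5v κ π e) := by
  have := h.cov.markov
  exact ((((s5f_meas π e).pow_const 2).stronglyMeasurable.integral_kernel_prod_right'
    (κ := κ)).measurable).sub ((edge_meas κ e).pow_const 2)

lemma s5v_abs (h : Pure β κ π m) (e : E) (w : W) : |s5v κ π e w| ≤ 2 := by
  have := h.cov.markov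
  have := h.markov
  have h1 : |∫ σ, s5f π e (w, σ) ^ 2 ∂κ w| ≤ 1 := s5x_abs _ fun σ => by
    rw [abs_pow]; exact pow_le_one₀ (abs_nonneg _) (s5f_abs π e _)
  have h2 : |edgeAl κ e w ^ 2| ≤ 1 := by
    rw [abs_pow]; exact pow_le_one₀ (abs_nonneg _) (edge_abs κ e w)
  exact (abs_sub _ _).trans (by linarith)

lemma s5_mean (h : Pure β κ π m) :
    ∀ᵐ w ∂P, ∀ e, ∫ σ, s5f π e (w, σ) ∂κ w = edgeAl κ e w := by
  have := h.cov.markov
  filter_upwards [h.cov.gibbs, Measure.ae_ae_of_ae_compProd h.ae] with w h1 h2 e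
  have := h.int h1 h2 (G := fun _ => 1) measurable_const 1 (fun _ => by simp) (fun _ _ => rfl)
    (continuous_bond e)
  simpa only [one_mul, s5f, edgeAl] using this

lemma s5_m2 (κ : Kernel W S) (π : Kernel (W × S) S) (e : E) :
    Measurable fun x : W × S => (s5f π e x - edgeAl κ e x.1) ^ 2 :=
  ((s5f_meas π e).fun_sub ((edge_meas κ e).comp measurable_fst)).pow_const 2

lemma s5_i2 (h : Pure β κ π m) (e : E) :
    Integrable (fun x : W × S => (s5f π e x - edgeAl κ e x.1) ^ 2) (P ⊗ₘ κ) := by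
  have := h.cov.markov
  have := h.markov
  exact integrable_of_bdd (s5_m2 κ π e) 4 fun x => by
    have h1 := abs_le.1 (s5f_abs π e x)
    have h2 := abs_le.1 (edge_abs κ e x.1)
    rw [abs_of_nonneg (sq_nonneg _)]
    nlinarith

lemma s5_sq (h : Pure β κ π m) (e : E) :
    ∫ x, (s5f π e x - edgeAl κ e x.1) ^ 2 ∂(P ⊗ₘ κ) = ∫ w, s5v κ π e w ∂P := by
  have := h.cov.markov
  have := h.markov
  rw [Measure.integral_compProd (s5_i2 h e)]
  refine integral_congr_ae ?_
  filter_upwards [s5_mean h] with w hw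
  have m1 : Measurable fun σ => s5f π e (w, σ) := (s5f_meas π e).comp measurable_prodMk_left
  have i1 : Integrable (fun σ => s5f π e (w, σ)) (κ w) :=
    integrable_of_bdd m1 1 fun σ => s5f_abs π e _
  have i2 : Integrable (fun σ => s5f π e (w, σ) ^ 2) (κ w) :=
    integrable_of_bdd (m1.pow_const 2) 1 fun σ => by
      rw [abs_pow]; exact pow_le_one₀ (abs_nonneg _) (s5f_abs π e _)
  have i3 : Integrable (fun σ => 2 * edgeAl κ e w * s5f π e (w, σ)) (κ w) := i1.const_mul _
  have i4 : Integrable (fun σ => s5f π e (w, σ) ^ 2 - 2 * edgeAl κ e w * s5f π e (w, σ)) (κ w) :=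
    i2.sub i3
  simp only [sub_sq']
  have e1 : ∀ σ, s5f π e (w, σ) ^ 2 + edgeAl κ e w ^ 2 - 2 * s5f π e (w, σ) * edgeAl κ e w =
      s5f π e (w, σ) ^ 2 - 2 * edgeAl κ e w * s5f π e (w, σ) + edgeAl κ e w ^ 2 := fun σ => by ring
  simp only [e1]
  rw [integral_add i4 (integrable_const _), integral_sub i2 i3, integral_const_mul, hw e, s5v]
  simp only [integral_const, probReal_univ, one_smul]
  ring

lemma s5_shE (e : E) : shE e.1 (0, e.2) = e := by simp [shE]

lemma s5_edge (h : Pure β κ π m) : ∀ᵐ w ∂P, ∀ e : E,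
    edgeAl κ e w = edgeAl κ (0, e.2) (shW e.1 w) := by
  filter_upwards [ae_all_iff.2 fun z => cov1 h.cov z] with w hw e
  rw [← edge_cov (hw e.1), s5_shE, edgeAl]

lemma s5_d (h : Pure β κ π m) (e : E) :
    ∫ w, s5v κ π e w ∂P = ∫ w, s5v κ π (0, e.2) w ∂P := by
  have := h.cov.markov
  have hf : MeasurePreserving (Prod.fst : W × S → W) (P ⊗ₘ κ) P :=
    ⟨measurable_fst, Measure.fst_compProd P κ⟩
  rw [← s5_sq h, ← s5_sq h, ← st_int (mp_shift h.cov e.1) (s5_m2 κ π (0, e.2))]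
  refine integral_congr_ae ?_
  filter_upwards [h.shift e.1, hf.quasiMeasurePreserving.ae (s5_edge h)] with x h1 h2
  rw [h2 e, s5f, s5f, h1, integral_map (measurable_shS _).aemeasurable
    (measurable_bond _).aestronglyMeasurable]
  simp only [bond_shS, s5_shE]
  rfl

lemma s5_card (N : ℕ) : ((touch (box N)).card : ℝ) ≤ 16 * N ^ 2 := by
  have h1 : (touch (box N)).card ≤ 16 * N ^ 2 := by
    unfold touch
    refine (Finset.card_union_le _ _).trans ((add_le_add ((Finset.card_union_le _ _).trans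
      (add_le_add le_rfl Finset.card_image_le)) Finset.card_image_le).trans ?_)
    rw [Finset.card_product, avg_card_box, Finset.card_univ, Fintype.card_bool]
    omega
  exact_mod_cast h1

lemma s5_main (hβ : 0 ≤ β) (h : Pure β κ π m) {c : ℝ} (hc : 0 < c)
    (he : ∀ᵐ x ∂(P ⊗ₘ κ), (κ x.1).real {σ | Eqv β π m x.1 x.2 σ} = c) {η : ℝ} (hη : 0 < η) :
    ∃ k > (0 : ℝ), ∀ (N : ℕ) (b : Bool) (l L : ℝ), 0 < l → 0 < L →
      β * k * (8 * N ^ 2 * ∫ w, s5v κ π (0, b) w ∂P - 32 / c * η * N ^ 2) ≤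
      32 * l * N ^ 2 + 128 * β ^ 2 * N * (L + 2000 * (8 * N + 1) ^ 2 / L ^ 2) / (2 * l) := by
  have := h.cov.markov
  have := h.markov
  have s1 := (eventually_all_finite (Set.finite_univ (α := Bool))).2 fun b _ =>
    s5x_stable (edge_meas κ (0, b)) (edge_abs κ (0, b)) hη
  obtain ⟨t, ⟨ht, ht2⟩, ht1⟩ := (((s1.and (gt_mem_nhds Real.pi_pos)).filter_mono
    (nhdsWithin_le_nhds (s := Set.Ioi 0))).and self_mem_nhdsWithin).exists
  have hs := Real.sin_pos_of_pos_of_lt_pi ht1 ht2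
  refine ⟨_, hs, fun N b l L hl hL => ?_⟩
  set F := touch (box N) with hF
  have a4 : ∀ᵐ p ∂P.prod P, ∀ e, ∫ σ, s5f π e (mix F p.1 p.2, σ) ∂κ p.1 =
        edgeAl κ e (mix F p.1 p.2) ∧
      ∫ σ, s5f π e (mix F p.1 p.2, σ) ^ 2 ∂κ p.1 =
        ∫ σ, s5f π e (mix F p.1 p.2, σ) ^ 2 ∂κ (mix F p.1 p.2) := by
    filter_upwards [h.cd hβ hc he F, (mp_mix F).quasiMeasurePreserving.ae (s5_mean h)]
      with p h1 h2 e
    have m1 : Measurable fun σ => s5f π e (mix F p.1 p.2, σ) :=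
      (s5f_meas π e).comp measurable_prodMk_left
    exact ⟨(h1 _ m1 (fun σ => s5f_abs π e _) fun σ σ' hE => s5f_eqv h F _ hE e).trans (h2 e),
      h1 _ (m1.pow_const 2) (fun σ => by
        rw [abs_pow]; exact pow_le_one₀ (abs_nonneg _) (s5f_abs π e _))
        fun σ σ' hE => by rw [s5f_eqv h F _ hE e]⟩
  set A : W × W × W → ℝ := fun x => ∑ e ∈ F,
    (edgeAl κ e (mix F x.1 x.2.1) - edgeAl κ e (mix F x.1 (rot t x.2).1)) ^ 2 with hA
  have mA1 : ∀ e, Measurable fun x : W × W × W =>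
      (edgeAl κ e (mix F x.1 x.2.1) - edgeAl κ e (mix F x.1 (rot t x.2).1)) ^ 2 := fun e =>
    (((edge_meas κ e).comp (st_mp1 F).measurable).sub
      ((edge_meas κ e).comp (st_mp2 F t).measurable)).pow_const 2
  have bA1 : ∀ e (x : W × W × W),
      |(edgeAl κ e (mix F x.1 x.2.1) - edgeAl κ e (mix F x.1 (rot t x.2).1)) ^ 2| ≤ 4 :=
    fun e x => by
      have h1 := abs_le.1 (edge_abs κ e (mix F x.1 x.2.1))
      have h2 := abs_le.1 (edge_abs κ e (mix F x.1 (rot t x.2).1))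
      rw [abs_of_nonneg (sq_nonneg _)]
      nlinarith
  have iA : Integrable A (P.prod (P.prod P)) :=
    integrable_finsetSum _ fun e _ => integrable_of_bdd (mA1 e) 4 (bA1 e)
  set B : W × W → ℝ := fun p => ∑ e ∈ F, s5v κ π e (mix F p.1 p.2) with hB
  have iB1 : ∀ e, Integrable (fun p : W × W => s5v κ π e (mix F p.1 p.2)) (P.prod P) := fun e =>
    integrable_of_bdd ((s5v_meas h e).comp (measurable_mix F)) 2 fun p => s5v_abs h e _
  have iB : Integrable B (P.prod P) := integrable_finsetSum _ fun e _ => iB1 e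
  have key : ∀ᵐ w ∂P, β * Real.sin t * (2 * ∫ u, B (w, u) ∂P - 2 / c * ∫ p, A (w, p) ∂P.prod P) ≤
      2 * l * F.card + 128 * β ^ 2 * N * (L + 2000 * (8 * N + 1) ^ 2 / L ^ 2) / (2 * l) := by
    filter_upwards [Measure.ae_ae_of_ae_compProd h.ae, Measure.ae_ae_of_ae_compProd he,
      Measure.ae_ae_of_ae_compProd h.uniq2, Measure.ae_ae_of_ae_prod a4] with w a1 a2 a3 a4
    rw [Kernel.prod_apply] at a3
    exact s5_w hβ h hc N ht1.le ht2.le hl hL a1 a2 (Measure.ae_ae_of_ae_prod a3) a4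
  have j1 : Integrable (fun w => 2 * ∫ u, B (w, u) ∂P) P := iB.integral_prod_left.const_mul _
  have j2 : Integrable (fun w => 2 / c * ∫ p, A (w, p) ∂P.prod P) P :=
    iA.integral_prod_left.const_mul _
  have j3 : Integrable (fun w => 2 * ∫ u, B (w, u) ∂P - 2 / c * ∫ p, A (w, p) ∂P.prod P) P :=
    j1.sub j2
  have h5 := integral_mono_ae (j3.const_mul _) (integrable_const _) key
  rw [integral_const_mul, integral_sub j1 j2, integral_const_mul, integral_const_mul,
    ← integral_prod _ iB, ← integral_prod _ iA] at h5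
  simp only [integral_const, probReal_univ, one_smul] at h5
  have eB : 4 * N ^ 2 * ∫ w, s5v κ π (0, b) w ∂P ≤ ∫ p, B p ∂P.prod P := by
    rw [hB, integral_finsetSum _ fun e _ => iB1 e]
    simp only [fun e => st_int (mp_mix F) (s5v_meas h e)]
    have h6 : (box N).image (fun x => (x, b)) ⊆ F := fun e he => by
      obtain ⟨x, hx, rfl⟩ := Finset.mem_image.1 he
      exact mem_touch.2 (Or.inl hx)
    refine le_trans (le_of_eq ?_) (Finset.sum_le_sum_of_subset_of_nonneg h6 fun e _ _ => by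
      rw [← s5_sq h]; exact integral_nonneg fun x => sq_nonneg _)
    rw [Finset.sum_image fun x _ y _ hxy => (Prod.ext_iff.1 hxy).1,
      Finset.sum_congr rfl fun x _ => s5_d h (x, b)]
    rw [show (fun x : V => ∫ w, s5v κ π (0, (x, b).2) w ∂P) =
      fun _ => ∫ w, s5v κ π (0, b) w ∂P from rfl, Finset.sum_const, avg_card_box, nsmul_eq_mul]
    push_cast
    ring
  have eA : ∫ x, A x ∂P.prod (P.prod P) ≤ 16 * N ^ 2 * η := by
    rw [hA, integral_finsetSum _ fun e _ => integrable_of_bdd (mA1 e) 4 (bA1 e)]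
    refine (Finset.sum_le_card_nsmul _ _ η fun e _ => ?_).trans ?_
    · refine le_trans (le_of_eq (integral_congr_ae ?_)) (ht e.2 trivial F e.1)
      filter_upwards [(st_mp1 F).quasiMeasurePreserving.ae (s5_edge h),
        (st_mp2 F t).quasiMeasurePreserving.ae (s5_edge h)] with x h1 h2
      rw [h1 e, h2 e]
    · rw [nsmul_eq_mul]
      exact mul_le_mul_of_nonneg_right (s5_card N) hη.le
  have h7 : 2 / c * ∫ x, A x ∂P.prod (P.prod P) ≤ 32 / c * η * N ^ 2 :=
    (mul_le_mul_of_nonneg_left eA (by positivity)).trans (le_of_eq (by ring))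
  have h8 : 2 * l * F.card ≤ 32 * l * N ^ 2 :=
    (mul_le_mul_of_nonneg_left (s5_card N) (by positivity)).trans (le_of_eq (by ring))
  refine le_trans (mul_le_mul_of_nonneg_left (by linarith) (mul_nonneg hβ hs.le))
    (h5.trans (add_le_add h8 le_rfl))

theorem Pure.bond_eq (hβ : 0 < β) (h : Pure β κ π m) {c : ℝ} (hc : 0 < c)
    (he : ∀ᵐ x ∂(P ⊗ₘ κ), (κ x.1).real {σ | Eqv β π m x.1 x.2 σ} = c) (e : E) :
    ∀ᵐ x ∂(P ⊗ₘ κ), ∫ σ, bond σ e ∂π x = ∫ σ, bond σ e ∂κ x.1 := by
  have := h.cov.markov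
  have := h.markov
  have h0 : ∫ w, s5v κ π (0, e.2) w ∂P ≤ 0 := by
    by_contra hd
    push Not at hd
    set d := ∫ w, s5v κ π (0, e.2) w ∂P
    obtain ⟨k, hk, h1⟩ := s5_main hβ.le h hc he (η := c * d / 8) (by positivity)
    set a := β * k * d with ha
    have ha0 : 0 < a := by positivity
    set l := a / 32 with hl
    have hl0 : 0 < l := by positivity
    set θ := a * l / (64 * β ^ 2) with hθ
    have hθ0 : 0 < θ := by positivity
    set D := 64 * β ^ 2 * (2000 * 81 / θ ^ 2) / l with hD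
    obtain ⟨N, hN⟩ := exists_nat_gt (D / (2 * a) + 1)
    have hD0 : 0 < D := by positivity
    have hN1 : (1 : ℝ) < N := lt_of_le_of_lt (le_add_of_nonneg_left (by positivity)) hN
    have hN0 : (0 : ℝ) < N := by linarith
    have h2 := h1 N e.2 l (θ * N) hl0 (by positivity)
    have h3 : 2000 * (8 * (N : ℝ) + 1) ^ 2 / (θ * N) ^ 2 ≤ 2000 * 81 / θ ^ 2 := by
      rw [div_le_div_iff₀ (by positivity) (by positivity)]
      have : (8 * (N : ℝ) + 1) ^ 2 ≤ 81 * N ^ 2 := by nlinarith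
      nlinarith [mul_le_mul_of_nonneg_right this (sq_nonneg θ)]
    have h4 : 128 * β ^ 2 * N * (θ * N + 2000 * (8 * (N : ℝ) + 1) ^ 2 / (θ * N) ^ 2) / (2 * l) ≤
        a * N ^ 2 + D * N := by
      refine (div_le_div_of_nonneg_right (mul_le_mul_of_nonneg_left (add_le_add le_rfl h3)
        (by positivity)) (by positivity)).trans (le_of_eq ?_)
      rw [hD, hθ]
      field_simp
      ring
    have h5 : β * k * (8 * N ^ 2 * d - 32 / c * (c * d / 8) * N ^ 2) = 4 * a * N ^ 2 := by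
      rw [ha]; field_simp; ring
    have h6 : 32 * l = a := by rw [hl]; ring
    rw [h5, h6] at h2
    have h7 : D < 2 * a * N := by
      have : D / (2 * a) < N := by linarith
      rwa [div_lt_iff₀ (by positivity), mul_comm] at this
    nlinarith [mul_lt_mul_of_pos_right h7 hN0]
  rw [← s5_d h, ← s5_sq h] at h0
  have h1 := (integral_eq_zero_iff_of_nonneg (fun x => sq_nonneg _) (s5_i2 h e)).1
    (le_antisymm h0 (integral_nonneg fun x => sq_nonneg _))
  filter_upwards [h1] with x hx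
  exact sub_eq_zero.1 (pow_eq_zero_iff two_ne_zero |>.1 hx)

end Pool.Agent.MP_c70b3b_mp.Cg

end

section

open MeasureTheory ProbabilityTheory Filter Topology BoundedContinuousFunction
open scoped symmDiff ENNReal

namespace Pool.Agent.MP_c70b3b_mp.Cg

variable {β : ℝ} {κ : Kernel W S} {π : Kernel (W × S) S} {m : ℕ → ℕ}

lemma s6_loc {α : Type*} [MeasurableSpace α] {μ : Measure α} {L : V → ℝ}
    {f : α → V × Bool → V × Bool → ℝ} (hi : ∀ l l', Integrable (fun a => f a l l') μ)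
    (h0 : ∀ a l l', 0 ≤ f a l l') (h : ∀ᵐ a ∂μ, LocRel L (f a)) :
    LocRel L fun l l' => ∫ a, f a l l' ∂μ := by
  have z : ∀ l l', ∫ a, f a l l' ∂μ = 0 → ∀ᵐ a ∂μ, f a l l' = 0 := fun l l' hz =>
    (integral_eq_zero_iff_of_nonneg (fun a => h0 a l l') (hi l l')).1 hz
  have z' : ∀ l l', (∀ᵐ a ∂μ, f a l l' = 0) → ∫ a, f a l l' ∂μ = 0 := fun l l' hz =>
    integral_eq_zero_of_ae hz
  refine ⟨fun l l' => ?_, fun g n l l' hl hl' hne z1 z2 l'' hl'' => z' _ _ ?_,
    fun g n hz => ?_, fun g n hz => ?_, fun g n hz => ?_, fun g n hz => ?_,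
    fun g l l' hl hl' => z' _ _ ?_⟩
  · exact integral_congr_ae (h.mono fun a ha => ha.symm l l')
  · filter_upwards [h, z _ _ z1, z _ _ z2] with a ha h1 h2
    exact ha.two g n l l' hl hl' hne h1 h2 l'' hl''
  · rw [← integral_const_mul]
    refine integral_congr_ae ?_
    filter_upwards [h, z _ _ hz] with a ha h1 using ha.r1 g n h1
  · rw [← integral_const_mul]
    refine integral_congr_ae ?_
    filter_upwards [h, z _ _ hz] with a ha h1 using ha.r2 g n h1
  · rw [← integral_const_mul]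
    refine integral_congr_ae ?_
    filter_upwards [h, z _ _ hz] with a ha h1 using ha.r3 g n h1
  · rw [← integral_const_mul]
    refine integral_congr_ae ?_
    filter_upwards [h, z _ _ hz] with a ha h1 using ha.r4 g n h1
  · filter_upwards [h] with a ha using ha.base g l l' hl hl'

lemma s6_kc_le (K : W) (ρ : Measure S) [IsProbabilityMeasure ρ] (x y : V) (G : Finset E) :
    |kc K ρ x y G| ≤ Real.exp (2 * ∑ e ∈ G, |K e|) := by
  have h := norm_integral_le_of_norm_le_const (μ := ρ)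
    (f := fun σ : S => sp (σ x) * sp (σ y) * Real.exp (-2 * en K G σ))
    (C := Real.exp (2 * ∑ e ∈ G, |K e|)) (Eventually.of_forall fun σ => by
      rw [Real.norm_eq_abs, abs_mul, abs_mul, abs_sp, abs_sp, one_mul, one_mul,
        abs_of_pos (Real.exp_pos _)]
      have := abs_le.1 (abs_en_le K G σ)
      exact Real.exp_le_exp.2 (by linarith [this.1]))
  simpa [kc] using h

lemma s6_meas_kc (β : ℝ) (π : Kernel (W × S) S) [IsMarkovKernel π] (x y : V) (G : Finset E) :
    Measurable fun p : W × S => kc (β • p.1) (π p) x y G := by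
  have hf : Measurable fun q : (W × S) × S =>
      sp (q.2 x) * sp (q.2 y) * Real.exp (-2 * en (β • q.1.1) G q.2) :=
    (((measurable_sp x).comp measurable_snd).mul ((measurable_sp y).comp measurable_snd)).mul
      (Real.measurable_exp.comp (((measurable_en2 β G).comp
        (measurable_fst.fst.prodMk measurable_snd)).const_mul _))
  exact (hf.stronglyMeasurable.integral_kernel_prod_right' (κ := π)).measurable

lemma s6_meas (β : ℝ) (κ : Kernel W S) [IsMarkovKernel κ] (π : Kernel (W × S) S)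
    [IsMarkovKernel π] (l l' : V × Bool) :
    Measurable fun p : W × S => DD (β • p.1) (π p) (κ p.1) l l' :=
  ((s6_meas_kc β π _ _ _).sub ((tower_meas_kc β κ _ _ _).comp measurable_fst)).abs

lemma s6_int (β : ℝ) (κ : Kernel W S) [IsMarkovKernel κ] (π : Kernel (W × S) S)
    [IsMarkovKernel π] (w : W) (l l' : V × Bool) :
    Integrable (fun σ => DD (β • w) (π (w, σ)) (κ w) l l') (κ w) := by
  refine integrable_of_bdd ((s6_meas β κ π l l').comp measurable_prodMk_left)
    (2 * Real.exp (2 * ∑ e ∈ pth (cor l).2 (cor l').2, |(β • w) e|)) fun σ => ?_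
  unfold DD
  rw [abs_abs]
  have h1 := s6_kc_le (β • w) (π (w, σ)) (cor l).1 (cor l').1 (pth (cor l).2 (cor l').2)
  have h2 := s6_kc_le (β • w) (κ w) (cor l).1 (cor l').1 (pth (cor l).2 (cor l').2)
  exact (abs_sub _ _).trans (by linarith)

theorem Pure.ev_of_bond (hβ : 0 < β) (h : Pure β κ π m)
    (hb : ∀ e, ∀ᵐ x ∂(P ⊗ₘ κ), ∫ σ, bond σ e ∂π x = ∫ σ, bond σ e ∂κ x.1) :
    ∀ᵐ x ∂(P ⊗ₘ κ), EvEq (π x) (κ x.1) := by
  have := h.cov.markov; have := h.markov
  have hO := Measure.ae_ae_of_ae_compProd h.ae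
  have key := tower_abs hβ.ne' one_pos
    (fun w l l' => ∫ σ, DD (β • w) (π (w, σ)) (κ w) l l' ∂κ w)
    (fun l l' => ((s6_meas β κ π l l').stronglyMeasurable.integral_kernel_prod_right'
      (κ := κ)).measurable)
    (fun w l l' => integral_nonneg fun σ => abs_nonneg _)
    (by
      filter_upwards [h.cov.gibbs, hO, tower_ne hβ.ne',
        Measure.ae_ae_of_ae_compProd (ae_all_iff.2 hb)] with w hw hw' hne hE
      refine s6_loc (s6_int β κ π w) (fun σ l l' => abs_nonneg _) ?_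
      filter_upwards [hw', hE] with σ h1 h2
      exact locRel hne (h.gibbs h1) hw h2)
    (fun z l l' => by
      simp only [one_smul]
      filter_upwards [h.cov.gibbs, hO, cov1 h.cov z,
        Measure.ae_ae_of_ae_compProd (h.shift z)] with w hw hw' hc hs
      have hm : Measurable fun σ => DD (β • shW z w) (π (shW z w, σ)) (κ (shW z w)) l l' :=
        (s6_meas β κ π l l').comp measurable_prodMk_left
      rw [hc] at hm ⊢
      rw [integral_map (measurable_shS z).aemeasurable hm.aestronglyMeasurable]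
      refine integral_congr_ae ?_
      filter_upwards [hw', hs] with σ h1 h2
      rw [shift_eq] at h2
      simp only [DD, h2, tower_kc_shift, cor_shift]
      refine abs_kc_indep (h.gibbs h1) hw _ _ fun r => ?_
      rw [tower_fbd_shift, fbd_pth, fbd_pth, tower_dl_shift, tower_dl_shift])
  have hz : ∀ᵐ x ∂(P ⊗ₘ κ), ∀ l l', DD (β • x.1) (π x) (κ x.1) l l' = 0 := by
    refine ae_all_iff.2 fun l => ae_all_iff.2 fun l' => ?_
    refine (Measure.ae_compProd_iff
      (measurableSet_eq_fun (s6_meas β κ π l l') measurable_const)).2 ?_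
    filter_upwards [key] with w hw
    exact (integral_eq_zero_iff_of_nonneg (fun σ => abs_nonneg _) (s6_int β κ π w l l')).1
      (hw l l')
  have hg : ∀ᵐ x ∂(P ⊗ₘ κ), Gibbs (β • x.1) (κ x.1) := by
    have hq : MeasurePreserving Prod.fst (P ⊗ₘ κ) P := ⟨measurable_fst, Measure.fst_compProd P κ⟩
    exact hq.quasiMeasurePreserving.ae h.cov.gibbs
  filter_upwards [hz, hg, h.ae, h.uniq1, h.uniq3] with x hD hw hx u1 u3
  intro A hA
  exact even_eq (h.gibbs hx) hw (kceq_of_DD (h.gibbs hx) hw hD) u1 u3 A hA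

end Pool.Agent.MP_c70b3b_mp.Cg

end
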