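import Pool.Agent.Mg.Fc70b3ba.Gd0fa04
import Pool.Agent.Mg.Fc70b3ba.G4e0d99

section

open MeasureTheory ProbabilityTheory Filter Topology BoundedContinuousFunction
open scoped symmDiff ENNReal

namespace Pool.Agent.MP_c70b3b_mp.Cg

variable {β : ℝ} {κ : Kernel W S} {π : Kernel (W × S) S} {m : ℕ → ℕ}

lemma w2_en (K : W) (z : V) (G : Finset E) (σ : S) :
    en (shW z K) G (shS z σ) = en K (G.image (shE z)) σ := by
  simpa only [one_smul] using tower_en_shift 1 z K G σ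

lemma w2_rV (z z' : V) (i : ℕ) : rV z' i + z = rV (z' + z) i := by
  unfold rV; abel

lemma w2_rV_add (z : V) (i y : ℕ) : rV z (i + y) = rV (rV z y) i := by
  simp only [rV, Nat.cast_add, add_assoc, Prod.mk_add_mk, add_zero, add_comm (i : ℤ)]

lemma w2_rS (a : Ix) (y k : ℕ) : k ∈ rS (a.1 + y, a.2) ↔ k < y ∨ k - y ∈ rS a := by
  rcases a with ⟨i, _ | _⟩ <;> simp [rS] <;> omega

theorem gibbs_shift {K : W} {μ : Measure S} (h : Gibbs K μ) (z : V) :
    Gibbs (shW z K) (μ.map (shS z)) := by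
  have := h.1
  refine ⟨inferInstance, fun x => (gib_lint (gib_meas _ _ _)).2 fun g hg => ?_⟩
  have h1 := (gib_lint (gib_meas K (-2) _)).1 (h.map_flp (tr {x} z)) (fun σ => g (shS z σ))
    (hg.comp (measurable_shS z))
  rw [lintegral_map (f := fun σ => g (flp {x} σ)) (hg.comp (measurable_flp _)) (measurable_shS z),
    lintegral_map (f := fun σ => ENNReal.ofReal (Real.exp (-2 * en (shW z K) (cob {x}) σ)) * g σ)
      ((gib_meas _ _ _).mul hg) (measurable_shS z)]
  simp only [flp_shS, w2_en, cob_tr]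
  exact h1

theorem uniqAll_shift {τ : S} (h : UniqAll τ) (z : V) : UniqAll (shS z τ) := by
  intro L s x y hx hy
  have e : {x | x ∉ L ∧ shS z τ x = s} = {v | v + z ∈ {x | x ∉ tr L z ∧ τ x = s}} := by
    ext v
    simp [mem_tr, shS]
  rw [e] at hx hy ⊢
  rw [bkmeas_infC_shift] at hx hy
  exact (conn_shift z _ x y).2 (h _ s _ _ hx hy)

theorem rA_shift (K : W) (μ : Measure S) (z z' : V) (a b : Ix) :
    rA (shW z K) (μ.map (shS z)) z' a b = rA K μ (z' + z) a b := by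
  have hm : Measurable (rO (shW z K) z' a b) :=
    ((measurable_sp _).mul (measurable_sp _)).mul ((measurable_en _ _).const_mul _).exp
  rw [rA, rA, integral_map (measurable_shS z).aemeasurable hm.aestronglyMeasurable]
  congr 2
  funext σ
  have e : ∀ I, (rE z' I).image (shE z) = rE (z' + z) I := fun I => by
    simp only [rE, Finset.image_image, ← w2_rV]
    rfl
  simp only [rO, mu, w2_en, e, shS, w2_rV]

theorem rA_add (K : W) (μ : Measure S) (z : V) (y : ℕ) (a b : Ix) :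
    rA K μ z (a.1 + y, a.2) (b.1 + y, b.2) = rA K μ (rV z y) a b := by
  have e1 : rsg (a.1 + y, a.2) (b.1 + y, b.2) = rsg a b := by
    simp only [rsg, w2_rS, Nat.add_sub_cancel, Nat.not_lt.2 (Nat.le_add_left y b.1), false_or]
  have e2 : rE z (rS (a.1 + y, a.2) ∆ rS (b.1 + y, b.2)) = rE (rV z y) (rS a ∆ rS b) := by
    have : rS (a.1 + y, a.2) ∆ rS (b.1 + y, b.2) = (rS a ∆ rS b).image (· + y) := by
      ext k
      simp only [Finset.mem_symmDiff, w2_rS, Finset.mem_image]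
      constructor
      · intro h
        have hk : ¬ k < y := by tauto
        exact ⟨k - y, by tauto, by omega⟩
      · rintro ⟨j, hj, rfl⟩
        simpa only [Nat.add_sub_cancel, Nat.not_lt.2 (Nat.le_add_left y j), false_or] using hj
    rw [this, rE, rE, Finset.image_image]
    simp only [← w2_rV_add]
    rfl
  simp only [rA, rO, e1, e2, w2_rV_add]

end Pool.Agent.MP_c70b3b_mp.Cg

end

section

open MeasureTheory ProbabilityTheory Filter Topology BoundedContinuousFunction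
open scoped symmDiff ENNReal

namespace Pool.Agent.MP_c70b3b_mp.Cg

variable {β : ℝ} {κ : Kernel W S} {π : Kernel (W × S) S} {m : ℕ → ℕ}

lemma w1_one {M ι : Type} [AddCommGroup M] [Module ℝ M] [Fintype ι] [DecidableEq ι]
    (γ : ι → M →ₗ[ℝ] M) (ε : ι → ℝ) (hε : ∀ a, ε a * ε a = 1)
    (hγ : ∀ a b v, γ a (γ b v) + γ b (γ a v) = (if a = b then 2 * ε a else 0) • v)
    (φ ψ : M →ₗ[ℝ] ℝ) (Z : M)
    (hZ : ∀ φ : M →ₗ[ℝ] ℝ, ∑ a, (ε a * φ (γ a Z)) • γ a Z = 0) (x b c d : ι) :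
    ∑ a, ε a * (ψ (γ a (γ b (γ c (γ d Z)))) * φ (γ a (γ x Z))) =
      2 * (φ Z * ψ (γ x (γ b (γ c (γ d Z)))) - (φ (γ x (γ b Z)) * ψ (γ c (γ d Z)) -
        φ (γ x (γ c Z)) * ψ (γ b (γ d Z)) + φ (γ x (γ d Z)) * ψ (γ b (γ c Z)))) := by
  have key : ∀ (n : ι → ℝ) (b : ι) (v : M),
      ∑ a, (ε a * n a) • (γ a (γ b v) + γ b (γ a v)) = (2 * n b) • v := by
    intro n b v
    rw [Finset.sum_eq_single b]
    · rw [hγ, if_pos rfl, smul_smul]
      congr 1
      linear_combination 2 * n b * hε b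
    · intro a _ hab
      rw [hγ, if_neg hab, zero_smul, smul_zero]
    · simp
  obtain ⟨T, hT⟩ : ∃ T : M →ₗ[ℝ] M, ∀ v, T v = ∑ a, (ε a * φ (γ x (γ a Z))) • γ a v :=
    ⟨∑ a, (ε a * φ (γ x (γ a Z))) • γ a, fun v => by simp [LinearMap.sum_apply]⟩
  have h0 : T Z = 0 := by
    rw [hT]
    exact hZ (φ ∘ₗ γ x)
  have h1 : ∀ b v, T (γ b v) = (2 * φ (γ x (γ b Z))) • v - γ b (T v) := by
    intro b v
    rw [← key (fun a => φ (γ x (γ a Z))) b v, hT, hT, map_sum, ← Finset.sum_sub_distrib]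
    refine Finset.sum_congr rfl fun a _ => ?_
    rw [map_smul, smul_add, add_sub_cancel_right]
  have h2 : ψ (T (γ b (γ c (γ d Z)))) = 2 * (φ (γ x (γ b Z)) * ψ (γ c (γ d Z)) -
      φ (γ x (γ c Z)) * ψ (γ b (γ d Z)) + φ (γ x (γ d Z)) * ψ (γ b (γ c Z))) := by
    rw [h1, h1, h1, h0]
    simp only [map_sub, map_smul, map_zero, smul_eq_mul]
    ring
  have h3 : ∑ a, ε a * (ψ (γ a (γ b (γ c (γ d Z)))) * φ (γ a (γ x Z) + γ x (γ a Z))) =
      2 * (φ Z * ψ (γ x (γ b (γ c (γ d Z))))) := by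
    rw [Finset.sum_eq_single x]
    · rw [hγ, if_pos rfl, map_smul, smul_eq_mul]
      linear_combination 2 * (φ Z * ψ (γ x (γ b (γ c (γ d Z))))) * hε x
    · intro a _ hac
      rw [hγ, if_neg hac, zero_smul, map_zero, mul_zero, mul_zero]
    · simp
  rw [mul_sub, ← h2, ← h3, hT, map_sum, ← Finset.sum_sub_distrib]
  refine Finset.sum_congr rfl fun a _ => ?_
  rw [map_add, map_smul, smul_eq_mul]
  ring

theorem wick_abs {M ι : Type} [AddCommGroup M] [Module ℝ M] [Fintype ι] [DecidableEq ι]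
    (γ : ι → M →ₗ[ℝ] M) (ε : ι → ℝ) (hε : ∀ a, ε a * ε a = 1)
    (hγ : ∀ a b v, γ a (γ b v) + γ b (γ a v) = (if a = b then 2 * ε a else 0) • v)
    (N N' : M →ₗ[ℝ] ℝ) (Z : M)
    (hZ : ∀ φ : M →ₗ[ℝ] ℝ, ∑ a, (ε a * φ (γ a Z)) • γ a Z = 0) (x b c d : ι)
    (hQ : ∑ a, ε a * (N (γ a (γ b (γ c (γ d Z)))) * N' (γ a (γ x Z)) +
      N' (γ a (γ b (γ c (γ d Z)))) * N (γ a (γ x Z))) = 0) :
    N' Z * N (γ x (γ b (γ c (γ d Z)))) + N Z * N' (γ x (γ b (γ c (γ d Z)))) =
      (N' (γ x (γ b Z)) * N (γ c (γ d Z)) - N' (γ x (γ c Z)) * N (γ b (γ d Z)) +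
        N' (γ x (γ d Z)) * N (γ b (γ c Z))) +
      (N (γ x (γ b Z)) * N' (γ c (γ d Z)) - N (γ x (γ c Z)) * N' (γ b (γ d Z)) +
        N (γ x (γ d Z)) * N' (γ b (γ c Z))) := by
  have h1 := w1_one γ ε hε hγ N' N Z hZ x b c d
  have h2 := w1_one γ ε hε hγ N N' Z hZ x b c d
  simp only [mul_add, Finset.sum_add_distrib] at hQ
  linarith

end Pool.Agent.MP_c70b3b_mp.Cg

end

section

open MeasureTheory ProbabilityTheory Filter Topology BoundedContinuousFunction
open scoped symmDiff ENNReal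

namespace Pool.Agent.MP_c70b3b_mp.Cg

variable {β : ℝ} {κ : Kernel W S} {π : Kernel (W × S) S} {m : ℕ → ℕ}

/-- The left end of the bottom side of the ring. -/
def w3_z (N : ℕ) : V := (-(N : ℤ), -(N : ℤ) - 1)

/-- The corner of a ring index. -/
def w3_ix {n : ℕ} (a : Fin n × Bool) : Ix := (a.1.1, a.2)

lemma w3_bv {N k : ℕ} (hk : k < 2 * N) : rV (w3_z N) k = bv N k := by
  simp only [rV, w3_z, bv, hk, if_true, Prod.mk_add_mk, add_zero, Prod.mk.injEq, and_true]
  ring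

lemma w3_port {N k : ℕ} (hk : k < 2 * N) : (rV (w3_z N) k, true) = port N k := by
  rw [w3_bv hk]; simp only [bv, port, hk, if_true]

lemma w3_mem {n : ℕ} (a : Fin n × Bool) (i : Fin n) : i ∈ cliffS a ↔ i.1 ∈ rS (w3_ix a) := by
  rcases a with ⟨j, _ | _⟩
  · simp [cliffS, rS, w3_ix]
  · simp [cliffS, rS, w3_ix]

lemma w3_le {a : Ix} {k : ℕ} (h : k ∈ rS a) : k ≤ a.1 := by
  rcases a with ⟨j, _ | _⟩ <;> simp [rS] at h ⊢ <;> omega

lemma w3_lt {a : Ix} {k : ℕ} (h : k < a.1) : k ∈ rS a := by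
  rcases a with ⟨j, _ | _⟩ <;> simp [rS] at h ⊢ <;> omega

lemma w3_E {N : ℕ} {a b : Fin (8 * N) × Bool} (ha : a.1.1 < 2 * N) (hb : b.1.1 < 2 * N) :
    rE (w3_z N) (rS (w3_ix a) ∆ rS (w3_ix b)) =
      (cliffS a ∆ cliffS b).image fun i : Fin (8 * N) => port N i := by
  have hk : ∀ k ∈ rS (w3_ix a) ∆ rS (w3_ix b), k < 2 * N := fun k hk => by
    rcases Finset.mem_symmDiff.1 hk with h | h
    · exact lt_of_le_of_lt (w3_le h.1) ha
    · exact lt_of_le_of_lt (w3_le h.1) hb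
  ext e
  simp only [rE, Finset.mem_image]
  constructor
  · rintro ⟨k, h, rfl⟩
    have h2 := hk k h
    refine ⟨⟨k, by omega⟩, ?_, (w3_port h2).symm⟩
    simpa only [Finset.mem_symmDiff, w3_mem] using h
  · rintro ⟨i, h, rfl⟩
    have h1 : i.1 ∈ rS (w3_ix a) ∆ rS (w3_ix b) := by
      simpa only [Finset.mem_symmDiff, w3_mem] using h
    exact ⟨i.1, h1, w3_port (hk _ h1)⟩

lemma w3_sg {n : ℕ} (a b : Fin n × Bool) :
    rsg (w3_ix a) (w3_ix b) = cliffSg (cliffS a) b.1 := by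
  simp only [rsg, cliffSg, w3_mem]; rfl

lemma w3_glue (N : ℕ) {K : W} {ρ : Measure S} (h : Gibbs K ρ) (φ : (Fin (8 * N) → ℤˣ) → ℝ)
    (I : Finset (Fin (8 * N))) :
    ∫ σ, φ (fun i => σ (bv N i)) * mu K (I.image fun i : Fin (8 * N) => port N i) σ ∂ρ =
      2 ^ (8 * N) * ∑ η, ring N (tilt (-K) (touch (box N)) ρ) η *
        (φ η * ring N (tilt K (touch (box N)) unif) (fl I η)) := by
  have hG : (I.image fun i : Fin (8 * N) => port N i) ⊆ touch (box N) := fun e he => by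
    obtain ⟨k, -, rfl⟩ := Finset.mem_image.1 he
    exact (Finset.mem_filter.1 (port_mem_cob k.2)).1
  have hm : Measurable fun σ : S => φ (fun i => σ (bv N i)) :=
    (Measurable.of_discrete (f := φ)).comp (gluef_mphi N)
  rw [glue_main N h (g := fun σ => φ (fun i => σ (bv N i)) *
      mu K (I.image fun i : Fin (8 * N) => port N i) σ)
    (hm.mul ((measurable_en K _).const_mul _).exp) fun σ τ hst => by
      have e : (fun i : Fin (8 * N) => σ (bv N i)) = fun i : Fin (8 * N) => τ (bv N i) :=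
        funext fun i => hst _ (Or.inr ⟨_, i.2, rfl⟩)
      simp only [e, mu, glue_en_dep K hG hst]]
  congr 1
  refine Finset.sum_congr rfl fun η _ => ?_
  congr 1
  rw [ring_flip, ← integral_const_mul]
  refine setIntegral_congr_fun (glue_meas N η) fun σ hσ => ?_
  have e : (fun i : Fin (8 * N) => σ (bv N i)) = η := funext hσ
  simp only [e, mu, mul_assoc]

lemma w3_one (N : ℕ) {K : W} {μ : Measure S} [IsProbabilityMeasure μ] (h : Gibbs K μ) :
    (2 : ℝ) ^ (8 * N) * cliffN (ring N (tilt (-K) (touch (box N)) μ))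
      (ring N (tilt K (touch (box N)) unif)) = 1 := by
  have := glue_main N h (g := fun _ => 1) measurable_const fun _ _ _ => rfl
  simp only [← glue_z] at this
  rw [cliffN_apply, ← this]; simp

lemma w3_two {N : ℕ} {K : W} {μ : Measure S} (h : Gibbs K μ) {a b : Fin (8 * N) × Bool}
    (ha : a.1.1 < 2 * N) (hb : b.1.1 < 2 * N) :
    (2 : ℝ) ^ (8 * N) * cliffN (ring N (tilt (-K) (touch (box N)) μ))
      (cliffG a (cliffG b (ring N (tilt K (touch (box N)) unif)))) =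
      rA K μ (w3_z N) (w3_ix a) (w3_ix b) := by
  have e := w3_glue N h (fun η => sp (η a.1) * sp (η b.1)) (cliffS a ∆ cliffS b)
  have e1 : ∀ σ, rO K (w3_z N) (w3_ix a) (w3_ix b) σ = sp (σ (bv N a.1)) * sp (σ (bv N b.1)) *
      mu K ((cliffS a ∆ cliffS b).image fun i : Fin (8 * N) => port N i) σ := fun σ => by
    rw [rO, w3_E ha hb, ← w3_bv ha, ← w3_bv hb]; rfl
  simp only [rA, e1, e, w3_sg, cliffN_apply, cliffG_G, Finset.mul_sum]
  exact Finset.sum_congr rfl fun η _ => by ring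

lemma w3_four {N : ℕ} {K : W} {μ : Measure S} (h : Gibbs K μ) {a b c d : Fin (8 * N) × Bool}
    (hc : c.1.1 < 2 * N) (hd : d.1.1 < 2 * N) (h1 : a.1.1 < c.1.1) (h2 : a.1.1 < d.1.1)
    (h3 : b.1.1 < c.1.1) (h4 : b.1.1 < d.1.1) :
    (2 : ℝ) ^ (8 * N) * cliffN (ring N (tilt (-K) (touch (box N)) μ))
      (cliffG a (cliffG b (cliffG c (cliffG d (ring N (tilt K (touch (box N)) unif)))))) =
      rsg (w3_ix a) (w3_ix b) * rsg (w3_ix c) (w3_ix d) *
        ∫ σ, rO K (w3_z N) (w3_ix a) (w3_ix b) σ * rO K (w3_z N) (w3_ix c) (w3_ix d) σ ∂μ := by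
  have ha : a.1.1 < 2 * N := h1.trans hc
  have hb : b.1.1 < 2 * N := h3.trans hc
  have hI : ∀ i ∈ cliffS a ∆ cliffS b, i.1 < c.1.1 ∧ i.1 < d.1.1 := fun i hi => by
    rcases Finset.mem_symmDiff.1 hi with h | h
    · have := w3_le ((w3_mem _ _).1 h.1)
      exact ⟨lt_of_le_of_lt this h1, lt_of_le_of_lt this h2⟩
    · have := w3_le ((w3_mem _ _).1 h.1)
      exact ⟨lt_of_le_of_lt this h3, lt_of_le_of_lt this h4⟩
  have hdj : Disjoint (cliffS c ∆ cliffS d) (cliffS a ∆ cliffS b) :=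
    Finset.disjoint_right.2 fun i hi hj => by
      have e1 : i ∈ cliffS c := (w3_mem _ _).2 (w3_lt (hI i hi).1)
      have e2 : i ∈ cliffS d := (w3_mem _ _).2 (w3_lt (hI i hi).2)
      simp [Finset.mem_symmDiff, e1, e2] at hj
  have s1 : cliffSg (cliffS a ∆ cliffS b) c.1 = 1 :=
    if_neg fun hi => lt_irrefl _ (hI _ hi).1
  have s2 : cliffSg (cliffS a ∆ cliffS b) d.1 = 1 :=
    if_neg fun hi => lt_irrefl _ (hI _ hi).2
  have e := w3_glue N h (fun η => sp (η a.1) * sp (η b.1) * (sp (η c.1) * sp (η d.1)))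
    ((cliffS c ∆ cliffS d) ∆ (cliffS a ∆ cliffS b))
  have e1 : ∀ σ, rO K (w3_z N) (w3_ix a) (w3_ix b) σ * rO K (w3_z N) (w3_ix c) (w3_ix d) σ =
      sp (σ (bv N a.1)) * sp (σ (bv N b.1)) * (sp (σ (bv N c.1)) * sp (σ (bv N d.1))) *
      mu K (((cliffS c ∆ cliffS d) ∆ (cliffS a ∆ cliffS b)).image
        fun i : Fin (8 * N) => port N i) σ := fun σ => by
    rw [rO, rO, w3_E ha hb, w3_E hc hd, ← w3_bv ha, ← w3_bv hb, ← w3_bv hc, ← w3_bv hd,
      hdj.symmDiff_eq_sup, Finset.sup_eq_union, Finset.image_union]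
    simp only [mu, en]
    rw [Finset.sum_union ((Finset.disjoint_image (glue_port_inj N)).2 hdj), mul_add, Real.exp_add]
    simp only [w3_ix]
    ring
  simp only [e1, e, w3_sg, cliffN_apply, Finset.mul_sum]
  refine Finset.sum_congr rfl fun η _ => ?_
  rw [cliffG_G, cliffG_G, cliff_sp_fl, cliff_sp_fl, cliff_fl_fl, s1, s2]
  ring

lemma w3_wick {N : ℕ} {K : W} {μ μ' : Measure S} [IsProbabilityMeasure μ]
    [IsProbabilityMeasure μ'] (h : Gibbs K μ) (h' : Gibbs K μ')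
    (u : ∀ᵐ q ∂μ.prod μ', UniqAll (q.1 * q.2)) {a b c d : Fin (8 * N) × Bool}
    (ha : a.1.1 < 2 * N) (hb : b.1.1 < 2 * N) (hc : c.1.1 < 2 * N) (hd : d.1.1 < 2 * N) :
    (2 : ℝ) ^ (8 * N) * cliffN (ring N (tilt (-K) (touch (box N)) μ))
      (cliffG a (cliffG b (cliffG c (cliffG d (ring N (tilt K (touch (box N)) unif)))))) +
    (2 : ℝ) ^ (8 * N) * cliffN (ring N (tilt (-K) (touch (box N)) μ'))
      (cliffG a (cliffG b (cliffG c (cliffG d (ring N (tilt K (touch (box N)) unif)))))) =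
    (rA K μ' (w3_z N) (w3_ix a) (w3_ix b) * rA K μ (w3_z N) (w3_ix c) (w3_ix d) -
      rA K μ' (w3_z N) (w3_ix a) (w3_ix c) * rA K μ (w3_z N) (w3_ix b) (w3_ix d) +
      rA K μ' (w3_z N) (w3_ix a) (w3_ix d) * rA K μ (w3_z N) (w3_ix b) (w3_ix c)) +
    (rA K μ (w3_z N) (w3_ix a) (w3_ix b) * rA K μ' (w3_z N) (w3_ix c) (w3_ix d) -
      rA K μ (w3_z N) (w3_ix a) (w3_ix c) * rA K μ' (w3_z N) (w3_ix b) (w3_ix d) +
      rA K μ (w3_z N) (w3_ix a) (w3_ix d) * rA K μ' (w3_z N) (w3_ix b) (w3_ix c)) := by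
  have plu : Plu (ring N (tilt (-K) (touch (box N)) μ))
      (ring N (tilt (-K) (touch (box N)) μ')) := by
    have := (h'.tilt (-K) (touch (box N))).1
    refine plu_of_alt N (touch (box N) : Set E)ᶜ
      (fun e he => glue_zero K _ (by simpa using he)) (h.tilt (-K) _) (h'.tilt (-K) _) ?_
    filter_upwards [((tilt_ac (-K) _ μ).prod (tilt_ac (-K) _ μ')).ae_le u] with p hp B hB h1 hno
    exact alt_out N _ hp B hB h1 hno
  have pz : Plu (ring N (tilt K (touch (box N)) unif)) (ring N (tilt K (touch (box N)) unif)) :=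
    plu_of_alt N (touch (box N) : Set E) (K := 0 + cut (touch (box N)) K)
      (fun e he => by
        have : e ∉ touch (box N) := he
        simp [cut, this])
      (gibbs_unif.tilt K _) (gibbs_unif.tilt K _)
      (Eventually.of_forall fun p B _ _ hno => alt_in N _ B hno)
  have z0 : ∀ η, ring N (tilt K (touch (box N)) unif) (-η) =
      1 * ring N (tilt K (touch (box N)) unif) η := fun η => by rw [ring_neg, one_mul]
  have hu := cliffG_par b (cliffG_par c (cliffG_par d z0))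
  rw [neg_neg] at hu
  have q := cliff_plu_odd plu hu (cliffG_par a z0)
  simp only [cliffQ_apply, ← Finset.sum_add_distrib, ← mul_add] at q
  have key := wick_abs cliffG cliffE cliffE_sq cliffG_anti _ _ _ (cliff_hZ pz (ring_neg N K))
    a b c d q
  have o := w3_one N h
  have o' := w3_one N h'
  rw [← w3_two h ha hb, ← w3_two h ha hc, ← w3_two h ha hd, ← w3_two h hb hc, ← w3_two h hb hd,
    ← w3_two h hc hd, ← w3_two h' ha hb, ← w3_two h' ha hc, ← w3_two h' ha hd, ← w3_two h' hb hc,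
    ← w3_two h' hb hd, ← w3_two h' hc hd]
  generalize (2 : ℝ) ^ (8 * N) = T at o o' ⊢
  linear_combination T ^ 2 * key - T * cliffN (ring N (tilt (-K) (touch (box N)) μ))
      (cliffG a (cliffG b (cliffG c (cliffG d (ring N (tilt K (touch (box N)) unif)))))) * o' -
    T * cliffN (ring N (tilt (-K) (touch (box N)) μ'))
      (cliffG a (cliffG b (cliffG c (cliffG d (ring N (tilt K (touch (box N)) unif)))))) * o

lemma w3_ae {μ μ' : Measure S} [IsProbabilityMeasure μ] [IsProbabilityMeasure μ']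
    (u : ∀ᵐ q ∂μ.prod μ', UniqAll (q.1 * q.2)) (y : V) :
    ∀ᵐ q ∂(μ.map (shS y)).prod (μ'.map (shS y)), UniqAll (q.1 * q.2) := by
  have e0 : shS (-y) ∘ shS y = id := by funext σ x; simp [shS]
  have e : μ.prod μ' =
      ((μ.map (shS y)).prod (μ'.map (shS y))).map (Prod.map (shS (-y)) (shS (-y))) := by
    rw [← Measure.map_prod_map _ _ (measurable_shS _) (measurable_shS _),
      Measure.map_map (measurable_shS _) (measurable_shS _),
      Measure.map_map (measurable_shS _) (measurable_shS _), e0, Measure.map_id, Measure.map_id]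
  rw [e] at u
  filter_upwards [ae_of_ae_map
    ((measurable_shS (-y)).prodMap (measurable_shS (-y))).aemeasurable u] with q hq
  have e1 : q.1 * q.2 = shS y ((Prod.map (shS (-y)) (shS (-y)) q).1 *
      (Prod.map (shS (-y)) (shS (-y)) q).2) := by
    funext x; simp [shS]
  rw [e1]
  exact uniqAll_shift hq y

lemma w3_meas (K : W) (z : V) (a b : Ix) : Measurable (rO K z a b) :=
  ((measurable_sp _).mul (measurable_sp _)).mul ((measurable_en K _).const_mul _).exp

lemma w3_rO (K : W) (y z : V) (a b : Ix) (σ : S) :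
    rO (shW y K) z a b (shS y σ) = rO K (z + y) a b σ := by
  have e := tower_en_shift 1 y K (rE z (rS a ∆ rS b)) σ
  have e1 : ∀ k, rV z k + y = rV (z + y) k := fun k => add_right_comm _ _ _
  have e2 : (rE z (rS a ∆ rS b)).image (shE y) = rE (z + y) (rS a ∆ rS b) := by
    rw [rE, rE, Finset.image_image]
    refine Finset.image_congr fun k _ => ?_
    simp only [Function.comp, shE, e1]
  rw [one_smul, one_smul, e2] at e
  simp only [rO, mu, e, shS, e1]

theorem wick_pf {K : W} {μ μ' : Measure S} [IsProbabilityMeasure μ] [IsProbabilityMeasure μ']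
    (h : Gibbs K μ) (h' : Gibbs K μ') (u1 : ∀ᵐ q ∂μ.prod μ, UniqAll (q.1 * q.2))
    (u2 : ∀ᵐ q ∂μ'.prod μ', UniqAll (q.1 * q.2)) (u3 : ∀ᵐ q ∂μ.prod μ', UniqAll (q.1 * q.2))
    (z : V) (a b c d : Ix) : pf4 (fun x y => rA K μ z x y - rA K μ' z x y) a b c d = 0 := by
  obtain ⟨N, ha, hb, hc, hd⟩ : ∃ N, a.1 < 2 * N ∧ b.1 < 2 * N ∧ c.1 < 2 * N ∧ d.1 < 2 * N :=
    ⟨a.1 + b.1 + c.1 + d.1 + 1, by omega, by omega, by omega, by omega⟩
  have := Measure.isProbabilityMeasure_map (μ := μ) (measurable_shS (z - w3_z N)).aemeasurable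
  have := Measure.isProbabilityMeasure_map (μ := μ') (measurable_shS (z - w3_z N)).aemeasurable
  have g := gibbs_shift h (z - w3_z N)
  have g' := gibbs_shift h' (z - w3_z N)
  have k1 := w3_wick (N := N) (a := (⟨a.1, by omega⟩, a.2)) (b := (⟨b.1, by omega⟩, b.2))
    (c := (⟨c.1, by omega⟩, c.2)) (d := (⟨d.1, by omega⟩, d.2)) g g (w3_ae u1 _) ha hb hc hd
  have k2 := w3_wick (N := N) (a := (⟨a.1, by omega⟩, a.2)) (b := (⟨b.1, by omega⟩, b.2))
    (c := (⟨c.1, by omega⟩, c.2)) (d := (⟨d.1, by omega⟩, d.2)) g' g' (w3_ae u2 _) ha hb hc hd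
  have k3 := w3_wick (N := N) (a := (⟨a.1, by omega⟩, a.2)) (b := (⟨b.1, by omega⟩, b.2))
    (c := (⟨c.1, by omega⟩, c.2)) (d := (⟨d.1, by omega⟩, d.2)) g g' (w3_ae u3 _) ha hb hc hd
  simp only [rA_shift, add_sub_cancel, w3_ix, Prod.mk.eta] at k1 k2 k3
  simp only [pf4]
  linear_combination k3 - (1 / 2) * k1 - (1 / 2) * k2

theorem wick_cov {K : W} {μ : Measure S} [IsProbabilityMeasure μ]
    (h : Gibbs K μ) (u1 : ∀ᵐ q ∂μ.prod μ, UniqAll (q.1 * q.2)) (z : V) {a b c d : Ix}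
    (h1 : a.1 < c.1) (h2 : a.1 < d.1) (h3 : b.1 < c.1) (h4 : b.1 < d.1) :
    |mnr (rA K μ z) a b c d| = |∫ σ, rO K z a b σ * rO K z c d σ ∂μ -
      (∫ σ, rO K z a b σ ∂μ) * ∫ σ, rO K z c d σ ∂μ| := by
  obtain ⟨N, ha, hb, hc, hd⟩ : ∃ N, a.1 < 2 * N ∧ b.1 < 2 * N ∧ c.1 < 2 * N ∧ d.1 < 2 * N :=
    ⟨a.1 + b.1 + c.1 + d.1 + 1, by omega, by omega, by omega, by omega⟩
  have := Measure.isProbabilityMeasure_map (μ := μ) (measurable_shS (z - w3_z N)).aemeasurable
  have g := gibbs_shift h (z - w3_z N)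
  have k1 := w3_wick (N := N) (a := (⟨a.1, by omega⟩, a.2)) (b := (⟨b.1, by omega⟩, b.2))
    (c := (⟨c.1, by omega⟩, c.2)) (d := (⟨d.1, by omega⟩, d.2)) g g (w3_ae u1 _) ha hb hc hd
  rw [w3_four g hc hd h1 h2 h3 h4, integral_map (measurable_shS _).aemeasurable
    ((w3_meas _ _ _ _).fun_mul (w3_meas _ _ _ _)).aestronglyMeasurable] at k1
  simp only [rA_shift, w3_rO, add_sub_cancel, w3_ix, Prod.mk.eta] at k1
  have s : ∀ x y, |rsg x y| = 1 := fun x y => by unfold rsg; split_ifs <;> simp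
  have e : mnr (rA K μ z) a b c d = -(rsg a b * rsg c d * (∫ σ, rO K z a b σ * rO K z c d σ ∂μ -
      (∫ σ, rO K z a b σ ∂μ) * ∫ σ, rO K z c d σ ∂μ)) := by
    have e1 : rA K μ z a b = rsg a b * ∫ σ, rO K z a b σ ∂μ := rfl
    have e2 : rA K μ z c d = rsg c d * ∫ σ, rO K z c d σ ∂μ := rfl
    rw [e1, e2] at k1
    simp only [mnr]
    linear_combination (1 / 2) * k1
  rw [e, abs_neg, abs_mul, abs_mul, s, s, one_mul, one_mul]

end Pool.Agent.MP_c70b3b_mp.Cg

end

section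

open MeasureTheory ProbabilityTheory Filter Topology BoundedContinuousFunction
open scoped symmDiff ENNReal

namespace Pool.Agent.MP_c70b3b_mp.Cg

variable {β : ℝ} {κ : Kernel W S} {π : Kernel (W × S) S} {m : ℕ → ℕ}

lemma h3_int {μ : Measure S} [IsFiniteMeasure μ] {g : S → ℝ} (hg : Continuous g) :
    Integrable g μ := by
  obtain ⟨C, hC⟩ := exists_bound hg
  exact integrable_of_bdd hg.measurable C hC

lemma h3_cov {K : W} {μ : Measure S} [IsProbabilityMeasure μ] (h : Gibbs K μ) (L : Finset V)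
    {g g' : S → ℝ} (hg : Continuous g) (hg' : Continuous g') {C : ℝ} (hb : ∀ σ, |g' σ| ≤ C)
    (hi : ∀ U ⊆ L, ∀ σ, g' (flp U σ) = g' σ) :
    |∫ σ, g σ * g' σ ∂μ - (∫ σ, g σ ∂μ) * ∫ σ, g' σ ∂μ| ≤
      C * ∫ σ, |gam K L g σ - ∫ τ, g τ ∂μ| ∂μ := by
  obtain ⟨D, hD⟩ := exists_bound (hg.mul hg')
  have h1 := gibbs_gam h L (g := fun σ => g σ * g' σ) (hg.mul hg').measurable D hD
  have h2 : ∀ σ, gam K L (fun τ => g τ * g' τ) σ = gam K L g σ * g' σ := fun σ =>
    gam_mul_inv K L g fun U hU => hi U hU σ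
  have hc := continuous_gam' K L hg
  simp only [h2] at h1
  rw [h1, ← integral_const_mul, ← integral_sub (h3_int (hc.fun_mul hg'))
    (h3_int (continuous_const.fun_mul hg')), ← integral_const_mul]
  refine abs_integral_le_integral_abs.trans (integral_mono
    (h3_int ((hc.mul hg').sub (continuous_const.mul hg')).abs)
    (h3_int (continuous_const.mul (hc.sub continuous_const).abs)) fun σ => ?_)
  simp only
  rw [← sub_mul, abs_mul, mul_comm]
  exact mul_le_mul_of_nonneg_right (hb σ) (abs_nonneg _)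

lemma h3_cont (β : ℝ) (z : V) (a b : Ix) : Continuous fun q : W × S => rO (β • q.1) z a b q.2 :=
  (((continuous_sp _).mul (continuous_sp _)).comp continuous_snd).mul
    (continuous_const.mul (continuous_en2 β _)).rexp

lemma h3_cont' (K : W) (z : V) (a b : Ix) : Continuous (rO K z a b) :=
  ((continuous_sp _).mul (continuous_sp _)).mul (continuous_const.mul (continuous_en K _)).rexp

lemma h3_sub {y r : ℕ} {c d : Ix} (hc : Win y r c) (hd : Win y r d) :
    rS c ∆ rS d ⊆ Finset.Ico y (y + r) := by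
  intro k hk
  obtain ⟨c1, c2⟩ := hc
  obtain ⟨d1, d2⟩ := hd
  simp only [Finset.mem_symmDiff, rS, Finset.mem_range] at hk
  rw [Finset.mem_Ico]
  split_ifs at hk <;> omega

lemma h3_bd (K : W) {y r : ℕ} {c d : Ix} (hc : Win y r c) (hd : Win y r d) (σ : S) :
    |rO K 0 c d σ| ≤ Real.exp (2 * ∑ i ∈ Finset.Ico y (y + r), |K (rV 0 i, true)|) := by
  rw [rO, abs_mul, abs_mul, abs_sp, abs_sp, one_mul, one_mul, mu, abs_of_pos (Real.exp_pos _),
    Real.exp_le_exp]
  have h1 := abs_le.1 (abs_en_le K (rE 0 (rS c ∆ rS d)) σ)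
  have h2 : ∑ e ∈ rE 0 (rS c ∆ rS d), |K e| ≤ ∑ i ∈ rS c ∆ rS d, |K (rV 0 i, true)| :=
    Finset.sum_image_le_of_nonneg fun _ _ => abs_nonneg _
  have h3 : ∑ i ∈ rS c ∆ rS d, |K (rV 0 i, true)| ≤
      ∑ i ∈ Finset.Ico y (y + r), |K (rV 0 i, true)| :=
    Finset.sum_le_sum_of_subset_of_nonneg (h3_sub hc hd) fun _ _ _ => abs_nonneg _
  linarith [h1.1]

lemma h3_inv (K : W) {y r k : ℕ} (hk : k ≤ y) {c d : Ix} (hc : Win y r c) (hd : Win y r d) :
    ∀ U ⊆ box k, ∀ σ, rO K 0 c d (flp U σ) = rO K 0 c d σ := by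
  intro U hU σ
  have h1 : ∀ x : V, (y : ℤ) ≤ x.1 → x ∉ U := fun x hx h => by
    have := mem_box.1 (hU h)
    omega
  have h2 : ∀ i : ℕ, y ≤ i → rV 0 i ∉ U := fun i hi => h1 _ (by simpa [rV] using hi)
  have h3 : en K (rE 0 (rS c ∆ rS d)) (flp U σ) = en K (rE 0 (rS c ∆ rS d)) σ := by
    refine Finset.sum_congr rfl fun e he => ?_
    obtain ⟨i, hi, rfl⟩ := Finset.mem_image.1 he
    have h4 := (Finset.mem_Ico.1 (h3_sub hc hd hi)).1
    rw [bond_flp, if_neg]
    rw [mem_cob, not_not]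
    exact iff_of_false (h2 i h4) (h1 _ (by simpa [rV, tip] using h4))
  rw [rO, rO, mu, mu, h3, sp_flp, sp_flp, if_neg (h2 _ hc.1), if_neg (h2 _ hd.1)]

/-- The mean deviation of the finite volume averages. -/
noncomputable def h3R (β : ℝ) (π : Kernel (W × S) S) (k : ℕ) (a b : Ix) (p : W × S) : ℝ :=
  ∫ σ, |gam (β • p.1) (box k) (rO (β • p.1) 0 a b) σ - ∫ τ, rO (β • p.1) 0 a b τ ∂π p| ∂π p

lemma h3R_meas (β : ℝ) (π : Kernel (W × S) S) [IsMarkovKernel π] (k : ℕ) (a b : Ix) :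
    Measurable (h3R β π k a b) := by
  have hq : Measurable fun x : (W × S) × S => (x.1.1, x.2) := by fun_prop
  have h0 := (h3_cont β 0 a b).measurable
  have h1 : Measurable fun p : W × S => ∫ τ, rO (β • p.1) 0 a b τ ∂π p :=
    ((h0.comp hq).stronglyMeasurable.integral_kernel_prod_right' (κ := π)).measurable
  have h2 := (measurable_gam β (box k) h0).comp hq
  exact ((h2.sub (h1.comp measurable_fst)).abs.stronglyMeasurable.integral_kernel_prod_right'
    (κ := π)).measurable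

lemma h3R_lim (h : Pure β κ π m) {p : W × S}
    (hp : ∀ᵐ σ ∂π p, (p.1, σ) ∈ Om β m ∧ π (p.1, σ) = π p) (a b : Ix) :
    Tendsto (fun j => h3R β π (m j) a b p) atTop (𝓝 0) := by
  have := h.markov
  have hg := h3_cont' (β • p.1) 0 a b
  obtain ⟨C, hC⟩ := exists_bound hg
  have h1 := tendsto_integral_of_dominated_convergence (μ := π p) (F := fun j σ =>
      |gam (β • p.1) (box (m j)) (rO (β • p.1) 0 a b) σ - ∫ τ, rO (β • p.1) 0 a b τ ∂π p|)
    (f := fun _ => (0 : ℝ)) (fun _ => C + |∫ τ, rO (β • p.1) 0 a b τ ∂π p|)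
    (fun j => ((continuous_gam' _ _ hg).sub continuous_const).abs.measurable.aestronglyMeasurable)
    (integrable_const _) (fun j => Eventually.of_forall fun σ => ?_) ?_
  · rwa [integral_zero] at h1
  · rw [Real.norm_eq_abs, abs_abs]
    exact (abs_sub _ _).trans (add_le_add (gam_abs_le hC σ) le_rfl)
  · filter_upwards [hp] with σ hσ
    have h2 := h.lim _ hσ.1 _ hg
    rw [hσ.2] at h2
    simpa using (h2.sub_const (∫ τ, rO (β • p.1) 0 a b τ ∂π p)).abs

lemma h3_markov (β : ℝ) (κ : Kernel W S) [IsMarkovKernel κ] (y r : ℕ) (T : ℝ) :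
    T * (P ⊗ₘ κ).real {p | T ≤ ∑ i ∈ Finset.Ico y (y + r), |(β • p.1) (rV 0 i, true)|} ≤
      r * (|β| * edgeG) := by
  have hm : MeasurePreserving Prod.fst (P ⊗ₘ κ) P := ⟨measurable_fst, Measure.fst_compProd _ _⟩
  have hi : ∀ e : E, Integrable (fun w : W => |(β • w) e|) P := fun e => by
    simpa only [Pi.smul_apply, smul_eq_mul, abs_mul] using (edge_abs_int e).1.const_mul |β|
  have hs := integrable_finsetSum (Finset.Ico y (y + r)) fun i _ => hi (rV 0 i, true)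
  have h1 := mul_meas_ge_le_integral_of_nonneg (Eventually.of_forall fun w =>
    Finset.sum_nonneg fun _ _ => abs_nonneg _) hs T
  rw [← hm.measureReal_preimage (measurableSet_le measurable_const
    (Finset.measurable_sum _ fun i _ => by fun_prop)).nullMeasurableSet,
    integral_finsetSum _ fun i _ => hi _] at h1
  refine h1.trans (le_of_eq ?_)
  simp only [Pi.smul_apply, smul_eq_mul, abs_mul, integral_const_mul, (edge_abs_int _).2,
    Finset.sum_const, Nat.card_Ico, Nat.add_sub_cancel_left, nsmul_eq_mul]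

theorem Pure.h3 (h : Pure β κ π m) (r : ℕ) {η ε : ℝ} (hη : 0 < η) (hε : 0 < ε) :
    ∀ᶠ y in atTop, (P ⊗ₘ κ).real {p | ∃ a b c d, Win 0 r a ∧ Win 0 r b ∧ Win y r c ∧ Win y r d ∧
      η < |mnr (rA (β • p.1) (π p) 0) a b c d|} ≤ ε := by
  have := h.cov.markov
  have := h.markov
  have hG : 0 ≤ (r : ℝ) * (|β| * edgeG) := by have := edge_G_nonneg; positivity
  obtain ⟨T, hT0, hT⟩ : ∃ T : ℝ, 0 < T ∧ (r : ℝ) * (|β| * edgeG) ≤ T * (ε / 2) :=
    ⟨r * (|β| * edgeG) / (ε / 2) + 1, by positivity, by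
      rw [add_mul, div_mul_cancel₀ _ (half_pos hε).ne']
      linarith⟩
  set I : Finset Ix := Finset.range r ×ˢ Finset.univ with hI
  have hm : TendstoInMeasure (P ⊗ₘ κ) (fun j p => ∑ a ∈ I, ∑ b ∈ I, h3R β π (m j) a b p) atTop
      fun _ => 0 := by
    refine tendstoInMeasure_of_tendsto_ae (fun j => (Finset.measurable_sum _ fun a _ =>
      Finset.measurable_sum _ fun b _ => h3R_meas β π _ a b).aestronglyMeasurable) ?_
    filter_upwards [h.ext] with p hp
    simpa using tendsto_finsetSum I fun a _ => tendsto_finsetSum I fun b _ => h3R_lim h hp a b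
  obtain ⟨j, hj⟩ := ((tendstoInMeasure_iff_measureReal_norm.1 hm (η / Real.exp (2 * T))
    (by positivity)).eventually (eventually_le_nhds (half_pos hε))).exists
  filter_upwards [eventually_ge_atTop (m j), eventually_ge_atTop r] with y hy hr
  have h1 := le_of_mul_le_mul_left ((h3_markov β κ y r T).trans hT) hT0
  refine le_trans (ENNReal.toReal_mono (measure_ne_top _ _) (measure_mono_ae ?_))
    ((measureReal_union_le _ _).trans ((add_le_add h1 hj).trans_eq (add_halves ε)))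
  filter_upwards [h.ae, h.uniq1] with p hp hu ⟨a, b, c, d, ha, hb, hc, hd, hlt⟩
  by_contra hn
  obtain ⟨n1, n2⟩ := not_or.1 hn
  simp only [Set.mem_ofPred_eq, not_le, sub_zero, Real.norm_eq_abs] at n1 n2
  have a1 := ha.2
  have b1 := hb.2
  rw [wick_cov (h.gibbs hp) hu 0 (by linarith [hc.1]) (by linarith [hd.1]) (by linarith [hc.1])
    (by linarith [hd.1])] at hlt
  have h2 := hlt.trans_le (h3_cov (h.gibbs hp) (box (m j)) (h3_cont' _ 0 a b) (h3_cont' _ 0 c d)
    (C := Real.exp (2 * T)) (fun σ => (h3_bd _ hc hd σ).trans (Real.exp_le_exp.2 (by linarith)))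
    (h3_inv _ hy hc hd))
  have hn0 : ∀ a b, 0 ≤ h3R β π (m j) a b p := fun _ _ => integral_nonneg fun _ => abs_nonneg _
  have hw : ∀ a, Win 0 r a → a ∈ I := fun a ha => by simpa [hI] using ha.2
  have h3 : h3R β π (m j) a b p ≤ ∑ a ∈ I, ∑ b ∈ I, h3R β π (m j) a b p :=
    (Finset.single_le_sum (fun b _ => hn0 a b) (hw b hb)).trans
      (Finset.single_le_sum (fun a _ => Finset.sum_nonneg fun b _ => hn0 a b) (hw a ha))
  have h4 := (h3.trans (le_abs_self _)).trans_lt n2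
  rw [lt_div_iff₀ (Real.exp_pos _), mul_comm] at h4
  exact absurd h2 (not_lt.2 h4.le)

end Pool.Agent.MP_c70b3b_mp.Cg

end
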