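import Pool.Agent.Mg.Fc70b3ba.Gd0fa04

section

open MeasureTheory ProbabilityTheory Filter Topology BoundedContinuousFunction
open scoped symmDiff ENNReal

namespace Pool.Agent.MP_c70b3b_mp.Cg

variable {β : ℝ} {κ : Kernel W S} {π : Kernel (W × S) S} {m : ℕ → ℕ}

lemma l1_rank {ι γ : Type} (M : ι → γ → ℝ) (h : ∀ s t c d, M s c * M t d - M s d * M t c = 0) :
    ∃ (x : ι → ℝ) (y : γ → ℝ), ∀ s c, M s c = x s * y c := by
  by_cases h0 : ∀ s c, M s c = 0
  · exact ⟨fun _ => 0, fun _ => 0, fun s c => by rw [h0, mul_zero]⟩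
  · push Not at h0
    obtain ⟨s0, c0, h1⟩ := h0
    refine ⟨fun s => M s c0, fun c => M s0 c / M s0 c0, fun s c => ?_⟩
    have := h s s0 c c0
    field_simp
    linarith

/-- The data: cross blocks, blocks on the first window, and the three differences. -/
abbrev L1X : Type :=
  (Fin 3 × Fin 4 × (Fin 3 × Bool) → ℝ) × (Fin 3 × Fin 4 × Fin 4 → ℝ) × (Fin 3 → ℝ)

/-- The Pfaffian relation for the pair `(i, j)` with the columns of `p`. -/
def l1Rel (i j p : Fin 3) (x : L1X) : Prop := ∀ s t,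
  (x.2.1 (i, s, t) - x.2.1 (j, s, t)) * x.2.2 p =
    (x.1 (i, s, p, false) - x.1 (j, s, p, false)) * (x.1 (i, t, p, true) - x.1 (j, t, p, true)) -
    (x.1 (i, s, p, true) - x.1 (j, s, p, true)) * (x.1 (i, t, p, false) - x.1 (j, t, p, false))

/-- All minors. -/
def l1Mn (x : L1X) (q : Fin 3 × Fin 4 × Fin 4 × (Fin 3 × Bool) × (Fin 3 × Bool)) : ℝ :=
  x.1 (q.1, q.2.1, q.2.2.2.1) * x.1 (q.1, q.2.2.1, q.2.2.2.2) -
    x.1 (q.1, q.2.1, q.2.2.2.2) * x.1 (q.1, q.2.2.1, q.2.2.2.1)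

/-- The determinant that has to be small. -/
def l1Det (x : L1X) : ℝ :=
  (x.2.1 (0, 0, 1) - x.2.1 (1, 0, 1)) * (x.2.1 (0, 2, 3) - x.2.1 (2, 2, 3)) -
    (x.2.1 (0, 2, 3) - x.2.1 (1, 2, 3)) * (x.2.1 (0, 0, 1) - x.2.1 (2, 0, 1))

lemma l1_exact (x : L1X) (h0 : l1Rel 0 1 0 x) (h1 : l1Rel 0 2 1 x) (h2 : l1Rel 1 2 2 x)
    (ht : ∀ p, x.2.2 p ≠ 0) (hm : l1Mn x = 0) : l1Det x = 0 := by
  have hr := fun i : Fin 3 => l1_rank (fun s c => x.1 (i, s, c))
    fun s t c d => congrFun hm (i, s, t, c, d)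
  choose u v huv using hr
  have key : ∀ i j p, l1Rel i j p x → ∃ k : ℝ, ∀ s t,
      x.2.1 (i, s, t) - x.2.1 (j, s, t) = k * (u i s * u j t - u i t * u j s) := by
    intro i j p h
    refine ⟨-(v i (p, false) * v j (p, true) - v i (p, true) * v j (p, false)) / x.2.2 p,
      fun s t => ?_⟩
    have h3 := h s t
    simp only [huv] at h3
    have := ht p
    field_simp
    linear_combination h3
  obtain ⟨k0, e0⟩ := key _ _ _ h0
  obtain ⟨k1, e1⟩ := key _ _ _ h1
  obtain ⟨k2, e2⟩ := key _ _ _ h2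
  have e3 : ∀ s t, k0 * (u 0 s * u 1 t - u 0 t * u 1 s) =
      k1 * (u 0 s * u 2 t - u 0 t * u 2 s) - k2 * (u 1 s * u 2 t - u 1 t * u 2 s) := fun s t => by
    rw [← e0, ← e1, ← e2]; ring
  have e4 : ∀ r, k0 * (u 2 r * (u 0 0 * u 1 1 - u 0 1 * u 1 0) -
      u 2 1 * (u 0 0 * u 1 r - u 0 r * u 1 0) + u 2 0 * (u 0 1 * u 1 r - u 0 r * u 1 1)) = 0 :=
    fun r => by linear_combination u 2 r * e3 0 1 - u 2 1 * e3 0 r + u 2 0 * e3 1 r
  unfold l1Det
  rw [e0, e0, e1, e1]
  linear_combination k1 * u 0 2 * e4 3 - k1 * u 0 3 * e4 2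

lemma l1_closed (i j p : Fin 3) : IsClosed {x : L1X | l1Rel i j p x} := by
  simp only [l1Rel, Set.ofPred_forall]
  exact isClosed_iInter fun s => isClosed_iInter fun t =>
    isClosed_eq (by fun_prop) (by fun_prop)

lemma l1_cpt (R : ℝ) {δ ε : ℝ} (hδ : 0 < δ) (hε : 0 < ε) : ∃ η > 0, ∀ x : L1X, ‖x‖ ≤ R →
    l1Rel 0 1 0 x → l1Rel 0 2 1 x → l1Rel 1 2 2 x → (∀ p, δ ≤ |x.2.2 p|) → ε ≤ |l1Det x| →
    η ≤ ‖l1Mn x‖ := by
  have c1 : IsClosed {x : L1X | ∀ p, δ ≤ |x.2.2 p|} := by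
    simp only [Set.ofPred_forall]
    exact isClosed_iInter fun p => isClosed_le (by fun_prop) (by fun_prop)
  have c2 : IsClosed {x : L1X | ε ≤ |l1Det x|} :=
    isClosed_le (by fun_prop) (by unfold l1Det; fun_prop)
  have hK := (isCompact_closedBall (0 : L1X) R).inter_right
    ((l1_closed 0 1 0).inter ((l1_closed 0 2 1).inter ((l1_closed 1 2 2).inter (c1.inter c2))))
  have hc : Continuous fun x : L1X => ‖l1Mn x‖ :=
    (continuous_pi fun q => by unfold l1Mn; fun_prop).norm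
  obtain ⟨η, h1, h2⟩ := hK.exists_forall_le' (a := 0) hc.continuousOn fun x hx => by
    obtain ⟨-, a0, a1, a2, a3, a4⟩ := hx
    refine norm_pos_iff.2 fun hm => ?_
    have h3 := l1_exact x a0 a1 a2 (fun p hp => by
      have := a3 p
      rw [hp, abs_zero] at this
      linarith) hm
    have h4 : ε ≤ |l1Det x| := a4
    rw [h3, abs_zero] at h4
    linarith
  exact ⟨η, h1, fun x hx a0 a1 a2 a3 a4 =>
    h2 x ⟨mem_closedBall_zero_iff.2 hx, a0, a1, a2, a3, a4⟩⟩

theorem alg1 {C δ ε : ℝ} (hδ : 0 < δ) (hε : 0 < ε) : ∃ η > 0, ∀ (A : Fin 3 → Ix → Ix → ℝ)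
    (Λ Q : Ix → Prop),
    (∀ i j a b c d, pf4 (fun x y => A i x y - A j x y) a b c d = 0) →
    (∀ i a c, Λ a → Q c → |A i a c| ≤ C) → (∀ i a b, Λ a → Λ b → |A i a b| ≤ C) →
    (∀ i c d, Q c → Q d → |A i c d| ≤ C) →
    (∀ i a b c d, Λ a → Λ b → Q c → Q d → |mnr (A i) a b c d| ≤ η) →
    (∀ i j, i ≠ j → ∃ c d, Q c ∧ Q d ∧ δ ≤ |A i c d - A j c d|) →
    ∀ a b e f, Λ a → Λ b → Λ e → Λ f →
      |(A 0 a b - A 1 a b) * (A 0 e f - A 2 e f) - (A 0 e f - A 1 e f) * (A 0 a b - A 2 a b)| < ε := by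
  obtain ⟨η, h0, hη⟩ := l1_cpt (2 * |C|) hδ hε
  refine ⟨η / 2, by positivity, ?_⟩
  intro A Λ Q hpf b1 b2 b3 hm hd a b e f ha hb he hf
  by_contra hlt
  obtain ⟨c0, d0, hc0, hd0, t0⟩ := hd 0 1 (by decide)
  obtain ⟨c1, d1, hc1, hd1, t1⟩ := hd 0 2 (by decide)
  obtain ⟨c2, d2, hc2, hd2, t2⟩ := hd 1 2 (by decide)
  let r : Fin 4 → Ix := ![a, b, e, f]
  let g : Fin 3 × Bool → Ix := fun q => if q.2 then ![d0, d1, d2] q.1 else ![c0, c1, c2] q.1
  have hr : ∀ s, Λ (r s) := fun s => by fin_cases s <;> assumption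
  have hg : ∀ q, Q (g q) := by
    rintro ⟨p, _ | _⟩ <;> fin_cases p <;> assumption
  let T : Fin 3 → ℝ := ![A 0 c0 d0 - A 1 c0 d0, A 0 c1 d1 - A 2 c1 d1, A 1 c2 d2 - A 2 c2 d2]
  have hC := le_abs_self C
  have hC0 := abs_nonneg C
  have hT : ∀ i j c d, Q c → Q d → |A i c d - A j c d| ≤ 2 * |C| := fun i j c d hc hd =>
    (abs_sub _ _).trans (by linarith [b3 i c d hc hd, b3 j c d hc hd])
  have key := hη (fun q => A q.1 (r q.2.1) (g q.2.2), fun q => A q.1 (r q.2.1) (r q.2.2), T)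
    ?_ (fun s t => ?_) (fun s t => ?_) (fun s t => ?_) (fun p => ?_) (not_lt.1 hlt)
  · have h1 : ‖l1Mn (fun q => A q.1 (r q.2.1) (g q.2.2), fun q => A q.1 (r q.2.1) (r q.2.2), T)‖
        ≤ η / 2 := (pi_norm_le_iff_of_nonneg (by positivity)).2 fun q =>
      hm q.1 _ _ _ _ (hr _) (hr _) (hg _) (hg _)
    linarith
  · rw [norm_prod_le_iff, norm_prod_le_iff]
    refine ⟨(pi_norm_le_iff_of_nonneg (by positivity)).2 fun q => ?_,
      (pi_norm_le_iff_of_nonneg (by positivity)).2 fun q => ?_,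
      (pi_norm_le_iff_of_nonneg (by positivity)).2 fun p => ?_⟩
    · exact (b1 _ _ _ (hr _) (hg _)).trans (by linarith)
    · exact (b2 _ _ _ (hr _) (hr _)).trans (by linarith)
    · fin_cases p
      exacts [hT _ _ _ _ hc0 hd0, hT _ _ _ _ hc1 hd1, hT _ _ _ _ hc2 hd2]
  · have := hpf 0 1 (r s) (r t) c0 d0
    unfold pf4 at this
    show (A 0 (r s) (r t) - A 1 (r s) (r t)) * (A 0 c0 d0 - A 1 c0 d0) =
      (A 0 (r s) c0 - A 1 (r s) c0) * (A 0 (r t) d0 - A 1 (r t) d0) -
      (A 0 (r s) d0 - A 1 (r s) d0) * (A 0 (r t) c0 - A 1 (r t) c0)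
    linarith
  · have := hpf 0 2 (r s) (r t) c1 d1
    unfold pf4 at this
    show (A 0 (r s) (r t) - A 2 (r s) (r t)) * (A 0 c1 d1 - A 2 c1 d1) =
      (A 0 (r s) c1 - A 2 (r s) c1) * (A 0 (r t) d1 - A 2 (r t) d1) -
      (A 0 (r s) d1 - A 2 (r s) d1) * (A 0 (r t) c1 - A 2 (r t) c1)
    linarith
  · have := hpf 1 2 (r s) (r t) c2 d2
    unfold pf4 at this
    show (A 1 (r s) (r t) - A 2 (r s) (r t)) * (A 1 c2 d2 - A 2 c2 d2) =
      (A 1 (r s) c2 - A 2 (r s) c2) * (A 1 (r t) d2 - A 2 (r t) d2) -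
      (A 1 (r s) d2 - A 2 (r s) d2) * (A 1 (r t) c2 - A 2 (r t) c2)
    linarith
  · fin_cases p
    exacts [t0, t1, t2]

end Pool.Agent.MP_c70b3b_mp.Cg

end

section

open MeasureTheory ProbabilityTheory Filter Topology BoundedContinuousFunction
open scoped symmDiff ENNReal

namespace Pool.Agent.MP_c70b3b_mp.Cg

variable {β : ℝ} {κ : Kernel W S} {π : Kernel (W × S) S} {m : ℕ → ℕ}

theorem alg2 {C δ : ℝ} (hδ : 0 < δ) : ∃ η > 0, ∀ (A : Fin 3 → Ix → Ix → ℝ) (Λ Q : Ix → Prop),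
    (∀ i j a b c d, pf4 (fun x y => A i x y - A j x y) a b c d = 0) →
    (∀ i a b, Λ a → Λ b → |A i a b| ≤ C) → (∀ i c d, Q c → Q d → |A i c d| ≤ C) →
    (∀ i a b c d, Λ a → Λ b → Q c → Q d → |mnr (A i) a b c d| ≤ η) →
    (∀ i j, i ≠ j → ∃ a b, Λ a ∧ Λ b ∧ δ ≤ |A i a b - A j a b|) →
    (∀ i j, i ≠ j → ∃ c d, Q c ∧ Q d ∧ δ ≤ |A i c d - A j c d|) →
    (∀ a b e f, (A 0 a b - A 1 a b) * (A 0 e f - A 2 e f) =
      (A 0 e f - A 1 e f) * (A 0 a b - A 2 a b)) → False := by
  have hK : 0 < 4 * (|C| + 1) / δ + 2 := by positivity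
  refine ⟨δ ^ 2 / (2 * (4 * (|C| + 1) / δ + 2)), by positivity,
    fun A Λ Q hp hC _ hm hΛ hQ hl => ?_⟩
  set η := δ ^ 2 / (2 * (4 * (|C| + 1) / δ + 2)) with hη
  have hη0 : 0 < η := by positivity
  have hη1 : η * (4 * (|C| + 1) / δ + 2) = δ ^ 2 / 2 := by rw [hη]; field_simp
  obtain ⟨c, d, hc, hd, h01⟩ := hQ 0 1 (by decide)
  obtain ⟨e, f, he, hf, h12⟩ := hΛ 1 2 (by decide)
  obtain ⟨a, b, ha, hb, h02⟩ := hΛ 0 2 (by decide)
  have hne : A 0 c d - A 1 c d ≠ 0 := abs_pos.1 (hδ.trans_le h01)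
  set l := (A 0 c d - A 2 c d) / (A 0 c d - A 1 c d) with hl'
  have h2 : ∀ s t, A 2 s t = A 0 s t - l * (A 0 s t - A 1 s t) := by
    intro s t
    have := hl c d s t
    rw [hl']
    field_simp
    linarith
  have hp' := hp 0 1 e f c d
  simp only [pf4] at hp'
  have key : l * ((A 1 e f - A 2 e f) * (A 0 c d - A 1 c d))
      = mnr (A 2) e f c d - ((1 - l) * mnr (A 0) e f c d + l * mnr (A 1) e f c d) := by
    simp only [mnr, h2]
    linear_combination (-l * (1 - l)) * hp'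
  have hL := abs_nonneg l
  have b1 : δ ≤ |l| * (2 * (|C| + 1)) := by
    have e1 : A 0 a b - A 2 a b = l * (A 0 a b - A 1 a b) := by rw [h2]; ring
    rw [e1, abs_mul] at h02
    refine h02.trans (mul_le_mul_of_nonneg_left ((abs_sub _ _).trans ?_) hL)
    linarith [hC 0 a b ha hb, hC 1 a b ha hb, le_abs_self C]
  have b2 : |l| * (δ * δ) ≤ η + ((1 + |l|) * η + |l| * η) := by
    calc |l| * (δ * δ) ≤ |l| * (|A 1 e f - A 2 e f| * |A 0 c d - A 1 c d|) :=
          mul_le_mul_of_nonneg_left (mul_le_mul h12 h01 hδ.le (abs_nonneg _)) hL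
      _ = |mnr (A 2) e f c d - ((1 - l) * mnr (A 0) e f c d + l * mnr (A 1) e f c d)| := by
          rw [← key, abs_mul, abs_mul]
      _ ≤ _ := by
          refine (abs_sub _ _).trans (add_le_add (hm 2 e f c d he hf hc hd)
            ((abs_add_le _ _).trans (add_le_add ?_ ?_)))
          · rw [abs_mul]
            exact mul_le_mul ((abs_sub _ _).trans_eq (by rw [abs_one]))
              (hm 0 e f c d he hf hc hd) (abs_nonneg _) (by positivity)
          · rw [abs_mul]
            exact mul_le_mul_of_nonneg_left (hm 1 e f c d he hf hc hd) hL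
  have b3 : 2 ≤ |l| * (4 * (|C| + 1) / δ) := by
    rw [← mul_div_assoc, le_div_iff₀ hδ]
    linarith
  have b4 : 0 < |l| := by
    rcases hL.eq_or_lt with h | h
    · rw [← h, zero_mul] at b3
      linarith
    · exact h
  have b5 := mul_le_mul_of_nonneg_left b3 hη0.le
  have b6 : |l| * (η * (4 * (|C| + 1) / δ + 2)) = |l| * (δ ^ 2 / 2) := by rw [hη1]
  have b7 : 0 < |l| * δ ^ 2 := by positivity
  nlinarith

theorem alg3 {δ η x y : ℝ} (B B' : Ix → Ix → ℝ) {a b c d : Ix}
    (hp : pf4 (fun s t => B s t - B' s t) a b c d = 0) (h1 : δ ≤ |B a b - B' a b|)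
    (h2 : δ ≤ |B c d - B' c d|) (hδ : 0 ≤ δ) (m1 : |mnr B a b c d| ≤ η) (m2 : |mnr B' a b c d| ≤ η)
    (hx : ∀ s t, (s = a ∨ s = b) → (t = c ∨ t = d) → |B s t| ≤ x)
    (hy : ∀ s t, (s = a ∨ s = b) → (t = c ∨ t = d) → |B' s t| ≤ y) :
    δ ^ 2 - 2 * η ≤ 4 * (x * y) := by
  have hx0 : 0 ≤ x := (abs_nonneg _).trans (hx a c (Or.inl rfl) (Or.inl rfl))
  have k : ∀ s t s' t', (s = a ∨ s = b) → (t = c ∨ t = d) → (s' = a ∨ s' = b) →
      (t' = c ∨ t' = d) → |B s t * B' s' t'| ≤ x * y := fun s t s' t' h1 h2 h3 h4 => by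
    rw [abs_mul]
    exact mul_le_mul (hx s t h1 h2) (hy s' t' h3 h4) (abs_nonneg _) hx0
  have k1 := abs_le.1 (k a c b d (Or.inl rfl) (Or.inl rfl) (Or.inr rfl) (Or.inr rfl))
  have k2 := abs_le.1 (k b d a c (Or.inr rfl) (Or.inr rfl) (Or.inl rfl) (Or.inl rfl))
  have k3 := abs_le.1 (k a d b c (Or.inl rfl) (Or.inr rfl) (Or.inr rfl) (Or.inl rfl))
  have k4 := abs_le.1 (k b c a d (Or.inr rfl) (Or.inl rfl) (Or.inl rfl) (Or.inr rfl))
  have h3 : δ * δ ≤ |(B a b - B' a b) * (B c d - B' c d)| := by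
    rw [abs_mul]
    exact mul_le_mul h1 h2 hδ (abs_nonneg _)
  have e : (B a b - B' a b) * (B c d - B' c d) = mnr B a b c d + mnr B' a b c d
      - B a c * B' b d - B b d * B' a c + B a d * B' b c + B b c * B' a d := by
    simp only [pf4] at hp
    simp only [mnr]
    linear_combination hp
  have h4 : |(B a b - B' a b) * (B c d - B' c d)| ≤ 2 * η + 4 * (x * y) := by
    rw [e, abs_le]
    have m1' := abs_le.1 m1
    have m2' := abs_le.1 m2
    constructor <;> linarith [k1.1, k1.2, k2.1, k2.2, k3.1, k3.2, k4.1, k4.2]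
  linarith [sq δ]

end Pool.Agent.MP_c70b3b_mp.Cg

end

section

open MeasureTheory ProbabilityTheory Filter Topology BoundedContinuousFunction
open scoped symmDiff ENNReal

namespace Pool.Agent.MP_c70b3b_mp.Cg

variable {β : ℝ} {κ : Kernel W S} {π : Kernel (W × S) S} {m : ℕ → ℕ}

theorem f4_or {Ω : Type} [MeasurableSpace Ω] (M : Measure Ω) [IsProbabilityMeasure M]
    {p q : Ω → Prop} {s t : ℝ} (hp : M.real {ω | p ω} ≤ s) (hq : M.real {ω | q ω} ≤ t) :
    M.real {ω | p ω ∨ q ω} ≤ s + t :=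
  (measureReal_union_le {ω | p ω} {ω | q ω}).trans (add_le_add hp hq)

theorem f4_ex {Ω : Type} [MeasurableSpace Ω] (M : Measure Ω) [IsProbabilityMeasure M]
    {p : Fin 3 → Ω → Prop} {t : ℝ} (hp : ∀ i, M.real {ω | p i ω} ≤ t) :
    M.real {ω | ∃ i, p i ω} ≤ 3 * t := by
  rw [Set.ofPred_exists]
  refine (measureReal_iUnion_fintype_le _).trans ?_
  rw [Fin.sum_univ_three]
  linarith [hp 0, hp 1, hp 2]

theorem f4_ex2 {Ω : Type} [MeasurableSpace Ω] (M : Measure Ω) [IsProbabilityMeasure M]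
    {p : Fin 3 → Fin 3 → Ω → Prop} {t : ℝ} (ht : 0 ≤ t)
    (hp : ∀ i j, i ≠ j → M.real {ω | p i j ω} ≤ t) :
    M.real {ω | ∃ i j, i ≠ j ∧ p i j ω} ≤ 3 * (3 * t) :=
  f4_ex M fun i => f4_ex M fun j => by
    by_cases h : i = j
    · simpa [h] using ht
    · simpa [h] using hp i j h

theorem f4_mono {Ω : Type} [MeasurableSpace Ω] (M : Measure Ω) [IsProbabilityMeasure M]
    {p q : Ω → Prop} (h : ∀ᵐ ω ∂M, p ω → q ω) : M.real {ω | p ω} ≤ M.real {ω | q ω} :=
  ENNReal.toReal_mono (measure_ne_top _ _) (measure_mono_ae h)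

/-- the good event -/
def f4_good (A : Fin 3 → Ix → Ix → ℝ) (X : Fin 3 → ℝ) (δ C η : ℝ) (r y : ℕ) : Prop :=
  (∀ i j a b c d, pf4 (fun x y => A i x y - A j x y) a b c d = 0) ∧
  (∀ i j, i ≠ j → ∃ a b, Win 0 r a ∧ Win 0 r b ∧ δ ≤ |A i a b - A j a b|) ∧
  (∀ i j, i ≠ j → ∃ a b, Win y r a ∧ Win y r b ∧ δ ≤ |A i a b - A j a b|) ∧
  (∀ i a b c d, Win 0 r a → Win 0 r b → Win y r c → Win y r d → |mnr (A i) a b c d| ≤ η) ∧
  ∀ i, (∀ a b, Win 0 r a → Win 0 r b → |A i a b| ≤ C) ∧
    (∀ a b, Win y r a → Win y r b → |A i a b| ≤ C) ∧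
    ∀ a c, Win 0 r a → Win y r c → |A i a c| ≤ C * X i

theorem f4_prod {A : Fin 3 → Ix → Ix → ℝ} {X : Fin 3 → ℝ} {δ C η : ℝ} {r y : ℕ}
    (h : f4_good A X δ C η r y) (hδ : 0 < δ) (hC : 0 < C) (hη : η ≤ δ ^ 2 / 4) {i j : Fin 3}
    (hij : i ≠ j) : δ ^ 2 / (8 * C ^ 2) ≤ X i * X j := by
  obtain ⟨g1, g2, g3, g4, g5⟩ := h
  obtain ⟨a, b, ha, hb, hab⟩ := g2 i j hij
  obtain ⟨c, d, hc, hd, hcd⟩ := g3 i j hij
  have key : ∀ k s t, (s = a ∨ s = b) → (t = c ∨ t = d) → |A k s t| ≤ C * X k :=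
    fun k s t hs ht => (g5 k).2.2 s t (by rcases hs with rfl | rfl <;> assumption)
      (by rcases ht with rfl | rfl <;> assumption)
  have := alg3 (A i) (A j) (g1 i j a b c d) hab hcd hδ.le (g4 i a b c d ha hb hc hd)
    (g4 j a b c d ha hb hc hd) (key i) (key j)
  rw [div_le_iff₀ (by positivity)]
  nlinarith

theorem three_abs {Ω : Type} [MeasurableSpace Ω] (M : Measure Ω) [IsProbabilityMeasure M]
    (A : Fin 3 → Ω → Ix → Ix → ℝ) (X : ℕ → ℕ → Fin 3 → Ω → ℝ)
    (h1 : ∀ᵐ ω ∂M, ∀ i j a b c d, pf4 (fun x y => A i ω x y - A j ω x y) a b c d = 0)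
    (h2 : ∀ ε > (0 : ℝ), ∃ δ > (0 : ℝ), ∀ᶠ r in atTop, ∀ y i j, i ≠ j →
      M.real {ω | ∀ a b, Win y r a → Win y r b → |A i ω a b - A j ω a b| < δ} ≤ ε)
    (h3 : ∀ r, ∀ η > (0 : ℝ), ∀ ε > (0 : ℝ), ∀ᶠ y in atTop, ∀ i,
      M.real {ω | ∃ a b c d, Win 0 r a ∧ Win 0 r b ∧ Win y r c ∧ Win y r d ∧
        η < |mnr (A i ω) a b c d|} ≤ ε)
    (h4 : ∀ r, ∀ ε > (0 : ℝ), ∃ C > (0 : ℝ), ∀ y, r ≤ y → ∀ i,
      M.real {ω | ¬ ((∀ a b, Win 0 r a → Win 0 r b → |A i ω a b| ≤ C) ∧
        (∀ a b, Win y r a → Win y r b → |A i ω a b| ≤ C) ∧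
        ∀ a c, Win 0 r a → Win y r c → |A i ω a c| ≤ C * X r y i ω)} ≤ ε)
    (h5 : ∀ c > (0 : ℝ), ∀ ε > (0 : ℝ), ∃ C : ℝ, ∀ r y,
      (∀ i j, i ≠ j → M.real {ω | X r y i ω * X r y j ω < c} ≤ ε) →
        ∀ i, M.real {ω | C < X r y i ω} ≤ 12 * ε) : False := by
  have core : ∀ ε > (0 : ℝ), ∃ δ > (0 : ℝ), ∀ᶠ r in atTop, ∃ C > (0 : ℝ), ∀ η > (0 : ℝ), ∃ y,
      M.real {ω | ¬ f4_good (fun i => A i ω) (fun i => X r y i ω) δ C η r y} ≤ 24 * ε := by
    intro ε hε
    obtain ⟨δ, hδ, hr⟩ := h2 ε hε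
    refine ⟨δ, hδ, hr.mono fun r hr => ?_⟩
    obtain ⟨C, hC, h4'⟩ := h4 r ε hε
    refine ⟨C, hC, fun η hη => ?_⟩
    obtain ⟨y, hy, hry⟩ := ((h3 r η hη ε hε).and (eventually_ge_atTop r)).exists
    refine ⟨y, le_trans (f4_mono M (h1.mono fun ω hω hn => ?_)) ((f4_or M (f4_or M
      (f4_ex2 M hε.le (hr 0)) (f4_ex2 M hε.le (hr y))) (f4_or M (f4_ex M hy)
      (f4_ex M (h4' y hry)))).trans (le_of_eq (by ring)))⟩
    by_contra hc
    simp only [not_or, not_exists, not_and, not_forall, not_lt, not_not] at hc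
    obtain ⟨⟨c1, c2⟩, c3, c4⟩ := hc
    refine hn ⟨hω, fun i j hij => ?_, fun i j hij => ?_, c3, fun i => ?_⟩
    · obtain ⟨a, b, ha, hb, h⟩ := c1 i j hij
      exact ⟨a, b, ha, hb, h⟩
    · obtain ⟨a, b, ha, hb, h⟩ := c2 i j hij
      exact ⟨a, b, ha, hb, h⟩
    · obtain ⟨u, v, w⟩ := c4 i
      exact ⟨u, v, w⟩
  have stepA : ∀ (a b e f : Ix), ∀ ε0 > (0 : ℝ), ∀ ε > (0 : ℝ),
      M.real {ω | ε0 ≤ |(A 0 ω a b - A 1 ω a b) * (A 0 ω e f - A 2 ω e f) -
        (A 0 ω e f - A 1 ω e f) * (A 0 ω a b - A 2 ω a b)|} ≤ 888 * ε := by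
    intro a b e f ε0 hε0 ε hε
    obtain ⟨δ, hδ, hr⟩ := core ε hε
    obtain ⟨r, ⟨C, hC, hG⟩, hr⟩ :=
      (hr.and (eventually_gt_atTop (a.1 + b.1 + e.1 + f.1))).exists
    obtain ⟨C', h5'⟩ := h5 (δ ^ 2 / (8 * C ^ 2)) (by positivity) (24 * ε) (by positivity)
    obtain ⟨η, hη, ha1⟩ := alg1 (C := max C (C * C')) hδ hε0
    obtain ⟨y, hy⟩ := hG (min η (δ ^ 2 / 4)) (lt_min hη (by positivity))
    have hX := h5' r y fun i j hij => by
      refine le_trans (f4_mono M (Eventually.of_forall fun ω hω hg => ?_)) hy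
      exact hω.not_ge (f4_prod hg hδ hC (min_le_right _ _) hij)
    have hb := f4_or M hy (f4_ex M hX)
    refine le_trans (le_trans (f4_mono M (Eventually.of_forall fun ω hω => ?_)) hb)
      (le_of_eq (by ring))
    by_contra hc
    simp only [not_or, not_exists, not_lt, not_not] at hc
    obtain ⟨⟨g1, -, g3, g4, g5⟩, hc⟩ := hc
    refine hω.not_gt (ha1 (fun i => A i ω) (Win 0 r) (Win y r) g1
      (fun i s t hs ht => ((g5 i).2.2 s t hs ht).trans
        ((mul_le_mul_of_nonneg_left (hc i) hC.le).trans (le_max_right _ _)))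
      (fun i s t hs ht => ((g5 i).1 s t hs ht).trans (le_max_left _ _))
      (fun i s t hs ht => ((g5 i).2.1 s t hs ht).trans (le_max_left _ _))
      (fun i s t u v hs ht hu hv => (g4 i s t u v hs ht hu hv).trans (min_le_left _ _))
      g3 a b e f ?_ ?_ ?_ ?_) <;> exact ⟨Nat.zero_le _, by omega⟩
  have hdet : ∀ᵐ ω ∂M, ∀ (a b e f : Ix) (n : ℕ),
      ¬ 1 / ((n : ℝ) + 1) ≤ |(A 0 ω a b - A 1 ω a b) * (A 0 ω e f - A 2 ω e f) -
        (A 0 ω e f - A 1 ω e f) * (A 0 ω a b - A 2 ω a b)| := by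
    simp only [ae_all_iff]
    intro a b e f n
    rw [ae_iff]
    simp only [not_not]
    rw [← measureReal_eq_zero_iff]
    refine le_antisymm (le_of_forall_pos_le_add fun ε hε => ?_) measureReal_nonneg
    have := stepA a b e f (1 / ((n : ℝ) + 1)) (by positivity) (ε / 888) (by positivity)
    linarith
  obtain ⟨δ, hδ, hr⟩ := core (1 / 48) (by norm_num)
  obtain ⟨r, C, -, hG⟩ := hr.exists
  obtain ⟨η, hη, ha2⟩ := alg2 (C := C) hδ
  obtain ⟨y, hy⟩ := hG η hη
  have h6 := f4_mono M (p := fun _ => True) (q := fun ω =>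
    ¬ f4_good (fun i => A i ω) (fun i => X r y i ω) δ C η r y) (hdet.mono fun ω hω _ hg => by
      obtain ⟨g1, g2, g3, g4, g5⟩ := hg
      refine ha2 (fun i => A i ω) (Win 0 r) (Win y r) g1 (fun i => (g5 i).1) (fun i => (g5 i).2.1)
        g4 g2 g3 fun a b e f => ?_
      by_contra hne
      obtain ⟨n, hn⟩ := exists_nat_one_div_lt (abs_pos.2 (sub_ne_zero.2 hne))
      exact hω a b e f n hn.le)
  rw [Set.ofPred_true, probReal_univ] at h6
  linarith

end Pool.Agent.MP_c70b3b_mp.Cg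

end

section

open MeasureTheory ProbabilityTheory Filter Topology BoundedContinuousFunction
open scoped symmDiff ENNReal

namespace Pool.Agent.MP_c70b3b_mp.Cg

variable {β : ℝ} {κ : Kernel W S} {π : Kernel (W × S) S} {m : ℕ → ℕ}

instance t1_opens : OpensMeasurableSpace (W × unitInterval × S) := inferInstance

instance t1_borel : BorelSpace (W × unitInterval × S) := inferInstance

/-- Partition sum of the box with constant boundary condition. -/
noncomputable def t1Z (β : ℝ) (n : ℕ) (w : W) : ℝ := gZ (β • w) (box n) 1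

lemma t1Z_pos (β : ℝ) (n : ℕ) (w : W) : 0 < t1Z β n w := gZ_pos _ _ _

lemma t1Z_cont (β : ℝ) (n : ℕ) : Continuous (t1Z β n) :=
  continuous_finsetSum _ fun U _ => by
    simpa only [Function.comp_def] using
      ((continuous_en2 β (touch (box n))).comp (Continuous.prodMk_left (flp U 1))).rexp

/-- The relative weight of the changed couplings. -/
noncomputable def t1b (β : ℝ) (F : Finset E) (n : ℕ) (w : W) : unitInterval :=
  ⟨t1Z β n (neg F w) / (t1Z β n w + t1Z β n (neg F w)),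
    div_nonneg (t1Z_pos _ _ _).le (add_pos (t1Z_pos _ _ _) (t1Z_pos _ _ _)).le,
    (div_le_one (add_pos (t1Z_pos _ _ _) (t1Z_pos _ _ _))).2
      (le_add_of_nonneg_left (t1Z_pos _ _ _).le)⟩

lemma t1b_cont (β : ℝ) (F : Finset E) (n : ℕ) : Continuous (t1b β F n) :=
  (((t1Z_cont β n).comp (continuous_neg' F)).div
    ((t1Z_cont β n).add ((t1Z_cont β n).comp (continuous_neg' F)))
    fun _ => (add_pos (t1Z_pos _ _ _) (t1Z_pos _ _ _)).ne').subtype_mk _

lemma t1b_neg (β : ℝ) (F : Finset E) (n : ℕ) (w : W) :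
    t1b β F n (neg F w) = unitInterval.symm (t1b β F n w) := by
  have h1 := t1Z_pos β n w
  have h2 := t1Z_pos β n (neg F w)
  ext
  simp only [t1b, neg_neg', unitInterval.coe_symm_eq]
  field_simp
  ring

/-- Translation together with the weight. -/
noncomputable def t1T (β : ℝ) (G : Finset E) (n : ℕ) (z : V) (p : W × S) :
    W × unitInterval × S := (shW z p.1, t1b β (G.image (shE z)) n p.1, shS z p.2)

lemma t1T_cont (β : ℝ) (G : Finset E) (n : ℕ) (z : V) : Continuous (t1T β G n z) :=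
  (continuous_shift z).fst.prodMk
    (((t1b_cont β _ n).comp continuous_fst).prodMk (continuous_shift z).snd)

/-- The finite volume measures. -/
noncomputable def t1lam (β : ℝ) (G : Finset E) (n : ℕ) : Measure (W × unitInterval × S) :=
  ((box (n + 1)).card : ℝ≥0∞)⁻¹ • ∑ z ∈ box (n + 1),
    (P ⊗ₘ gKs β (box (n + 1)) (s := fun _ => 1) measurable_const).map (t1T β G (n + 1) z)

instance t1lam_prob (β : ℝ) (G : Finset E) (n : ℕ) : IsProbabilityMeasure (t1lam β G n) := by
  refine ⟨?_⟩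
  have h : ∀ z : V, (P ⊗ₘ gKs β (box (n + 1)) (s := fun _ => 1) measurable_const).map
      (t1T β G (n + 1) z) Set.univ = 1 := fun z => by
    rw [Measure.map_apply (t1T_cont β G _ z).measurable MeasurableSet.univ, Set.preimage_univ,
      measure_univ]
  rw [t1lam, Measure.smul_apply, Measure.finsetSum_apply]
  simp only [h, Finset.sum_const, nsmul_eq_mul, mul_one, smul_eq_mul]
  exact ENNReal.inv_mul_cancel (by exact_mod_cast avg_card_ne n) (ENNReal.natCast_ne_top _)

lemma t1_int (β : ℝ) (G : Finset E) (n : ℕ) (g : W × unitInterval × S →ᵇ ℝ) :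
    ∫ x, g x ∂t1lam β G n = (∑ z ∈ box (n + 1), ∫ w, gam (β • w) (box (n + 1))
      (fun σ => g (t1T β G (n + 1) z (w, σ))) 1 ∂P) / (box (n + 1)).card := by
  rw [t1lam, integral_smul_measure, integral_finsetSum_measure fun z _ => g.integrable _,
    ENNReal.toReal_inv, ENNReal.toReal_natCast, smul_eq_mul, div_eq_inv_mul]
  congr 1
  refine Finset.sum_congr rfl fun z _ => ?_
  rw [integral_map (t1T_cont β G _ z).measurable.aemeasurable g.continuous.aestronglyMeasurable,
    Measure.integral_compProd (f := fun p => g (t1T β G (n + 1) z p))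
      ((g.compContinuous ⟨t1T β G (n + 1) z, t1T_cont β G _ z⟩).integrable _)]
  simp only [integral_gKs]

lemma t1_fst (β : ℝ) (G : Finset E) (n : ℕ) : (t1lam β G n).map Prod.fst = P := by
  refine ext_of_forall_integral_eq_of_IsFiniteMeasure fun f => ?_
  rw [integral_map measurable_fst.aemeasurable f.continuous.aestronglyMeasurable]
  refine (t1_int β G n (f.compContinuous ⟨Prod.fst, continuous_fst⟩)).trans ?_
  have h : ∀ z, ∫ w, f (shW z w) ∂P = ∫ w, f w ∂P := fun z => by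
    rw [← integral_map (measurable_shW z).aemeasurable f.continuous.aestronglyMeasurable,
      (mp_shW z).map_eq]
  simp only [compContinuous_apply, ContinuousMap.coe_mk, t1T, gam_const, h, Finset.sum_const,
    nsmul_eq_mul]
  exact mul_div_cancel_left₀ _ (by exact_mod_cast avg_card_ne n)

lemma t1_neg (G : Finset E) (z : V) (w : W) :
    shW z (neg (G.image (shE z)) w) = neg G (shW z w) := by
  funext e
  have h : shE z e ∈ G.image (shE z) ↔ e ∈ G :=
    Function.Injective.mem_finset_image fun _ _ h => tower_shE_inj z h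
  exact if_congr h rfl rfl

lemma t1_sym (β : ℝ) (G : Finset E) (n : ℕ) (g : W × unitInterval →ᵇ ℝ) :
    ∫ x, g (neg G x.1, unitInterval.symm x.2.1) ∂t1lam β G n
      = ∫ x, g (x.1, x.2.1) ∂t1lam β G n := by
  refine (t1_int β G n (g.compContinuous ⟨fun x => (neg G x.1, unitInterval.symm x.2.1),
    ((continuous_neg' G).comp continuous_fst).prodMk
      (unitInterval.continuous_symm.comp continuous_snd.fst)⟩)).trans (Eq.trans ?_
    (t1_int β G n (g.compContinuous ⟨fun x => (x.1, x.2.1),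
      continuous_fst.prodMk continuous_snd.fst⟩)).symm)
  congr 1
  refine Finset.sum_congr rfl fun z _ => ?_
  simp only [compContinuous_apply, ContinuousMap.coe_mk, t1T, gam_const, ← t1b_neg, ← t1_neg]
  have hc : Continuous fun w => g (shW z w, t1b β (G.image (shE z)) (n + 1) w) :=
    g.continuous.comp ((continuous_pi fun _ => continuous_apply _).prodMk (t1b_cont _ _ _))
  rw [← integral_map (f := fun w => g (shW z w, t1b β (G.image (shE z)) (n + 1) w))
    (continuous_neg' _).measurable.aemeasurable hc.aestronglyMeasurable, (mp_neg _).map_eq]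

lemma t1_mu (β : ℝ) {F : Finset E} {n : ℕ} (hF : F ⊆ touch (box n)) (w : W) :
    gam (β • w) (box n) (mu (β • w) F) 1 = t1Z β n (neg F w) / t1Z β n w := by
  unfold gam t1Z
  congr 1
  refine Finset.sum_congr rfl fun U _ => ?_
  rw [mu, ← Real.exp_add]
  congr 1
  unfold en
  rw [← Finset.sum_sdiff hF, ← Finset.sum_sdiff hF]
  have h1 : ∑ e ∈ touch (box n) \ F, (β • neg F w) e * bond (flp U 1) e
      = ∑ e ∈ touch (box n) \ F, (β • w) e * bond (flp U 1) e :=
    Finset.sum_congr rfl fun e he => by simp [neg, (Finset.mem_sdiff.1 he).2]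
  have h2 : ∑ e ∈ F, (β • neg F w) e * bond (flp U 1) e
      = -∑ e ∈ F, (β • w) e * bond (flp U 1) e := by
    rw [← Finset.sum_neg_distrib]
    exact Finset.sum_congr rfl fun e he => by simp [neg, he]
  rw [h1, h2]
  ring

/-- The local average of the disorder weight. -/
noncomputable def t1g (β : ℝ) (G : Finset E) (k : ℕ) (x : W × unitInterval × S) : ℝ :=
  gam (β • x.1) (box k) (mu (β • x.1) G) x.2.2

lemma t1g_pos (β : ℝ) (G : Finset E) (k : ℕ) (x : W × unitInterval × S) : 0 < t1g β G k x :=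
  gam_pos (fun _ => Real.exp_pos _) _

lemma t1g_cont (β : ℝ) (G : Finset E) (k : ℕ) : Continuous (t1g β G k) := by
  have h1 := continuous_gam β (box k) (g := fun p => mu (β • p.1) G p.2)
    (continuous_const.mul (continuous_en2 β G)).rexp
  have h2 : Continuous fun x : W × unitInterval × S => (x.1, x.2.2) :=
    continuous_fst.prodMk continuous_snd.snd
  have h3 := h1.comp h2
  simp only [Function.comp_def] at h3
  exact h3

lemma t1_den {γ L : ℝ} (hγ : 0 < γ) (hL : 0 < L) (b : unitInterval) :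
    0 < max (L * b) (γ * (1 - b)) := by
  rcases b.2.1.eq_or_lt with h | h
  · exact lt_max_of_lt_right (by rw [← h, sub_zero, mul_one]; exact hγ)
  · exact lt_max_of_lt_left (mul_pos hL h)

lemma t1_num {γ : ℝ} (hγ : 0 < γ) (b : unitInterval) : 0 ≤ γ * (1 - b) :=
  mul_nonneg hγ.le (sub_nonneg.2 b.2.2)

/-- The test function. -/
noncomputable def t1f (β : ℝ) (G : Finset E) (k : ℕ) {L : ℝ} (hL : 0 < L) :
    W × unitInterval × S →ᵇ ℝ :=
  BoundedContinuousFunction.ofNormedAddCommGroup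
    (fun x => t1g β G k x * (1 - x.2.1) / max (L * x.2.1) (t1g β G k x * (1 - x.2.1)))
    (by
      have h1 : Continuous fun x : W × unitInterval × S => (x.2.1 : ℝ) :=
        continuous_subtype_val.comp continuous_snd.fst
      have h2 : Continuous fun x : W × unitInterval × S => t1g β G k x * (1 - x.2.1) :=
        (t1g_cont β G k).mul (continuous_const.sub h1)
      exact h2.div ((continuous_const.mul h1).max h2) fun x => (t1_den (t1g_pos β G k x) hL _).ne')
    1 fun x => by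
      rw [Real.norm_of_nonneg (div_nonneg (t1_num (t1g_pos β G k x) _)
        (t1_den (t1g_pos β G k x) hL _).le), div_le_one (t1_den (t1g_pos β G k x) hL _)]
      exact le_max_right _ _

lemma t1f_apply (β : ℝ) (G : Finset E) (k : ℕ) {L : ℝ} (hL : 0 < L) (x : W × unitInterval × S) :
    t1f β G k hL x
      = t1g β G k x * (1 - x.2.1) / max (L * x.2.1) (t1g β G k x * (1 - x.2.1)) := rfl

lemma t1f_nonneg (β : ℝ) (G : Finset E) (k : ℕ) {L : ℝ} (hL : 0 < L) (x : W × unitInterval × S) :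
    0 ≤ t1f β G k hL x :=
  div_nonneg (t1_num (t1g_pos β G k x) _) (t1_den (t1g_pos β G k x) hL _).le

lemma t1f_le (β : ℝ) (G : Finset E) (k : ℕ) {L : ℝ} (hL : 0 < L) (x : W × unitInterval × S) :
    t1f β G k hL x ≤ 1 :=
  (div_le_one (t1_den (t1g_pos β G k x) hL _)).2 (le_max_right _ _)

lemma t1_good (β : ℝ) (G : Finset E) (k : ℕ) {L : ℝ} (hL : 0 < L) {n : ℕ} {z : V}
    (h1 : tr (box k) z ⊆ box n) (h2 : G.image (shE z) ⊆ touch (box n)) (w : W) :
    gam (β • w) (box n) (fun σ => t1f β G k hL (t1T β G n z (w, σ))) 1 ≤ 1 / L := by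
  have h3 := t1Z_pos β n w
  have h4 := t1Z_pos β n (neg (G.image (shE z)) w)
  have hb : (0 : ℝ) < t1b β (G.image (shE z)) n w := div_pos h4 (add_pos h3 h4)
  have h5 : ∀ σ, t1f β G k hL (t1T β G n z (w, σ))
      ≤ (1 - t1b β (G.image (shE z)) n w) / (L * t1b β (G.image (shE z)) n w)
        * gam (β • w) (tr (box k) z) (mu (β • w) (G.image (shE z))) σ := by
    intro σ
    have h6 : t1g β G k (t1T β G n z (w, σ))
        = gam (β • w) (tr (box k) z) (mu (β • w) (G.image (shE z))) σ := by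
      simp only [t1g, t1T, gam_shift, mu, tower_en_shift]
      rfl
    rw [← h6, div_mul_eq_mul_div, mul_comm]
    exact div_le_div_of_nonneg_left (t1_num (t1g_pos _ _ _ _) _) (mul_pos hL hb) (le_max_left _ _)
  refine (gam_mono (g' := fun σ => _ * gam (β • w) (tr (box k) z) _ σ) fun U _ => h5 _).trans
    (le_of_eq ?_)
  rw [gam_smul, gam_cons _ h1, t1_mu β h2]
  simp only [t1b]
  field_simp
  ring

lemma t1_bound (β : ℝ) (G : Finset E) (k : ℕ) {L : ℝ} (hL : 0 < L) : ∃ r : ℕ, ∀ n,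
    ∫ x, t1f β G k hL x ∂t1lam β G n ≤ 1 / L + 2 * r * (1 / ((n : ℝ) + 1)) := by
  obtain ⟨r, -, hr⟩ := exists_box (box k ∪ G.image Prod.fst)
  refine ⟨r, fun n => ?_⟩
  have h0 : ∀ z ∈ box (n + 1 - r), ∀ x ∈ box r, x + z ∈ box (n + 1) := by
    intro z hz x hx
    simp only [mem_box, Prod.fst_add, Prod.snd_add] at hz hx ⊢
    omega
  have h1 : ∀ z ∈ box (n + 1), ∫ w, gam (β • w) (box (n + 1))
      (fun σ => t1f β G k hL (t1T β G (n + 1) z (w, σ))) 1 ∂P
      ≤ 1 / L + if z ∉ box (n + 1 - r) then 1 else 0 := by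
    intro z _
    refine le_trans (integral_mono_of_nonneg (Eventually.of_forall fun w =>
      gam_nonneg (fun _ => t1f_nonneg _ _ _ _ _) _) (integrable_const _)
      (Eventually.of_forall fun w => ?_)) (by simp only [integral_const, probReal_univ, one_smul]; exact le_rfl)
    by_cases hz : z ∈ box (n + 1 - r)
    · rw [if_neg (not_not.2 hz), add_zero]
      refine t1_good β G k hL (fun x hx => ?_) (fun e he => ?_) w
      · obtain ⟨y, hy, rfl⟩ := Finset.mem_image.1 hx
        exact h0 z hz y (hr (Finset.mem_union_left _ hy))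
      · obtain ⟨y, hy, rfl⟩ := Finset.mem_image.1 he
        exact mem_touch.2 (Or.inl (h0 z hz y.1
          (hr (Finset.mem_union_right _ (Finset.mem_image_of_mem _ hy)))))
    · rw [if_pos hz]
      exact ((gam_mono fun _ _ => t1f_le _ _ _ _ _).trans_eq (gam_const _ _ _ _)).trans
        (le_add_of_nonneg_left (by positivity))
  have h2 : ((box (n + 1)).filter fun z => z ∉ box (n + 1 - r)).card ≤ 8 * (n + 1) * r := by
    rw [← Finset.sdiff_eq_filter, Finset.card_sdiff_of_subset (box_mono (Nat.sub_le _ _)),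
      avg_card_box, avg_card_box]
    generalize n + 1 = N
    rcases le_total r N with h | h
    · obtain ⟨d, rfl⟩ := Nat.exists_eq_add_of_le h
      rw [Nat.add_sub_cancel_left, Nat.sub_le_iff_le_add]
      nlinarith
    · refine (Nat.sub_le _ _).trans ?_
      nlinarith
  have h3 : (((box (n + 1)).filter fun z => z ∉ box (n + 1 - r)).card : ℝ) ≤ 8 * (n + 1) * r := by
    exact_mod_cast h2
  have h4 := Finset.sum_le_sum h1
  rw [Finset.sum_add_distrib, Finset.sum_boole, Finset.sum_const, nsmul_eq_mul] at h4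
  rw [t1_int, div_le_iff₀ (Nat.cast_pos.2 (Nat.pos_of_ne_zero (avg_card_ne n)))]
  refine (h4.trans (add_le_add le_rfl h3)).trans (le_of_eq ?_)
  rw [avg_card_box]
  push_cast
  field_simp
  ring

lemma t1_le {X : Type} [TopologicalSpace X] {μ : ℕ → X} {ν : X} (hν : MapClusterPt ν atTop μ)
    {Φ : X → ℝ} (hΦ : Continuous Φ) {a : ℕ → ℝ} {c : ℝ} (ha : Tendsto a atTop (𝓝 c))
    (h : ∀ n, Φ (μ n) ≤ a n) : Φ ν ≤ c :=
  le_of_forall_gt_imp_ge_of_dense fun _ hc => (isClosed_le hΦ continuous_const).mem_of_mapClusterPt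
    hν ((ha.eventually_lt_const hc).mono fun n hn => (h n).trans hn.le)

lemma t1_eq {X : Type} [TopologicalSpace X] {μ : ℕ → X} {ν : X} (hν : MapClusterPt ν atTop μ)
    {Φ : X → ℝ} (hΦ : Continuous Φ) {c : ℝ} (h : Tendsto (fun n => Φ (μ n)) atTop (𝓝 c)) :
    Φ ν = c :=
  le_antisymm (t1_le hν hΦ h fun _ => le_rfl)
    (neg_le_neg_iff.1 (t1_le hν hΦ.neg h.neg fun _ => le_rfl))

theorem exists_lam (hβ : 0 ≤ β) (hκ : CovGibbs β 1 κ) (G : Finset E) :
    ∃ lam : Measure (W × unitInterval × S), IsProbabilityMeasure lam ∧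
      lam.map (fun x => (x.1, x.2.2)) = P ⊗ₘ κ ∧
      lam.map (fun x => (neg G x.1, unitInterval.symm x.2.1)) = lam.map (fun x => (x.1, x.2.1)) ∧
      ∀ (k : ℕ) (L : ℝ), 0 < L → lam.real {x | L * (x.2.1 : ℝ) <
        gam (β • x.1) (box k) (mu (β • x.1) G) x.2.2 * (1 - x.2.1)} ≤ 1 / L := by
  have := hκ.markov
  let μ : ℕ → ProbabilityMeasure (W × unitInterval × S) := fun n => ⟨t1lam β G n, inferInstance⟩
  have hK : IsCompact (closure (Set.range μ)) := by
    refine isCompact_closure_of_isTightMeasureSet (IsTightMeasureSet.prodMk ?_ ?_)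
    · refine (isTightMeasureSet_singleton (μ := P)).subset ?_
      rintro _ ⟨_, ⟨_, ⟨n, rfl⟩, rfl⟩, rfl⟩
      exact t1_fst β G n
    · exact IsTightMeasureSet.of_compactSpace
  obtain ⟨ν, -, hν⟩ := hK.exists_mapClusterPt (f := atTop) (u := μ)
    (tendsto_principal.2 (Eventually.of_forall fun n => subset_closure ⟨n, rfl⟩))
  have hI := @ProbabilityMeasure.continuous_integral_boundedContinuousFunction
    (W × unitInterval × S) _ _ _
  refine ⟨ν, inferInstance, ?_, ?_, fun k L hL => ?_⟩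
  · have hc : Continuous fun x : W × unitInterval × S => (x.1, x.2.2) :=
      continuous_fst.prodMk continuous_snd.snd
    refine ext_of_forall_integral_eq_of_IsFiniteMeasure fun g => ?_
    rw [integral_map hc.measurable.aemeasurable g.continuous.aestronglyMeasurable]
    refine t1_eq hν (hI (g.compContinuous ⟨_, hc⟩))
      (((fin_lim hβ hκ (fun _ _ => 1) (fun _ => measurable_const) g).comp
        (tendsto_add_atTop_nat 1)).congr fun n => ?_)
    exact (t1_int β G n (g.compContinuous ⟨_, hc⟩)).symm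
  · have hc : Continuous fun x : W × unitInterval × S => (neg G x.1, unitInterval.symm x.2.1) :=
      ((continuous_neg' G).comp continuous_fst).prodMk
        (unitInterval.continuous_symm.comp continuous_snd.fst)
    have hc' : Continuous fun x : W × unitInterval × S => (x.1, x.2.1) :=
      continuous_fst.prodMk continuous_snd.fst
    refine ext_of_forall_integral_eq_of_IsFiniteMeasure fun g => ?_
    rw [integral_map hc.measurable.aemeasurable g.continuous.aestronglyMeasurable,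
      integral_map hc'.measurable.aemeasurable g.continuous.aestronglyMeasurable]
    exact sub_eq_zero.1 (t1_eq hν ((hI (g.compContinuous ⟨_, hc⟩)).sub
      (hI (g.compContinuous ⟨_, hc'⟩)))
      (tendsto_const_nhds.congr fun n => (sub_eq_zero.2 (t1_sym β G n g)).symm))
  · obtain ⟨r, hr⟩ := t1_bound β G k hL
    have hlim : Tendsto (fun n : ℕ => 1 / L + 2 * r * (1 / ((n : ℝ) + 1))) atTop (𝓝 (1 / L)) := by
      simpa using (tendsto_one_div_add_atTop_nhds_zero_nat.const_mul (2 * (r : ℝ))).const_add (1 / L)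
    refine le_trans ?_ (t1_le hν (hI (t1f β G k hL)) hlim hr)
    have h1 : Continuous fun x : W × unitInterval × S => (x.2.1 : ℝ) :=
      continuous_subtype_val.comp continuous_snd.fst
    have hm : MeasurableSet {x : W × unitInterval × S |
        L * (x.2.1 : ℝ) < t1g β G k x * (1 - x.2.1)} :=
      (isOpen_lt (continuous_const.mul h1)
        ((t1g_cont β G k).mul (continuous_const.sub h1))).measurableSet
    refine (integral_indicator_one hm).symm.trans_le (integral_mono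
      ((integrable_const _).indicator hm) ((t1f β G k hL).integrable _) fun x => ?_)
    by_cases hx : L * (x.2.1 : ℝ) < t1g β G k x * (1 - x.2.1)
    · rw [Set.indicator_of_mem (by exact hx), t1f_apply, max_eq_right hx.le,
        div_self ((mul_nonneg hL.le x.2.1.2.1).trans_lt hx).ne']
      exact le_rfl
    · rw [Set.indicator_of_notMem (by exact hx)]
      exact t1f_nonneg _ _ _ _ _

end Pool.Agent.MP_c70b3b_mp.Cg

end

section

open MeasureTheory ProbabilityTheory Filter Topology BoundedContinuousFunction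
open scoped symmDiff ENNReal

namespace Pool.Agent.MP_c70b3b_mp.Cg

variable {β : ℝ} {κ : Kernel W S} {π : Kernel (W × S) S} {m : ℕ → ℕ}

/-- both weights small -/
def t3L (L : ℝ) : Set (unitInterval × unitInterval) :=
  {b | L * ((b.1 : ℝ) * b.2) < (1 - b.1) * (1 - b.2)}

/-- both weights large -/
def t3R (L : ℝ) : Set (unitInterval × unitInterval) :=
  {b | L * ((1 - (b.1 : ℝ)) * (1 - b.2)) < b.1 * b.2}

lemma t3_mL (L : ℝ) : MeasurableSet (t3L L) := measurableSet_lt (by fun_prop) (by fun_prop)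

lemma t3_mR (L : ℝ) : MeasurableSet (t3R L) := measurableSet_lt (by fun_prop) (by fun_prop)

lemma t3_pair (q : Measure (unitInterval × S)) [IsProbabilityMeasure q] {x : S → ℝ}
    (hx : Measurable x) (h0 : ∀ σ, 0 < x σ) {M c : ℝ} (hc : 0 < c) :
    ((q.map Prod.fst).prod (q.map Prod.fst)) (t3L (M ^ 2 / c))
      ≤ ((q.map Prod.snd).prod (q.map Prod.snd)) {p | x p.1 * x p.2 < c}
        + 2 * q {p | M * (p.1 : ℝ) < x p.2 * (1 - p.1)} := by
  have hH : MeasurableSet {p : S × S | x p.1 * x p.2 < c} :=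
    measurableSet_lt (by fun_prop) (by fun_prop)
  rw [Measure.map_prod_map _ _ measurable_fst measurable_fst,
    Measure.map_prod_map _ _ measurable_snd measurable_snd,
    Measure.map_apply (measurable_fst.prodMap measurable_fst) (t3_mL _),
    Measure.map_apply (measurable_snd.prodMap measurable_snd) hH]
  set A : Set (unitInterval × S) := {p | M * (p.1 : ℝ) < x p.2 * (1 - p.1)} with hA
  have hs : Prod.map Prod.fst Prod.fst ⁻¹' t3L (M ^ 2 / c) ⊆
      (Prod.map Prod.snd Prod.snd ⁻¹' {p : S × S | x p.1 * x p.2 < c}) ∪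
        (A ×ˢ Set.univ ∪ Set.univ ×ˢ A) := by
    rintro ⟨⟨b, σ⟩, ⟨b', σ'⟩⟩ hp
    by_contra hn
    simp only [hA, Set.mem_union, Set.mem_preimage, Prod.map, Set.mem_ofPred_eq, Set.mem_prod,
      Set.mem_univ, and_true, true_and, not_or, not_lt] at hn
    obtain ⟨n1, n2, n3⟩ := hn
    have hp' : M ^ 2 / c * ((b : ℝ) * b') < (1 - b) * (1 - b') := hp
    rw [div_mul_eq_mul_div, div_lt_iff₀ hc] at hp'
    have a1 : 0 ≤ 1 - (b : ℝ) := sub_nonneg.2 b.2.2
    have a2 : 0 ≤ 1 - (b' : ℝ) := sub_nonneg.2 b'.2.2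
    have a3 := mul_le_mul n2 n3 (mul_nonneg (h0 σ').le a2) ((mul_nonneg (h0 σ).le a1).trans n2)
    have a4 := mul_le_mul_of_nonneg_left n1 (mul_nonneg a1 a2)
    nlinarith
  refine (measure_mono hs).trans ((measure_union_le _ _).trans (add_le_add le_rfl ?_))
  refine (measure_union_le _ _).trans (le_of_eq ?_)
  rw [Measure.prod_prod, Measure.prod_prod, measure_univ, mul_one, one_mul, two_mul]

lemma t3_alg {L M x b1 b2 b3 : ℝ} (hL : 0 < L) (hM : 0 ≤ M) (p1 : 0 ≤ b1) (q1 : b1 ≤ 1)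
    (p2 : 0 ≤ b2) (q2 : b2 ≤ 1) (p3 : 0 ≤ b3) (q3 : b3 ≤ 1) (hA : x * (1 - b1) ≤ M * b1)
    (h12 : b1 * b2 ≤ L * ((1 - b1) * (1 - b2))) (h13 : b1 * b3 ≤ L * ((1 - b1) * (1 - b3)))
    (h23 : (1 - b2) * (1 - b3) ≤ L * (b2 * b3)) : x ≤ M * √(L ^ 3) := by
  have hs := Real.sqrt_nonneg (L ^ 3)
  have key : b1 ^ 2 ≤ L ^ 3 * (1 - b1) ^ 2 := by
    rcases (mul_nonneg p2 p3).eq_or_lt with h | h
    · have h4 : (1 - b2) * (1 - b3) = 0 :=
        le_antisymm (by rw [← h] at h23; simpa using h23) (mul_nonneg (by linarith) (by linarith))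
      have h5 : b1 = 0 := by
        rcases mul_eq_zero.1 h4 with h6 | h6
        · rw [h6, show b2 = 1 by linarith] at h12
          linarith
        · rw [h6, show b3 = 1 by linarith] at h13
          linarith
      rw [h5, zero_pow two_ne_zero]; positivity
    · have h4 := mul_le_mul h12 h13 (mul_nonneg p1 p3) ((mul_nonneg p1 p2).trans h12)
      have h5 := mul_le_mul_of_nonneg_left h23 (by positivity : 0 ≤ L ^ 2 * (1 - b1) ^ 2)
      refine le_of_mul_le_mul_right ?_ h
      nlinarith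
  have h6 : b1 ≤ √(L ^ 3) * (1 - b1) := by
    refine (pow_le_pow_iff_left₀ p1 (mul_nonneg hs (by linarith)) two_ne_zero).1 ?_
    rw [mul_pow, Real.sq_sqrt (by positivity)]
    exact key
  have h7 : 0 < 1 - b1 := by
    rcases q1.eq_or_lt with h | h
    · rw [h] at h6; linarith
    · linarith
  refine le_of_mul_le_mul_right (hA.trans ?_) h7
  rw [mul_assoc]
  exact mul_le_mul_of_nonneg_left h6 hM

lemma t3_triple (q : Measure (unitInterval × S)) [IsProbabilityMeasure q] {x : S → ℝ}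
    (hx : Measurable x) {M L : ℝ} (hM : 0 ≤ M) (hL : 0 < L) :
    (q.map Prod.snd) {σ | M * √(L ^ 3) < x σ}
      ≤ q {p | M * (p.1 : ℝ) < x p.2 * (1 - p.1)}
        + 2 * ((q.map Prod.fst).prod (q.map Prod.fst)) (t3R L)
        + ((q.map Prod.fst).prod (q.map Prod.fst)) (t3L L) := by
  set b := q.map Prod.fst with hb
  have : IsProbabilityMeasure b := Measure.isProbabilityMeasure_map measurable_fst.aemeasurable
  have f1 : MeasurePreserving Prod.fst q b := ⟨measurable_fst, rfl⟩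
  have g2 : MeasurePreserving (Prod.map Prod.fst Prod.fst) (q.prod (b.prod b)) (b.prod b) :=
    f1.prod measurePreserving_fst
  have g3 : MeasurePreserving (Prod.map Prod.fst Prod.snd) (q.prod (b.prod b)) (b.prod b) :=
    f1.prod measurePreserving_snd
  have g4 : MeasurePreserving Prod.snd (q.prod (b.prod b)) (b.prod b) := measurePreserving_snd
  set A : Set (unitInterval × S) := {p | M * (p.1 : ℝ) < x p.2 * (1 - p.1)} with hA
  rw [Measure.map_apply measurable_snd (measurableSet_lt measurable_const hx)]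
  have e0 : ∀ T : Set (unitInterval × S), q T = (q.prod (b.prod b)) (T ×ˢ Set.univ) := fun T => by
    rw [Measure.prod_prod, measure_univ, mul_one]
  rw [e0, e0 A, two_mul]
  nth_rewrite 1 [← g2.measure_preimage (t3_mR L).nullMeasurableSet]
  rw [← g3.measure_preimage (t3_mR L).nullMeasurableSet,
    ← g4.measure_preimage (t3_mL L).nullMeasurableSet]
  refine le_trans ?_ (add_le_add (add_le_add le_rfl (measure_union_le _ _)) le_rfl)
  refine le_trans ?_ (add_le_add (measure_union_le _ _) le_rfl)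
  refine le_trans (measure_mono ?_) (measure_union_le _ _)
  rintro ⟨⟨b1, σ⟩, b2, b3⟩ hp
  by_contra hn
  simp only [hA, t3L, t3R, Set.mem_union, Set.mem_preimage, Prod.map, Set.mem_ofPred_eq,
    Set.mem_prod, Set.mem_univ, and_true, not_or, not_lt] at hn hp
  obtain ⟨⟨n1, n2, n3⟩, n4⟩ := hn
  exact absurd hp (not_lt.2 (t3_alg hL hM b1.2.1 b1.2.2 b2.2.1 b2.2.2 b3.2.1 b3.2.2 n1 n2 n3 n4))

lemma t3_sym (G : Finset E) (B : Kernel W unitInterval) [IsMarkovKernel B]
    (h : (P ⊗ₘ B).map (fun x => (neg G x.1, unitInterval.symm x.2)) = P ⊗ₘ B) (L : ℝ) :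
    ∫⁻ w, (B ×ₖ B) w (t3R L) ∂P = ∫⁻ w, (B ×ₖ B) w (t3L L) ∂P := by
  have hn := (continuous_neg' G).measurable
  have hs := unitInterval.measurable_symm
  have hm : Measurable fun x : W × unitInterval => (neg G x.1, unitInterval.symm x.2) :=
    (hn.comp measurable_fst).prodMk (hs.comp measurable_snd)
  set B' := (B.comap (neg G) hn).map unitInterval.symm with hB'
  have : IsMarkovKernel B' := Kernel.IsMarkovKernel.map _ hs
  have e : ∀ w, B' w = (B (neg G w)).map unitInterval.symm := fun w => by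
    rw [hB', Kernel.map_apply _ hs, Kernel.comap_apply]
  have h1 : P ⊗ₘ B' = P ⊗ₘ B := by
    rw [← h]
    ext s hs'
    rw [Measure.map_apply hm hs', Measure.compProd_apply hs', Measure.compProd_apply (hm hs'),
      ← (mp_neg G).lintegral_comp (Kernel.measurable_kernel_prodMk_left (hm hs'))]
    refine lintegral_congr fun w => ?_
    rw [e, Measure.map_apply hs (measurable_prodMk_left hs')]
    congr 1
    ext b
    simp [neg_neg']
  rw [← (mp_neg G).lintegral_comp (Kernel.measurable_coe _ (t3_mR L))]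
  refine lintegral_congr_ae ?_
  filter_upwards [Kernel.ae_eq_of_compProd_eq h1] with w hw
  rw [Kernel.prod_apply, Kernel.prod_apply, ← hw, e, Measure.map_prod_map _ _ hs hs,
    Measure.map_apply (hs.prodMap hs) (t3_mL L)]
  congr 1
  ext b
  simp [t3L, t3R, unitInterval.coe_symm_eq]

theorem tight_abs (κ : Kernel W S) [IsMarkovKernel κ] (G : Finset E) (lam : Measure (W × unitInterval × S))
    [IsProbabilityMeasure lam] (h1 : lam.map (fun x => (x.1, x.2.2)) = P ⊗ₘ κ)
    (h2 : lam.map (fun x => (neg G x.1, unitInterval.symm x.2.1)) = lam.map (fun x => (x.1, x.2.1)))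
    {X : W × S → ℝ} (hX : Measurable X) (h0 : ∀ p, 0 < X p) {c ε : ℝ} (hc : 0 < c) (hε : 0 < ε)
    (h3 : lam.real {x | (1 / ε) * (x.2.1 : ℝ) < X (x.1, x.2.2) * (1 - x.2.1)} ≤ ε)
    (h4 : (M2 κ).real {x | X (x.1, x.2.1) * X (x.1, x.2.2) < c} ≤ ε) :
    (P ⊗ₘ κ).real {p | (1 / ε) * √((1 / ε ^ 2 / c) ^ 3) < X p} ≤ 12 * ε := by
  have hf : lam.fst = P := by
    rw [← Measure.fst_compProd P κ, ← h1, Measure.fst, Measure.fst,
      Measure.map_map measurable_fst (by fun_prop)]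
    rfl
  obtain ⟨Q, hQm, hQ⟩ : ∃ Q : Kernel W (unitInterval × S), IsMarkovKernel Q ∧ P ⊗ₘ Q = lam :=
    ⟨lam.condKernel, inferInstance, by rw [← hf]; exact lam.disintegrate _⟩
  subst hQ
  have : IsMarkovKernel (Q.map Prod.snd) := Kernel.IsMarkovKernel.map _ measurable_snd
  have : IsMarkovKernel (Q.map Prod.fst) := Kernel.IsMarkovKernel.map _ measurable_fst
  have k1 : Q.map Prod.snd =ᵐ[P] κ := by
    refine Kernel.ae_eq_of_compProd_eq ?_
    rw [Measure.compProd_map measurable_snd, ← h1]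
    rfl
  have hn := (continuous_neg' G).measurable
  have hs := unitInterval.measurable_symm
  have hm : Measurable fun x : W × unitInterval => (neg G x.1, unitInterval.symm x.2) :=
    (hn.comp measurable_fst).prodMk (hs.comp measurable_snd)
  have k2 := t3_sym G (Q.map Prod.fst) (by
    rw [Measure.compProd_map measurable_fst, Measure.map_map hm (by fun_prop)]
    exact h2) ((1 / ε) ^ 2 / c)
  have mA : MeasurableSet {x : W × unitInterval × S |
      (1 / ε) * (x.2.1 : ℝ) < X (x.1, x.2.2) * (1 - x.2.1)} :=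
    measurableSet_lt (by fun_prop) (by fun_prop)
  have mH : MeasurableSet {x : W × S × S | X (x.1, x.2.1) * X (x.1, x.2.2) < c} :=
    measurableSet_lt (by fun_prop) (by fun_prop)
  have mT : MeasurableSet {p : W × S | (1 / ε) * √((1 / ε ^ 2 / c) ^ 3) < X p} :=
    measurableSet_lt (by fun_prop) (by fun_prop)
  have h3' := (ENNReal.le_ofReal_iff_toReal_le (measure_ne_top _ _) hε.le).2 h3
  have h4' := (ENNReal.le_ofReal_iff_toReal_le (measure_ne_top _ _) hε.le).2 h4
  rw [Measure.compProd_apply mA] at h3'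
  rw [M2, Measure.compProd_apply mH] at h4'
  have ma := Kernel.measurable_kernel_prodMk_left (κ := Q) mA
  have mh := Kernel.measurable_kernel_prodMk_left (κ := κ ×ₖ κ) mH
  have mr := Kernel.measurable_coe (Q.map Prod.fst ×ₖ Q.map Prod.fst) (t3_mR ((1 / ε) ^ 2 / c))
  have ml := Kernel.measurable_coe (Q.map Prod.fst ×ₖ Q.map Prod.fst) (t3_mL ((1 / ε) ^ 2 / c))
  have hl : ∫⁻ w, (Q.map Prod.fst ×ₖ Q.map Prod.fst) w (t3L ((1 / ε) ^ 2 / c)) ∂P
      ≤ ENNReal.ofReal ε + 2 * ENNReal.ofReal ε := by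
    refine le_trans ?_ (add_le_add h4' (mul_le_mul_right h3' 2))
    rw [← lintegral_const_mul 2 ma, ← lintegral_add_left mh]
    refine lintegral_mono_ae ?_
    filter_upwards [k1] with w hw
    rw [Kernel.prod_apply, Kernel.prod_apply, ← hw, Kernel.map_apply _ measurable_fst,
      Kernel.map_apply _ measurable_snd]
    exact t3_pair (Q w) (x := fun σ => X (w, σ)) (by fun_prop) (fun σ => h0 _) hc
  refine ENNReal.toReal_le_of_le_ofReal (by positivity) ?_
  rw [Measure.compProd_apply mT]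
  have e12 : ENNReal.ofReal ε + 2 * (ENNReal.ofReal ε + 2 * ENNReal.ofReal ε)
      + (ENNReal.ofReal ε + 2 * ENNReal.ofReal ε) ≤ ENNReal.ofReal (12 * ε) := by
    rw [ENNReal.ofReal_mul (by norm_num), ENNReal.ofReal_ofNat]
    calc _ = 10 * ENNReal.ofReal ε := by ring
      _ ≤ _ := by gcongr; norm_num
  refine le_trans ?_ ((add_le_add (add_le_add h3' (mul_le_mul_right (k2.le.trans hl) 2)) hl).trans
    e12)
  rw [← lintegral_const_mul 2 mr, ← lintegral_add_left ma,
    ← lintegral_add_right _ ml]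
  refine lintegral_mono_ae ?_
  filter_upwards [k1] with w hw
  rw [Kernel.prod_apply, ← hw, Kernel.map_apply _ measurable_fst,
    Kernel.map_apply _ measurable_snd, ← one_div_pow]
  exact t3_triple (Q w) (x := fun σ => X (w, σ)) (by fun_prop) (by positivity) (by positivity)

end Pool.Agent.MP_c70b3b_mp.Cg

end

section

open MeasureTheory ProbabilityTheory Filter Topology BoundedContinuousFunction
open scoped symmDiff ENNReal

namespace Pool.Agent.MP_c70b3b_mp.Cg

variable {β : ℝ} {κ : Kernel W S} {π : Kernel (W × S) S} {m : ℕ → ℕ}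

lemma t2_cont (K : W) (G : Finset E) : Continuous (mu K G) :=
  (continuous_const.mul (continuous_en K G)).rexp

lemma t2_liminf {α : Type*} [MeasurableSpace α] (μ : Measure α) [IsFiniteMeasure μ] {B : Set α}
    {A : ℕ → Set α} {ε : ℝ} (hε : 0 ≤ ε) (hA : ∀ j, μ.real (A j) ≤ ε)
    (h : ∀ᵐ x ∂μ, x ∈ B → ∀ᶠ j in atTop, x ∈ A j) : μ.real B ≤ ε := by
  have h1 : μ B ≤ μ (⋃ J, ⋂ j, ⋂ (_ : J ≤ j), A j) := by
    refine measure_mono_ae ?_
    filter_upwards [h] with x hx hB
    obtain ⟨J, hJ⟩ := eventually_atTop.1 (hx hB)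
    exact Set.mem_iUnion.2 ⟨J, Set.mem_iInter₂.2 hJ⟩
  have hm : Monotone fun J : ℕ => ⋂ j, ⋂ (_ : J ≤ j), A j := fun a b hab x hx =>
    Set.mem_iInter₂.2 fun j hj => Set.mem_iInter₂.1 hx j (hab.trans hj)
  rw [hm.measure_iUnion] at h1
  refine ENNReal.toReal_le_of_le_ofReal hε (h1.trans (iSup_le fun J => ?_))
  refine (measure_mono fun x hx => Set.mem_iInter₂.1 hx J le_rfl).trans ?_
  exact (ENNReal.le_ofReal_iff_toReal_le (measure_ne_top _ _) hε).2 (hA J)

theorem Pure.tight (hβ : 0 ≤ β) (h : Pure β κ π m) {c ε : ℝ} (hc : 0 < c) (hε : 0 < ε) :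
    ∃ C : ℝ, ∀ G : Finset E,
      (M2 κ).real {x | (∫ τ, mu (β • x.1) G τ ∂π (x.1, x.2.1)) *
        ∫ τ, mu (β • x.1) G τ ∂π (x.1, x.2.2) < c} ≤ ε →
      (P ⊗ₘ κ).real {p | C < ∫ τ, mu (β • p.1) G τ ∂π p} ≤ 12 * ε := by
  have := h.cov.markov
  have := h.markov
  refine ⟨(1 / ε) * √((1 / ε ^ 2 / c) ^ 3), fun G h4 => ?_⟩
  obtain ⟨lam, hl, h1, h2, h3⟩ := exists_lam hβ h.cov G
  have hf : Measurable fun q : (W × S) × S => mu (β • q.1.1) G q.2 :=
    (((measurable_en2 β G).comp (measurable_fst.fst.prodMk measurable_snd)).const_mul _).exp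
  refine tight_abs κ G lam h1 h2 (X := fun p => ∫ τ, mu (β • p.1) G τ ∂π p)
    (hf.stronglyMeasurable.integral_kernel_prod_right' (κ := π)).measurable (fun p => ?_) hc hε
    ?_ h4
  · obtain ⟨C, hC⟩ := exists_bound (t2_cont (β • p.1) G)
    exact integral_exp_pos (Integrable.of_bound (t2_cont (β • p.1) G).aestronglyMeasurable C
      (Eventually.of_forall hC))
  · have ha : ∀ᵐ x ∂lam, (x.1, x.2.2) ∈ Om β m := by
      have := h.ae
      rw [← h1] at this
      exact ae_of_ae_map (measurable_fst.prodMk measurable_snd.snd).aemeasurable this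
    refine t2_liminf lam (A := fun j => {x | (1 / ε) * (x.2.1 : ℝ) <
      gam (β • x.1) (box (m j)) (mu (β • x.1) G) x.2.2 * (1 - x.2.1)}) hε.le
      (fun j => (h3 (m j) (1 / ε) (by positivity)).trans_eq (one_div_one_div ε)) ?_
    filter_upwards [ha] with x hx hB
    exact ((h.lim _ hx _ (t2_cont (β • x.1) G)).mul_const _).eventually (lt_mem_nhds hB)

end Pool.Agent.MP_c70b3b_mp.Cg

end

section

open MeasureTheory ProbabilityTheory Filter Topology BoundedContinuousFunction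
open scoped symmDiff ENNReal

namespace Pool.Agent.MP_c70b3b_mp.Cg

variable {β : ℝ} {κ : Kernel W S} {π : Kernel (W × S) S} {m : ℕ → ℕ}

lemma g3_ext (A : Finset E) {f : W → ℝ} (hf : Measurable f) (hd : DependsOn f (A : Set E)) :
    ∃ f' : (A → ℝ) → ℝ, Measurable f' ∧ f = f' ∘ fun w (i : A) => w i := by
  refine ⟨fun u => f fun e => if h : e ∈ A then u ⟨e, h⟩ else 0, hf.comp ?_, ?_⟩
  · refine measurable_pi_lambda _ fun e => ?_
    split_ifs
    · exact measurable_pi_apply _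
    · exact measurable_const
  · funext w
    exact hd fun e he => by simp [Finset.mem_coe.1 he]

lemma g3_indep {A A' : Finset E} (h : Disjoint A A') {f g : W → ℝ} (hf : Measurable f)
    (hg : Measurable g) (hd : DependsOn f (A : Set E)) (hd' : DependsOn g (A' : Set E)) :
    ∫ w, f w * g w ∂P = (∫ w, f w ∂P) * ∫ w, g w ∂P := by
  have h1 : IndepFun f g P := by
    obtain ⟨f', m1, rfl⟩ := g3_ext A hf hd
    obtain ⟨g', m2, rfl⟩ := g3_ext A' hg hd'
    exact (iIndep_P.indepFun_finset A A' h fun i => measurable_pi_apply i).comp m1 m2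
  exact h1.integral_fun_mul_eq_mul_integral hf.aestronglyMeasurable hg.aestronglyMeasurable

lemma g3_var {Y : V → W → ℝ} (hY : ∀ z, Measurable (Y z)) (hb : ∀ z w, |Y z w| ≤ 4)
    (D : Finset V) (h0 : ∀ z z', z - z' ∉ D → ∫ w, Y z w * Y z' w ∂P = 0) (L : Finset V) :
    Integrable (fun w => (∑ z ∈ L, Y z w) ^ 2) P ∧
      ∫ w, (∑ z ∈ L, Y z w) ^ 2 ∂P ≤ 16 * D.card * L.card := by
  have hb2 : ∀ z z' w, |Y z w * Y z' w| ≤ 16 := fun z z' w => by
    rw [abs_mul]
    exact (mul_le_mul (hb z w) (hb z' w) (abs_nonneg _) (by norm_num)).trans (by norm_num)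
  have hi : ∀ z z', Integrable (fun w => Y z w * Y z' w) P := fun z z' =>
    Integrable.of_bound ((hY z).mul (hY z')).aestronglyMeasurable 16
      (Eventually.of_forall fun w => hb2 z z' w)
  have e : (fun w => (∑ z ∈ L, Y z w) ^ 2) = fun w => ∑ z ∈ L, ∑ z' ∈ L, Y z w * Y z' w := by
    funext w
    rw [sq, Finset.sum_mul_sum]
  rw [e]
  refine ⟨integrable_finsetSum _ fun z _ => integrable_finsetSum _ fun z' _ => hi z z', ?_⟩
  rw [integral_finsetSum _ fun z _ => integrable_finsetSum _ fun z' _ => hi z z', mul_comm,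
    ← nsmul_eq_mul]
  refine Finset.sum_le_card_nsmul _ _ _ fun z _ => ?_
  rw [integral_finsetSum _ fun z' _ => hi z z',
    ← Finset.sum_filter_of_ne (p := fun z' => z - z' ∈ D) fun z' _ h => by
      by_contra h1
      exact h (h0 z z' h1)]
  refine (Finset.sum_le_card_nsmul _ _ 16 fun z' _ => ?_).trans ?_
  · have := integral_mono (hi z z') (integrable_const 16) fun w => (le_abs_self _).trans (hb2 z z' w)
    simpa using this
  · rw [nsmul_eq_mul, mul_comm]
    refine mul_le_mul_of_nonneg_left (Nat.cast_le.2 ?_) (by norm_num)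
    exact Finset.card_le_card_of_injOn (fun z' => z - z')
      (fun z' h => (Finset.mem_filter.1 (Finset.mem_coe.1 h)).2) sub_right_injective.injOn

lemma g3_ae {A : ℕ → W → ℝ} (hA : ∀ n, Measurable (A n))
    (hi : ∀ n, Integrable (fun w => A n w ^ 2) P) {c : ℕ → ℝ} (hc : Summable c)
    (h : ∀ n, ∫ w, A n w ^ 2 ∂P ≤ c n) : ∀ᵐ w ∂P, Tendsto (fun n => A n w) atTop (𝓝 0) := by
  have hm : ∀ n, Measurable fun w => ENNReal.ofReal (A n w ^ 2) := fun n =>
    ((hA n).pow_const 2).ennreal_ofReal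
  have h1 : ∫⁻ w, ∑' n, ENNReal.ofReal (A n w ^ 2) ∂P ≠ ⊤ := by
    rw [lintegral_tsum fun n => (hm n).aemeasurable]
    refine ne_top_of_le_ne_top hc.tsum_ofReal_ne_top (ENNReal.tsum_le_tsum fun n => ?_)
    rw [← ofReal_integral_eq_lintegral_ofReal (hi n) (Eventually.of_forall fun w => sq_nonneg _)]
    exact ENNReal.ofReal_le_ofReal (h n)
  filter_upwards [ae_lt_top (Measurable.tsum hm) h1] with w hw
  have h2 := (ENNReal.tendsto_toReal ENNReal.zero_ne_top).comp
    (ENNReal.tendsto_atTop_zero_of_tsum_ne_top hw.ne)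
  have h3 : Tendsto (fun n => A n w ^ 2) atTop (𝓝 0) :=
    h2.congr fun n => ENNReal.toReal_ofReal (sq_nonneg _)
  have h4 := h3.sqrt
  simp only [Real.sqrt_sq_eq_abs, Real.sqrt_zero] at h4
  exact tendsto_zero_iff_abs_tendsto_zero _ |>.2 h4

theorem slln {H : W → ℝ} (hH : Measurable H) (B : Finset E) (hd : DependsOn H (B : Set E))
    (hb : ∀ w, |H w| ≤ 2) : ∀ᵐ w ∂P, Tendsto (fun n : ℕ =>
      (∑ z ∈ box n, H (shW z w)) / (box n).card) atTop (𝓝 (∫ w, H w ∂P)) := by
  obtain ⟨a, ha⟩ : ∃ a, a = ∫ w, H w ∂P := ⟨_, rfl⟩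
  have hiH : Integrable H P :=
    Integrable.of_bound hH.aestronglyMeasurable 2 (Eventually.of_forall hb)
  have ha2 : |a| ≤ 2 := by
    have := norm_integral_le_of_norm_le_const (μ := P) (f := H) (C := 2) (Eventually.of_forall hb)
    rw [ha]
    simpa using this
  obtain ⟨Y, hY⟩ : ∃ Y : V → W → ℝ, Y = fun z w => H (shW z w) - a := ⟨_, rfl⟩
  have m0 : Measurable fun w => H w - a := hH.sub_const a
  have m1 : ∀ z, Measurable (Y z) := fun z => by
    rw [hY]
    exact m0.comp (mp_shW z).measurable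
  have b1 : ∀ z w, |Y z w| ≤ 4 := fun z w => by
    rw [hY]
    exact (abs_sub _ _).trans (by linarith [hb (shW z w)])
  have i0 : ∀ z, ∫ w, Y z w ∂P = 0 := fun z => by
    have e := integral_map (μ := P) (mp_shW z).measurable.aemeasurable
      (f := fun w => H w - a) m0.aestronglyMeasurable
    rw [(mp_shW z).map_eq, integral_sub hiH (integrable_const a), ← ha] at e
    rw [hY]
    simpa using e.symm
  have d1 : ∀ z, DependsOn (Y z) (B.image (shE z) : Finset E) := fun z w w' h => by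
    rw [hY]
    exact congrArg (· - a) (hd fun e he => h _ (Finset.mem_coe.2 (Finset.mem_image_of_mem _ he)))
  obtain ⟨D, hD⟩ : ∃ D : Finset V, D = (B ×ˢ B).image fun p => p.2.1 - p.1.1 := ⟨_, rfl⟩
  have v := g3_var m1 b1 D fun z z' h => by
    rw [g3_indep ?_ (m1 z) (m1 z') (d1 z) (d1 z'), i0, zero_mul]
    refine Finset.disjoint_left.2 fun e h1 h2 => h ?_
    obtain ⟨e1, p1, rfl⟩ := Finset.mem_image.1 h1
    obtain ⟨e2, p2, q⟩ := Finset.mem_image.1 h2
    have q1 : e2.1 + z' = e1.1 + z := congrArg Prod.fst q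
    rw [hD]
    exact Finset.mem_image.2 ⟨(e1, e2), Finset.mem_product.2 ⟨p1, p2⟩, by
      simp only
      linear_combination q1⟩
  have hs : Summable fun n : ℕ => 4 * (D.card : ℝ) * (1 / (n : ℝ) ^ 2) :=
    (Real.summable_one_div_nat_pow.2 (by norm_num)).mul_left _
  have key := g3_ae (A := fun n w => (∑ z ∈ box n, Y z w) / (box n).card)
    (fun n => (Finset.measurable_sum _ fun z _ => m1 z).div_const _)
    (fun n => by simpa only [div_pow] using (v (box n)).1.div_const _) hs fun n => by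
      simp only [div_pow]
      rw [integral_div]
      refine (div_le_div_of_nonneg_right (v (box n)).2 (sq_nonneg _)).trans (le_of_eq ?_)
      rw [avg_card_box]
      rcases Nat.eq_zero_or_pos n with rfl | hn
      · simp
      · push_cast
        field_simp
        ring
  filter_upwards [key] with w hw
  have := hw.add_const a
  rw [zero_add] at this
  rw [← ha]
  refine this.congr' ?_
  filter_upwards [eventually_ge_atTop 1] with n hn
  have hc : ((box n).card : ℝ) ≠ 0 := by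
    rw [avg_card_box]
    positivity
  rw [hY]
  simp only [Finset.sum_sub_distrib, Finset.sum_const, nsmul_eq_mul]
  field_simp
  ring

end Pool.Agent.MP_c70b3b_mp.Cg

end

section

open MeasureTheory ProbabilityTheory Filter Topology BoundedContinuousFunction
open scoped symmDiff ENNReal

namespace Pool.Agent.MP_c70b3b_mp.Cg

variable {β : ℝ} {κ : Kernel W S} {π : Kernel (W × S) S} {m : ℕ → ℕ}

lemma g4_sel {ι X : Type} [MeasurableSpace X] (I : Finset ι) (q : ι → X) (f : X → W → ℝ) (x0 : X)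
    (hf : ∀ t : W → X, Measurable t → Measurable fun w => f (t w) w) :
    ∃ t : W → X, Measurable t ∧ ∀ w, ∀ i ∈ I, f (q i) w ≤ f (t w) w := by
  classical
  induction I using Finset.induction_on with
  | empty => exact ⟨fun _ => x0, measurable_const, fun _ i hi => absurd hi (by simp)⟩
  | insert a I _ ih =>
    obtain ⟨t, ht, h⟩ := ih
    refine ⟨fun w => if f (t w) w ≤ f (q a) w then q a else t w, Measurable.ite
      (measurableSet_le (hf t ht) (hf _ measurable_const)) measurable_const ht, fun w i hi => ?_⟩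
    by_cases hc : f (t w) w ≤ f (q a) w
    · simp only [if_pos hc]
      rcases Finset.mem_insert.1 hi with rfl | hi
      · exact le_rfl
      · exact (h w i hi).trans hc
    · simp only [if_neg hc]
      rcases Finset.mem_insert.1 hi with rfl | hi
      · exact (not_le.1 hc).le
      · exact h w i hi

lemma g4_loc (K : W) {L B T : Finset V} (hL : ∀ e ∈ touch L, e.1 ∈ T ∧ tip e ∈ T) (hB : B ⊆ T)
    {s s' : S} (h : ∀ x ∈ T, s x = s' x) : gam K L (chr B) s = gam K L (chr B) s' := by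
  have h0 : ∀ U : Finset V, ∀ x ∈ T, flp U s x = flp U s' x := fun U x hx => by
    simp only [flp, h x hx]
  have h1 : ∀ U : Finset V, en K (touch L) (flp U s) = en K (touch L) (flp U s') := fun U =>
    Finset.sum_congr rfl fun e he => by rw [bond, bond, h0 U _ (hL e he).1, h0 U _ (hL e he).2]
  have h2 : ∀ U : Finset V, chr B (flp U s) = chr B (flp U s') := fun U =>
    Finset.prod_congr rfl fun x hx => by rw [h0 U x (hB hx)]
  simp only [gam, gZ, h1, h2]

lemma g4_osc {ι : Type} (K : W) (L : Finset V) (I : Finset ι) (φ : ι → S → ℝ) {M : ℝ}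
    (h : ∀ τ τ', ∑ y ∈ I, |φ y τ - φ y τ'| ≤ M) (s s' : S) :
    ∑ y ∈ I, |gam K L (φ y) s - gam K L (φ y) s'| ≤ M := by
  have k : ∀ y, |gam K L (φ y) s - gam K L (φ y) s'| ≤
      gam K L (fun τ => gam K L (fun τ' => |φ y τ - φ y τ'|) s') s := fun y => by
    have e : gam K L (φ y) s - gam K L (φ y) s' =
        gam K L (fun τ => gam K L (fun τ' => φ y τ - φ y τ') s') s := by
      simp only [gam_sub, gam_const]
    rw [e]
    exact (abs_gam_le _ _ _ _).trans (gam_mono fun _ _ => abs_gam_le _ _ _ _)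
  refine (Finset.sum_le_sum fun y _ => k y).trans ?_
  rw [← gam_sum, ← gam_const K L M s]
  refine gam_mono fun U _ => ?_
  rw [← gam_sum, ← gam_const K L M s']
  exact gam_mono fun _ _ => h _ _

lemma g4_two (K : W) (L B : Finset V) (s s' : S) :
    |gam K L (chr B) s - gam K L (chr B) s'| ≤ 2 := by
  have h := fun σ => abs_le.1 (gam_abs_le (K := K) (L := L) (fun τ => (abs_chr B τ).le) σ)
  rw [abs_le]
  constructor <;> linarith [h s, h s', (h s).1, (h s).2, (h s').1, (h s').2]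

/-- The total oscillation in a box for two boundary conditions. -/
noncomputable def g4h (β : ℝ) (A : Finset V) (r : ℕ) (p : S × S) (w : W) : ℝ :=
  ∑ y ∈ box r, |gam (β • w) (box r) (chr (tr A y)) p.1 - gam (β • w) (box r) (chr (tr A y)) p.2|

lemma g4_meas (β : ℝ) (L B : Finset V) {s s' : W → S} (hs : Measurable s) (hs' : Measurable s') :
    Measurable fun w => |gam (β • w) L (chr B) (s w) - gam (β • w) L (chr B) (s' w)| := by
  have h := measurable_gam β L (g := fun p => chr B p.2) ((measurable_chr B).comp measurable_snd)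
  exact ((h.comp (measurable_id.prodMk hs)).sub (h.comp (measurable_id.prodMk hs'))).abs

lemma g4_measH (β : ℝ) (A : Finset V) (r : ℕ) (t : W → S × S) (ht : Measurable t) :
    Measurable fun w => g4h β A r (t w) w :=
  Finset.measurable_sum _ fun _ _ => g4_meas β _ _ ht.fst ht.snd

lemma g4_max (β : ℝ) (A : Finset V) (r : ℕ) :
    ∃ t : W → S × S, Measurable t ∧ ∀ w p, g4h β A r p w ≤ g4h β A r (t w) w := by
  classical
  obtain ⟨T, h1, h2⟩ : ∃ T : Finset V, (∀ e ∈ touch (box r), e.1 ∈ T ∧ tip e ∈ T) ∧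
      ∀ y ∈ box r, tr A y ⊆ T := by
    refine ⟨(touch (box r)).image Prod.fst ∪ (touch (box r)).image tip ∪ (box r).biUnion (tr A),
      fun e he => ⟨?_, ?_⟩, fun y hy x hx => ?_⟩
    · exact Finset.mem_union_left _ (Finset.mem_union_left _ (Finset.mem_image_of_mem _ he))
    · exact Finset.mem_union_left _ (Finset.mem_union_right _ (Finset.mem_image_of_mem _ he))
    · exact Finset.mem_union_right _ (Finset.mem_biUnion.2 ⟨y, hy, hx⟩)
  obtain ⟨t, ht, h⟩ := g4_sel Finset.univ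
    (fun η : (T → ℤˣ) × (T → ℤˣ) => ((glue T η.1 1, glue T η.2 1) : S × S)) (g4h β A r) (1, 1)
    (g4_measH β A r)
  refine ⟨t, ht, fun w p => le_trans (le_of_eq ?_)
    (h w (fun x => p.1 x, fun x => p.2 x) (Finset.mem_univ _))⟩
  have k : ∀ σ : S, ∀ x ∈ T, σ x = glue T (fun x => σ x) 1 x := fun σ x hx => by
    rw [glue, dif_pos hx]
  exact Finset.sum_congr rfl fun y hy => by
    rw [g4_loc _ h1 (h2 y hy) (k p.1), g4_loc _ h1 (h2 y hy) (k p.2)]

lemma g4_tr (A : Finset V) (y z : V) : tr (tr A y) z = tr A (z + y) := by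
  ext x
  rw [mem_tr, mem_tr, mem_tr, sub_sub]

lemma g4_sub {a r : ℕ} {y z : V} (hz : z ∈ box a) (hy : y ∈ box r) : z + y ∈ box (a + r) := by
  rw [mem_box] at hz hy ⊢
  simp only [Prod.fst_add, Prod.snd_add]
  omega

lemma g4_blk (β : ℝ) (A : Finset V) {a r : ℕ} (w : W) {z : V} (hz : z ∈ box a) {M : ℝ}
    (h : ∀ p, g4h β A r p (shW z w) ≤ M) (s s' : S) :
    ∑ y ∈ box r, |gam (β • w) (box (a + r)) (chr (tr A (z + y))) s -
      gam (β • w) (box (a + r)) (chr (tr A (z + y))) s'| ≤ M := by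
  have hs : tr (box r) z ⊆ box (a + r) := fun x hx => by
    have := g4_sub hz (mem_tr.1 hx)
    rwa [add_sub_cancel] at this
  have e : ∀ y τ, gam (β • w) (tr (box r) z) (chr (tr A (z + y))) τ =
      gam (β • shW z w) (box r) (chr (tr A y)) (shS z τ) := fun y τ => by
    rw [gam_shift]
    simp only [chr_shS, g4_tr]
  refine le_trans (le_of_eq ?_) (g4_osc (β • w) (box (a + r)) (box r)
    (fun y => gam (β • w) (tr (box r) z) (chr (tr A (z + y)))) (fun τ τ' => ?_) s s')
  · simp only [gam_cons _ hs]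
  · simp only [e]
    exact h (shS z τ, shS z τ')

lemma g4_cnt (a r : ℕ) (hr : 0 < r) (D H : V → ℝ) (hD : ∀ x, D x ≤ 2) (hH : ∀ z, 0 ≤ H z)
    (h : ∀ z ∈ box a, ∑ y ∈ box r, D (z + y) ≤ H z * (box r).card) :
    ∑ x ∈ box (a + r), D x ≤ ∑ z ∈ box (a + r), H z + 16 * r * (a + r : ℕ) := by
  have hc : (0 : ℝ) < (box r).card := by
    rw [avg_card_box]
    positivity
  have k : ∀ y ∈ box r, ∑ x ∈ box (a + r), D x ≤
      ∑ z ∈ box a, D (z + y) + 16 * r * (a + r : ℕ) := fun y hy => by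
    have hs : tr (box a) y ⊆ box (a + r) := fun x hx => by
      have := g4_sub (mem_tr.1 hx) hy
      rwa [sub_add_cancel] at this
    have e : ∑ x ∈ tr (box a) y, D x = ∑ z ∈ box a, D (z + y) :=
      Finset.sum_image fun _ _ _ _ e => add_right_cancel e
    have b := Finset.sum_le_card_nsmul (box (a + r) \ tr (box a) y) D 2 fun x _ => hD x
    have c := Finset.card_sdiff_add_card_eq_card hs
    rw [card_tr, avg_card_box, avg_card_box] at c
    have c' : ((box (a + r) \ tr (box a) y).card : ℝ) + 4 * (a : ℝ) ^ 2 = 4 * ((a : ℝ) + r) ^ 2 := by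
      exact_mod_cast c
    rw [← Finset.sum_sdiff hs, e, nsmul_eq_mul] at *
    push_cast
    nlinarith [sq_nonneg (r : ℝ)]
  have k2 := Finset.card_nsmul_le_sum _ _ _ k
  rw [Finset.sum_add_distrib, Finset.sum_comm, Finset.sum_const, nsmul_eq_mul, nsmul_eq_mul] at k2
  have k3 := Finset.sum_le_sum h
  have k4 : ∑ z ∈ box a, H z ≤ ∑ z ∈ box (a + r), H z :=
    Finset.sum_le_sum_of_subset_of_nonneg (box_mono (Nat.le_add_right a r)) fun z _ _ => hH z
  rw [← Finset.sum_mul] at k3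
  refine le_of_mul_le_mul_left ?_ hc
  nlinarith [mul_le_mul_of_nonneg_right k4 hc.le]

theorem as_lim (β : ℝ) (A : Finset V)
    (hA : ∀ s s' : ℕ → W → S, (∀ n, Measurable (s n)) → (∀ n, Measurable (s' n)) →
      Tendsto (fun n : ℕ => (∑ z ∈ box n, ∫ w, |gam (β • w) (box n) (chr (tr A z)) (s n w) -
        gam (β • w) (box n) (chr (tr A z)) (s' n w)| ∂P) / (box n).card) atTop (𝓝 0)) :
    ∀ᵐ w ∂P, ∀ ε > (0 : ℝ), ∀ᶠ n : ℕ in atTop, ∀ s s' : S,
      ∑ z ∈ box n, |gam (β • w) (box n) (chr (tr A z)) s - gam (β • w) (box n) (chr (tr A z)) s'| ≤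
        ε * (box n).card := by
  choose t ht hm using g4_max β A
  have h0 : ∀ r p w, 0 ≤ g4h β A r p w := fun r p w => Finset.sum_nonneg fun _ _ => abs_nonneg _
  have hd : ∀ r p (w w' : W), (∀ e ∈ touch (box r), w e = w' e) →
      g4h β A r p w = g4h β A r p w' := fun r p w w' h => by
    have e : ∀ g σ, gam (β • w) (box r) g σ = gam (β • w') (box r) g σ :=
      gam_dep fun e he => by rw [Pi.smul_apply, Pi.smul_apply, h e he]
    simp only [g4h, e]
  have hS : ∀ r, ∀ᵐ w ∂P, Tendsto (fun n : ℕ => (∑ z ∈ box n,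
      g4h β A r (t r (shW z w)) (shW z w) / (box r).card) / (box n).card) atTop
      (𝓝 (∫ w, g4h β A r (t r w) w / (box r).card ∂P)) := fun r => by
    refine slln (H := fun w => g4h β A r (t r w) w / (box r).card)
      ((g4_measH β A r _ (ht r)).div_const _) (touch (box r)) (fun w w' h => ?_) fun w => ?_
    · refine congrArg (· / _) (le_antisymm ?_ ?_)
      · exact (hd r _ w w' h).trans_le (hm r w' _)
      · exact (hd r _ w w' h).symm.trans_le (hm r w _)
    · rw [abs_of_nonneg (div_nonneg (h0 _ _ _) (Nat.cast_nonneg _))]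
      refine div_le_of_le_mul₀ (Nat.cast_nonneg _) zero_le_two ?_
      refine (Finset.sum_le_card_nsmul _ _ 2 fun _ _ => g4_two _ _ _ _ _).trans (le_of_eq ?_)
      rw [nsmul_eq_mul, mul_comm]
  have hI : Tendsto (fun r => ∫ w, g4h β A r (t r w) w / (box r).card ∂P) atTop (𝓝 0) := by
    refine (hA (fun n w => (t n w).1) (fun n w => (t n w).2) (fun n => (ht n).fst)
      fun n => (ht n).snd).congr fun r => ?_
    rw [integral_div]
    refine congrArg (· / _) (integral_finsetSum _ fun y _ => ?_).symm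
    exact integrable_of_bdd (g4_meas β _ _ (ht r).fst (ht r).snd) 2 fun w => by
      rw [abs_abs]
      exact g4_two _ _ _ _ _
  filter_upwards [ae_all_iff.2 hS] with w hw ε hε
  obtain ⟨r, h1, hr⟩ := ((hI.eventually_lt_const (half_pos hε)).and (eventually_gt_atTop 0)).exists
  have hc : (0 : ℝ) < (box r).card := by
    rw [avg_card_box]
    positivity
  filter_upwards [(hw r).eventually_lt_const h1, eventually_ge_atTop r,
    (tendsto_natCast_atTop_atTop.const_mul_atTop hε).eventually_ge_atTop (8 * (r : ℝ))]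
    with n h2 h3 h4 s s'
  obtain ⟨a, rfl⟩ := Nat.exists_eq_add_of_le' h3
  have h5 := g4_cnt a r hr (fun x => |gam (β • w) (box (a + r)) (chr (tr A x)) s -
      gam (β • w) (box (a + r)) (chr (tr A x)) s'|)
    (fun z => g4h β A r (t r (shW z w)) (shW z w) / (box r).card) (fun _ => g4_two _ _ _ _ _)
    (fun z => div_nonneg (h0 _ _ _) hc.le) fun z hz => by
      rw [div_mul_cancel₀ _ hc.ne']
      exact g4_blk β A w hz (hm r _) s s'
  have hn : (0 : ℝ) < (a + r : ℕ) := by positivity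
  have e : ((box (a + r)).card : ℝ) = 4 * ((a + r : ℕ) : ℝ) ^ 2 := by
    rw [avg_card_box]
    push_cast
    rfl
  rw [div_lt_iff₀ (by rw [e]; positivity)] at h2
  refine h5.trans ?_
  rw [e] at h2 ⊢
  nlinarith [mul_le_mul_of_nonneg_right h4 hn.le]

end Pool.Agent.MP_c70b3b_mp.Cg

end
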