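import Pool.Agent.Mg.Fc70b3ba.Gd0fa04
import Pool.Agent.Mg.Fc70b3ba.G8a09af
import Pool.Agent.Mg.Fc70b3ba.G4e0d99
import Pool.Agent.Mg.Fc70b3ba.Ga22b5e
import Pool.Agent.Mg.Fc70b3ba.G2a6580
import Pool.Agent.MP_c70b3b_mp.Cg.Stmt

section

open MeasureTheory ProbabilityTheory Filter Topology BoundedContinuousFunction
open scoped symmDiff ENNReal

namespace Pool.Agent.MP_c70b3b_mp.Cg

variable {β : ℝ} {κ : Kernel W S} {π : Kernel (W × S) S} {m : ℕ → ℕ}

lemma h2_meas (β : ℝ) (π : Kernel (W × S) S) [IsMarkovKernel π] (z : V) (a b : Ix) :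
    Measurable fun p : W × S => rA (β • p.1) (π p) z a b := by
  have hf : Measurable fun q : (W × S) × S => rO (β • q.1.1) z a b q.2 :=
    (((measurable_sp _).comp measurable_snd).mul ((measurable_sp _).comp measurable_snd)).mul
      (Real.measurable_exp.comp (((measurable_en2 β _).comp
        (measurable_fst.fst.prodMk measurable_snd)).const_mul _))
  exact (hf.stronglyMeasurable.integral_kernel_prod_right' (κ := π)).measurable.const_mul _

/-- The difference of the row bilinears of two pure parts. -/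
noncomputable def h2w (β : ℝ) (π : Kernel (W × S) S) (z : V) (a b : Ix) (x : W × S × S) : ℝ :=
  rA (β • x.1) (π (x.1, x.2.1)) z a b - rA (β • x.1) (π (x.1, x.2.2)) z a b

/-- The row bilinears nearly agree up to size `n`. -/
def h2B (β : ℝ) (π : Kernel (W × S) S) (n : ℕ) : Set (W × S × S) :=
  {x | ∀ k ≤ n, ∀ a b : Ix, a.1 < 2 * k → b.1 < 2 * k →
    |h2w β π (-(k : ℤ), 0) a b x| < 1 / ((n : ℝ) + 1)}

lemma h2_measB (β : ℝ) (π : Kernel (W × S) S) [IsMarkovKernel π] (n : ℕ) :
    MeasurableSet (h2B β π n) := by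
  have h1 : ∀ z a b, Measurable (h2w β π z a b) := fun z a b =>
    ((h2_meas β π z a b).comp (measurable_fst.prodMk measurable_snd.fst)).sub
      ((h2_meas β π z a b).comp (measurable_fst.prodMk measurable_snd.snd))
  exact measurableSet_setOfPred.2 (Measurable.forall fun k => measurable_const.imp
    (Measurable.forall fun a => Measurable.forall fun b => measurable_const.imp
      (measurable_const.imp (measurableSet_setOfPred.1
        (measurableSet_lt (h1 _ a b).abs measurable_const)))))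

lemma h2_anti (β : ℝ) (π : Kernel (W × S) S) : Antitone (h2B β π) :=
  fun _ _ hn _ hx k hk a b ha hb => (hx k (hk.trans hn) a b ha hb).trans_le
    (Nat.one_div_le_one_div hn)

lemma h2_null (hβ : 0 < β) (h : Pure β κ π m)
    (hn : ∀ᵐ x ∂M2 κ, ¬ Eqv β π m x.1 x.2.1 x.2.2) : M2 κ (⋂ n, h2B β π n) = 0 := by
  have := h.cov.markov
  have := h.markov
  have h0 : ∀ᵐ p ∂(P ⊗ₘ κ), ∀ e, β * p.1 e ≠ 0 :=
    ae_of_ae_map (f := Prod.fst) (p := fun w : W => ∀ e, β * w e ≠ 0) measurable_fst.aemeasurable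
      (by
        rw [show (P ⊗ₘ κ).map Prod.fst = P from Measure.fst_compProd P κ]
        exact tower_ne hβ.ne')
  have q1 := (mp21 κ).quasiMeasurePreserving
  have q2 := (mp22 κ).quasiMeasurePreserving
  rw [measure_eq_zero_iff_ae_notMem]
  filter_upwards [hn, q1.ae h0, q1.ae h.ae, q2.ae h.ae, q1.ae h.uniq1, h.uniq2]
    with x hx hne o1 o2 u1 u2 hB
  refine hx ⟨o1, o2, even_eq (h.gibbs o1) (h.gibbs o2)
    (row_prop hne (h.gibbs o1) (h.gibbs o2) fun k a b ha hb => ?_) u1 u2⟩
  by_contra h1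
  obtain ⟨n, h2⟩ := exists_nat_one_div_lt (abs_pos.2 (sub_ne_zero.2 h1))
  exact absurd ((Set.mem_iInter.1 hB (max k n) k (le_max_left _ _) a b ha hb).trans_le
    (Nat.one_div_le_one_div (le_max_right k n))) (not_lt.2 h2.le)

theorem Pure.h2 (hβ : 0 < β) (h : Pure β κ π m) (hn : ∀ᵐ x ∂M2 κ, ¬ Eqv β π m x.1 x.2.1 x.2.2)
    {ε : ℝ} (hε : 0 < ε) : ∃ δ > (0 : ℝ), ∀ᶠ r in atTop, ∀ y,
      (M2 κ).real {x | ∀ a b, Win y r a → Win y r b →
        |rA (β • x.1) (π (x.1, x.2.1)) 0 a b - rA (β • x.1) (π (x.1, x.2.2)) 0 a b| < δ} ≤ ε := by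
  have := h.cov.markov
  have := h.markov
  have ht := tendsto_measure_iInter_atTop (μ := M2 κ)
    (fun n => (h2_measB β π n).nullMeasurableSet) (h2_anti β π) ⟨0, measure_ne_top _ _⟩
  rw [h2_null hβ h hn] at ht
  obtain ⟨n, hB⟩ := (ht.eventually (gt_mem_nhds (ENNReal.ofReal_pos.2 hε))).exists
  refine ⟨1 / ((n : ℝ) + 1), Nat.one_div_pos_of_nat, ?_⟩
  filter_upwards [eventually_ge_atTop (2 * n)] with r hr y
  refine ENNReal.toReal_le_of_le_ofReal hε.le (le_trans ?_ hB.le)
  have hz := mp2_shift h.cov (((y + n : ℕ) : ℤ), 0)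
  refine le_trans (measure_mono_ae ?_)
    (hz.measure_preimage (h2_measB β π n).nullMeasurableSet).le
  filter_upwards [(mp21 κ).quasiMeasurePreserving.ae (h.shift (((y + n : ℕ) : ℤ), 0)),
    (mp22 κ).quasiMeasurePreserving.ae (h.shift (((y + n : ℕ) : ℤ), 0))]
    with x s1 s2 hx k hk a b ha hb
  have e : ∀ μ : Measure S, rA (β • shW (((y + n : ℕ) : ℤ), 0) x.1)
      (μ.map (shS (((y + n : ℕ) : ℤ), 0))) (-(k : ℤ), 0) a b =
      rA (β • x.1) μ 0 (a.1 + (y + n - k), a.2) (b.1 + (y + n - k), b.2) := by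
    intro μ
    have e1 : ((-(k : ℤ), 0) : V) + (((y + n : ℕ) : ℤ), 0) = rV 0 (y + n - k) :=
      Prod.ext (by simp only [rV, Prod.fst_add, Prod.fst_zero]; omega) (by simp [rV])
    rw [rA_add, ← e1]
    exact rA_shift (β • x.1) μ _ _ a b
  rw [shift_eq] at s1 s2
  simp only [h2w]
  rw [s1, s2, e, e]
  exact hx _ _ ⟨by simp only; omega, by simp only; omega⟩
    ⟨by simp only; omega, by simp only; omega⟩

end Pool.Agent.MP_c70b3b_mp.Cg

end

section

open MeasureTheory ProbabilityTheory Filter Topology BoundedContinuousFunction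
open scoped symmDiff ENNReal

namespace Pool.Agent.MP_c70b3b_mp.Cg

variable {β : ℝ} {κ : Kernel W S} {π : Kernel (W × S) S} {m : ℕ → ℕ}

lemma h4_cmp (K : W) {I J D : Finset ℕ} (h1 : I ⊆ J) (h2 : J ⊆ I ∪ D) (σ : S) :
    mu K (rE 0 J) σ ≤ Real.exp (2 * ∑ e ∈ rE 0 D, |K e|) * mu K (rE 0 I) σ := by
  have s1 : rE 0 I ⊆ rE 0 J := Finset.image_subset_image h1
  have s2 : rE 0 J \ rE 0 I ⊆ rE 0 D := by
    intro e he
    obtain ⟨hJ, hI⟩ := Finset.mem_sdiff.1 he
    obtain ⟨k, hk, rfl⟩ := Finset.mem_image.1 hJ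
    rcases Finset.mem_union.1 (h2 hk) with h | h
    · exact absurd (Finset.mem_image_of_mem _ h) hI
    · exact Finset.mem_image_of_mem _ h
  have e1 : en K (rE 0 J \ rE 0 I) σ + en K (rE 0 I) σ = en K (rE 0 J) σ := Finset.sum_sdiff s1
  have b1 := abs_le.1 ((abs_en_le K (rE 0 J \ rE 0 I) σ).trans
    (Finset.sum_le_sum_of_subset_of_nonneg s2 fun _ _ _ => abs_nonneg _))
  unfold mu
  rw [← Real.exp_add]
  exact Real.exp_le_exp.2 (by linarith [b1.1])

lemma h4_int (K : W) (G : Finset E) (μ : Measure S) [IsProbabilityMeasure μ] :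
    Integrable (mu K G) μ := by
  refine integrable_of_bdd ((measurable_en K G).const_mul (-2)).exp
    (Real.exp (2 * ∑ e ∈ G, |K e|)) fun σ => ?_
  unfold mu
  rw [abs_of_pos (Real.exp_pos _)]
  have := abs_le.1 (abs_en_le K G σ)
  exact Real.exp_le_exp.2 (by linarith [this.1])

lemma h4_rA (K : W) (μ : Measure S) [IsProbabilityMeasure μ] (a b : Ix) {I D : Finset ℕ}
    (h1 : I ⊆ rS a ∆ rS b) (h2 : rS a ∆ rS b ⊆ I ∪ D) {C : ℝ}
    (hC : Real.exp (2 * ∑ e ∈ rE 0 D, |K e|) ≤ C) :
    |rA K μ 0 a b| ≤ C * ∫ τ, mu K (rE 0 I) τ ∂μ := by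
  have e : |rsg a b| = 1 := by unfold rsg; split_ifs <;> simp
  rw [rA, abs_mul, e, one_mul, ← integral_const_mul, ← Real.norm_eq_abs]
  refine norm_integral_le_of_norm_le ((h4_int K _ μ).const_mul C)
    (Eventually.of_forall fun σ => ?_)
  have hp : ∀ G, 0 < mu K G σ := fun G => Real.exp_pos _
  rw [Real.norm_eq_abs, rO, abs_mul, abs_mul, abs_sp, abs_sp, one_mul, one_mul,
    abs_of_pos (hp _)]
  exact (h4_cmp K h1 h2 σ).trans (mul_le_mul_of_nonneg_right hC (hp _).le)

lemma h4_mem {a : Ix} {y r k : ℕ} (ha : Win y r a) :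
    (k < y → k ∈ rS a) ∧ (k ∈ rS a → k < y + r) := by
  obtain ⟨h1, h2⟩ := ha
  unfold rS
  rw [Finset.mem_range]
  split_ifs <;> constructor <;> omega

theorem h4 (β : ℝ) (r : ℕ) {ε : ℝ} (hε : 0 < ε) : ∃ C > (0 : ℝ), ∀ y, r ≤ y →
    P.real {w | ¬ ∀ μ : Measure S, IsProbabilityMeasure μ →
      (∀ a b, Win 0 r a → Win 0 r b → |rA (β • w) μ 0 a b| ≤ C) ∧
      (∀ a b, Win y r a → Win y r b → |rA (β • w) μ 0 a b| ≤ C) ∧
      ∀ a c, Win 0 r a → Win y r c → |rA (β • w) μ 0 a c| ≤
        C * ∫ τ, mu (β • w) (rE 0 (Finset.Ico r y)) τ ∂μ} ≤ ε := by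
  have hG := edge_G_nonneg
  set T : ℝ := (2 * r * edgeG + 1) / ε with hT
  have hT0 : 0 < T := by positivity
  refine ⟨Real.exp (2 * (|β| * T)), Real.exp_pos _, fun y hy => ?_⟩
  set D : Finset ℕ := Finset.range r ∪ Finset.Ico y (y + r) with hD
  have hcard : ((rE 0 D).card : ℝ) ≤ 2 * r := by
    have h1 : (rE 0 D).card ≤ D.card := Finset.card_image_le
    have h2 : D.card ≤ r + r := (Finset.card_union_le _ _).trans (by simp)
    exact_mod_cast (by omega : (rE 0 D).card ≤ 2 * r)
  have hint : Integrable (fun w : W => ∑ e ∈ rE 0 D, |w e|) P :=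
    integrable_finsetSum _ fun e _ => (edge_abs_int e).1
  have hM := mul_meas_ge_le_integral_of_nonneg
    (Eventually.of_forall fun w => Finset.sum_nonneg fun e _ => abs_nonneg (w e)) hint T
  rw [integral_finsetSum _ fun e _ => (edge_abs_int e).1,
    Finset.sum_congr rfl fun e _ => (edge_abs_int e).2, Finset.sum_const, nsmul_eq_mul] at hM
  have hle : P.real {w : W | T ≤ ∑ e ∈ rE 0 D, |w e|} ≤ ε := by
    have h1 : T * P.real {w : W | T ≤ ∑ e ∈ rE 0 D, |w e|} ≤ T * ε := by
      have e : T * ε = 2 * r * edgeG + 1 := by rw [hT]; field_simp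
      rw [e]
      have := mul_le_mul_of_nonneg_right hcard hG
      linarith
    exact le_of_mul_le_mul_left h1 hT0
  refine le_trans (measureReal_mono (fun w hw => ?_) (measure_ne_top _ _)) hle
  by_contra hlt
  refine hw fun μ hμ => ?_
  have hlt' : ∑ e ∈ rE 0 D, |w e| ≤ T := (not_le.1 hlt).le
  have hC : Real.exp (2 * ∑ e ∈ rE 0 D, |(β • w) e|) ≤ Real.exp (2 * (|β| * T)) := by
    refine Real.exp_le_exp.2 (mul_le_mul_of_nonneg_left ?_ (by norm_num))
    simp only [Pi.smul_apply, smul_eq_mul, abs_mul, ← Finset.mul_sum]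
    exact mul_le_mul_of_nonneg_left hlt' (abs_nonneg _)
  have h0 : ∀ a b : Ix, rS a ∆ rS b ⊆ D →
      |rA (β • w) μ 0 a b| ≤ Real.exp (2 * (|β| * T)) := by
    intro a b hab
    have h := h4_rA (β • w) μ a b (I := ∅) (D := D) (Finset.empty_subset _)
      (by rwa [Finset.empty_union]) hC
    simpa [mu, rE, en] using h
  refine ⟨fun a b ha hb => h0 a b fun k hk => ?_, fun a b ha hb => h0 a b fun k hk => ?_,
    fun a c ha hc => h4_rA (β • w) μ a c (D := D) (fun k hk => ?_) (fun k hk => ?_) hC⟩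
  · have h1 := h4_mem (k := k) ha
    have h2 := h4_mem (k := k) hb
    rw [Finset.mem_symmDiff] at hk
    simp only [hD, Finset.mem_union, Finset.mem_range, Finset.mem_Ico]
    left
    rcases hk with h | h
    · simpa using h1.2 h.1
    · simpa using h2.2 h.1
  · have h1 := h4_mem (k := k) ha
    have h2 := h4_mem (k := k) hb
    rw [Finset.mem_symmDiff] at hk
    simp only [hD, Finset.mem_union, Finset.mem_range, Finset.mem_Ico]
    right
    rcases hk with h | h
    · exact ⟨not_lt.1 fun h' => h.2 (h2.1 h'), h1.2 h.1⟩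
    · exact ⟨not_lt.1 fun h' => h.2 (h1.1 h'), h2.2 h.1⟩
  · have h1 := h4_mem (k := k) ha
    have h2 := h4_mem (k := k) hc
    rw [Finset.mem_Ico] at hk
    rw [Finset.mem_symmDiff]
    exact Or.inr ⟨h2.1 hk.2, fun h => by have := h1.2 h; omega⟩
  · have h1 := h4_mem (k := k) ha
    have h2 := h4_mem (k := k) hc
    rw [Finset.mem_symmDiff] at hk
    simp only [hD, Finset.mem_union, Finset.mem_range, Finset.mem_Ico]
    rcases hk with h | h
    · have := h1.2 h.1; omega
    · have := h2.2 h.1; omega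

end Pool.Agent.MP_c70b3b_mp.Cg

end

section

open MeasureTheory ProbabilityTheory Filter Topology BoundedContinuousFunction
open scoped symmDiff ENNReal

namespace Pool.Agent.MP_c70b3b_mp.Cg

variable {β : ℝ} {κ : Kernel W S} {π : Kernel (W × S) S} {m : ℕ → ℕ}

/-- The three replicas. -/
def f5s (i : Fin 3) (x : W × S × S × S) : S := ![x.2.1, x.2.2.1, x.2.2.2] i

lemma f5_swap (κ : Kernel W S) [IsMarkovKernel κ] :
    MeasurePreserving (fun x : W × S × S => (x.1, x.2.2, x.2.1)) (M2 κ) (M2 κ) := by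
  refine ⟨by fun_prop, ?_⟩
  have h := Measure.compProd_map (μ := P) (κ := κ ×ₖ κ) (measurable_swap (α := S) (β := S))
  rw [Kernel.map_prod_swap] at h
  exact h.symm

lemma f5_one (κ : Kernel W S) [IsMarkovKernel κ] (i : Fin 3) :
    MeasurePreserving (fun x => (x.1, f5s i x)) (M3 κ) (P ⊗ₘ κ) := by
  fin_cases i
  exacts [(mp21 κ).comp (mp312 κ), (mp22 κ).comp (mp312 κ), (mp22 κ).comp (mp313 κ)]

lemma f5_two (κ : Kernel W S) [IsMarkovKernel κ] {i j : Fin 3} (h : i ≠ j) :
    MeasurePreserving (fun x => (x.1, f5s i x, f5s j x)) (M3 κ) (M2 κ) := by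
  fin_cases i <;> fin_cases j
  exacts [absurd rfl h, mp312 κ, mp313 κ, (f5_swap κ).comp (mp312 κ), absurd rfl h, mp323 κ,
    (f5_swap κ).comp (mp313 κ), (f5_swap κ).comp (mp323 κ), absurd rfl h]

lemma f5_le {α γ : Type} [MeasurableSpace α] [MeasurableSpace γ] {μ : Measure α} {ν : Measure γ}
    [IsFiniteMeasure ν] {f : α → γ} (h : MeasurePreserving f μ ν) {s : Set γ} {t : Set α}
    (ht : t ⊆ f ⁻¹' s) {ε : ℝ} (hs : ν.real s ≤ ε) : μ.real t ≤ ε :=
  (ENNReal.toReal_mono (measure_ne_top ν s)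
    ((measure_mono ht).trans (h.measure_preimage_le s))).trans hs

lemma f5_meas (β : ℝ) (π : Kernel (W × S) S) [IsMarkovKernel π] (G : Finset E) :
    Measurable fun p : W × S => ∫ τ, mu (β • p.1) G τ ∂π p := by
  have hf : Measurable fun q : (W × S) × S => mu (β • q.1.1) G q.2 :=
    (((measurable_en2 β G).comp (measurable_fst.fst.prodMk measurable_snd)).const_mul _).exp
  exact (hf.stronglyMeasurable.integral_kernel_prod_right' (κ := π)).measurable

theorem Pure.not_free (hβ : 0 < β) (h : Pure β κ π m) :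
    ¬ ∀ᵐ x ∂M2 κ, ¬ Eqv β π m x.1 x.2.1 x.2.2 := by
  intro hn
  have := h.cov.markov
  have := h.markov
  refine three_abs (M3 κ) (fun i x => rA (β • x.1) (π (x.1, f5s i x)) 0)
    (fun r y i x => ∫ τ, mu (β • x.1) (rE 0 (Finset.Ico r y)) τ ∂π (x.1, f5s i x))
    ?_ (fun ε hε => ?_) (fun r η hη ε hε => ?_) (fun r ε hε => ?_) fun c hc ε hε => ?_
  · refine ae_all_iff.2 fun i => ae_all_iff.2 fun j => ?_
    rcases eq_or_ne i j with rfl | hij
    · exact Eventually.of_forall fun x a b c d => by simp [pf4]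
    have q := fun i => (f5_one κ i).quasiMeasurePreserving
    filter_upwards [(q i).ae h.ae, (q j).ae h.ae, (q i).ae h.uniq1, (q j).ae h.uniq1,
      (f5_two κ hij).quasiMeasurePreserving.ae h.uniq2] with x a1 a2 a3 a4 a5 a b c d
    have b1 := h.gibbs a1
    have b2 := h.gibbs a2
    exact wick_pf b1 b2 a3 a4 a5 0 a b c d
  · obtain ⟨δ, h1, h2⟩ := h.h2 hβ hn hε
    refine ⟨δ, h1, h2.mono fun r hr y i j hij => f5_le (f5_two κ hij) (fun _ hx => hx) (hr y)⟩
  · exact (h.h3 r hη hε).mono fun y hy i => f5_le (f5_one κ i) (fun _ hx => hx) hy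
  · obtain ⟨C, h1, h2⟩ := h4 β r hε
    have q : MeasurePreserving Prod.fst (M3 κ) P := ⟨measurable_fst, Measure.fst_compProd _ _⟩
    refine ⟨C, h1, fun y hy i => f5_le q ?_ (h2 y hy)⟩
    exact fun x hx h' => hx (h' _ inferInstance)
  · obtain ⟨C, h1⟩ := h.tight hβ.le hc hε
    refine ⟨C, fun r y h2 i => f5_le (f5_one κ i) (fun _ hx => hx) (h1 _ ?_)⟩
    have q := f5_meas β π (rE 0 (Finset.Ico r y))
    refine ((f5_two κ zero_ne_one).measureReal_preimage ?_).symm.trans_le (h2 0 1 zero_ne_one)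
    exact (measurableSet_lt ((q.comp (measurable_fst.prodMk measurable_snd.fst)).mul
      (q.comp (measurable_fst.prodMk measurable_snd.snd))) measurable_const).nullMeasurableSet

end Pool.Agent.MP_c70b3b_mp.Cg

end

section

open MeasureTheory ProbabilityTheory Filter Topology BoundedContinuousFunction
open scoped symmDiff ENNReal

namespace Pool.Agent.MP_c70b3b_mp.Cg

variable {β : ℝ} {κ : Kernel W S} {π : Kernel (W × S) S} {m : ℕ → ℕ}

lemma g1_zero {w : W} {ρ : Measure S} (hρ : Gibbs ((0 : ℝ) • w) ρ) {A : Finset V}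
    (hA : A.Nonempty) : ∫ σ, chr A σ ∂ρ = 0 := by
  obtain ⟨x, hx⟩ := hA
  have h1 := hρ.integral_flp {x} (measurable_chr A)
  simp only [chr_flp, Finset.inter_singleton_of_mem hx, Finset.card_singleton, pow_one, en,
    zero_smul, Pi.zero_apply, zero_mul, Finset.sum_const_zero, mul_zero, Real.exp_zero, mul_one,
    neg_one_mul, integral_neg] at h1
  linarith

theorem pure_lim (hβ : 0 ≤ β) (hκ : CovGibbs β 1 κ) (A : Finset V) (hA : Even A.card) {ε : ℝ}
    (hε : 0 < ε) : ∃ k, ∫ p, (gam (β • p.1) (box k) (chr A) p.2 - ∫ σ, chr A σ ∂κ p.1) ^ 2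
      ∂(P ⊗ₘ κ) ≤ ε := by
  have := hκ.markov
  obtain ⟨m, hm, hae⟩ := exists_m hκ
  obtain ⟨π, hπ, hlim⟩ := exists_pi β m
  have h : Pure β κ π m := ⟨hκ, hπ, hm, hae, hlim⟩
  have hf : MeasurePreserving (Prod.fst : W × S → W) (P ⊗ₘ κ) P :=
    ⟨measurable_fst, Measure.fst_compProd P κ⟩
  have key : ∀ᵐ x ∂(P ⊗ₘ κ), EvEq (π x) (κ x.1) := by
    rcases hβ.eq_or_lt with rfl | hβ'
    · filter_upwards [hae, hf.quasiMeasurePreserving.ae hκ.gibbs] with x hx hx' B _
      rcases B.eq_empty_or_nonempty with rfl | hB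
      · simp [chr]
      · rw [g1_zero (h.gibbs hx) hB, g1_zero hx' hB]
    · rcases h.dich hβ with hn | ⟨c, hc, he⟩
      · exact absurd hn (h.not_free hβ')
      · exact h.ev_of_bond hβ' (h.bond_eq hβ' hc he)
  have ha : Measurable fun p : W × S => ∫ σ, chr A σ ∂κ p.1 := (odd_meas κ A).comp measurable_fst
  have hl := tendsto_integral_of_dominated_convergence (μ := P ⊗ₘ κ)
    (F := fun j p => (gam (β • p.1) (box (m j)) (chr A) p.2 - ∫ σ, chr A σ ∂κ p.1) ^ 2)
    (f := fun _ => 0) (fun _ => 4)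
    (fun j => (((measurable_gam β _ (g := fun p => chr A p.2)
      ((measurable_chr A).comp measurable_snd)).sub ha).pow_const 2).aestronglyMeasurable)
    (integrable_const _)
    (fun j => Eventually.of_forall fun p => by
      have h1 := abs_le.1 (gam_abs_le (K := β • p.1) (L := box (m j))
        (fun τ => (abs_chr A τ).le) p.2)
      have h2 := abs_le.1 (odd_abs κ A p.1)
      rw [Real.norm_of_nonneg (sq_nonneg _)]
      nlinarith)
    (by
      filter_upwards [hae, key] with p hp hk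
      have h1 := (hlim p hp _ (continuous_chr A)).sub_const (∫ σ, chr A σ ∂κ p.1)
      rw [hk A hA, sub_self] at h1
      simpa using h1.pow 2)
  rw [integral_zero] at hl
  obtain ⟨j, hj⟩ := (hl.eventually (ge_mem_nhds hε)).exists
  exact ⟨m j, hj⟩

end Pool.Agent.MP_c70b3b_mp.Cg

end

section

open MeasureTheory ProbabilityTheory Filter Topology BoundedContinuousFunction
open scoped symmDiff ENNReal

namespace Pool.Agent.MP_c70b3b_mp.Cg

lemma main_fourier {f : S → ℝ} {T : Finset V} (hd : DependsOn f (T : Set V))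
    (he : ∀ σ, f (-σ) = f σ) : ∃ c : Finset V → ℝ,
      ∀ σ, f σ = ∑ B ∈ T.powerset.filter (fun B => Even B.card), c B * chr B σ := by
  let c : Finset V → ℝ := fun B =>
    (1 / 2) ^ T.card * ∑ η : T → ℤˣ, f (glue T η 1) * chr B (glue T η 1)
  have h1 : ∀ σ, f σ = ∑ B ∈ T.powerset, c B * chr B σ := by
    intro σ
    have h2 : f σ = ∑ η : T → ℤˣ, f (glue T η 1) *
        Set.indicator {τ : S | ∀ x ∈ T, τ x = glue T η 1 x} (1 : S → ℝ) σ := by
      rw [Finset.sum_eq_single (fun x : T => σ x)]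
      · rw [Set.indicator_of_mem (by intro x hx; simp [glue, hx]), Pi.one_apply, mul_one]
        exact hd fun x hx => by
          have hx' : x ∈ T := hx
          simp [glue, hx']
      · intro η _ hη
        rw [Set.indicator_of_notMem, mul_zero]
        intro h
        exact hη (funext fun x => by have := h x.1 x.2; simpa [glue] using this.symm)
      · simp
    rw [h2]
    simp only [gib_ind, c, Finset.mul_sum, Finset.sum_mul]
    rw [Finset.sum_comm]
    exact Finset.sum_congr rfl fun B _ => Finset.sum_congr rfl fun η _ => by ring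
  refine ⟨c, fun σ => ?_⟩
  have h3 : ∀ B : Finset V, chr B (-σ) = (-1) ^ B.card * chr B σ := fun B => by
    simp only [chr, Pi.neg_apply, sp_neg]
    rw [Finset.prod_neg]
  have h4 : f σ = (f σ + f (-σ)) / 2 := by rw [he]; ring
  rw [h4, h1 σ, h1 (-σ), ← Finset.sum_add_distrib, Finset.sum_div, Finset.sum_filter]
  refine Finset.sum_congr rfl fun B _ => ?_
  rw [h3]
  split_ifs with hB
  · rw [hB.neg_one_pow]; ring
  · rw [(Nat.not_even_iff_odd.1 hB).neg_one_pow]; ring

lemma main_meas (β : ℝ) (L A : Finset V) {t : W → S} (ht : Measurable t) :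
    Measurable fun w => gam (β • w) L (chr A) (t w) := by
  have h1 := measurable_gam β L (g := fun p => chr A p.2) ((measurable_chr _).comp measurable_snd)
  have h2 : Measurable fun w => (w, t w) := measurable_id.prodMk ht
  simpa only [Function.comp_def] using h1.comp h2

lemma main_alg {ε : ℝ} (hε : 0 < ε) (x y a : ℝ) :
    |x - y| ≤ ε / 2 + 4 / ε * ((x - a) ^ 2 + (y - a) ^ 2) := by
  have h5 : |x - y| ^ 2 ≤ 2 * ((x - a) ^ 2 + (y - a) ^ 2) := by
    rw [sq_abs]; nlinarith [sq_nonneg (x + y - 2 * a)]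
  have h6 : ε * |x - y| ≤ ε * (ε / 2 + 4 / ε * ((x - a) ^ 2 + (y - a) ^ 2)) := by
    have : ε * (4 / ε * ((x - a) ^ 2 + (y - a) ^ 2)) = 4 * ((x - a) ^ 2 + (y - a) ^ 2) := by
      field_simp
    rw [mul_add, this]
    nlinarith [sq_nonneg (ε - |x - y|), sq_nonneg (x - a), sq_nonneg (y - a)]
  exact le_of_mul_le_mul_left h6 hε

lemma main_int {ε : ℝ} (hε : 0 < ε) {x y a : W → ℝ}
    (i1 : Integrable (fun w => (x w - a w) ^ 2) P) (i2 : Integrable (fun w => (y w - a w) ^ 2) P) :
    ∫ w, |x w - y w| ∂P ≤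
      ε / 2 + 4 / ε * (∫ w, (x w - a w) ^ 2 ∂P + ∫ w, (y w - a w) ^ 2 ∂P) := by
  have i3 : Integrable (fun w => 4 / ε * ((x w - a w) ^ 2 + (y w - a w) ^ 2)) P :=
    (i1.add i2).const_mul _
  rw [← integral_add i1 i2, ← integral_const_mul]
  have e : ε / 2 = ∫ _ : W, ε / 2 ∂P := by simp
  rw [e, ← integral_add (integrable_const _) i3]
  exact integral_mono_of_nonneg (Eventually.of_forall fun w => abs_nonneg _)
    ((integrable_const _).add i3)
    (Eventually.of_forall fun w => main_alg hε _ _ _)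

lemma main_mean {β : ℝ} (hβ : 0 ≤ β) (A : Finset V) (hA : Even A.card) (s s' : ℕ → W → S)
    (hs : ∀ n, Measurable (s n)) (hs' : ∀ n, Measurable (s' n)) :
    Tendsto (fun n : ℕ => (∑ z ∈ box n, ∫ w, |gam (β • w) (box n) (chr (tr A z)) (s n w) -
      gam (β • w) (box n) (chr (tr A z)) (s' n w)| ∂P) / (box n).card) atTop (𝓝 0) := by
  obtain ⟨ν, h1, h2, -, -⟩ := final hβ
  obtain ⟨κ, hκ, -⟩ := exists_kernel (k := 1) (isEA_iff.2 h1) fun z => h2 _
  have := hκ.markov
  have hp := fun ε (hε : ε > (0 : ℝ)) => pure_lim hβ hκ A hA hε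
  have l1 := mean_lim hβ hκ A hp s hs
  have l2 := mean_lim hβ hκ A hp s' hs'
  have hI : ∀ (t : W → S), Measurable t → ∀ (n : ℕ) (z : V), Integrable (fun w =>
      (gam (β • w) (box n) (chr (tr A z)) (t w) - ∫ σ, chr A σ ∂κ (shW z w)) ^ 2) P :=
    fun t ht n z => integrable_of_bdd (((main_meas β _ _ ht).sub
      ((odd_meas κ A).comp (measurable_shW z))).pow_const 2) 4 fun w => by
        have h1 := abs_le.1 (gam_abs_le (K := β • w) (L := box n)
          (fun τ => (abs_chr (tr A z) τ).le) (t w))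
        have h2 := abs_le.1 (odd_abs κ A (shW z w))
        rw [abs_of_nonneg (sq_nonneg _)]
        nlinarith
  rw [Metric.tendsto_atTop]
  intro ε hε
  have l3 := ((l1.add l2).const_mul (4 / ε)).eventually
    (gt_mem_nhds (show 4 / ε * (0 + 0) < ε / 2 by simpa using hε))
  obtain ⟨N, hN⟩ := eventually_atTop.1 l3
  refine ⟨N + 1, fun n hn => ?_⟩
  have hc : (0 : ℝ) < (box n).card := by
    rw [avg_card_box]; have : 0 < n := by omega
    positivity
  rw [Real.dist_0_eq_abs, abs_of_nonneg (div_nonneg (Finset.sum_nonneg fun z _ =>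
    integral_nonneg fun w => abs_nonneg _) hc.le)]
  have key : ∀ z ∈ box n, ∫ w, |gam (β • w) (box n) (chr (tr A z)) (s n w) -
      gam (β • w) (box n) (chr (tr A z)) (s' n w)| ∂P ≤ ε / 2 + 4 / ε *
      (∫ w, (gam (β • w) (box n) (chr (tr A z)) (s n w) - ∫ σ, chr A σ ∂κ (shW z w)) ^ 2 ∂P +
       ∫ w, (gam (β • w) (box n) (chr (tr A z)) (s' n w) - ∫ σ, chr A σ ∂κ (shW z w)) ^ 2 ∂P) :=
    fun z _ => main_int hε (hI _ (hs n) n z) (hI _ (hs' n) n z)
  have h7 := hN n (by omega)
  refine lt_of_le_of_lt (div_le_div_of_nonneg_right (Finset.sum_le_sum key) hc.le) ?_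
  rw [Finset.sum_add_distrib, Finset.sum_const, nsmul_eq_mul, ← Finset.mul_sum,
    Finset.sum_add_distrib, add_div, mul_div_cancel_left₀ _ hc.ne', mul_div_assoc, add_div]
  linarith

lemma main_gam (β : ℝ) (C : Finset V) (w : W) (g : S → ℝ) (s : S) :
    ∑ η : C → ℤˣ, boltz β C η (w, s) * g (glue C η s) = gam (β • w) C g s := by
  rw [gam, gZ, flipb_sum C s fun τ => g τ * Real.exp (en (β • w) (touch C) τ),
    flipb_sum C s fun τ => Real.exp (en (β • w) (touch C) τ), Finset.sum_div]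
  exact Finset.sum_congr rfl fun η _ => by rw [flipb_boltz]; ring

theorem main (β : ℝ) (hβ : 0 ≤ β) :
    ∀ᵐ w ∂P, ∀ (T : Finset V) (f : S → ℝ), DependsOn f (T : Set V) → (∀ σ, f (-σ) = f σ) →
      ∀ μ μ' : ℕ → Measure S, (∀ n, IsProbabilityMeasure (μ n)) →
        (∀ n, IsProbabilityMeasure (μ' n)) →
        Tendsto (fun n : ℕ => (∑ z ∈ box n,
          |∫ s, gam (β • w) (box n) (fun τ => f (shS z τ)) s ∂μ n -
            ∫ s, gam (β • w) (box n) (fun τ => f (shS z τ)) s ∂μ' n|) / (box n).card)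
          atTop (𝓝 0) := by
  filter_upwards [ae_all_iff.2 fun A : {A : Finset V // Even A.card} =>
    as_lim β A.1 (main_mean hβ A.1 A.2)] with w hw T f hd he μ μ' hμ hμ'
  obtain ⟨c, hc⟩ := main_fourier hd he
  set I := T.powerset.filter fun B => Even B.card with hI
  rw [Metric.tendsto_atTop]
  intro ε hε
  set C := ∑ B ∈ I, |c B| + 1 with hC
  have hC0 : 0 < C := by positivity
  have hev : ∀ᶠ n : ℕ in atTop, ∀ B ∈ I, ∀ s s' : S, ∑ z ∈ box n,
      |gam (β • w) (box n) (chr (tr B z)) s - gam (β • w) (box n) (chr (tr B z)) s'| ≤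
        ε / (2 * C) * (box n).card :=
    (Finset.eventually_all I).2 fun B hB =>
      hw ⟨B, (Finset.mem_filter.1 hB).2⟩ _ (by positivity)
  obtain ⟨N, hN⟩ := eventually_atTop.1 hev
  refine ⟨N + 1, fun n hn => ?_⟩
  have hc0 : (0 : ℝ) < (box n).card := by
    rw [avg_card_box]; have : 0 < n := by omega
    positivity
  rw [Real.dist_0_eq_abs, abs_of_nonneg (div_nonneg (Finset.sum_nonneg fun z _ =>
    abs_nonneg _) hc0.le), div_lt_iff₀ hc0]
  set h : V → S → ℝ := fun z s => gam (β • w) (box n) (fun τ => f (shS z τ)) s with hh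
  have e1 : ∀ z s, h z s = ∑ B ∈ I, c B * gam (β • w) (box n) (chr (tr B z)) s := fun z s => by
    simp only [hh, hc, chr_shS, gam_sum, gam_smul]
  have hcont : ∀ z, Continuous (h z) := fun z => by
    rw [funext (e1 z)]
    exact continuous_finsetSum _ fun B _ =>
      continuous_const.mul (continuous_gam' _ _ (continuous_chr _))
  have hint : ∀ z (ρ : Measure S) [IsFiniteMeasure ρ], Integrable (h z) ρ := fun z ρ _ => by
    obtain ⟨D, hD⟩ := exists_bound (hcont z)
    exact integrable_of_bdd (hcont z).measurable D hD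
  have det : ∀ s s', ∑ z ∈ box n, |h z s - h z s'| ≤ ε / 2 * (box n).card := fun s s' => by
    calc ∑ z ∈ box n, |h z s - h z s'|
        ≤ ∑ z ∈ box n, ∑ B ∈ I, |c B| * |gam (β • w) (box n) (chr (tr B z)) s -
            gam (β • w) (box n) (chr (tr B z)) s'| := Finset.sum_le_sum fun z _ => by
          rw [e1, e1, ← Finset.sum_sub_distrib]
          refine (Finset.abs_sum_le_sum_abs _ _).trans (le_of_eq ?_)
          exact Finset.sum_congr rfl fun B _ => by rw [← mul_sub, abs_mul]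
      _ ≤ ∑ B ∈ I, |c B| * (ε / (2 * C) * (box n).card) := by
          rw [Finset.sum_comm]
          exact Finset.sum_le_sum fun B hB => by
            rw [← Finset.mul_sum]
            exact mul_le_mul_of_nonneg_left (hN n (by omega) B hB s s') (abs_nonneg _)
      _ ≤ C * (ε / (2 * C) * (box n).card) := by
          rw [← Finset.sum_mul]
          exact mul_le_mul_of_nonneg_right (by rw [hC]; linarith) (by positivity)
      _ = ε / 2 * (box n).card := by field_simp
  have one : ∀ (ρ : Measure S) [IsProbabilityMeasure ρ] (a : V → ℝ) (D : ℝ),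
      (∀ s, ∑ z ∈ box n, |h z s - a z| ≤ D) → ∑ z ∈ box n, |∫ s, h z s ∂ρ - a z| ≤ D := by
    intro ρ _ a D hD
    have i1 : ∀ z, Integrable (fun s => h z s - a z) ρ := fun z =>
      (hint z ρ).sub (integrable_const _)
    calc ∑ z ∈ box n, |∫ s, h z s ∂ρ - a z| ≤ ∑ z ∈ box n, ∫ s, |h z s - a z| ∂ρ :=
          Finset.sum_le_sum fun z _ => by
            refine le_trans (le_of_eq ?_) abs_integral_le_integral_abs
            rw [integral_sub (hint z ρ) (integrable_const _)]
            simp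
      _ = ∫ s, ∑ z ∈ box n, |h z s - a z| ∂ρ :=
          (integral_finsetSum _ fun z _ => (i1 z).abs).symm
      _ ≤ ∫ _, D ∂ρ := integral_mono (integrable_finsetSum _ fun z _ => (i1 z).abs)
          (integrable_const _) hD
      _ = D := by simp
  have := hμ n
  have := hμ' n
  refine lt_of_le_of_lt (one (μ n) _ _ fun s => ?_) (by nlinarith : ε / 2 * (box n).card < _)
  simp only [abs_sub_comm (h _ s)]
  exact one (μ' n) _ _ fun s' => det s' s

end Pool.Agent.MP_c70b3b_mp.Cg

end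

section

open MeasureTheory ProbabilityTheory Filter Topology
open scoped symmDiff ENNReal

namespace Pool.Agent.MP_c70b3b_mp.Cg

lemma link_dlr {β : ℝ} {w : W} {C : Finset V} {μ : Measure S} (h : IsGibbsIn β w C μ)
    {g : S → ℝ} (hg : Continuous g) : ∫ s, g s ∂μ = ∫ s, gam (β • w) C g s ∂μ := by
  have := h.1
  obtain ⟨D, hD⟩ := exists_bound hg
  have hr : Measurable fun (s : S) (x : {x // x ∉ C}) => s x :=
    measurable_pi_lambda _ fun x => measurable_pi_apply _
  have hA : ∀ η : C → ℤˣ, MeasurableSet {s : S | ∀ x : C, s x = η x} := fun η => by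
    rw [Set.ofPred_forall]
    refine MeasurableSet.iInter fun x => ?_
    have hm : Measurable fun s : S => s x := measurable_pi_apply _
    exact hm (measurableSet_singleton (η x))
  have hput : ∀ η : C → ℤˣ, Measurable fun (t : {x // x ∉ C} → ℤˣ) (x : V) =>
      if hx : x ∈ C then η ⟨x, hx⟩ else t ⟨x, hx⟩ := fun η =>
    measurable_pi_lambda _ fun x => by
      split_ifs
      · exact measurable_const
      · exact measurable_pi_apply _
  have hF : ∀ η : C → ℤˣ, Measurable[MeasurableSpace.comap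
      (fun (s : S) (x : {x // x ∉ C}) => s x) inferInstance] fun s => g (glue C η s) := fun η =>
    (hg.measurable.comp (hput η)).comp (comap_measurable _)
  have hF' : ∀ η : C → ℤˣ, Measurable fun s => g (glue C η s) := fun η =>
    (hF η).mono hr.comap_le le_rfl
  have hI : ∀ η : C → ℤˣ,
      Integrable (Set.indicator {s : S | ∀ x : C, s x = η x} fun _ => (1 : ℝ)) μ := fun η =>
    (integrable_const _).indicator (hA η)
  have hJ : ∀ η : C → ℤˣ, Integrable ((fun s => g (glue C η s)) *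
      Set.indicator {s : S | ∀ x : C, s x = η x} fun _ => (1 : ℝ)) μ := fun η =>
    (hI η).bdd_mul (hF' η).aestronglyMeasurable (Eventually.of_forall fun s => hD _)
  have key : ∀ η : C → ℤˣ, ∫ s, g (glue C η s) *
      Set.indicator {s : S | ∀ x : C, s x = η x} (fun _ => (1 : ℝ)) s ∂μ =
      ∫ s, boltz β C η (w, s) * g (glue C η s) ∂μ := fun η => by
    have h1 := condExp_mul_of_stronglyMeasurable_left (hF η).stronglyMeasurable (hJ η) (hI η)
    refine (integral_condExp hr.comap_le (f := (fun s => g (glue C η s)) *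
      Set.indicator {s : S | ∀ x : C, s x = η x} fun _ => (1 : ℝ))).symm.trans
      (integral_congr_ae ?_)
    filter_upwards [h1, h.2 η] with s h2 h3
    rw [h2, Pi.mul_apply, h3, mul_comm]
  have e1 : ∀ s, g s = ∑ η : C → ℤˣ, g (glue C η s) *
      Set.indicator {s : S | ∀ x : C, s x = η x} (fun _ => (1 : ℝ)) s := fun s => by
    rw [Finset.sum_eq_single (fun x : C => s x)]
    · rw [Set.indicator_of_mem (by intro x; rfl), mul_one]
      congr 1; funext x; simp [glue]
    · intro η _ hη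
      rw [Set.indicator_of_notMem, mul_zero]
      exact fun h' => hη (funext fun x => (h' x).symm)
    · simp
  have hK : ∀ η : C → ℤˣ, Integrable (fun s => boltz β C η (w, s) * g (glue C η s)) μ := fun η =>
    integrable_of_bdd (((flipb_meas β C η).comp measurable_prodMk_left).fun_mul (hF' η)) D
      fun s => by
        rw [abs_mul]
        exact (mul_le_of_le_one_left (abs_nonneg _) (flipb_le β C η _)).trans (hD _)
  have hJ' : ∀ η : C → ℤˣ, Integrable (fun s => g (glue C η s) *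
      Set.indicator {s : S | ∀ x : C, s x = η x} (fun _ => (1 : ℝ)) s) μ := hJ
  simp only [← main_gam]
  rw [integral_finsetSum _ fun η _ => hK η, ← Finset.sum_congr rfl fun η _ => key η,
    ← integral_finsetSum _ fun η _ => hJ' η]
  exact integral_congr_ae (Eventually.of_forall e1)

theorem congruent (β : ℝ) (hβ : 0 ≤ β) :
    ∀ᵐ w ∂P, ∀ (T : Finset V) (f : S → ℝ), DependsOn f (T : Set V) → (∀ s, f (-s) = f s) →
      ∀ μ μ' : ℕ → Measure S, (∀ n, IsGibbsIn β w (box n) (μ n)) →
        (∀ n, IsGibbsIn β w (box n) (μ' n)) →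
        Tendsto (fun n : ℕ => (∑ z ∈ box n,
          |∫ s, f (shS z s) ∂μ n - ∫ s, f (shS z s) ∂μ' n|) / (box n).card) atTop (𝓝 0) := by
  filter_upwards [main β hβ] with w hw T f hd he μ μ' h h'
  obtain ⟨c, hc⟩ := main_fourier hd he
  have hf : Continuous f := by
    rw [funext hc]
    exact continuous_finsetSum _ fun B _ => continuous_const.mul (continuous_chr B)
  have hz : ∀ z, Continuous fun s => f (shS z s) := fun z =>
    hf.comp (continuous_pi fun x => continuous_apply _)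
  refine (hw T f hd he μ μ' (fun n => (h n).1) fun n => (h' n).1).congr fun n => ?_
  simp only [← link_dlr (h n) (hz _), ← link_dlr (h' n) (hz _)]

end Pool.Agent.MP_c70b3b_mp.Cg

end
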