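import Pool.Agent.Mg.Fc70b3b.G6b3bf2

section

open MeasureTheory ProbabilityTheory Filter Topology
open scoped symmDiff ENNReal

namespace Pool.Agent.MP_c70b3b_mp.Cg

/-- Finite volume partition sum with boundary condition `σ`. -/
noncomputable def gZ (K : W) (L : Finset V) (σ : S) : ℝ :=
  ∑ U ∈ L.powerset, Real.exp (en K (touch L) (flp U σ))

/-- Finite volume average of `g` with boundary condition `σ`. -/
noncomputable def gam (K : W) (L : Finset V) (g : S → ℝ) (σ : S) : ℝ :=
  (∑ U ∈ L.powerset, g (flp U σ) * Real.exp (en K (touch L) (flp U σ))) / gZ K L σ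

/-- `u` on `F`, `w` elsewhere. -/
def mix (F : Finset E) (w u : W) : W := fun e => if e ∈ F then u e else w e

/-- Change the sign on `F`. -/
def neg (F : Finset E) (w : W) : W := fun e => if e ∈ F then -w e else w e

/-- Rotation of a pair of coupling fields. -/
noncomputable def rot (t : ℝ) (p : W × W) : W × W :=
  (Real.cos t • p.1 + Real.sin t • p.2, -Real.sin t • p.1 + Real.cos t • p.2)

/-- Equality on even observables. -/
def EvEq (μ μ' : Measure S) : Prop :=
  ∀ A : Finset V, Even A.card → ∫ σ, chr A σ ∂μ = ∫ σ, chr A σ ∂μ'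

/-- The points where the finite volume averages converge along `m`. -/
def Om (β : ℝ) (m : ℕ → ℕ) : Set (W × S) :=
  {p | ∀ A : Finset V, ∃ c, Tendsto (fun j => gam (β • p.1) (box (m j)) (chr A) p.2) atTop (𝓝 c)}

/-- The pure parts `π` of a covariant Gibbs kernel `κ`. -/
structure Pure (β : ℝ) (κ : Kernel W S) (π : Kernel (W × S) S) (m : ℕ → ℕ) : Prop where
  cov : CovGibbs β 1 κ
  markov : IsMarkovKernel π
  top : Tendsto m atTop atTop
  ae : ∀ᵐ p ∂(P ⊗ₘ κ), p ∈ Om β m
  lim : ∀ p ∈ Om β m, ∀ g : S → ℝ, Continuous g →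
    Tendsto (fun j => gam (β • p.1) (box (m j)) g p.2) atTop (𝓝 (∫ σ, g σ ∂π p))

/-- Same pure part, up to the global flip. -/
def Eqv (β : ℝ) (π : Kernel (W × S) S) (m : ℕ → ℕ) (w : W) (σ σ' : S) : Prop :=
  (w, σ) ∈ Om β m ∧ (w, σ') ∈ Om β m ∧ EvEq (π (w, σ)) (π (w, σ'))

/-- Partition function of a finite measure tilted on `F`. -/
noncomputable def lz (F : Finset E) (μ : Measure S) (u : W) : ℝ :=
  ∫ σ, Real.exp (en u F σ) ∂μ

/-- Average in the tilted measure. -/
noncomputable def av (F : Finset E) (μ : Measure S) (u : W) (g : S → ℝ) : ℝ :=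
  (∫ σ, g σ * Real.exp (en u F σ) ∂μ) / lz F μ u

/-- Bond average in the tilted measure. -/
noncomputable def gb (F : Finset E) (μ : Measure S) (u : W) (e : E) : ℝ :=
  av F μ u fun σ => bond σ e

/-- Bond covariance in the tilted measure. -/
noncomputable def cv (F : Finset E) (μ : Measure S) (u : W) (e e' : E) : ℝ :=
  av F μ u (fun σ => bond σ e * bond σ e') - gb F μ u e * gb F μ u e'

/-- The disorder weight of `G`. -/
noncomputable def mu (K : W) (G : Finset E) (σ : S) : ℝ := Real.exp (-2 * en K G σ)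

/-- Corners on a row: `(i, c)` is the vertex `z + (i, 0)` with the face above it on the left
(`c = false`) or on the right (`c = true`). -/
abbrev Ix : Type := ℕ × Bool

def rS (a : Ix) : Finset ℕ := Finset.range (if a.2 then a.1 + 1 else a.1)

def rV (z : V) (i : ℕ) : V := z + ((i : ℤ), 0)

/-- The vertical edges above the vertices `z + (k, 0)`, `k ∈ I`. -/
def rE (z : V) (I : Finset ℕ) : Finset E := I.image fun k => (rV z k, true)

noncomputable def rO (K : W) (z : V) (a b : Ix) (σ : S) : ℝ :=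
  sp (σ (rV z a.1)) * sp (σ (rV z b.1)) * mu K (rE z (rS a ∆ rS b)) σ

def rsg (a b : Ix) : ℝ := if b.1 ∈ rS a then -1 else 1

/-- Kadanoff-Ceva bilinears on a row. -/
noncomputable def rA (K : W) (μ : Measure S) (z : V) (a b : Ix) : ℝ :=
  rsg a b * ∫ σ, rO K z a b σ ∂μ

/-- Four point Pfaffian. -/
def pf4 (B : Ix → Ix → ℝ) (a b c d : Ix) : ℝ := B a b * B c d - B a c * B b d + B a d * B b c

/-- Two by two minor. -/
def mnr (B : Ix → Ix → ℝ) (a b c d : Ix) : ℝ := B a c * B b d - B a d * B b c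

/-- The window `[y, y + r)`. -/
def Win (y r : ℕ) (a : Ix) : Prop := y ≤ a.1 ∧ a.1 < y + r

/-- Two replicas. -/
noncomputable def M2 (κ : Kernel W S) : Measure (W × S × S) := P ⊗ₘ (κ ×ₖ κ)

/-- Three replicas. -/
noncomputable def M3 (κ : Kernel W S) : Measure (W × S × S × S) := P ⊗ₘ (κ ×ₖ (κ ×ₖ κ))

/-- Ring indices in `[a, b)`. -/
def arc (N : ℕ) (J : ℕ × ℕ) : Finset (Fin (8 * N)) :=
  Finset.univ.filter fun i => J.1 ≤ i.1 ∧ i.1 < J.2

/-- Translate of a finite set of vertices. -/
def tr (A : Finset V) (z : V) : Finset V := A.image (· + z)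

end Pool.Agent.MP_c70b3b_mp.Cg

end

section

open MeasureTheory ProbabilityTheory Filter Topology
open scoped symmDiff ENNReal

namespace Pool.Agent.MP_c70b3b_mp.Cg

lemma gZ_pos (K : W) (L : Finset V) (σ : S) : 0 < gZ K L σ :=
  Finset.sum_pos (fun _ _ => Real.exp_pos _) ⟨∅, by simp⟩

lemma gam_const (K : W) (L : Finset V) (c : ℝ) (σ : S) : gam K L (fun _ => c) σ = c := by
  rw [gam, ← Finset.mul_sum, ← gZ, mul_div_assoc, div_self (gZ_pos K L σ).ne', mul_one]

lemma gam_congr {K : W} {L : Finset V} {g g' : S → ℝ} {σ : S}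
    (h : ∀ U ⊆ L, g (flp U σ) = g' (flp U σ)) : gam K L g σ = gam K L g' σ := by
  unfold gam
  rw [Finset.sum_congr rfl fun U hU => by rw [h U (Finset.mem_powerset.1 hU)]]

lemma gam_mono {K : W} {L : Finset V} {g g' : S → ℝ} {σ : S}
    (h : ∀ U ⊆ L, g (flp U σ) ≤ g' (flp U σ)) : gam K L g σ ≤ gam K L g' σ :=
  div_le_div_of_nonneg_right (Finset.sum_le_sum fun U hU =>
    mul_le_mul_of_nonneg_right (h U (Finset.mem_powerset.1 hU)) (Real.exp_pos _).le)
    (gZ_pos K L σ).le

lemma gam_add (K : W) (L : Finset V) (g g' : S → ℝ) (σ : S) :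
    gam K L (fun τ => g τ + g' τ) σ = gam K L g σ + gam K L g' σ := by
  simp only [gam, add_mul, Finset.sum_add_distrib, add_div]

lemma gam_sub (K : W) (L : Finset V) (g g' : S → ℝ) (σ : S) :
    gam K L (fun τ => g τ - g' τ) σ = gam K L g σ - gam K L g' σ := by
  simp only [gam, sub_mul, Finset.sum_sub_distrib, sub_div]

lemma gam_smul (K : W) (L : Finset V) (c : ℝ) (g : S → ℝ) (σ : S) :
    gam K L (fun τ => c * g τ) σ = c * gam K L g σ := by
  simp only [gam, mul_assoc, ← Finset.mul_sum, mul_div_assoc]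

lemma gam_sum {ι : Type*} (K : W) (L : Finset V) (I : Finset ι) (g : ι → S → ℝ) (σ : S) :
    gam K L (fun τ => ∑ i ∈ I, g i τ) σ = ∑ i ∈ I, gam K L (g i) σ := by
  simp only [gam, Finset.sum_mul, ← Finset.sum_div]
  rw [Finset.sum_comm]

lemma gam_nonneg {K : W} {L : Finset V} {g : S → ℝ} (h : ∀ τ, 0 ≤ g τ) (σ : S) :
    0 ≤ gam K L g σ := by
  rw [← gam_const K L 0 σ]; exact gam_mono fun _ _ => h _

lemma gam_pos {K : W} {L : Finset V} {g : S → ℝ} (h : ∀ τ, 0 < g τ) (σ : S) :
    0 < gam K L g σ :=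
  div_pos (Finset.sum_pos (fun _ _ => mul_pos (h _) (Real.exp_pos _)) ⟨∅, by simp⟩)
    (gZ_pos K L σ)

lemma abs_gam_le (K : W) (L : Finset V) (g : S → ℝ) (σ : S) :
    |gam K L g σ| ≤ gam K L (fun τ => |g τ|) σ := by
  refine abs_le.2 ⟨?_, gam_mono fun _ _ => le_abs_self _⟩
  have h := gam_smul K L (-1) (fun τ => |g τ|) σ
  rw [neg_one_mul] at h
  rw [← h]
  exact gam_mono fun _ _ => by rw [neg_one_mul]; exact neg_abs_le _

lemma gam_abs_le {K : W} {L : Finset V} {g : S → ℝ} {C : ℝ} (h : ∀ τ, |g τ| ≤ C) (σ : S) :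
    |gam K L g σ| ≤ C :=
  (abs_gam_le K L g σ).trans ((gam_mono fun _ _ => h _).trans (gam_const K L C σ).le)

lemma gam_sq (K : W) (L : Finset V) (g : S → ℝ) (σ : S) :
    gam K L g σ ^ 2 ≤ gam K L (fun τ => g τ ^ 2) σ := by
  have h := gam_nonneg (K := K) (L := L) (g := fun τ => (g τ - gam K L g σ) ^ 2)
    (fun _ => sq_nonneg _) σ
  have e : (fun τ => (g τ - gam K L g σ) ^ 2) =
      fun τ => (g τ ^ 2 - (2 * gam K L g σ) * g τ) + gam K L g σ ^ 2 := by
    funext τ; ring
  rw [e, gam_add, gam_sub, gam_smul, gam_const] at h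
  nlinarith

lemma gZ_flp (K : W) {L U : Finset V} (hU : U ⊆ L) (σ : S) : gZ K L (flp U σ) = gZ K L σ :=
  gib_sum_flp L (fun σ => Real.exp (en K (touch L) σ)) hU σ

lemma gam_flp (K : W) {L U : Finset V} (hU : U ⊆ L) (g : S → ℝ) (σ : S) :
    gam K L g (flp U σ) = gam K L g σ := by
  rw [gam, gam, gZ_flp K hU,
    gib_sum_flp L (fun σ => g σ * Real.exp (en K (touch L) σ)) hU σ]

lemma gam_mul_inv (K : W) (L : Finset V) (g : S → ℝ) {h : S → ℝ} {σ : S}
    (hh : ∀ U ⊆ L, h (flp U σ) = h σ) :
    gam K L (fun τ => g τ * h τ) σ = gam K L g σ * h σ := by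
  rw [mul_comm, ← gam_smul]
  exact gam_congr fun U hU => by rw [hh U hU, mul_comm]

/-- The flip identity in finite volume. -/
lemma gam_flip (K : W) {L U : Finset V} (hU : U ⊆ L) (g : S → ℝ) (σ : S) :
    gam K L (fun τ => g (flp U τ)) σ =
      gam K L (fun τ => g τ * Real.exp (-2 * en K (cob U) τ)) σ := by
  unfold gam
  congr 1
  rw [← gib_sum_flp L (fun τ => g τ * Real.exp (-2 * en K (cob U) τ) *
    Real.exp (en K (touch L) τ)) hU σ]
  refine Finset.sum_congr rfl fun U' _ => ?_
  have e : flp U' (flp U σ) = flp U (flp U' σ) := by rw [flp_flp', flp_flp', symmDiff_comm]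
  have e2 := en_flp K (subset_refl (cob U)) (flp U' σ)
  rw [e, mul_assoc, ← Real.exp_add, en_flp K (cob_subset_touch hU), e2]
  congr 2
  ring

lemma touch_mono {L L' : Finset V} (h : L' ⊆ L) : touch L' ⊆ touch L := fun _ he =>
  mem_touch.2 ((mem_touch.1 he).imp (fun h' => h h') fun h' => h h')

/-- Consistency of the finite volume averages. -/
lemma gam_cons (K : W) {L L' : Finset V} (h : L' ⊆ L) (g : S → ℝ) (σ : S) :
    gam K L (gam K L' g) σ = gam K L g σ := by
  have key : ∀ U ∈ L'.powerset,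
      gam K L (fun τ => g (flp U τ) * Real.exp (en K (touch L') (flp U τ)) / gZ K L' τ) σ =
      gam K L (fun τ => g τ * (Real.exp (en K (touch L') (flp U τ)) / gZ K L' τ)) σ := by
    intro U hU
    have hU' := Finset.mem_powerset.1 hU
    have h1 := gam_flip K (hU'.trans h)
      (fun τ => g τ * Real.exp (en K (touch L') τ) / gZ K L' τ) σ
    simp only [gZ_flp K hU'] at h1
    rw [h1]
    congr 1; funext τ
    rw [en_flp K (cob_subset_touch hU'), sub_eq_add_neg, Real.exp_add, neg_mul]
    ring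
  have e : gam K L' g = fun τ => ∑ U ∈ L'.powerset,
      g (flp U τ) * Real.exp (en K (touch L') (flp U τ)) / gZ K L' τ := by
    funext τ; rw [gam, Finset.sum_div]
  rw [e, gam_sum, Finset.sum_congr rfl key, ← gam_sum]
  congr 1; funext τ
  rw [← Finset.mul_sum, ← Finset.sum_div, ← gZ, div_self (gZ_pos K L' τ).ne', mul_one]

lemma gibbs_gam {K : W} {ρ : Measure S} (h : Gibbs K ρ) (L : Finset V) {g : S → ℝ}
    (hg : Measurable g) (C : ℝ) (hb : ∀ σ, |g σ| ≤ C) :
    ∫ σ, g σ ∂ρ = ∫ σ, gam K L g σ ∂ρ := h.avg L hg C hb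

lemma measurable_gam (β : ℝ) (L : Finset V) {g : W × S → ℝ} (hg : Measurable g) :
    Measurable fun p : W × S => gam (β • p.1) L (fun τ => g (p.1, τ)) p.2 := by
  have hf : ∀ U : Finset V, Measurable fun p : W × S => (p.1, flp U p.2) := fun U =>
    measurable_fst.prodMk ((measurable_flp U).comp measurable_snd)
  exact (Finset.measurable_sum _ fun U _ => (hg.comp (hf U)).mul
    ((measurable_en2 β _).comp (hf U)).exp).div
    (Finset.measurable_sum _ fun U _ => ((measurable_en2 β _).comp (hf U)).exp)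

lemma continuous_gam (β : ℝ) (L : Finset V) {g : W × S → ℝ} (hg : Continuous g) :
    Continuous fun p : W × S => gam (β • p.1) L (fun τ => g (p.1, τ)) p.2 := by
  have hf : ∀ U : Finset V, Continuous fun p : W × S => (p.1, flp U p.2) := fun U =>
    continuous_fst.prodMk ((continuous_flp U).comp continuous_snd)
  exact (continuous_finsetSum _ fun U _ => (hg.comp (hf U)).mul
    ((continuous_en2 β _).comp (hf U)).rexp).div
    (continuous_finsetSum _ fun U _ => ((continuous_en2 β _).comp (hf U)).rexp)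
    fun p => (gZ_pos _ _ _).ne'

lemma continuous_en (K : W) (F : Finset E) : Continuous (en K F) :=
  continuous_finsetSum _ fun _ _ =>
    continuous_const.mul ((continuous_sp _).mul (continuous_sp _))

lemma continuous_chr (A : Finset V) : Continuous (chr A) :=
  continuous_finsetProd _ fun x _ => continuous_sp x

lemma continuous_bond (e : E) : Continuous fun σ : S => bond σ e :=
  (continuous_sp _).mul (continuous_sp _)

lemma continuous_gam' (K : W) (L : Finset V) {g : S → ℝ} (hg : Continuous g) :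
    Continuous (gam K L g) := by
  have h := (continuous_gam 1 L (g := fun p => g p.2) (hg.comp continuous_snd)).comp
    (Continuous.prodMk_right K)
  simpa [Function.comp_def] using h

lemma measurable_gam' (K : W) (L : Finset V) {g : S → ℝ} (hg : Measurable g) :
    Measurable (gam K L g) := by
  have h := (measurable_gam 1 L (g := fun p => g p.2) (hg.comp measurable_snd)).comp
    (measurable_prodMk_left (x := K))
  simpa [Function.comp_def] using h

lemma exists_bound {g : S → ℝ} (hg : Continuous g) : ∃ C, ∀ σ, |g σ| ≤ C := by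
  obtain ⟨C, hC⟩ := isCompact_univ.exists_bound_of_continuousOn hg.continuousOn
  exact ⟨C, fun σ => hC σ trivial⟩

lemma gam_dep {K K' : W} {L : Finset V} (h : ∀ e ∈ touch L, K e = K' e) (g : S → ℝ) (σ : S) :
    gam K L g σ = gam K' L g σ := by
  have e : ∀ τ, en K (touch L) τ = en K' (touch L) τ := fun τ =>
    Finset.sum_congr rfl fun e he => by rw [h e he]
  simp only [gam, gZ, e]

lemma gam_tilt (K D : W) {F : Finset E} {L : Finset V} (hF : F ⊆ touch L) (g : S → ℝ) (σ : S) :
    gam (K + cut F D) L g σ = gam K L (fun τ => g τ * Real.exp (en D F τ)) σ /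
      gam K L (fun τ => Real.exp (en D F τ)) σ := by
  have hZ := (gZ_pos K L σ).ne'
  simp only [gam]
  rw [div_div_div_cancel_right₀ hZ]
  simp only [gZ, en_add, en_cut D hF, Real.exp_add]
  congr 1
  · exact Finset.sum_congr rfl fun U _ => by ring
  · exact Finset.sum_congr rfl fun U _ => by ring

lemma mem_tr {A : Finset V} {z x : V} : x ∈ tr A z ↔ x - z ∈ A := by
  simp only [tr, Finset.mem_image]
  exact ⟨fun ⟨a, ha, h⟩ => by rw [← h, add_sub_cancel_right]; exact ha,
    fun h => ⟨_, h, sub_add_cancel _ _⟩⟩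

lemma card_tr (A : Finset V) (z : V) : (tr A z).card = A.card :=
  Finset.card_image_of_injective _ (add_left_injective z)

lemma chr_shS (A : Finset V) (z : V) (σ : S) : chr A (shS z σ) = chr (tr A z) σ :=
  odd_chr_shS A z σ

lemma touch_tr (L : Finset V) (z : V) : (touch L).image (shE z) = touch (tr L z) := by
  ext e
  rw [Finset.mem_image, mem_touch, mem_tr, mem_tr]
  constructor
  · rintro ⟨a, ha, rfl⟩
    rw [tip_shE]
    simpa [shE] using mem_touch.1 ha
  · intro h
    refine ⟨shE (-z) e, mem_touch.2 ?_, by simp [shE]⟩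
    rw [tip_shE]
    simpa [shE, sub_eq_add_neg] using h

lemma cob_tr (L : Finset V) (z : V) : (cob L).image (shE z) = cob (tr L z) := by
  ext e
  rw [Finset.mem_image, mem_cob, mem_tr, mem_tr]
  constructor
  · rintro ⟨a, ha, rfl⟩
    rw [tip_shE]
    simpa [shE] using mem_cob.1 ha
  · intro h
    refine ⟨shE (-z) e, mem_cob.2 ?_, by simp [shE]⟩
    rw [tip_shE]
    simpa [shE, sub_eq_add_neg] using h

lemma flp_shS (U : Finset V) (z : V) (σ : S) : flp U (shS z σ) = shS z (flp (tr U z) σ) := by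
  funext x
  simp only [flp, shS, mem_tr, add_sub_cancel_right]

lemma sum_powerset_tr (L : Finset V) (z : V) (f : Finset V → ℝ) :
    ∑ U ∈ L.powerset, f (tr U z) = ∑ U ∈ (tr L z).powerset, f U := by
  refine Finset.sum_bij' (fun U _ => tr U z) (fun U _ => tr U (-z)) ?_ ?_ ?_ ?_ fun _ _ => rfl
  · intro U hU
    exact Finset.mem_powerset.2 (Finset.image_subset_image (Finset.mem_powerset.1 hU))
  · intro U hU
    refine Finset.mem_powerset.2 fun x hx => ?_
    have := mem_tr.1 (Finset.mem_powerset.1 hU (mem_tr.1 hx))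
    simpa using this
  · intro U _; ext x; simp [mem_tr]
  · intro U _; ext x; simp [mem_tr]

lemma gam_shift (β : ℝ) (z : V) (w : W) (L : Finset V) (g : S → ℝ) (σ : S) :
    gam (β • shW z w) L g (shS z σ) = gam (β • w) (tr L z) (fun τ => g (shS z τ)) σ := by
  simp only [gam, gZ, flp_shS, tower_en_shift, touch_tr]
  rw [sum_powerset_tr L z fun U => g (shS z (flp U σ)) *
      Real.exp (en (β • w) (touch (tr L z)) (flp U σ)),
    sum_powerset_tr L z fun U => Real.exp (en (β • w) (touch (tr L z)) (flp U σ))]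

lemma shift_eq (z : V) (p : W × S) : shift z p = (shW z p.1, shS z p.2) := rfl

lemma box_mono {a b : ℕ} (h : a ≤ b) : box a ⊆ box b := fun x hx => by
  rw [mem_box] at hx ⊢; omega

lemma eventually_sub_box (A : Finset V) : ∀ᶠ n : ℕ in atTop, A ⊆ box n := by
  obtain ⟨N, -, hN⟩ := exists_box A
  filter_upwards [eventually_ge_atTop N] with n hn using hN.trans (box_mono hn)

lemma eventually_sub_touch (F : Finset E) : ∀ᶠ n : ℕ in atTop, F ⊆ touch (box n) := by
  filter_upwards [eventually_sub_box (F.image Prod.fst)] with n hn e he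
  exact mem_touch.2 (Or.inl (hn (Finset.mem_image_of_mem _ he)))

lemma cov1 {β : ℝ} {κ : Kernel W S} (h : CovGibbs β 1 κ) (z : V) :
    ∀ᵐ w ∂P, κ (shW z w) = (κ w).map (shS z) := by
  simpa only [one_smul] using h.cov z

lemma measurable_mix (F : Finset E) : Measurable fun p : W × W => mix F p.1 p.2 :=
  measurable_pi_lambda _ fun e => by
    unfold mix
    split_ifs
    · exact (measurable_pi_apply e).comp measurable_snd
    · exact (measurable_pi_apply e).comp measurable_fst

lemma continuous_mix (F : Finset E) : Continuous fun p : W × W => mix F p.1 p.2 :=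
  continuous_pi fun e => by
    unfold mix
    split_ifs
    · exact (continuous_apply e).comp continuous_snd
    · exact (continuous_apply e).comp continuous_fst

lemma continuous_neg' (F : Finset E) : Continuous (neg F) :=
  continuous_pi fun e => by
    unfold neg
    split_ifs
    · exact (continuous_apply e).neg
    · exact continuous_apply e

lemma continuous_rot (t : ℝ) : Continuous (rot t) := by unfold rot; fun_prop

lemma mix_mix (F : Finset E) (w u v : W) : mix F (mix F w u) v = mix F w v := by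
  funext e; unfold mix; split_ifs <;> rfl

lemma mix_self (F : Finset E) (w : W) : mix F w w = w := by
  funext e; unfold mix; split_ifs <;> rfl

lemma neg_neg' (F : Finset E) (w : W) : neg F (neg F w) = w := by
  funext e; unfold neg; split_ifs <;> simp

lemma mp_neg (F : Finset E) : MeasurePreserving (neg F) P P := by
  refine ⟨(continuous_neg' F).measurable, ?_⟩
  have h := Measure.infinitePi_map_pi (μ := fun _ : E => gaussianReal 0 1)
    (f := fun e (t : ℝ) => if e ∈ F then -t else t)
    (fun e => by split_ifs <;> fun_prop)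
  refine h.trans ?_
  unfold P
  congr 1; funext e
  split_ifs
  · simpa using gaussianReal_map_neg (μ := 0) (v := 1)
  · exact Measure.map_id

instance (κ : Kernel W S) [IsMarkovKernel κ] : IsProbabilityMeasure (M2 κ) := by
  unfold M2; infer_instance

instance (κ : Kernel W S) [IsMarkovKernel κ] : IsProbabilityMeasure (M3 κ) := by
  unfold M3; infer_instance

end Pool.Agent.MP_c70b3b_mp.Cg

end

section

open MeasureTheory ProbabilityTheory Filter Topology
open scoped symmDiff ENNReal

namespace Pool.Agent.MP_c70b3b_mp.Cg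

/-- The weight of the flip set `U`. -/
noncomputable def gW (β : ℝ) (L U : Finset V) (p : W × S) : ℝ :=
  Real.exp (en (β • p.1) (touch L) (flp U p.2)) / gZ (β • p.1) L p.2

lemma gW_nonneg (β : ℝ) (L U : Finset V) (p : W × S) : 0 ≤ gW β L U p :=
  div_nonneg (Real.exp_pos _).le (gZ_pos _ _ _).le

lemma measurable_gW (β : ℝ) (L U : Finset V) : Measurable (gW β L U) := by
  have hf : ∀ U : Finset V, Measurable fun p : W × S => (p.1, flp U p.2) := fun U =>
    measurable_fst.prodMk ((measurable_flp U).comp measurable_snd)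
  exact ((measurable_en2 β _).comp (hf U)).exp.div
    (Finset.measurable_sum _ fun U _ => ((measurable_en2 β _).comp (hf U)).exp)

/-- The finite volume Gibbs measure with couplings `β • p.1` and boundary condition `p.2`. -/
noncomputable def gK (β : ℝ) (L : Finset V) : Kernel (W × S) S where
  toFun p := ∑ U ∈ L.powerset, ENNReal.ofReal (gW β L U p) • Measure.dirac (flp U p.2)
  measurable' := by
    refine Measure.measurable_of_measurable_coe _ fun s hs => ?_
    simp only [Measure.coe_finsetSum, Finset.sum_apply, Measure.smul_apply, smul_eq_mul,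
      Measure.dirac_apply' _ hs]
    exact Finset.measurable_sum _ fun U _ => (measurable_gW β L U).ennreal_ofReal.mul
      ((measurable_one.indicator hs).comp ((measurable_flp U).comp measurable_snd))

lemma gK_apply (β : ℝ) (L : Finset V) (p : W × S) : gK β L p =
    ∑ U ∈ L.powerset, ENNReal.ofReal (gW β L U p) • Measure.dirac (flp U p.2) := rfl

lemma integral_gK (β : ℝ) (L : Finset V) (p : W × S) (g : S → ℝ) :
    ∫ σ, g σ ∂gK β L p = gam (β • p.1) L g p.2 := by
  rw [gK_apply, integral_finsetSum_measure fun U _ =>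
    (integrable_dirac (by simp)).smul_measure ENNReal.ofReal_ne_top, gam, Finset.sum_div]
  refine Finset.sum_congr rfl fun U _ => ?_
  rw [integral_smul_measure, integral_dirac, ENNReal.toReal_ofReal (gW_nonneg β L U p), gW,
    smul_eq_mul]
  ring

instance (β : ℝ) (L : Finset V) : IsMarkovKernel (gK β L) := ⟨fun p => ⟨by
  rw [gK_apply]
  simp only [Measure.coe_finsetSum, Finset.sum_apply, Measure.smul_apply, smul_eq_mul,
    measure_univ, mul_one]
  rw [← ENNReal.ofReal_sum_of_nonneg fun U _ => gW_nonneg β L U p]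
  simp only [gW]
  rw [← Finset.sum_div, ← gZ, div_self (gZ_pos _ _ _).ne', ENNReal.ofReal_one]⟩⟩

/-- The finite volume kernel with a coupling dependent boundary condition. -/
noncomputable def gKs (β : ℝ) (L : Finset V) {s : W → S} (hs : Measurable s) : Kernel W S :=
  (gK β L).comap (fun w => (w, s w)) (measurable_id.prodMk hs)

instance (β : ℝ) (L : Finset V) {s : W → S} (hs : Measurable s) :
    IsMarkovKernel (gKs β L hs) := by unfold gKs; infer_instance

lemma integral_gKs (β : ℝ) (L : Finset V) {s : W → S} (hs : Measurable s) (w : W) (g : S → ℝ) :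
    ∫ σ, g σ ∂gKs β L hs w = gam (β • w) L g (s w) := by
  rw [gKs, Kernel.comap_apply, integral_gK]

end Pool.Agent.MP_c70b3b_mp.Cg

end

section

open MeasureTheory ProbabilityTheory Filter Topology BoundedContinuousFunction
open scoped symmDiff ENNReal

namespace Pool.Agent.MP_c70b3b_mp.Cg

variable {β : ℝ} {κ : Kernel W S} {π : Kernel (W × S) S} {m : ℕ → ℕ}

theorem measurableSet_Om (β : ℝ) (m : ℕ → ℕ) : MeasurableSet (Om β m) := by
  unfold Om
  rw [Set.ofPred_forall]
  exact MeasurableSet.iInter fun A => measurableSet_exists_tendsto fun j =>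
    measurable_gam β (box (m j)) (g := fun p => chr A p.2) ((measurable_chr A).comp measurable_snd)

/-- The finite volume measures as points of the compact space of probability measures. -/
noncomputable def p2G (β : ℝ) (m : ℕ → ℕ) (p : W × S) (j : ℕ) : ProbabilityMeasure S :=
  ⟨gK β (box (m j)) p, inferInstance⟩

lemma p2_int (β : ℝ) (m : ℕ → ℕ) (p : W × S) (j : ℕ) (g : S → ℝ) :
    ∫ σ, g σ ∂(p2G β m p j : Measure S) = gam (β • p.1) (box (m j)) g p.2 :=
  integral_gK β _ p g

lemma p2_cont {g : S → ℝ} (hg : Continuous g) :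
    Continuous fun ν : ProbabilityMeasure S => ∫ σ, g σ ∂(ν : Measure S) :=
  ProbabilityMeasure.continuous_integral_boundedContinuousFunction (mkOfCompact ⟨g, hg⟩)

lemma p2_lim {p : W × S} (hp : p ∈ Om β m) : ∃ ν, Tendsto (p2G β m p) atTop (𝓝 ν) := by
  have key : ∀ ν, MapClusterPt ν atTop (p2G β m p) → ∀ (A : Finset V) (c : ℝ),
      Tendsto (fun j => gam (β • p.1) (box (m j)) (chr A) p.2) atTop (𝓝 c) →
      ∫ σ, chr A σ ∂(ν : Measure S) = c := by
    intro ν hν A c hc
    have h1 := hν.continuousAt_comp (p2_cont (continuous_chr A)).continuousAt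
    refine eq_of_nhds_neBot (ClusterPt.mono h1 ?_)
    exact hc.congr fun j => (p2_int β m p j _).symm
  obtain ⟨ν, -, hν⟩ := isCompact_univ.exists_mapClusterPt (f := atTop) (u := p2G β m p) (by simp)
  refine ⟨ν, tendsto_nhds_of_unique_mapClusterPt fun ν' hν' => ?_⟩
  refine Subtype.ext (ext_chr (ρ := (ν' : Measure S)) (ρ' := (ν : Measure S)) fun A => ?_)
  obtain ⟨c, hc⟩ := hp A
  rw [key ν' hν' A c hc, key ν hν A c hc]

/-- The uniform measure. -/
noncomputable def p2U : ProbabilityMeasure S := ⟨unif, inferInstance⟩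

open Classical in
/-- The limit measure on `Om`, a fixed measure elsewhere. -/
noncomputable def p2N (β : ℝ) (m : ℕ → ℕ) (p : W × S) : ProbabilityMeasure S :=
  if hp : p ∈ Om β m then (p2_lim hp).choose else p2U

lemma p2_tend {p : W × S} (hp : p ∈ Om β m) {g : S → ℝ} (hg : Continuous g) :
    Tendsto (fun j => gam (β • p.1) (box (m j)) g p.2) atTop
      (𝓝 (∫ σ, g σ ∂(p2N β m p : Measure S))) := by
  have h : Tendsto (p2G β m p) atTop (𝓝 (p2N β m p)) := by
    rw [p2N, dif_pos hp]; exact (p2_lim hp).choose_spec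
  exact (((p2_cont hg).tendsto _).comp h).congr fun j => p2_int β m p j g

lemma p2_meas (β : ℝ) (m : ℕ → ℕ) {g : S → ℝ} (hg : Continuous g) :
    Measurable fun p => ∫ σ, g σ ∂(p2N β m p : Measure S) := by
  classical
  refine measurable_of_tendsto_metrizable (f := fun j p => if p ∈ Om β m then
    gam (β • p.1) (box (m j)) g p.2 else ∫ σ, g σ ∂(p2U : Measure S)) (fun j => ?_) ?_
  · exact Measurable.ite (measurableSet_Om β m)
      (measurable_gam β _ (g := fun p => g p.2) (hg.measurable.comp measurable_snd))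
      measurable_const
  · refine tendsto_pi_nhds.2 fun p => ?_
    by_cases hp : p ∈ Om β m
    · simpa only [if_pos hp] using p2_tend hp hg
    · simp only [if_neg hp, p2N, dif_neg hp]
      exact tendsto_const_nhds

lemma p2_measN (β : ℝ) (m : ℕ → ℕ) : Measurable fun p => (p2N β m p : Measure S) := by
  refine Measurable.measure_of_isPiSystem_of_isProbabilityMeasure
    generateFrom_measurableCylinders.symm isPiSystem_measurableCylinders fun s hs => ?_
  obtain ⟨I, T, hT, rfl⟩ := (mem_measurableCylinders _).1 hs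
  have hm : MeasurableSet (cylinder (α := fun _ : V => ℤˣ) I T) := hT.cylinder
  have hc : Continuous ((cylinder (α := fun _ : V => ℤˣ) I T).indicator (1 : S → ℝ)) :=
    (continuous_of_discreteTopology (f := T.indicator (fun _ => (1 : ℝ)))).comp
      (Finset.continuous_restrict I)
  have h := (p2_meas β m hc).ennreal_ofReal
  simp only [integral_indicator_one hm] at h
  simpa only [ofReal_measureReal (measure_ne_top _ _)] using h

theorem exists_pi (β : ℝ) (m : ℕ → ℕ) : ∃ π : Kernel (W × S) S, IsMarkovKernel π ∧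
    ∀ p ∈ Om β m, ∀ g : S → ℝ, Continuous g →
      Tendsto (fun j => gam (β • p.1) (box (m j)) g p.2) atTop (𝓝 (∫ σ, g σ ∂π p)) :=
  ⟨⟨fun p => (p2N β m p : Measure S), p2_measN β m⟩,
    ⟨fun p => (p2N β m p).2⟩, fun _ hp _ hg => p2_tend hp hg⟩

end Pool.Agent.MP_c70b3b_mp.Cg

end

section

open MeasureTheory ProbabilityTheory Filter Topology BoundedContinuousFunction
open scoped symmDiff ENNReal

namespace Pool.Agent.MP_c70b3b_mp.Cg

variable {β : ℝ} {κ : Kernel W S} {π : Kernel (W × S) S} {m : ℕ → ℕ}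

lemma p3_int {μ : Measure S} [IsFiniteMeasure μ] {g : S → ℝ} (hg : Continuous g) :
    Integrable g μ := by
  obtain ⟨C, hC⟩ := exists_bound hg
  exact integrable_of_bdd hg.measurable C hC

lemma p3_one (A : Finset V) (x : V) :
    ∃ B : Finset V, (Even B.card ↔ ¬ Even A.card) ∧ ∀ σ, chr A σ * sp (σ x) = chr B σ := by
  by_cases hx : x ∈ A
  · refine ⟨A.erase x, ?_, fun σ => ?_⟩
    · rw [← Finset.card_erase_add_one hx, Nat.even_add_one, not_not]
    · rw [chr, ← Finset.prod_erase_mul _ _ hx, mul_assoc, sp_mul_self, mul_one, chr]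
  · refine ⟨insert x A, ?_, fun σ => ?_⟩
    · rw [Finset.card_insert_of_notMem hx, Nat.even_add_one]
    · rw [chr, chr, Finset.prod_insert hx, mul_comm]

lemma p3_ev {μ μ' : Measure S} [IsFiniteMeasure μ] [IsFiniteMeasure μ'] (h : EvEq μ μ') (K : W)
    (F : Finset E) : ∀ A : Finset V, Even A.card →
      ∫ σ, chr A σ * Real.exp (en K F σ) ∂μ = ∫ σ, chr A σ * Real.exp (en K F σ) ∂μ' := by
  induction F using Finset.induction_on with
  | empty => simpa [en, EvEq] using h
  | insert e F he ih =>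
    intro A hA
    obtain ⟨B, b1, b2⟩ := p3_one A e.1
    obtain ⟨C, c1, c2⟩ := p3_one B (tip e)
    have hC : Even C.card := c1.2 fun hB => b1.1 hB hA
    have key : ∀ σ, chr A σ * Real.exp (en K (insert e F) σ) =
        Real.cosh (K e) * (chr A σ * Real.exp (en K F σ)) +
          Real.sinh (K e) * (chr C σ * Real.exp (en K F σ)) := fun σ => by
      have e1 : Real.exp (K e * bond σ e) = Real.cosh (K e) + Real.sinh (K e) * bond σ e := by
        rcases bond_cases σ e with hb | hb <;> rw [hb]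
        · rw [mul_one, mul_one, Real.cosh_add_sinh]
        · rw [mul_neg_one, mul_neg_one, ← sub_eq_add_neg, Real.cosh_sub_sinh]
      rw [en, Finset.sum_insert he, Real.exp_add, e1, ← c2, ← b2, bond, en]
      ring
    have hc : ∀ A, Continuous fun σ => chr A σ * Real.exp (en K F σ) := fun A =>
      (continuous_chr A).mul (continuous_en K F).rexp
    simp only [key]
    rw [integral_add ((p3_int (hc A)).const_mul _) ((p3_int (hc C)).const_mul _),
      integral_add ((p3_int (hc A)).const_mul _) ((p3_int (hc C)).const_mul _)]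
    simp only [integral_const_mul]
    rw [ih A hA, ih C hC]

lemma p3_tilt (h : Pure β κ π m) {w : W} {σ : S} (hp : (w, σ) ∈ Om β m) (F : Finset E) (u : W)
    {g : S → ℝ} (hg : Continuous g) :
    Tendsto (fun j => gam (β • mix F w u) (box (m j)) g σ) atTop
      (𝓝 ((∫ τ, g τ * Real.exp (en (β • u + -(β • w)) F τ) ∂π (w, σ)) /
        ∫ τ, Real.exp (en (β • u + -(β • w)) F τ) ∂π (w, σ))) := by
  have := h.markov
  have hc := (continuous_en (β • u + -(β • w)) F).rexp
  have e : β • mix F w u = β • w + cut F (β • u + -(β • w)) := by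
    funext e
    simp only [mix, cut, Pi.smul_apply, Pi.add_apply, Pi.neg_apply]
    split_ifs <;> simp
  refine ((h.lim _ hp _ (hg.mul hc)).div (h.lim _ hp _ hc)
    (integral_exp_pos (p3_int hc)).ne').congr' ?_
  filter_upwards [h.top.eventually (eventually_sub_touch F)] with j hj
  rw [e, gam_tilt _ _ hj]
  rfl

lemma p3_mix (h : Pure β κ π m) {w : W} {σ : S} (hp : (w, σ) ∈ Om β m) (F : Finset E) (u : W) :
    (mix F w u, σ) ∈ Om β m ∧ ∀ g : S → ℝ, Continuous g → ∫ τ, g τ ∂π (mix F w u, σ) =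
      (∫ τ, g τ * Real.exp (en (β • u + -(β • w)) F τ) ∂π (w, σ)) /
        ∫ τ, Real.exp (en (β • u + -(β • w)) F τ) ∂π (w, σ) := by
  have h1 : (mix F w u, σ) ∈ Om β m := fun A => ⟨_, p3_tilt h hp F u (continuous_chr A)⟩
  exact ⟨h1, fun g hg => tendsto_nhds_unique (h.lim _ h1 g hg) (p3_tilt h hp F u hg)⟩

lemma p3_eqv (h : Pure β κ π m) (F : Finset E) {w : W} (u : W) {σ σ' : S}
    (he : Eqv β π m w σ σ') : Eqv β π m (mix F w u) σ σ' := by
  have := h.markov
  obtain ⟨a1, a2⟩ := p3_mix h he.1 F u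
  obtain ⟨b1, b2⟩ := p3_mix h he.2.1 F u
  refine ⟨a1, b1, fun A hA => ?_⟩
  have h0 := p3_ev he.2.2 (β • u + -(β • w)) F ∅ (by simp)
  simp only [chr, Finset.prod_empty, one_mul] at h0
  rw [a2 _ (continuous_chr A), b2 _ (continuous_chr A), p3_ev he.2.2 _ F A hA, h0]

theorem Pure.gibbs (h : Pure β κ π m) {p : W × S} (hp : p ∈ Om β m) : Gibbs (β • p.1) (π p) := by
  have := h.markov
  refine ⟨inferInstance, fun x => ?_⟩
  have hc := ((continuous_en (β • p.1) (cob {x})).const_mul (-2)).rexp
  have := isFiniteMeasure_withDensity_ofReal (μ := π p) (p3_int hc).2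
  refine ext_of_forall_integral_eq_of_IsFiniteMeasure fun g => ?_
  rw [integral_map (measurable_flp _).aemeasurable g.continuous.measurable.aestronglyMeasurable,
    gib_integral _ ((measurable_en _ _).const_mul _)]
  refine tendsto_nhds_unique ((h.lim p hp _ (g.continuous.comp (continuous_flp {x}))).congr' ?_)
    (h.lim p hp _ (g.continuous.mul hc))
  filter_upwards [h.top.eventually (eventually_sub_box {x})] with j hj
  exact gam_flip _ hj g p.2

theorem Pure.flp (h : Pure β κ π m) {w : W} {σ : S} (hp : (w, σ) ∈ Om β m) (U : Finset V) :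
    (w, flp U σ) ∈ Om β m ∧ π (w, flp U σ) = π (w, σ) := by
  have := h.markov
  have key : ∀ A, Tendsto (fun j => gam (β • w) (box (m j)) (chr A)
      (Pool.Agent.MP_c70b3b_mp.flp U σ)) atTop (𝓝 (∫ τ, chr A τ ∂π (w, σ))) := fun A => by
    refine (h.lim _ hp _ (continuous_chr A)).congr' ?_
    filter_upwards [h.top.eventually (eventually_sub_box U)] with j hj
    exact (gam_flp _ hj _ σ).symm
  have h1 : (w, Pool.Agent.MP_c70b3b_mp.flp U σ) ∈ Om β m := fun A => ⟨_, key A⟩
  exact ⟨h1, ext_chr fun A => tendsto_nhds_unique (h.lim _ h1 _ (continuous_chr A)) (key A)⟩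

theorem Pure.mix (h : Pure β κ π m) {w : W} {σ : S} (hp : (w, σ) ∈ Om β m) (F : Finset E) (u : W) :
    (mix F w u, σ) ∈ Om β m ∧ ∀ g : S → ℝ, Continuous g →
      ∫ τ, g τ ∂π (mix F w u, σ) = av F (tilt (-(β • w)) F (π (w, σ))) (β • u) g := by
  obtain ⟨h1, h2⟩ := p3_mix h hp F u
  refine ⟨h1, fun g hg => ?_⟩
  rw [h2 g hg, av, lz, integral_tilt, integral_tilt]
  simp only [en_add, Real.exp_add, mul_assoc]

theorem Pure.eqv_mix (h : Pure β κ π m) (F : Finset E) (w u : W) (σ σ' : S) :
    Eqv β π m (Cg.mix F w u) σ σ' ↔ Eqv β π m w σ σ' := by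
  refine ⟨fun he => ?_, p3_eqv h F u⟩
  have := p3_eqv h F w he
  rwa [mix_mix, mix_self] at this

theorem Pure.meas_eqv (h : Pure β κ π m) :
    MeasurableSet {x : W × S × S | Eqv β π m x.1 x.2.1 x.2.2} := by
  have := h.markov
  have m1 : Measurable fun x : W × S × S => (x.1, x.2.1) := by fun_prop
  have m2 : Measurable fun x : W × S × S => (x.1, x.2.2) := by fun_prop
  have m3 : ∀ A, Measurable fun p => ∫ τ, chr A τ ∂π p := fun A =>
    (measurable_chr A).stronglyMeasurable.integral_kernel.measurable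
  refine (m1 (measurableSet_Om β m)).inter ((m2 (measurableSet_Om β m)).inter ?_)
  have e : {x : W × S × S | EvEq (π (x.1, x.2.1)) (π (x.1, x.2.2))} =
      ⋂ (A : Finset V) (_ : Even A.card),
        {x | ∫ τ, chr A τ ∂π (x.1, x.2.1) = ∫ τ, chr A τ ∂π (x.1, x.2.2)} := by
    ext x
    simp only [EvEq, Set.mem_ofPred_eq, Set.mem_iInter]
  change MeasurableSet {x : W × S × S | EvEq (π (x.1, x.2.1)) (π (x.1, x.2.2))}
  rw [e]
  exact MeasurableSet.iInter fun A => MeasurableSet.iInter fun _ =>
    measurableSet_eq_fun ((m3 A).comp m1) ((m3 A).comp m2)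

end Pool.Agent.MP_c70b3b_mp.Cg

end

section

open MeasureTheory ProbabilityTheory Filter Topology BoundedContinuousFunction
open scoped symmDiff ENNReal

namespace Pool.Agent.MP_c70b3b_mp.Cg

variable {β : ℝ} {κ : Kernel W S} {π : Kernel (W × S) S} {m : ℕ → ℕ}

lemma mm_mp {X Y : Type} [MeasurableSpace X] [MeasurableSpace Y] {η : Kernel W X} {ξ : Kernel W Y}
    [IsMarkovKernel η] [IsMarkovKernel ξ] {T : W → W} (hT : MeasurePreserving T P P) {f : X → Y}
    (hf : Measurable f) (h : ∀ᵐ w ∂P, (η w).map f = ξ (T w)) :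
    MeasurePreserving (fun x : W × X => (T x.1, f x.2)) (P ⊗ₘ η) (P ⊗ₘ ξ) := by
  have hm : Measurable fun x : W × X => (T x.1, f x.2) :=
    (hT.measurable.comp measurable_fst).prodMk (hf.comp measurable_snd)
  refine ⟨hm, Measure.ext fun s hs => ?_⟩
  rw [Measure.map_apply hm hs, Measure.compProd_apply (hm hs), Measure.compProd_apply hs,
    ← hT.lintegral_comp (Kernel.measurable_kernel_prodMk_left hs)]
  refine lintegral_congr_ae (h.mono fun w hw => ?_)
  simp only
  rw [← hw, Measure.map_apply hf (measurable_prodMk_left hs)]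
  rfl

theorem mp21 (κ : Kernel W S) [IsMarkovKernel κ] :
    MeasurePreserving (fun x : W × S × S => (x.1, x.2.1)) (M2 κ) (P ⊗ₘ κ) :=
  mm_mp (MeasurePreserving.id P) measurable_fst (ae_of_all _ fun w => by
    rw [Kernel.prod_apply, Measure.map_fst_prod, measure_univ, one_smul, id])

theorem mp22 (κ : Kernel W S) [IsMarkovKernel κ] :
    MeasurePreserving (fun x : W × S × S => (x.1, x.2.2)) (M2 κ) (P ⊗ₘ κ) :=
  mm_mp (MeasurePreserving.id P) measurable_snd (ae_of_all _ fun w => by
    rw [Kernel.prod_apply, Measure.map_snd_prod, measure_univ, one_smul, id])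

theorem mp312 (κ : Kernel W S) [IsMarkovKernel κ] :
    MeasurePreserving (fun x : W × S × S × S => (x.1, x.2.1, x.2.2.1)) (M3 κ) (M2 κ) :=
  mm_mp (MeasurePreserving.id P) (f := Prod.map id Prod.fst) (measurable_id.prodMap measurable_fst)
    (ae_of_all _ fun w => by
      rw [Kernel.prod_apply, Kernel.prod_apply, Kernel.prod_apply,
        ← Measure.map_prod_map _ _ measurable_id measurable_fst, Measure.map_fst_prod,
        measure_univ, one_smul, Measure.map_id, id])

theorem mp313 (κ : Kernel W S) [IsMarkovKernel κ] :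
    MeasurePreserving (fun x : W × S × S × S => (x.1, x.2.1, x.2.2.2)) (M3 κ) (M2 κ) :=
  mm_mp (MeasurePreserving.id P) (f := Prod.map id Prod.snd) (measurable_id.prodMap measurable_snd)
    (ae_of_all _ fun w => by
      rw [Kernel.prod_apply, Kernel.prod_apply, Kernel.prod_apply,
        ← Measure.map_prod_map _ _ measurable_id measurable_snd, Measure.map_snd_prod,
        measure_univ, one_smul, Measure.map_id, id])

theorem mp323 (κ : Kernel W S) [IsMarkovKernel κ] :
    MeasurePreserving (fun x : W × S × S × S => (x.1, x.2.2.1, x.2.2.2)) (M3 κ) (M2 κ) :=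
  mm_mp (MeasurePreserving.id P) measurable_snd (ae_of_all _ fun w => by
    rw [Kernel.prod_apply, Measure.map_snd_prod, measure_univ, one_smul, id])

theorem mp2_shift (hκ : CovGibbs β 1 κ) (z : V) : MeasurePreserving
    (fun x : W × S × S => (shW z x.1, shS z x.2.1, shS z x.2.2)) (M2 κ) (M2 κ) := by
  haveI := hκ.markov
  exact mm_mp (mp_shW z) (f := Prod.map (shS z) (shS z))
    ((measurable_shS z).prodMap (measurable_shS z)) ((cov1 hκ z).mono fun w hw => by
      rw [Kernel.prod_apply, Kernel.prod_apply, hw,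
        Measure.map_prod_map _ _ (measurable_shS z) (measurable_shS z)])

end Pool.Agent.MP_c70b3b_mp.Cg

end

section

open MeasureTheory ProbabilityTheory Filter Topology BoundedContinuousFunction
open scoped symmDiff ENNReal

namespace Pool.Agent.MP_c70b3b_mp.Cg

variable {β : ℝ} {κ : Kernel W S} {π : Kernel (W × S) S} {m : ℕ → ℕ}

lemma e1_indep {A A' : Finset E} (hd : Disjoint A A') {F G : W → ℝ} (hF : Measurable F)
    (hG : Measurable G) (dF : DependsOn F (A : Set E)) (dG : DependsOn G (A' : Set E)) :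
    ∫ w, F w * G w ∂P = (∫ w, F w ∂P) * ∫ w, G w ∂P := by
  have ext : ∀ C : Finset E, Measurable
      fun (x : C → ℝ) (y : E) => if h : y ∈ C then x ⟨y, h⟩ else 0 := by
    intro C
    refine measurable_pi_lambda _ fun y => ?_
    by_cases h : y ∈ C
    · simpa [h] using measurable_pi_apply _
    · simp [h]
  have h1 := (iIndep_P.indepFun_finset A A' hd fun y => measurable_pi_apply y).comp
    (hF.comp (ext A)) (hG.comp (ext A'))
  have h2 : IndepFun F G P := by
    convert h1 using 1
    · funext w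
      exact dF fun y hy => by simp [Finset.mem_coe.1 hy]
    · funext w
      exact dG fun y hy => by simp [Finset.mem_coe.1 hy]
  exact h2.integral_fun_mul_eq_mul_integral hF.aestronglyMeasurable hG.aestronglyMeasurable

lemma e1_far (B : Finset E) : ∃ z, Disjoint B (B.image (shE z)) := by
  obtain ⟨z, hz⟩ := Infinite.exists_notMem_finset ((B ×ˢ B).image fun p => p.1.1 - p.2.1)
  refine ⟨z, Finset.disjoint_left.2 fun e he h => hz ?_⟩
  obtain ⟨e', he', rfl⟩ := Finset.mem_image.1 h
  exact Finset.mem_image.2 ⟨(shE z e', e'), Finset.mem_product.2 ⟨he, he'⟩, by simp [shE]⟩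

lemma e1_mul {a b : ℝ} (ha : |a| ≤ 1) (hb : |b| ≤ 1) : |a * b| ≤ 1 := by
  rw [abs_mul]
  exact mul_le_one₀ ha (abs_nonneg _) hb

lemma e1_le {a b c d : ℝ} (hb : |b| ≤ 1) (hc : |c| ≤ 1) :
    a * b ≤ c * d + (|a - c| + |b - d|) := by
  have h1 : (a - c) * b ≤ |a - c| := (le_abs_self _).trans (by
    rw [abs_mul]; exact mul_le_of_le_one_right (abs_nonneg _) hb)
  have h2 : c * (b - d) ≤ |b - d| := (le_abs_self _).trans (by
    rw [abs_mul]; exact mul_le_of_le_one_left (abs_nonneg _) hc)
  linarith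

lemma e1_int {g : W → ℝ} (hb : ∀ w, |g w| ≤ 1) : |∫ w, g w ∂P| ≤ 1 := by
  simpa using norm_integral_le_of_norm_le_const (μ := P) (f := g) (C := 1)
    (Eventually.of_forall hb)

theorem erg {f : W → ℝ} (hf : Measurable f) (hb : ∀ w, |f w| ≤ 1)
    (hz : ∀ z, ∀ᵐ w ∂P, f (shW z w) = f w) : ∃ c, ∀ᵐ w ∂P, f w = c := by
  have hL : MemLp f 2 P := MemLp.of_bound hf.aestronglyMeasurable 1 (Eventually.of_forall hb)
  refine ⟨_, ae_eq_integral_of_variance_eq_zero hL (le_antisymm ?_ (variance_nonneg _ _))⟩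
  rw [variance_eq_sub hL, sub_nonpos]
  refine le_of_forall_pos_le_add fun ε hε => ?_
  obtain ⟨B, g, hg, hd, hgb, hi⟩ := exists_local hf hb (ε := ε / 4) (by positivity)
  obtain ⟨z, hB⟩ := e1_far B
  have mg := hg.measurable
  have ms := measurable_shW z
  have h1 := e1_indep hB mg (mg.comp ms) hd fun w w' h => hd fun e he =>
    h (shE z e) (Finset.mem_coe.2 (Finset.mem_image_of_mem _ he))
  have i1 : Integrable (fun w => |f w - g w|) P :=
    ((integrable_of_bdd hf 1 hb).sub (integrable_of_bdd mg 1 hgb)).abs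
  have i2 : Integrable (fun w => |f (shW z w) - g (shW z w)|) P :=
    (mp_shW z).integrable_comp_of_integrable i1
  have i3 : Integrable (fun w => g w * g (shW z w)) P :=
    integrable_of_bdd (mg.mul (mg.comp ms)) 1 fun w => e1_mul (hgb _) (hgb _)
  have h2 : ∫ w, (f ^ 2) w ∂P
      ≤ ∫ w, g w * g (shW z w) + (|f w - g w| + |f (shW z w) - g (shW z w)|) ∂P := by
    refine integral_mono_ae hL.integrable_sq (i3.add (i1.add i2)) ?_
    filter_upwards [hz z] with w hw
    have := e1_le (a := f w) (d := g (shW z w)) (hb (shW z w)) (hgb w)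
    rwa [show f w * f (shW z w) = (f ^ 2) w by rw [hw, Pi.pow_apply, sq]] at this
  rw [integral_add i3 (i1.fun_add i2), integral_add i1 i2,
    edge_sh z (f := fun w => |f w - g w|) (hf.sub mg).abs] at h2
  simp only [Function.comp_apply] at h1
  rw [edge_sh z mg] at h1
  have h3 := e1_le (a := ∫ w, g w ∂P) (d := ∫ w, f w ∂P) (e1_int hgb) (e1_int hb)
  have h4 : |∫ w, g w ∂P - ∫ w, f w ∂P| ≤ ε / 4 := by
    rw [abs_sub_comm, ← integral_sub (integrable_of_bdd hf 1 hb) (integrable_of_bdd mg 1 hgb)]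
    exact (abs_integral_le_integral_abs).trans hi
  rw [sq (∫ w, f w ∂P)]
  linarith

end Pool.Agent.MP_c70b3b_mp.Cg

end

section

open MeasureTheory ProbabilityTheory Filter Topology BoundedContinuousFunction
open scoped symmDiff ENNReal

namespace Pool.Agent.MP_c70b3b_mp.Cg

variable {β : ℝ} {κ : Kernel W S} {π : Kernel (W × S) S} {m : ℕ → ℕ}

lemma fin_flip (β : ℝ) {L : Finset V} {s : W → S} (hs : Measurable s) {x : V} (hx : x ∈ L) :
    FlipInv β x (P ⊗ₘ gKs β L hs) := by
  refine flipInv_of_kernel _ (Eventually.of_forall fun w => ?_)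
  have hc : Continuous fun σ : S => Real.exp (-2 * en (β • w) (cob {x}) σ) :=
    (continuous_const.mul (continuous_en _ _)).rexp
  obtain ⟨C, hC⟩ := exists_bound hc
  have hi : Integrable (fun σ : S => Real.exp (-2 * en (β • w) (cob {x}) σ)) (gKs β L hs w) :=
    integrable_of_bdd hc.measurable C hC
  have := isFiniteMeasure_withDensity_ofReal hi.2
  refine ext_of_forall_integral_eq_of_IsFiniteMeasure fun f => ?_
  rw [integral_map (measurable_flp _).aemeasurable f.continuous.aestronglyMeasurable,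
    integral_withDensity_eq_integral_toReal_smul hc.measurable.ennreal_ofReal
      (Eventually.of_forall fun _ => ENNReal.ofReal_lt_top), integral_gKs, integral_gKs,
    gam_flip _ (Finset.singleton_subset_iff.2 hx)]
  congr 1; funext τ
  rw [ENNReal.toReal_ofReal (Real.exp_pos _).le, smul_eq_mul, mul_comm]

lemma fin_shift (hκ : CovGibbs β 1 κ) (z : V) : (P ⊗ₘ κ).map (shift z) = P ⊗ₘ κ := by
  have := hκ.markov
  refine Measure.ext_of_lintegral _ fun f hf => ?_
  have hm : Measurable fun w => ∫⁻ σ, f (w, σ) ∂κ w := hf.lintegral_kernel_prod_right'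
  rw [lintegral_map hf (measurable_shift z),
    Measure.lintegral_compProd (f := fun p => f (shift z p)) (hf.comp (measurable_shift z)),
    Measure.lintegral_compProd hf, ← (mp_shW z).lintegral_comp hm]
  refine lintegral_congr_ae ((cov1 hκ z).mono fun w hw => ?_)
  have h2 : Measurable fun σ => f (shW z w, σ) := hf.comp measurable_prodMk_left
  simp only [hw, lintegral_map h2 (measurable_shS z), shift_eq]

theorem fin_lim (hβ : 0 ≤ β) (hκ : CovGibbs β 1 κ) (s : ℕ → W → S) (hs : ∀ n, Measurable (s n))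
    (g : W × S →ᵇ ℝ) :
    Tendsto (fun n : ℕ => (∑ z ∈ box n, ∫ w, gam (β • w) (box n)
      (fun σ => g (shift z (w, σ))) (s n w) ∂P) / (box n).card) atTop (𝓝 (∫ p, g p ∂(P ⊗ₘ κ))) := by
  have := hκ.markov
  let ν' : ℕ → Measure (W × S) := fun n => P ⊗ₘ gKs β (box (n + 1)) (hs (n + 1))
  have hp : ∀ n, IsProbabilityMeasure (ν' n) := fun n => by
    simp only [ν']; infer_instance
  let μ : ℕ → ProbabilityMeasure (W × S) := fun n => ⟨avg n (ν' n), avg_prob n (ν' n)⟩
  have h1 : ∀ n, (μ n : Measure (W × S)).map Prod.fst = P := fun n =>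
    avg_fst n (Measure.fst_compProd P _)
  have hk : ∀ ν : ProbabilityMeasure (W × S), MapClusterPt ν atTop μ →
      IsEA β ν ∧ ∀ z, (ν : Measure (W × S)).map (shift z) = ν := by
    intro ν hν
    refine ⟨isEA_of_flipInv (lim_fst μ h1 hν) fun x g => ?_,
       fun z => inv_of_cluster μ z (final_shift ν' z) hν⟩
    have hc := (ProbabilityMeasure.continuous_integral_boundedContinuousFunction
      (limMul β x g _ (lim_flip_cont x))).sub
      (ProbabilityMeasure.continuous_integral_boundedContinuousFunction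
      (limMul β x g _ continuous_id))
    exact sub_eq_zero.1 (lim_key hν hc (c := 0)
      (final_flip ν' (fun n y hy => fin_flip β (hs (n + 1)) hy) x g))
  let ν : ProbabilityMeasure (W × S) := ⟨P ⊗ₘ κ, inferInstance⟩
  have ht : Tendsto μ atTop (𝓝 ν) :=
    (compact_closure μ h1).tendsto_nhds_of_unique_mapClusterPt
      (Eventually.of_forall fun n => subset_closure ⟨n, rfl⟩) fun ν1 _ h2 =>
        Subtype.ext (periodic_unique hβ (hk ν1 h2).1 (isEA_of_kernel κ hκ.gibbs)
          ⟨1, one_pos, fun z => (hk ν1 h2).2 _⟩ ⟨1, one_pos, fun z => fin_shift hκ _⟩)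
  have h3 := ProbabilityMeasure.tendsto_iff_forall_integral_tendsto.1 ht g
  rw [← tendsto_add_atTop_iff_nat 1]
  refine h3.congr fun n => ?_
  refine (integral_avg n (ν' n) g).trans ?_
  congr 1
  refine Finset.sum_congr rfl fun z _ => ?_
  have hi : Integrable (fun p => g (shift z p)) (ν' n) :=
    (g.compContinuous ⟨shift z, continuous_shift z⟩).integrable _
  refine (Measure.integral_compProd hi).trans ?_
  simp only [integral_gKs]

end Pool.Agent.MP_c70b3b_mp.Cg

end

section

open MeasureTheory ProbabilityTheory Filter Topology BoundedContinuousFunction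
open scoped symmDiff ENNReal

namespace Pool.Agent.MP_c70b3b_mp.Cg

variable {β : ℝ} {κ : Kernel W S} {π : Kernel (W × S) S} {m : ℕ → ℕ}

lemma r_zip : MeasurePreserving (MeasurableEquiv.arrowProdEquivProdArrow ℝ ℝ E).symm (P.prod P)
    (Measure.infinitePi fun _ : E => (gaussianReal 0 1).prod (gaussianReal 0 1)) := by
  refine ⟨MeasurableEquiv.measurable _, Measure.eq_infinitePi _ fun s t ht => ?_⟩
  have hr : MeasurePreserving (fun w : W => s.restrict w) P
      (Measure.pi fun _ : s => gaussianReal 0 1) :=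
    ⟨Finset.measurable_restrict _, Measure.infinitePi_map_restrict _⟩
  have h1 := (measurePreserving_arrowProdEquivProdArrow ℝ ℝ s (fun _ => gaussianReal 0 1)
    (fun _ => gaussianReal 0 1)).symm.comp (hr.prod hr)
  have h2 := h1.measure_preimage (s := Set.univ.pi fun i : s => t i)
    (MeasurableSet.univ_pi fun i : s => ht i).nullMeasurableSet
  rw [Measure.pi_pi, Finset.prod_coe_sort s
    fun i => ((gaussianReal 0 1).prod (gaussianReal 0 1)) (t i)] at h2
  rw [Measure.map_apply (MeasurableEquiv.measurable _)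
    (MeasurableSet.pi s.countable_toSet fun i _ => ht i), ← h2]
  congr 1
  ext p
  exact ⟨fun h i _ => h i i.2, fun h i hi => h ⟨i, hi⟩ trivial⟩

lemma r_pi {Y : Type} [MeasurableSpace Y] {ν : Measure Y} [IsProbabilityMeasure ν]
    {f : E → ℝ × ℝ → Y}
    (hf : ∀ e, MeasurePreserving (f e) ((gaussianReal 0 1).prod (gaussianReal 0 1)) ν) :
    MeasurePreserving (fun (p : W × W) e => f e (p.1 e, p.2 e)) (P.prod P)
      (Measure.infinitePi fun _ : E => ν) := by
  have h1 : MeasurePreserving (fun (x : E → ℝ × ℝ) e => f e (x e))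
      (Measure.infinitePi fun _ : E => (gaussianReal 0 1).prod (gaussianReal 0 1))
      (Measure.infinitePi fun _ : E => ν) := by
    refine ⟨measurable_pi_lambda _ fun e => (hf e).measurable.comp (measurable_pi_apply e), ?_⟩
    rw [Measure.infinitePi_map_pi _ fun e => (hf e).measurable]
    congr 1
    funext e
    exact (hf e).map_eq
  exact h1.comp r_zip

theorem mp_mix (F : Finset E) :
    MeasurePreserving (fun p : W × W => mix F p.1 p.2) (P.prod P) P :=
  r_pi (f := fun e x => if e ∈ F then x.2 else x.1) fun e => by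
    split_ifs
    · exact measurePreserving_snd
    · exact measurePreserving_fst

theorem mp_swap (F : Finset E) : MeasurePreserving
    (fun p : W × W => (mix F p.1 p.2, mix F p.2 p.1)) (P.prod P) (P.prod P) := by
  have h := r_zip.symm.comp (r_pi (f := fun e x => if e ∈ F then x.swap else x) fun e => by
    split_ifs
    · exact Measure.measurePreserving_swap
    · exact MeasurePreserving.id _)
  have e : (fun p : W × W => (mix F p.1 p.2, mix F p.2 p.1)) =
      (MeasurableEquiv.arrowProdEquivProdArrow ℝ ℝ E).symm.symm ∘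
        fun (p : W × W) e => if e ∈ F then (p.1 e, p.2 e).swap else (p.1 e, p.2 e) := by
    funext p
    refine Prod.ext (funext fun e => ?_) (funext fun e => ?_)
    · change mix F p.1 p.2 e = (if e ∈ F then (p.1 e, p.2 e).swap else (p.1 e, p.2 e)).1
      unfold mix
      split_ifs <;> rfl
    · change mix F p.2 p.1 e = (if e ∈ F then (p.1 e, p.2 e).swap else (p.1 e, p.2 e)).2
      unfold mix
      split_ifs <;> rfl
  rw [e]
  exact h

theorem mp_rot (t : ℝ) : MeasurePreserving (rot t) (P.prod P) (P.prod P) :=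
  r_zip.symm.comp (r_pi (f := fun _ x => ContinuousLinearMap.rotation t x) fun _ =>
    ⟨(ContinuousLinearMap.rotation t).continuous.measurable,
      IsGaussian.map_rotation_eq_self (by simp) t⟩)

end Pool.Agent.MP_c70b3b_mp.Cg

end

section

open MeasureTheory ProbabilityTheory Filter Topology BoundedContinuousFunction
open scoped symmDiff ENNReal

namespace Pool.Agent.MP_c70b3b_mp.Cg

variable {β : ℝ} {κ : Kernel W S} {π : Kernel (W × S) S} {m : ℕ → ℕ}

theorem ibp (e : E) {G G' : W → ℝ} (hG : Measurable G) (hG' : Measurable G') (h2 : MemLp G 2 P)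
    (C : ℝ) (hb : ∀ w, |G' w| ≤ C)
    (hd : ∀ (w : W) (t : ℝ), HasDerivAt (fun s : ℝ => G (w + Pi.single e s))
      (G' (w + Pi.single e t)) t) :
    ∫ w, w e * G w ∂P = ∫ w, G' w ∂P := by
  have hm : ∀ a : ℝ, Measurable fun w : W => w + Pi.single e a := fun a => measurable_add_const _
  have hq : ∀ a : ℝ, Measurable fun w : W => Real.exp (a * w e - a ^ 2 / 2) := fun a => by
    fun_prop
  have key : (fun a : ℝ => ∫ w : W, G (w + Pi.single e a) ∂P)
      = fun a : ℝ => ∫ w : W, Real.exp (a * w e - a ^ 2 / 2) * G w ∂P := by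
    funext a
    rw [← integral_map (hm a).aemeasurable hG.aestronglyMeasurable, shift_formula,
      integral_withDensity_eq_integral_toReal_smul (hq a).ennreal_ofReal
        (Eventually.of_forall fun w => ENNReal.ofReal_lt_top)]
    simp only [ENNReal.toReal_ofReal (Real.exp_pos _).le, smul_eq_mul]
  have i1 : Integrable G P := h2.integrable (by norm_num)
  have d1 := (hasDerivAt_integral_of_dominated_loc_of_deriv_le (μ := P)
    (F := fun (a : ℝ) (w : W) => G (w + Pi.single e a))
    (F' := fun (a : ℝ) (w : W) => G' (w + Pi.single e a)) (x₀ := 0) (bound := fun _ => C)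
    (Metric.ball_mem_nhds 0 one_pos)
    (Eventually.of_forall fun a : ℝ => by exact (hG.comp (hm a)).aestronglyMeasurable) (by simpa using i1)
    (by exact (hG'.comp (hm 0)).aestronglyMeasurable) (Eventually.of_forall fun w a _ => hb _)
    (integrable_const C) (Eventually.of_forall fun w a _ => hd w a)).2
  have ie : ∀ t : ℝ, Integrable (fun w : W => Real.exp (t * w e)) P := fun t =>
    (mp_eval e).integrable_comp_of_integrable (integrable_exp_mul_gaussianReal t)
  have d2 := (hasDerivAt_integral_of_dominated_loc_of_deriv_le (μ := P)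
    (F := fun (a : ℝ) (w : W) => Real.exp (a * w e - a ^ 2 / 2) * G w)
    (F' := fun (a : ℝ) (w : W) => Real.exp (a * w e - a ^ 2 / 2) * (w e - a) * G w) (x₀ := 0)
    (bound := fun w => G w ^ 2 + (Real.exp (4 * w e) + Real.exp (-4 * w e)))
    (Metric.ball_mem_nhds 0 one_pos)
    (Eventually.of_forall fun a => ((hq a).mul hG).aestronglyMeasurable) (by simpa using i1)
    (Measurable.aestronglyMeasurable (by fun_prop))
    (Eventually.of_forall fun w a ha => by
      have a1 : |a| < 1 := by simpa using ha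
      have b1 : Real.exp (a * w e - a ^ 2 / 2) ≤ Real.exp |w e| := by
        refine Real.exp_le_exp.2 ?_
        have := le_abs_self (a * w e)
        rw [abs_mul] at this
        nlinarith [abs_nonneg (w e), sq_nonneg a]
      have b2 : |w e - a| ≤ Real.exp |w e| :=
        (abs_sub _ _).trans (by linarith [Real.add_one_le_exp |w e|])
      have b3 : (Real.exp |w e| * Real.exp |w e|) ^ 2
          ≤ Real.exp (4 * w e) + Real.exp (-4 * w e) := by
        rw [← Real.exp_add, ← Real.exp_nat_mul]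
        rcases abs_cases (w e) with h | h <;> rw [h.1]
        · exact le_add_of_le_of_nonneg (le_of_eq (by congr 1; push_cast; ring)) (Real.exp_pos _).le
        · exact le_add_of_nonneg_of_le (Real.exp_pos _).le (le_of_eq (by congr 1; push_cast; ring))
      rw [Real.norm_eq_abs, abs_mul, abs_mul, abs_of_pos (Real.exp_pos _)]
      have b4 := mul_le_mul b1 b2 (abs_nonneg _) (Real.exp_pos _).le
      have b5 := mul_le_mul_of_nonneg_right b4 (abs_nonneg (G w))
      rw [← sq_abs (G w)]
      nlinarith [sq_nonneg (Real.exp |w e| * Real.exp |w e| - |G w|), sq_nonneg |G w|])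
    (h2.integrable_sq.add ((ie 4).add (ie (-4))))
    (Eventually.of_forall fun w a _ => by
      have h1 : HasDerivAt (fun a : ℝ => a * w e - a ^ 2 / 2) (w e - a) a :=
        (((hasDerivAt_id' a).mul_const (w e)).fun_sub
          ((hasDerivAt_pow 2 a).div_const 2)).congr_deriv (by simp)
      exact h1.exp.mul_const (G w))).2
  rw [← key] at d2
  simpa using d2.unique d1

end Pool.Agent.MP_c70b3b_mp.Cg

end

section

open MeasureTheory ProbabilityTheory Filter Topology BoundedContinuousFunction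
open scoped symmDiff ENNReal

namespace Pool.Agent.MP_c70b3b_mp.Cg

variable {β : ℝ} {κ : Kernel W S} {π : Kernel (W × S) S} {m : ℕ → ℕ}

/-- The bilinears of the corners `(x, p)`, `(y, q)` agree. -/
def f2Z (K : W) (μ μ' : Measure S) (x p y q : V) : Prop :=
  kc K μ x y (pth p q) = kc K μ' x y (pth p q)

lemma f2_iff {K : W} {μ μ' : Measure S} (h : Gibbs K μ) (h' : Gibbs K μ') {x p y q : V}
    {G : Finset E} (hG : ∀ r, fbd G r = dl p r + dl q r) :
    f2Z K μ μ' x p y q ↔ kc K μ x y G - kc K μ' x y G = 0 := by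
  have := abs_kc_indep h h' x y (G := pth p q) (G' := G) fun r => by rw [fbd_pth, hG]
  rw [f2Z, ← sub_eq_zero, ← abs_eq_zero, this, abs_eq_zero]

lemma f2_symm {K : W} {μ μ' : Measure S} (h : Gibbs K μ) (h' : Gibbs K μ') {x p y q : V}
    (hz : f2Z K μ μ' x p y q) : f2Z K μ μ' y q x p := by
  have hc : ∀ (ν : Measure S) (x y : V) (G : Finset E), kc K ν x y G = kc K ν y x G :=
    fun ν x y G => by
      unfold kc
      refine integral_congr_ae (Eventually.of_forall fun σ => ?_)
      ring
  rw [f2_iff h h' (G := pth p q) fun r => by rw [fbd_pth, add_comm], hc μ, hc μ', sub_eq_zero]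
  exact hz

lemma f2_edge {K : W} (hK : ∀ e, K e ≠ 0) {μ μ' : Measure S} (h : Gibbs K μ) (h' : Gibbs K μ')
    (e : E) (y q : V)
    (hz : f2Z K μ μ' e.1 (fA e) y q ∧ f2Z K μ μ' (tip e) (fA e) y q ∨
      f2Z K μ μ' e.1 (fA e) y q ∧ f2Z K μ μ' e.1 (fB e) y q ∨
      f2Z K μ μ' (tip e) (fA e) y q ∧ f2Z K μ μ' (tip e) (fB e) y q ∨
      f2Z K μ μ' e.1 (fB e) y q ∧ f2Z K μ μ' (tip e) (fB e) y q) :
    f2Z K μ μ' e.1 (fA e) y q ∧ f2Z K μ μ' (tip e) (fA e) y q ∧
      f2Z K μ μ' e.1 (fB e) y q ∧ f2Z K μ μ' (tip e) (fB e) y q := by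
  have := h.1
  have := h'.1
  have h2 : ∀ a b c : ZMod 2, a + c + (a + b) = b + c := by decide
  have hG := fbd_pth (fA e) q
  have hG' : ∀ r, fbd (pth (fA e) q ∆ {e}) r = dl (fB e) r + dl q r := fun r => by
    rw [fbd_symmDiff, hG, fbd_singleton, h2]
  rw [f2_iff h h' hG, f2_iff h h' hG, f2_iff h h' hG', f2_iff h h' hG'] at hz ⊢
  have hsh : Real.sinh (2 * K e) ≠ 0 := by
    rw [Ne, Real.sinh_eq_zero]
    exact mul_ne_zero two_ne_zero (hK e)
  refine (towerloc_alg (c := Real.cosh (2 * K e))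
    (s := (if e ∈ pth (fA e) q then -1 else 1) * Real.sinh (2 * K e)) (Real.cosh_pos _).ne'
    ?_ ?_ ?_ ?_).2.2.2.2 (by tauto)
  · split_ifs <;> simpa using hsh
  · rw [Real.cosh_sq]; split_ifs <;> ring
  · rw [towerloc_edge K μ _ _ (Or.inl ⟨rfl, rfl⟩), towerloc_edge K μ' _ _ (Or.inl ⟨rfl, rfl⟩)]
    ring
  · rw [towerloc_edge K μ _ _ (Or.inr ⟨rfl, rfl⟩), towerloc_edge K μ' _ _ (Or.inr ⟨rfl, rfl⟩)]
    ring

lemma f2_prop (Z : V → V → Prop)
    (hE : ∀ e : E, Z e.1 (fA e) ∧ Z (tip e) (fA e) ∨ Z e.1 (fA e) ∧ Z e.1 (fB e) ∨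
      Z (tip e) (fA e) ∧ Z (tip e) (fB e) ∨ Z e.1 (fB e) ∧ Z (tip e) (fB e) →
      Z e.1 (fA e) ∧ Z (tip e) (fA e) ∧ Z e.1 (fB e) ∧ Z (tip e) (fB e))
    (h0 : ∀ i : ℤ, Z (i, 0) (i, 0) ∧ Z (i, 0) (i - 1, 0)) {x p : V} (hx : Corner x p) :
    Z x p := by
  have hH : ∀ i y : ℤ, Z (i, y) (i, y) ∧ Z (i + 1, y) (i, y) ∨
      Z (i, y) (i, y - 1) ∧ Z (i + 1, y) (i, y - 1) →
      Z (i, y) (i, y) ∧ Z (i + 1, y) (i, y) ∧ Z (i, y) (i, y - 1) ∧ Z (i + 1, y) (i, y - 1) := by
    intro i y hz
    have := hE ((i, y), false)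
    simp only [tip, fA, fB, Bool.false_eq_true, if_false, Prod.mk_sub_mk, Prod.mk_add_mk,
      sub_zero, add_zero] at this
    tauto
  have hV : ∀ i y : ℤ, Z (i, y) (i, y) ∧ Z (i, y) (i - 1, y) ∨
      Z (i, y + 1) (i, y) ∧ Z (i, y + 1) (i - 1, y) →
      Z (i, y) (i, y) ∧ Z (i, y + 1) (i, y) ∧ Z (i, y) (i - 1, y) ∧ Z (i, y + 1) (i - 1, y) := by
    intro i y hz
    have := hE ((i, y), true)
    simp only [tip, fA, fB, if_true, Prod.mk_sub_mk, Prod.mk_add_mk, sub_zero, add_zero] at this
    tauto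
  have UL : ∀ y : ℤ, (∀ i : ℤ, Z (i, y) (i, y) ∧ Z (i, y) (i - 1, y)) ↔
      ∀ i : ℤ, Z (i, y) (i, y - 1) ∧ Z (i, y) (i - 1, y - 1) := fun y => by
    constructor
    · intro u i
      have a := hH i y (Or.inl ⟨(u i).1, by simpa using (u (i + 1)).2⟩)
      have b := hH (i - 1) y (Or.inl ⟨(u (i - 1)).1, by simpa using (u i).2⟩)
      exact ⟨a.2.2.1, by simpa using b.2.2.2⟩
    · intro u i
      have a := hH i y (Or.inr ⟨(u i).1, by simpa using (u (i + 1)).2⟩)
      have b := hH (i - 1) y (Or.inr ⟨(u (i - 1)).1, by simpa using (u i).2⟩)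
      exact ⟨a.1, by simpa using b.2.1⟩
  have UU : ∀ y : ℤ, (∀ i : ℤ, Z (i, y) (i, y) ∧ Z (i, y) (i - 1, y)) ↔
      ∀ i : ℤ, Z (i, y + 1) (i, y + 1) ∧ Z (i, y + 1) (i - 1, y + 1) := fun y => by
    rw [UL (y + 1), add_sub_cancel_right]
    constructor
    · intro u i
      have a := hV i y (Or.inl (u i))
      exact ⟨a.2.1, a.2.2.2⟩
    · intro u i
      have a := hV i y (Or.inr (u i))
      exact ⟨a.1, a.2.2.1⟩
  have U : ∀ y : ℤ, ∀ i : ℤ, Z (i, y) (i, y) ∧ Z (i, y) (i - 1, y) := fun y => by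
    induction y using Int.induction_on with
    | zero => exact h0
    | succ k ih => exact (UU k).1 ih
    | pred k ih => exact (UU _).2 (by rwa [sub_add_cancel])
  obtain ⟨i, y⟩ := x
  rcases hx with rfl | rfl | rfl | rfl
  · exact (U y i).1
  · simpa using (U y i).2
  · simpa using ((UL y).1 (U y) i).1
  · simpa using ((UL y).1 (U y) i).2

lemma f2_range (z : V) (n : ℕ) (r : V) :
    fbd (rE z (Finset.range n)) r = dl (z - (1, 0)) r + dl (rV z n - (1, 0)) r := by
  have hi : Function.Injective fun k : ℕ => ((rV z k, true) : E) := fun a b hab => by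
    simpa [rV] using hab
  rw [fbd, rE, Finset.sum_image fun a _ b _ hab => hi hab]
  have := glue_tel (fun k => dl (rV z k - (1, 0)) r) n
  have e0 : rV z 0 = z := by simp [rV]
  simp only [e0] at this
  rw [← this]
  refine Finset.sum_congr rfl fun k _ => ?_
  have e1 : rV z (k + 1) - (1, 0) = rV z k := by
    simp [rV, Prod.ext_iff]
    ring
  rw [e1, add_comm]
  simp [fA, fB]

lemma f2_fbd (z : V) (a b : Ix) (r : V) :
    fbd (rE z (rS a ∆ rS b)) r =
      dl (if a.2 then rV z a.1 else rV z a.1 - (1, 0)) r +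
        dl (if b.2 then rV z b.1 else rV z b.1 - (1, 0)) r := by
  have hi : Function.Injective fun k : ℕ => ((rV z k, true) : E) := fun a b hab => by
    simpa [rV] using hab
  have e1 : ∀ k : ℕ, rV z (k + 1) - (1, 0) = rV z k := fun k => by
    simp [rV, Prod.ext_iff]
    ring
  have e2 : ∀ c : Ix, fbd (rE z (rS c)) r =
      dl (z - (1, 0)) r + dl (if c.2 then rV z c.1 else rV z c.1 - (1, 0)) r := fun c => by
    rw [rS, f2_range]
    split_ifs
    · rw [e1]
    · rfl
  have h2 : ∀ a b c : ZMod 2, c + a + (c + b) = a + b := by decide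
  have e3 : rE z (rS a ∆ rS b) = rE z (rS a) ∆ rE z (rS b) := Finset.image_symmDiff _ _ hi
  rw [e3, fbd_symmDiff, e2, e2, h2]

lemma f2_base {K : W} {μ μ' : Measure S} (h : Gibbs K μ) (h' : Gibbs K μ')
    (hr : ∀ (r : ℕ) (a b : Ix), a.1 < 2 * r → b.1 < 2 * r →
      rA K μ (-(r : ℤ), 0) a b = rA K μ' (-(r : ℤ), 0) a b) (i j : ℤ) (c d : Bool) :
    f2Z K μ μ' (i, 0) (if c then (i, 0) else (i - 1, 0)) (j, 0)
      (if d then (j, 0) else (j - 1, 0)) := by
  obtain ⟨r, hi, hj⟩ : ∃ r : ℕ, |i| < r ∧ |j| < r :=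
    ⟨i.natAbs + j.natAbs + 1, by push_cast; linarith [abs_nonneg j],
      by push_cast; linarith [abs_nonneg i]⟩
  rw [abs_lt] at hi hj
  have ei : rV (-(r : ℤ), 0) (i + r).toNat = (i, 0) := by
    simp only [rV, Prod.mk_add_mk, Prod.mk.injEq]; omega
  have ej : rV (-(r : ℤ), 0) (j + r).toNat = (j, 0) := by
    simp only [rV, Prod.mk_add_mk, Prod.mk.injEq]; omega
  have h1 := hr r ((i + r).toNat, c) ((j + r).toNat, d) (by simp only; omega)
    (by simp only; omega)
  have hG := f2_fbd (-(r : ℤ), 0) ((i + r).toNat, c) ((j + r).toNat, d)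
  simp only [ei, ej, Prod.mk_sub_mk, sub_zero] at hG
  rw [f2_iff h h' hG, sub_eq_zero]
  have hs : rsg ((i + r).toNat, c) ((j + r).toNat, d) ≠ 0 := by
    unfold rsg; split_ifs <;> norm_num
  have h3 := mul_left_cancel₀ hs h1
  simpa only [rO, ei, ej, mu, kc] using h3

theorem row_prop {K : W} (hK : ∀ e, K e ≠ 0) {μ μ' : Measure S} (h : Gibbs K μ) (h' : Gibbs K μ')
    (hr : ∀ (r : ℕ) (a b : Ix), a.1 < 2 * r → b.1 < 2 * r →
      rA K μ (-(r : ℤ), 0) a b = rA K μ' (-(r : ℤ), 0) a b) : KCeq K μ μ' := by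
  have s1 : ∀ (j : ℤ) (d : Bool) (x p : V), Corner x p →
      f2Z K μ μ' x p (j, 0) (if d then (j, 0) else (j - 1, 0)) := fun j d x p hx =>
    f2_prop (fun x p => f2Z K μ μ' x p (j, 0) (if d then (j, 0) else (j - 1, 0)))
      (fun e => f2_edge hK h h' e _ _)
      (fun i => ⟨f2_base h h' hr i j true d, f2_base h h' hr i j false d⟩) hx
  intro x p y q G hx hy hG
  rw [← sub_eq_zero, ← f2_iff h h' hG]
  refine f2_symm h h' (f2_prop (fun y q => f2Z K μ μ' y q x p)
    (fun e => f2_edge hK h h' e _ _)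
    (fun j => ⟨f2_symm h h' (s1 j true x p hx), f2_symm h h' (s1 j false x p hx)⟩) hy)

end Pool.Agent.MP_c70b3b_mp.Cg

end
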